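import Pool.Agent.Helper98.FC.Coin

/-!
# Adjacent circuits of different sign: one of them can be flipped
-/

namespace Pool.Agent.Helper98.FC

universe u v

variable {V : Type u} {W : Type v} {T : Tour V} {T' : Tour W}

theorem adj_flip {φ : Phi T T'} (hU : φ.Unt) {u v x y s t : V} (hC : T.C4 u v x y) (hD : T.C4 u v s t)
    (hP : φ.P u v x) (hN : φ.N u v s) : T.Flip u v x y ∨ T.Flip u v s t := by
  obtain ⟨u', v', fuv⟩ : ∃ u' v', φ.f (u, v) = (u', v') := ⟨_, _, rfl⟩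
  obtain ⟨x1, fvx⟩ : ∃ x1, φ.f (v, x) = (v', x1) := by
    unfold Phi.P at hP
    rw [fuv] at hP
    exact ⟨(φ.f (v, x)).2, Prod.ext hP.symm rfl⟩
  obtain ⟨q, fvs⟩ : ∃ q, φ.f (v, s) = (q, u') := by
    unfold Phi.N at hN
    rw [fuv] at hN
    exact ⟨(φ.f (v, s)).1, Prod.ext rfl hN⟩
  obtain ⟨y1, fxy, fyu, D1⟩ := hU.pimg hC fuv fvx
  obtain ⟨p, fst, ftu, D2⟩ := hU.nimg hD fuv fvs
  have nC := hC.nes
  have nD := hD.nes
  have n1 := D1.nes
  have n2 := D2.nes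
  by_cases e1 : s = y
  · subst e1
    have h : Coin φ u v x s t u' v' x1 y1 p q := ⟨hC, hD, fuv, fvx, fxy, fyu, ftu, fst, fvs⟩
    exact h.main hU
  by_cases e2 : t = x
  · subst e2
    have h : Coin φ.conv v u y t s v' u' y1 x1 q p := by
      refine ⟨(Tour.conv_C4 _ _ _ _ _).2 hC.rot.rot, (Tour.conv_C4 _ _ _ _ _).2 hD.rot.rot, ?_, ?_, ?_, ?_, ?_, ?_, ?_⟩
      all_goals simp [fuv, fvx, fxy, fyu, fst, ftu, fvs]
    rcases h.main hU.conv with r | r
    · exact Or.inl (conv_flip r)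
    · exact Or.inr (conv_flip r)
  have e3 : s ≠ x := by
    rintro rfl
    rw [fvx] at fvs
    grind
  have e4 : t ≠ y := by
    rintro rfl
    rw [fyu] at ftu
    grind
  have tx : T.R t x := by
    apply T.of_not (Ne.symm e2)
    intro hh
    have hE : T.C4 u v x t := ⟨hC.1, hC.2.1, hh, hD.2.2.2⟩
    have := φ.tail_eq hE.co24 (by rw [fvx, ftu])
    grind
  have ys : T.R y s := by
    apply T.of_not e1
    intro hh
    have hE : T.C4 u v s y := ⟨hC.1, hD.2.1, hh, hC.2.2.2⟩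
    have := φ.head_eq hE.co24 (by rw [fvs, fyu])
    grind
  have hE : T.C4 x y s t := ⟨hC.2.2.1, ys, hD.2.2.1, tx⟩
  obtain ⟨D3, r | r⟩ := hU.opp2 hE fxy fst
  · have h : Prism φ u v s t x y u' v' p q x1 y1 := by
      refine ⟨hC.1, hD.2.2.1, hC.2.2.1, hD.2.1, hD.2.2.2, hC.2.1, hC.2.2.2, tx, ys, ?_, ?_, ?_, ?_, ?_, ?_, ?_, ?_, ?_⟩
      all_goals simp [fuv, fvx, fxy, fyu, fst, ftu, fvs, r.1, r.2]
    rcases h.claimS hU with k | k
    · exact Or.inr k
    · exact Or.inl k.1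
  · have h : Prism φ.convR u v x y s t v' u' y1 x1 q p := by
      refine ⟨hC.1, hC.2.2.1, hD.2.2.1, hC.2.1, hC.2.2.2, hD.2.1, hD.2.2.2, ys, tx, ?_, ?_, ?_, ?_, ?_, ?_, ?_, ?_, ?_⟩
      all_goals simp [fuv, fvx, fxy, fyu, fst, ftu, fvs, r.1, r.2]
    rcases h.claimS hU.convR with k | k
    · exact Or.inl k
    · exact Or.inr k.1

/-- the sign is the same on adjacent non-flippable circuits -/
theorem adj {φ : Phi T T'} (hU : φ.Unt) {a b c d c' d' : V} (h : T.NF a b c d) (h' : T.NF a b c' d') :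
    φ.P a b c ↔ φ.P a b c' := by
  have key : ∀ {c d c' d' : V}, T.NF a b c d → T.NF a b c' d' → φ.P a b c → φ.P a b c' := by
    intro c d c' d' h h' hP
    by_contra hn
    rcases adj_flip hU h.1 h'.1 hP ((hU.not_P h'.1).1 hn) with r | r
    · exact h.2.1 r
    · exact h'.2.1 r
  exact ⟨key h h', key h' h⟩

end Pool.Agent.Helper98.FC
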