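import Pool.Agent.Helper98.FC.Gamma

/-!
# FC-U: two tournaments on the same `n ≥ 6` vertices with the same 4-circuits, one of them strong, are equal (helper94)
-/

set_option linter.unusedSimpArgs false

namespace Pool.Agent.Helper98.FC

universe u v

variable {V : Type u}

private def u94_allB (f : Bool → Bool) : Bool := f true && f false

private theorem u94_allB_iff {f : Bool → Bool} (h : u94_allB f = true) (b : Bool) : f b = true := by
  unfold u94_allB at h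
  rw [Bool.and_eq_true] at h
  cases b
  · exact h.2
  · exact h.1

private def u94_A1 (x1 x2 x3 x4 x5 x6 y1 y2 y3 y4 y5 y6 : Bool) : Bool :=
  (((!x3) && x1) == ((!y3) && y1)) &&
    (((!x2) && x3 && (!x5)) == ((!y2) && y3 && (!y5))) &&
    (((!x1) && x2 && (!x5)) == ((!y1) && y2 && (!y5))) &&
    ((x6 && (!x4) && x1) == (y6 && (!y4) && y1)) &&
    (((!x2) && x4) == ((!y2) && y4)) &&
    (((!x1) && x2 && x6) == ((!y1) && y2 && y6)) &&
    ((x5 && (!x4) && x1) == (y5 && (!y4) && y1)) &&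
    ((x5 && (!x3) && x4) == (y5 && (!y3) && y4)) &&
    (((!x1) && x3) == ((!y1) && y3)) &&
    (((!x4) && x2) == ((!y4) && y2)) &&
    (((!x3) && x4 && (!x6)) == ((!y3) && y4 && (!y6))) &&
    (((!x2) && x3 && (!x6)) == ((!y2) && y3 && (!y6))) &&
    !(x1 && x2 && x3 && x4) && (x1 || x2 || x3 || x4)

private def u94_B1 (x1 x2 x3 x4 x5 x6 y1 y2 y3 y4 y5 y6 : Bool) : Bool :=
    ((x1 == y1) && (x2 == y2) && (x3 == y3) && (x4 == y4) && (x5 == y5) && (x6 == y6)) ||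
    (!x3 && x1 && !x5 && !x6 && !x2 && !x4 && !y3 && y1 && !y5 && y6 && y2 && y4) ||
    (!x3 && x1 && !x5 && x2 && x6 && x4 && !y3 && y1 && !y5 && !y2 && !y6 && !y4) ||
    (!x4 && x2 && !x6 && x5 && !x3 && !x1 && !y4 && y2 && !y6 && !y5 && y3 && y1) ||
    (!x4 && x2 && !x6 && x3 && !x5 && x1 && !y4 && y2 && !y6 && !y3 && y5 && !y1) ||
    (!x1 && x3 && x5 && x6 && !x4 && !x2 && !y1 && y3 && y5 && !y6 && y4 && y2) ||
    (!x1 && x3 && x5 && x4 && !x6 && x2 && !y1 && y3 && y5 && !y4 && y6 && !y2) ||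
    (!x2 && x4 && x6 && !x5 && !x1 && !x3 && !y2 && y4 && y6 && y5 && y1 && y3) ||
    (!x2 && x4 && x6 && x1 && x5 && x3 && !y2 && y4 && y6 && !y1 && !y5 && !y3)

private theorem u94_chk1a : (u94_allB fun x1 => (u94_allB fun x2 => (u94_allB fun x3 => (u94_allB fun x4 => (u94_allB fun x5 => (u94_allB fun x6 => (u94_allB fun y1 => (u94_allB fun y2 => (u94_allB fun y3 => (u94_allB fun y4 => (u94_allB fun y5 => (u94_allB fun y6 => (!u94_A1 x1 x2 x3 x4 x5 x6 y1 y2 y3 y4 y5 y6 || u94_B1 x1 x2 x3 x4 x5 x6 y1 y2 y3 y4 y5 y6))))))))))))) = true := by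
  decide +kernel

private theorem u94_chk1b (x1 x2 x3 x4 x5 x6 y1 y2 y3 y4 y5 y6 : Bool) : (!u94_A1 x1 x2 x3 x4 x5 x6 y1 y2 y3 y4 y5 y6 || u94_B1 x1 x2 x3 x4 x5 x6 y1 y2 y3 y4 y5 y6) = true := by
  have h := u94_chk1a
  replace h := u94_allB_iff h x1
  replace h := u94_allB_iff h x2
  replace h := u94_allB_iff h x3
  replace h := u94_allB_iff h x4
  replace h := u94_allB_iff h x5
  replace h := u94_allB_iff h x6
  replace h := u94_allB_iff h y1
  replace h := u94_allB_iff h y2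
  replace h := u94_allB_iff h y3
  replace h := u94_allB_iff h y4
  replace h := u94_allB_iff h y5
  replace h := u94_allB_iff h y6
  exact h

private theorem u94_chk1 (x1 x2 x3 x4 x5 x6 y1 y2 y3 y4 y5 y6 : Bool)
    (e0 : ((!x3) && x1) = ((!y3) && y1))
    (e1 : ((!x2) && x3 && (!x5)) = ((!y2) && y3 && (!y5)))
    (e2 : ((!x1) && x2 && (!x5)) = ((!y1) && y2 && (!y5)))
    (e3 : (x6 && (!x4) && x1) = (y6 && (!y4) && y1))
    (e4 : ((!x2) && x4) = ((!y2) && y4))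
    (e5 : ((!x1) && x2 && x6) = ((!y1) && y2 && y6))
    (e6 : (x5 && (!x4) && x1) = (y5 && (!y4) && y1))
    (e7 : (x5 && (!x3) && x4) = (y5 && (!y3) && y4))
    (e8 : ((!x1) && x3) = ((!y1) && y3))
    (e9 : ((!x4) && x2) = ((!y4) && y2))
    (e10 : ((!x3) && x4 && (!x6)) = ((!y3) && y4 && (!y6)))
    (e11 : ((!x2) && x3 && (!x6)) = ((!y2) && y3 && (!y6)))
    (f1 : (x1 && x2 && x3 && x4) = false) (f2 : (x1 || x2 || x3 || x4) = true) :
    (x1 = y1 ∧ x2 = y2 ∧ x3 = y3 ∧ x4 = y4 ∧ x5 = y5 ∧ x6 = y6) ∨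
    (x3 = false ∧ x1 = true ∧ x5 = false ∧ x6 = false ∧ x2 = false ∧ x4 = false ∧ y3 = false ∧ y1 = true ∧ y5 = false ∧ y6 = true ∧ y2 = true ∧ y4 = true) ∨
    (x3 = false ∧ x1 = true ∧ x5 = false ∧ x2 = true ∧ x6 = true ∧ x4 = true ∧ y3 = false ∧ y1 = true ∧ y5 = false ∧ y2 = false ∧ y6 = false ∧ y4 = false) ∨
    (x4 = false ∧ x2 = true ∧ x6 = false ∧ x5 = true ∧ x3 = false ∧ x1 = false ∧ y4 = false ∧ y2 = true ∧ y6 = false ∧ y5 = false ∧ y3 = true ∧ y1 = true) ∨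
    (x4 = false ∧ x2 = true ∧ x6 = false ∧ x3 = true ∧ x5 = false ∧ x1 = true ∧ y4 = false ∧ y2 = true ∧ y6 = false ∧ y3 = false ∧ y5 = true ∧ y1 = false) ∨
    (x1 = false ∧ x3 = true ∧ x5 = true ∧ x6 = true ∧ x4 = false ∧ x2 = false ∧ y1 = false ∧ y3 = true ∧ y5 = true ∧ y6 = false ∧ y4 = true ∧ y2 = true) ∨
    (x1 = false ∧ x3 = true ∧ x5 = true ∧ x4 = true ∧ x6 = false ∧ x2 = true ∧ y1 = false ∧ y3 = true ∧ y5 = true ∧ y4 = false ∧ y6 = true ∧ y2 = false) ∨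
    (x2 = false ∧ x4 = true ∧ x6 = true ∧ x5 = false ∧ x1 = false ∧ x3 = false ∧ y2 = false ∧ y4 = true ∧ y6 = true ∧ y5 = true ∧ y1 = true ∧ y3 = true) ∨
    (x2 = false ∧ x4 = true ∧ x6 = true ∧ x1 = true ∧ x5 = true ∧ x3 = true ∧ y2 = false ∧ y4 = true ∧ y6 = true ∧ y1 = false ∧ y5 = false ∧ y3 = false) := by
  have h := u94_chk1b x1 x2 x3 x4 x5 x6 y1 y2 y3 y4 y5 y6
  have hA : u94_A1 x1 x2 x3 x4 x5 x6 y1 y2 y3 y4 y5 y6 = true := by
    unfold u94_A1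
    rw [f2, f1]
    simp only [Bool.and_true, Bool.not_false, Bool.and_eq_true, beq_iff_eq, and_assoc]
    exact ⟨e0, e1, e2, e3, e4, e5, e6, e7, e8, e9, e10, e11⟩
  rw [hA, Bool.not_true, Bool.false_or] at h
  unfold u94_B1 at h
  simp only [Bool.or_eq_true, Bool.and_eq_true, beq_iff_eq, Bool.not_eq_true', and_assoc, or_assoc] at h
  exact h

private def u94_A2 (x1 x2 x3 x4 x5 y1 y2 y3 y4 y5 : Bool) : Bool :=
  ((x1 && (!x3)) == (y1 && (!y3))) &&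
    ((x2 && (!x1)) == (y2 && (!y1))) &&
    ((x3 && (!x2)) == (y3 && (!y2))) &&
    (false == (y1 && (!y4))) &&
    (false == (y2 && (!y1))) &&
    ((x4 && (!x2)) == (y4 && (!y2))) &&
    ((x1 && (!x5)) == false) &&
    ((x2 && (!x1)) == false) &&
    ((x5 && (!x2)) == (y5 && (!y2))) &&
    ((x3 && (!x1)) == (y3 && (!y1))) &&
    ((x3 && (!x1)) == (y3 && (!y1))) &&
    ((x4 && (!x1)) == false) &&
    (false == (y5 && (!y1))) &&
    ((x2 && (!x4)) == (y2 && (!y4))) &&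
    ((x3 && (!x2)) == false) &&
    ((x4 && (!x3)) == false) &&
    ((x2 && (!x5)) == (y2 && (!y5))) &&
    (false == (y3 && (!y2))) &&
    (false == (y5 && (!y3))) &&
    ((x4 && (!x5)) == false) &&
    (false == (y5 && (!y4))) &&
    ((x3 && (!x5)) == false) &&
    (false == (y3 && (!y4)))

private theorem u94_chk2a : (u94_allB fun x1 => (u94_allB fun x2 => (u94_allB fun x3 => (u94_allB fun x4 => (u94_allB fun x5 => (u94_allB fun y1 => (u94_allB fun y2 => (u94_allB fun y3 => (u94_allB fun y4 => (u94_allB fun y5 => (!u94_A2 x1 x2 x3 x4 x5 y1 y2 y3 y4 y5 || ((x1 && x2 && x3 && x4 && x5) || !(x1 || x2 || x3 || x4 || x5))))))))))))) = true := by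
  decide +kernel

private theorem u94_chk2 (x1 x2 x3 x4 x5 y1 y2 y3 y4 y5 : Bool)
    (e0 : (x1 && (!x3)) = (y1 && (!y3)))
    (e1 : (x2 && (!x1)) = (y2 && (!y1)))
    (e2 : (x3 && (!x2)) = (y3 && (!y2)))
    (e3 : false = (y1 && (!y4)))
    (e4 : false = (y2 && (!y1)))
    (e5 : (x4 && (!x2)) = (y4 && (!y2)))
    (e6 : (x1 && (!x5)) = false)
    (e7 : (x2 && (!x1)) = false)
    (e8 : (x5 && (!x2)) = (y5 && (!y2)))
    (e9 : (x3 && (!x1)) = (y3 && (!y1)))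
    (e10 : (x3 && (!x1)) = (y3 && (!y1)))
    (e11 : (x4 && (!x1)) = false)
    (e12 : false = (y5 && (!y1)))
    (e13 : (x2 && (!x4)) = (y2 && (!y4)))
    (e14 : (x3 && (!x2)) = false)
    (e15 : (x4 && (!x3)) = false)
    (e16 : (x2 && (!x5)) = (y2 && (!y5)))
    (e17 : false = (y3 && (!y2)))
    (e18 : false = (y5 && (!y3)))
    (e19 : (x4 && (!x5)) = false)
    (e20 : false = (y5 && (!y4)))
    (e21 : (x3 && (!x5)) = false)
    (e22 : false = (y3 && (!y4)))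
    : (x1 && x2 && x3 && x4 && x5) = true ∨ (x1 || x2 || x3 || x4 || x5) = false := by
  have h := u94_chk2a
  replace h := u94_allB_iff h x1
  replace h := u94_allB_iff h x2
  replace h := u94_allB_iff h x3
  replace h := u94_allB_iff h x4
  replace h := u94_allB_iff h x5
  replace h := u94_allB_iff h y1
  replace h := u94_allB_iff h y2
  replace h := u94_allB_iff h y3
  replace h := u94_allB_iff h y4
  replace h := u94_allB_iff h y5
  have hA : u94_A2 x1 x2 x3 x4 x5 y1 y2 y3 y4 y5 = true := by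
    unfold u94_A2
    simp only [Bool.and_eq_true, beq_iff_eq, and_assoc]
    exact ⟨e0, e1, e2, e3, e4, e5, e6, e7, e8, e9, e10, e11, e12, e13, e14, e15, e16, e17, e18, e19, e20, e21, e22⟩
  rw [hA, Bool.not_true, Bool.false_or, Bool.or_eq_true, Bool.not_eq_true'] at h
  exact h

namespace Tour

private theorem u94_bit (T : Tour V) {a b : V} (h : a ≠ b) :
    ∃ x : Bool, (T.R a b ↔ x = true) ∧ (T.R b a ↔ x = false) := by
  classical
  refine ⟨decide (T.R a b), by simp, ?_⟩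
  simp only [decide_eq_false_iff_not]
  exact ⟨fun h1 h2 => T.asym _ _ h1 h2, fun h1 => T.of_not h h1⟩

private theorem u94_fix (T : Tour V) {a b : V} (h : T.R a b) : (T.R a b ↔ True) ∧ (T.R b a ↔ False) :=
  ⟨iff_true_intro h, iff_false_intro (T.asym _ _ h)⟩

/-- the exceptional pattern on five vertices -/
private structure U94Exc (T T' : Tour V) (p q r s t : V) : Prop where
  pq : T.R p q
  qr : T.R q r
  rs : T.R r s
  sp : T.R s p
  rt : T.R r t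
  tp : T.R t p
  rp : T.R r p
  sq : T.R s q
  qt : T.R q t
  st : T.R s t
  pq' : T'.R p q
  qr' : T'.R q r
  rs' : T'.R r s
  sp' : T'.R s p
  rt' : T'.R r t
  tp' : T'.R t p
  rp' : T'.R r p
  qs' : T'.R q s
  tq' : T'.R t q
  ts' : T'.R t s

private theorem u94_E1 {T T' : Tour V} (h : ∀ a b c d, T.C4 a b c d ↔ T'.C4 a b c d) {a b c d z : V}
    (hC : T.C4 a b c d) (hza : z ≠ a) (hzb : z ≠ b) (hzc : z ≠ c) (hzd : z ≠ d)
    (hm1 : ¬ (T.R z a ∧ T.R z b ∧ T.R z c ∧ T.R z d)) (hm2 : ¬ (T.R a z ∧ T.R b z ∧ T.R c z ∧ T.R d z)) :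
    ((T.R z a ↔ T'.R z a) ∧ (T.R z b ↔ T'.R z b) ∧ (T.R z c ↔ T'.R z c) ∧ (T.R z d ↔ T'.R z d) ∧
      (T.R a c ↔ T'.R a c) ∧ (T.R b d ↔ T'.R b d)) ∨ ∃ p q r s t, U94Exc T T' p q r s t := by
  have hC' := (h a b c d).1 hC
  obtain ⟨_, hac, _, _, hbd, _⟩ := hC.nes
  obtain ⟨x1, X1, N1⟩ := T.u94_bit hza
  obtain ⟨y1, Y1, M1⟩ := T'.u94_bit hza
  obtain ⟨x2, X2, N2⟩ := T.u94_bit hzb
  obtain ⟨y2, Y2, M2⟩ := T'.u94_bit hzb
  obtain ⟨x3, X3, N3⟩ := T.u94_bit hzc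
  obtain ⟨y3, Y3, M3⟩ := T'.u94_bit hzc
  obtain ⟨x4, X4, N4⟩ := T.u94_bit hzd
  obtain ⟨y4, Y4, M4⟩ := T'.u94_bit hzd
  obtain ⟨x5, X5, N5⟩ := T.u94_bit hac
  obtain ⟨y5, Y5, M5⟩ := T'.u94_bit hac
  obtain ⟨x6, X6, N6⟩ := T.u94_bit hbd
  obtain ⟨y6, Y6, M6⟩ := T'.u94_bit hbd
  obtain ⟨P1, Q1⟩ := T.u94_fix hC.1
  obtain ⟨P1', Q1'⟩ := T'.u94_fix hC'.1
  obtain ⟨P2, Q2⟩ := T.u94_fix hC.2.1
  obtain ⟨P2', Q2'⟩ := T'.u94_fix hC'.2.1
  obtain ⟨P3, Q3⟩ := T.u94_fix hC.2.2.1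
  obtain ⟨P3', Q3'⟩ := T'.u94_fix hC'.2.2.1
  obtain ⟨P4, Q4⟩ := T.u94_fix hC.2.2.2
  obtain ⟨P4', Q4'⟩ := T'.u94_fix hC'.2.2.2
  have E1 : ((!x3) && x1) = ((!y3) && y1) := by
    have H := h a b c z
    simp only [C4, X1, N1, Y1, M1, X2, N2, Y2, M2, X3, N3, Y3, M3, X4, N4, Y4, M4, X5, N5, Y5, M5, X6, N6, Y6, M6, P1, Q1, P1', Q1', P2, Q2, P2', Q2', P3, Q3, P3', Q3', P4, Q4, P4', Q4', true_and, and_true, false_and, and_false, and_assoc] at H
    rw [Bool.eq_iff_iff]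
    simp only [Bool.and_eq_true, Bool.not_eq_true', Bool.false_eq_true, and_assoc]
    exact H
  have E2 : ((!x2) && x3 && (!x5)) = ((!y2) && y3 && (!y5)) := by
    have H := h a b z c
    simp only [C4, X1, N1, Y1, M1, X2, N2, Y2, M2, X3, N3, Y3, M3, X4, N4, Y4, M4, X5, N5, Y5, M5, X6, N6, Y6, M6, P1, Q1, P1', Q1', P2, Q2, P2', Q2', P3, Q3, P3', Q3', P4, Q4, P4', Q4', true_and, and_true, false_and, and_false, and_assoc] at H
    rw [Bool.eq_iff_iff]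
    simp only [Bool.and_eq_true, Bool.not_eq_true', Bool.false_eq_true, and_assoc]
    exact H
  have E3 : ((!x1) && x2 && (!x5)) = ((!y1) && y2 && (!y5)) := by
    have H := h a z b c
    simp only [C4, X1, N1, Y1, M1, X2, N2, Y2, M2, X3, N3, Y3, M3, X4, N4, Y4, M4, X5, N5, Y5, M5, X6, N6, Y6, M6, P1, Q1, P1', Q1', P2, Q2, P2', Q2', P3, Q3, P3', Q3', P4, Q4, P4', Q4', true_and, and_true, false_and, and_false, and_assoc] at H
    rw [Bool.eq_iff_iff]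
    simp only [Bool.and_eq_true, Bool.not_eq_true', Bool.false_eq_true, and_assoc]
    exact H
  have E4 : (x6 && (!x4) && x1) = (y6 && (!y4) && y1) := by
    have H := h a b d z
    simp only [C4, X1, N1, Y1, M1, X2, N2, Y2, M2, X3, N3, Y3, M3, X4, N4, Y4, M4, X5, N5, Y5, M5, X6, N6, Y6, M6, P1, Q1, P1', Q1', P2, Q2, P2', Q2', P3, Q3, P3', Q3', P4, Q4, P4', Q4', true_and, and_true, false_and, and_false, and_assoc] at H
    rw [Bool.eq_iff_iff]
    simp only [Bool.and_eq_true, Bool.not_eq_true', Bool.false_eq_true, and_assoc]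
    exact H
  have E5 : ((!x2) && x4) = ((!y2) && y4) := by
    have H := h a b z d
    simp only [C4, X1, N1, Y1, M1, X2, N2, Y2, M2, X3, N3, Y3, M3, X4, N4, Y4, M4, X5, N5, Y5, M5, X6, N6, Y6, M6, P1, Q1, P1', Q1', P2, Q2, P2', Q2', P3, Q3, P3', Q3', P4, Q4, P4', Q4', true_and, and_true, false_and, and_false, and_assoc] at H
    rw [Bool.eq_iff_iff]
    simp only [Bool.and_eq_true, Bool.not_eq_true', Bool.false_eq_true, and_assoc]
    exact H
  have E6 : ((!x1) && x2 && x6) = ((!y1) && y2 && y6) := by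
    have H := h a z b d
    simp only [C4, X1, N1, Y1, M1, X2, N2, Y2, M2, X3, N3, Y3, M3, X4, N4, Y4, M4, X5, N5, Y5, M5, X6, N6, Y6, M6, P1, Q1, P1', Q1', P2, Q2, P2', Q2', P3, Q3, P3', Q3', P4, Q4, P4', Q4', true_and, and_true, false_and, and_false, and_assoc] at H
    rw [Bool.eq_iff_iff]
    simp only [Bool.and_eq_true, Bool.not_eq_true', Bool.false_eq_true, and_assoc]
    exact H
  have E7 : (x5 && (!x4) && x1) = (y5 && (!y4) && y1) := by
    have H := h a c d z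
    simp only [C4, X1, N1, Y1, M1, X2, N2, Y2, M2, X3, N3, Y3, M3, X4, N4, Y4, M4, X5, N5, Y5, M5, X6, N6, Y6, M6, P1, Q1, P1', Q1', P2, Q2, P2', Q2', P3, Q3, P3', Q3', P4, Q4, P4', Q4', true_and, and_true, false_and, and_false, and_assoc] at H
    rw [Bool.eq_iff_iff]
    simp only [Bool.and_eq_true, Bool.not_eq_true', Bool.false_eq_true, and_assoc]
    exact H
  have E8 : (x5 && (!x3) && x4) = (y5 && (!y3) && y4) := by
    have H := h a c z d
    simp only [C4, X1, N1, Y1, M1, X2, N2, Y2, M2, X3, N3, Y3, M3, X4, N4, Y4, M4, X5, N5, Y5, M5, X6, N6, Y6, M6, P1, Q1, P1', Q1', P2, Q2, P2', Q2', P3, Q3, P3', Q3', P4, Q4, P4', Q4', true_and, and_true, false_and, and_false, and_assoc] at H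
    rw [Bool.eq_iff_iff]
    simp only [Bool.and_eq_true, Bool.not_eq_true', Bool.false_eq_true, and_assoc]
    exact H
  have E9 : ((!x1) && x3) = ((!y1) && y3) := by
    have H := h a z c d
    simp only [C4, X1, N1, Y1, M1, X2, N2, Y2, M2, X3, N3, Y3, M3, X4, N4, Y4, M4, X5, N5, Y5, M5, X6, N6, Y6, M6, P1, Q1, P1', Q1', P2, Q2, P2', Q2', P3, Q3, P3', Q3', P4, Q4, P4', Q4', true_and, and_true, false_and, and_false, and_assoc] at H
    rw [Bool.eq_iff_iff]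
    simp only [Bool.and_eq_true, Bool.not_eq_true', Bool.false_eq_true, and_assoc]
    exact H
  have E10 : ((!x4) && x2) = ((!y4) && y2) := by
    have H := h b c d z
    simp only [C4, X1, N1, Y1, M1, X2, N2, Y2, M2, X3, N3, Y3, M3, X4, N4, Y4, M4, X5, N5, Y5, M5, X6, N6, Y6, M6, P1, Q1, P1', Q1', P2, Q2, P2', Q2', P3, Q3, P3', Q3', P4, Q4, P4', Q4', true_and, and_true, false_and, and_false, and_assoc] at H
    rw [Bool.eq_iff_iff]
    simp only [Bool.and_eq_true, Bool.not_eq_true', Bool.false_eq_true, and_assoc]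
    exact H
  have E11 : ((!x3) && x4 && (!x6)) = ((!y3) && y4 && (!y6)) := by
    have H := h b c z d
    simp only [C4, X1, N1, Y1, M1, X2, N2, Y2, M2, X3, N3, Y3, M3, X4, N4, Y4, M4, X5, N5, Y5, M5, X6, N6, Y6, M6, P1, Q1, P1', Q1', P2, Q2, P2', Q2', P3, Q3, P3', Q3', P4, Q4, P4', Q4', true_and, and_true, false_and, and_false, and_assoc] at H
    rw [Bool.eq_iff_iff]
    simp only [Bool.and_eq_true, Bool.not_eq_true', Bool.false_eq_true, and_assoc]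
    exact H
  have E12 : ((!x2) && x3 && (!x6)) = ((!y2) && y3 && (!y6)) := by
    have H := h b z c d
    simp only [C4, X1, N1, Y1, M1, X2, N2, Y2, M2, X3, N3, Y3, M3, X4, N4, Y4, M4, X5, N5, Y5, M5, X6, N6, Y6, M6, P1, Q1, P1', Q1', P2, Q2, P2', Q2', P3, Q3, P3', Q3', P4, Q4, P4', Q4', true_and, and_true, false_and, and_false, and_assoc] at H
    rw [Bool.eq_iff_iff]
    simp only [Bool.and_eq_true, Bool.not_eq_true', Bool.false_eq_true, and_assoc]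
    exact H
  have K1 : (x1 && x2 && x3 && x4) = false := by
    rw [X1, X2, X3, X4] at hm1
    rw [← Bool.not_eq_true]
    simp only [Bool.and_eq_true, and_assoc]
    exact hm1
  have K2 : (x1 || x2 || x3 || x4) = true := by
    rw [N1, N2, N3, N4] at hm2
    by_contra hcon
    rw [Bool.not_eq_true] at hcon
    simp only [Bool.or_eq_false_iff, and_assoc] at hcon
    exact hm2 hcon
  rcases u94_chk1 x1 x2 x3 x4 x5 x6 y1 y2 y3 y4 y5 y6 E1 E2 E3 E4 E5 E6 E7 E8 E9 E10 E11 E12 K1 K2 with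
    H | H | H | H | H | H | H | H | H
  · left
    rw [X1, X2, X3, X4, X5, X6, Y1, Y2, Y3, Y4, Y5, Y6]
    obtain ⟨h1, h2, h3, h4, h5, h6⟩ := H
    rw [h1, h2, h3, h4, h5, h6]
    exact ⟨Iff.rfl, Iff.rfl, Iff.rfl, Iff.rfl, Iff.rfl, Iff.rfl⟩
  · right
    obtain ⟨h1, h2, h3, h4, h5, h6, h7, h8, h9, h10, h11, h12⟩ := H
    refine ⟨a, b, c, d, z, ?_⟩
    constructor <;> simp only [X1, N1, Y1, M1, X2, N2, Y2, M2, X3, N3, Y3, M3, X4, N4, Y4, M4, X5, N5, Y5, M5, X6, N6, Y6, M6, P1, Q1, P1', Q1', P2, Q2, P2', Q2', P3, Q3, P3', Q3', P4, Q4, P4', Q4'] <;> assumption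
  · right
    obtain ⟨h1, h2, h3, h4, h5, h6, h7, h8, h9, h10, h11, h12⟩ := H
    refine ⟨a, b, c, z, d, ?_⟩
    constructor <;> simp only [X1, N1, Y1, M1, X2, N2, Y2, M2, X3, N3, Y3, M3, X4, N4, Y4, M4, X5, N5, Y5, M5, X6, N6, Y6, M6, P1, Q1, P1', Q1', P2, Q2, P2', Q2', P3, Q3, P3', Q3', P4, Q4, P4', Q4'] <;> assumption
  · right
    obtain ⟨h1, h2, h3, h4, h5, h6, h7, h8, h9, h10, h11, h12⟩ := H
    refine ⟨b, c, d, a, z, ?_⟩
    constructor <;> simp only [X1, N1, Y1, M1, X2, N2, Y2, M2, X3, N3, Y3, M3, X4, N4, Y4, M4, X5, N5, Y5, M5, X6, N6, Y6, M6, P1, Q1, P1', Q1', P2, Q2, P2', Q2', P3, Q3, P3', Q3', P4, Q4, P4', Q4'] <;> assumption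
  · right
    obtain ⟨h1, h2, h3, h4, h5, h6, h7, h8, h9, h10, h11, h12⟩ := H
    refine ⟨b, c, d, z, a, ?_⟩
    constructor <;> simp only [X1, N1, Y1, M1, X2, N2, Y2, M2, X3, N3, Y3, M3, X4, N4, Y4, M4, X5, N5, Y5, M5, X6, N6, Y6, M6, P1, Q1, P1', Q1', P2, Q2, P2', Q2', P3, Q3, P3', Q3', P4, Q4, P4', Q4'] <;> assumption
  · right
    obtain ⟨h1, h2, h3, h4, h5, h6, h7, h8, h9, h10, h11, h12⟩ := H
    refine ⟨c, d, a, b, z, ?_⟩
    constructor <;> simp only [X1, N1, Y1, M1, X2, N2, Y2, M2, X3, N3, Y3, M3, X4, N4, Y4, M4, X5, N5, Y5, M5, X6, N6, Y6, M6, P1, Q1, P1', Q1', P2, Q2, P2', Q2', P3, Q3, P3', Q3', P4, Q4, P4', Q4'] <;> assumption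
  · right
    obtain ⟨h1, h2, h3, h4, h5, h6, h7, h8, h9, h10, h11, h12⟩ := H
    refine ⟨c, d, a, z, b, ?_⟩
    constructor <;> simp only [X1, N1, Y1, M1, X2, N2, Y2, M2, X3, N3, Y3, M3, X4, N4, Y4, M4, X5, N5, Y5, M5, X6, N6, Y6, M6, P1, Q1, P1', Q1', P2, Q2, P2', Q2', P3, Q3, P3', Q3', P4, Q4, P4', Q4'] <;> assumption
  · right
    obtain ⟨h1, h2, h3, h4, h5, h6, h7, h8, h9, h10, h11, h12⟩ := H
    refine ⟨d, a, b, c, z, ?_⟩
    constructor <;> simp only [X1, N1, Y1, M1, X2, N2, Y2, M2, X3, N3, Y3, M3, X4, N4, Y4, M4, X5, N5, Y5, M5, X6, N6, Y6, M6, P1, Q1, P1', Q1', P2, Q2, P2', Q2', P3, Q3, P3', Q3', P4, Q4, P4', Q4'] <;> assumption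
  · right
    obtain ⟨h1, h2, h3, h4, h5, h6, h7, h8, h9, h10, h11, h12⟩ := H
    refine ⟨d, a, b, z, c, ?_⟩
    constructor <;> simp only [X1, N1, Y1, M1, X2, N2, Y2, M2, X3, N3, Y3, M3, X4, N4, Y4, M4, X5, N5, Y5, M5, X6, N6, Y6, M6, P1, Q1, P1', Q1', P2, Q2, P2', Q2', P3, Q3, P3', Q3', P4, Q4, P4', Q4'] <;> assumption

private theorem u94_E2 {T T' : Tour V} (h : ∀ a b c d, T.C4 a b c d ↔ T'.C4 a b c d) {p q r s t z : V}
    (hE : U94Exc T T' p q r s t) (hzp : z ≠ p) (hzq : z ≠ q) (hzr : z ≠ r) (hzs : z ≠ s) (hzt : z ≠ t) :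
    (T.R z p ∧ T.R z q ∧ T.R z r ∧ T.R z s ∧ T.R z t) ∨ (T.R p z ∧ T.R q z ∧ T.R r z ∧ T.R s z ∧ T.R t z) := by
  obtain ⟨x1, X1, N1⟩ := T.u94_bit hzp
  obtain ⟨y1, Y1, M1⟩ := T'.u94_bit hzp
  obtain ⟨x2, X2, N2⟩ := T.u94_bit hzq
  obtain ⟨y2, Y2, M2⟩ := T'.u94_bit hzq
  obtain ⟨x3, X3, N3⟩ := T.u94_bit hzr
  obtain ⟨y3, Y3, M3⟩ := T'.u94_bit hzr
  obtain ⟨x4, X4, N4⟩ := T.u94_bit hzs
  obtain ⟨y4, Y4, M4⟩ := T'.u94_bit hzs
  obtain ⟨x5, X5, N5⟩ := T.u94_bit hzt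
  obtain ⟨y5, Y5, M5⟩ := T'.u94_bit hzt
  obtain ⟨P0, Q0⟩ := T.u94_fix hE.pq
  obtain ⟨P0', Q0'⟩ := T'.u94_fix hE.pq'
  obtain ⟨P1, Q1⟩ := T.u94_fix hE.qr
  obtain ⟨P1', Q1'⟩ := T'.u94_fix hE.qr'
  obtain ⟨P2, Q2⟩ := T.u94_fix hE.rs
  obtain ⟨P2', Q2'⟩ := T'.u94_fix hE.rs'
  obtain ⟨P3, Q3⟩ := T.u94_fix hE.sp
  obtain ⟨P3', Q3'⟩ := T'.u94_fix hE.sp'
  obtain ⟨P4, Q4⟩ := T.u94_fix hE.rt
  obtain ⟨P4', Q4'⟩ := T'.u94_fix hE.rt'
  obtain ⟨P5, Q5⟩ := T.u94_fix hE.tp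
  obtain ⟨P5', Q5'⟩ := T'.u94_fix hE.tp'
  obtain ⟨P6, Q6⟩ := T.u94_fix hE.rp
  obtain ⟨P6', Q6'⟩ := T'.u94_fix hE.rp'
  obtain ⟨P7, Q7⟩ := T.u94_fix hE.sq
  obtain ⟨P7', Q7'⟩ := T'.u94_fix hE.qs'
  obtain ⟨P8, Q8⟩ := T.u94_fix hE.qt
  obtain ⟨P8', Q8'⟩ := T'.u94_fix hE.tq'
  obtain ⟨P9, Q9⟩ := T.u94_fix hE.st
  obtain ⟨P9', Q9'⟩ := T'.u94_fix hE.ts'
  have E1 : (x1 && (!x3)) = (y1 && (!y3)) := by
    have H := h z p q r
    simp only [C4, X1, N1, Y1, M1, X2, N2, Y2, M2, X3, N3, Y3, M3, X4, N4, Y4, M4, X5, N5, Y5, M5, P0, Q0, P0', Q0', P1, Q1, P1', Q1', P2, Q2, P2', Q2', P3, Q3, P3', Q3', P4, Q4, P4', Q4', P5, Q5, P5', Q5', P6, Q6, P6', Q6', P7, Q7, P7', Q7', P8, Q8, P8', Q8', P9, Q9, P9', Q9', true_and, and_true, false_and, and_false, and_assoc] at H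
    rw [Bool.eq_iff_iff]
    simp only [Bool.and_eq_true, Bool.not_eq_true', Bool.false_eq_true, and_assoc]
    exact H
  have E2 : (x2 && (!x1)) = (y2 && (!y1)) := by
    have H := h z q r p
    simp only [C4, X1, N1, Y1, M1, X2, N2, Y2, M2, X3, N3, Y3, M3, X4, N4, Y4, M4, X5, N5, Y5, M5, P0, Q0, P0', Q0', P1, Q1, P1', Q1', P2, Q2, P2', Q2', P3, Q3, P3', Q3', P4, Q4, P4', Q4', P5, Q5, P5', Q5', P6, Q6, P6', Q6', P7, Q7, P7', Q7', P8, Q8, P8', Q8', P9, Q9, P9', Q9', true_and, and_true, false_and, and_false, and_assoc] at H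
    rw [Bool.eq_iff_iff]
    simp only [Bool.and_eq_true, Bool.not_eq_true', Bool.false_eq_true, and_assoc]
    exact H
  have E3 : (x3 && (!x2)) = (y3 && (!y2)) := by
    have H := h z r p q
    simp only [C4, X1, N1, Y1, M1, X2, N2, Y2, M2, X3, N3, Y3, M3, X4, N4, Y4, M4, X5, N5, Y5, M5, P0, Q0, P0', Q0', P1, Q1, P1', Q1', P2, Q2, P2', Q2', P3, Q3, P3', Q3', P4, Q4, P4', Q4', P5, Q5, P5', Q5', P6, Q6, P6', Q6', P7, Q7, P7', Q7', P8, Q8, P8', Q8', P9, Q9, P9', Q9', true_and, and_true, false_and, and_false, and_assoc] at H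
    rw [Bool.eq_iff_iff]
    simp only [Bool.and_eq_true, Bool.not_eq_true', Bool.false_eq_true, and_assoc]
    exact H
  have E4 : false = (y1 && (!y4)) := by
    have H := h z p q s
    simp only [C4, X1, N1, Y1, M1, X2, N2, Y2, M2, X3, N3, Y3, M3, X4, N4, Y4, M4, X5, N5, Y5, M5, P0, Q0, P0', Q0', P1, Q1, P1', Q1', P2, Q2, P2', Q2', P3, Q3, P3', Q3', P4, Q4, P4', Q4', P5, Q5, P5', Q5', P6, Q6, P6', Q6', P7, Q7, P7', Q7', P8, Q8, P8', Q8', P9, Q9, P9', Q9', true_and, and_true, false_and, and_false, and_assoc] at H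
    rw [Bool.eq_iff_iff]
    simp only [Bool.and_eq_true, Bool.not_eq_true', Bool.false_eq_true, and_assoc]
    exact H
  have E5 : false = (y2 && (!y1)) := by
    have H := h z q s p
    simp only [C4, X1, N1, Y1, M1, X2, N2, Y2, M2, X3, N3, Y3, M3, X4, N4, Y4, M4, X5, N5, Y5, M5, P0, Q0, P0', Q0', P1, Q1, P1', Q1', P2, Q2, P2', Q2', P3, Q3, P3', Q3', P4, Q4, P4', Q4', P5, Q5, P5', Q5', P6, Q6, P6', Q6', P7, Q7, P7', Q7', P8, Q8, P8', Q8', P9, Q9, P9', Q9', true_and, and_true, false_and, and_false, and_assoc] at H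
    rw [Bool.eq_iff_iff]
    simp only [Bool.and_eq_true, Bool.not_eq_true', Bool.false_eq_true, and_assoc]
    exact H
  have E6 : (x4 && (!x2)) = (y4 && (!y2)) := by
    have H := h z s p q
    simp only [C4, X1, N1, Y1, M1, X2, N2, Y2, M2, X3, N3, Y3, M3, X4, N4, Y4, M4, X5, N5, Y5, M5, P0, Q0, P0', Q0', P1, Q1, P1', Q1', P2, Q2, P2', Q2', P3, Q3, P3', Q3', P4, Q4, P4', Q4', P5, Q5, P5', Q5', P6, Q6, P6', Q6', P7, Q7, P7', Q7', P8, Q8, P8', Q8', P9, Q9, P9', Q9', true_and, and_true, false_and, and_false, and_assoc] at H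
    rw [Bool.eq_iff_iff]
    simp only [Bool.and_eq_true, Bool.not_eq_true', Bool.false_eq_true, and_assoc]
    exact H
  have E7 : (x1 && (!x5)) = false := by
    have H := h z p q t
    simp only [C4, X1, N1, Y1, M1, X2, N2, Y2, M2, X3, N3, Y3, M3, X4, N4, Y4, M4, X5, N5, Y5, M5, P0, Q0, P0', Q0', P1, Q1, P1', Q1', P2, Q2, P2', Q2', P3, Q3, P3', Q3', P4, Q4, P4', Q4', P5, Q5, P5', Q5', P6, Q6, P6', Q6', P7, Q7, P7', Q7', P8, Q8, P8', Q8', P9, Q9, P9', Q9', true_and, and_true, false_and, and_false, and_assoc] at H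
    rw [Bool.eq_iff_iff]
    simp only [Bool.and_eq_true, Bool.not_eq_true', Bool.false_eq_true, and_assoc]
    exact H
  have E8 : (x2 && (!x1)) = false := by
    have H := h z q t p
    simp only [C4, X1, N1, Y1, M1, X2, N2, Y2, M2, X3, N3, Y3, M3, X4, N4, Y4, M4, X5, N5, Y5, M5, P0, Q0, P0', Q0', P1, Q1, P1', Q1', P2, Q2, P2', Q2', P3, Q3, P3', Q3', P4, Q4, P4', Q4', P5, Q5, P5', Q5', P6, Q6, P6', Q6', P7, Q7, P7', Q7', P8, Q8, P8', Q8', P9, Q9, P9', Q9', true_and, and_true, false_and, and_false, and_assoc] at H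
    rw [Bool.eq_iff_iff]
    simp only [Bool.and_eq_true, Bool.not_eq_true', Bool.false_eq_true, and_assoc]
    exact H
  have E9 : (x5 && (!x2)) = (y5 && (!y2)) := by
    have H := h z t p q
    simp only [C4, X1, N1, Y1, M1, X2, N2, Y2, M2, X3, N3, Y3, M3, X4, N4, Y4, M4, X5, N5, Y5, M5, P0, Q0, P0', Q0', P1, Q1, P1', Q1', P2, Q2, P2', Q2', P3, Q3, P3', Q3', P4, Q4, P4', Q4', P5, Q5, P5', Q5', P6, Q6, P6', Q6', P7, Q7, P7', Q7', P8, Q8, P8', Q8', P9, Q9, P9', Q9', true_and, and_true, false_and, and_false, and_assoc] at H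
    rw [Bool.eq_iff_iff]
    simp only [Bool.and_eq_true, Bool.not_eq_true', Bool.false_eq_true, and_assoc]
    exact H
  have E10 : (x3 && (!x1)) = (y3 && (!y1)) := by
    have H := h z r s p
    simp only [C4, X1, N1, Y1, M1, X2, N2, Y2, M2, X3, N3, Y3, M3, X4, N4, Y4, M4, X5, N5, Y5, M5, P0, Q0, P0', Q0', P1, Q1, P1', Q1', P2, Q2, P2', Q2', P3, Q3, P3', Q3', P4, Q4, P4', Q4', P5, Q5, P5', Q5', P6, Q6, P6', Q6', P7, Q7, P7', Q7', P8, Q8, P8', Q8', P9, Q9, P9', Q9', true_and, and_true, false_and, and_false, and_assoc] at H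
    rw [Bool.eq_iff_iff]
    simp only [Bool.and_eq_true, Bool.not_eq_true', Bool.false_eq_true, and_assoc]
    exact H
  have E11 : (x3 && (!x1)) = (y3 && (!y1)) := by
    have H := h z r t p
    simp only [C4, X1, N1, Y1, M1, X2, N2, Y2, M2, X3, N3, Y3, M3, X4, N4, Y4, M4, X5, N5, Y5, M5, P0, Q0, P0', Q0', P1, Q1, P1', Q1', P2, Q2, P2', Q2', P3, Q3, P3', Q3', P4, Q4, P4', Q4', P5, Q5, P5', Q5', P6, Q6, P6', Q6', P7, Q7, P7', Q7', P8, Q8, P8', Q8', P9, Q9, P9', Q9', true_and, and_true, false_and, and_false, and_assoc] at H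
    rw [Bool.eq_iff_iff]
    simp only [Bool.and_eq_true, Bool.not_eq_true', Bool.false_eq_true, and_assoc]
    exact H
  have E12 : (x4 && (!x1)) = false := by
    have H := h z s t p
    simp only [C4, X1, N1, Y1, M1, X2, N2, Y2, M2, X3, N3, Y3, M3, X4, N4, Y4, M4, X5, N5, Y5, M5, P0, Q0, P0', Q0', P1, Q1, P1', Q1', P2, Q2, P2', Q2', P3, Q3, P3', Q3', P4, Q4, P4', Q4', P5, Q5, P5', Q5', P6, Q6, P6', Q6', P7, Q7, P7', Q7', P8, Q8, P8', Q8', P9, Q9, P9', Q9', true_and, and_true, false_and, and_false, and_assoc] at H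
    rw [Bool.eq_iff_iff]
    simp only [Bool.and_eq_true, Bool.not_eq_true', Bool.false_eq_true, and_assoc]
    exact H
  have E13 : false = (y5 && (!y1)) := by
    have H := h z t s p
    simp only [C4, X1, N1, Y1, M1, X2, N2, Y2, M2, X3, N3, Y3, M3, X4, N4, Y4, M4, X5, N5, Y5, M5, P0, Q0, P0', Q0', P1, Q1, P1', Q1', P2, Q2, P2', Q2', P3, Q3, P3', Q3', P4, Q4, P4', Q4', P5, Q5, P5', Q5', P6, Q6, P6', Q6', P7, Q7, P7', Q7', P8, Q8, P8', Q8', P9, Q9, P9', Q9', true_and, and_true, false_and, and_false, and_assoc] at H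
    rw [Bool.eq_iff_iff]
    simp only [Bool.and_eq_true, Bool.not_eq_true', Bool.false_eq_true, and_assoc]
    exact H
  have E14 : (x2 && (!x4)) = (y2 && (!y4)) := by
    have H := h z q r s
    simp only [C4, X1, N1, Y1, M1, X2, N2, Y2, M2, X3, N3, Y3, M3, X4, N4, Y4, M4, X5, N5, Y5, M5, P0, Q0, P0', Q0', P1, Q1, P1', Q1', P2, Q2, P2', Q2', P3, Q3, P3', Q3', P4, Q4, P4', Q4', P5, Q5, P5', Q5', P6, Q6, P6', Q6', P7, Q7, P7', Q7', P8, Q8, P8', Q8', P9, Q9, P9', Q9', true_and, and_true, false_and, and_false, and_assoc] at H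
    rw [Bool.eq_iff_iff]
    simp only [Bool.and_eq_true, Bool.not_eq_true', Bool.false_eq_true, and_assoc]
    exact H
  have E15 : (x3 && (!x2)) = false := by
    have H := h z r s q
    simp only [C4, X1, N1, Y1, M1, X2, N2, Y2, M2, X3, N3, Y3, M3, X4, N4, Y4, M4, X5, N5, Y5, M5, P0, Q0, P0', Q0', P1, Q1, P1', Q1', P2, Q2, P2', Q2', P3, Q3, P3', Q3', P4, Q4, P4', Q4', P5, Q5, P5', Q5', P6, Q6, P6', Q6', P7, Q7, P7', Q7', P8, Q8, P8', Q8', P9, Q9, P9', Q9', true_and, and_true, false_and, and_false, and_assoc] at H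
    rw [Bool.eq_iff_iff]
    simp only [Bool.and_eq_true, Bool.not_eq_true', Bool.false_eq_true, and_assoc]
    exact H
  have E16 : (x4 && (!x3)) = false := by
    have H := h z s q r
    simp only [C4, X1, N1, Y1, M1, X2, N2, Y2, M2, X3, N3, Y3, M3, X4, N4, Y4, M4, X5, N5, Y5, M5, P0, Q0, P0', Q0', P1, Q1, P1', Q1', P2, Q2, P2', Q2', P3, Q3, P3', Q3', P4, Q4, P4', Q4', P5, Q5, P5', Q5', P6, Q6, P6', Q6', P7, Q7, P7', Q7', P8, Q8, P8', Q8', P9, Q9, P9', Q9', true_and, and_true, false_and, and_false, and_assoc] at H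
    rw [Bool.eq_iff_iff]
    simp only [Bool.and_eq_true, Bool.not_eq_true', Bool.false_eq_true, and_assoc]
    exact H
  have E17 : (x2 && (!x5)) = (y2 && (!y5)) := by
    have H := h z q r t
    simp only [C4, X1, N1, Y1, M1, X2, N2, Y2, M2, X3, N3, Y3, M3, X4, N4, Y4, M4, X5, N5, Y5, M5, P0, Q0, P0', Q0', P1, Q1, P1', Q1', P2, Q2, P2', Q2', P3, Q3, P3', Q3', P4, Q4, P4', Q4', P5, Q5, P5', Q5', P6, Q6, P6', Q6', P7, Q7, P7', Q7', P8, Q8, P8', Q8', P9, Q9, P9', Q9', true_and, and_true, false_and, and_false, and_assoc] at H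
    rw [Bool.eq_iff_iff]
    simp only [Bool.and_eq_true, Bool.not_eq_true', Bool.false_eq_true, and_assoc]
    exact H
  have E18 : false = (y3 && (!y2)) := by
    have H := h z r t q
    simp only [C4, X1, N1, Y1, M1, X2, N2, Y2, M2, X3, N3, Y3, M3, X4, N4, Y4, M4, X5, N5, Y5, M5, P0, Q0, P0', Q0', P1, Q1, P1', Q1', P2, Q2, P2', Q2', P3, Q3, P3', Q3', P4, Q4, P4', Q4', P5, Q5, P5', Q5', P6, Q6, P6', Q6', P7, Q7, P7', Q7', P8, Q8, P8', Q8', P9, Q9, P9', Q9', true_and, and_true, false_and, and_false, and_assoc] at H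
    rw [Bool.eq_iff_iff]
    simp only [Bool.and_eq_true, Bool.not_eq_true', Bool.false_eq_true, and_assoc]
    exact H
  have E19 : false = (y5 && (!y3)) := by
    have H := h z t q r
    simp only [C4, X1, N1, Y1, M1, X2, N2, Y2, M2, X3, N3, Y3, M3, X4, N4, Y4, M4, X5, N5, Y5, M5, P0, Q0, P0', Q0', P1, Q1, P1', Q1', P2, Q2, P2', Q2', P3, Q3, P3', Q3', P4, Q4, P4', Q4', P5, Q5, P5', Q5', P6, Q6, P6', Q6', P7, Q7, P7', Q7', P8, Q8, P8', Q8', P9, Q9, P9', Q9', true_and, and_true, false_and, and_false, and_assoc] at H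
    rw [Bool.eq_iff_iff]
    simp only [Bool.and_eq_true, Bool.not_eq_true', Bool.false_eq_true, and_assoc]
    exact H
  have E20 : (x4 && (!x5)) = false := by
    have H := h z s q t
    simp only [C4, X1, N1, Y1, M1, X2, N2, Y2, M2, X3, N3, Y3, M3, X4, N4, Y4, M4, X5, N5, Y5, M5, P0, Q0, P0', Q0', P1, Q1, P1', Q1', P2, Q2, P2', Q2', P3, Q3, P3', Q3', P4, Q4, P4', Q4', P5, Q5, P5', Q5', P6, Q6, P6', Q6', P7, Q7, P7', Q7', P8, Q8, P8', Q8', P9, Q9, P9', Q9', true_and, and_true, false_and, and_false, and_assoc] at H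
    rw [Bool.eq_iff_iff]
    simp only [Bool.and_eq_true, Bool.not_eq_true', Bool.false_eq_true, and_assoc]
    exact H
  have E21 : false = (y5 && (!y4)) := by
    have H := h z t q s
    simp only [C4, X1, N1, Y1, M1, X2, N2, Y2, M2, X3, N3, Y3, M3, X4, N4, Y4, M4, X5, N5, Y5, M5, P0, Q0, P0', Q0', P1, Q1, P1', Q1', P2, Q2, P2', Q2', P3, Q3, P3', Q3', P4, Q4, P4', Q4', P5, Q5, P5', Q5', P6, Q6, P6', Q6', P7, Q7, P7', Q7', P8, Q8, P8', Q8', P9, Q9, P9', Q9', true_and, and_true, false_and, and_false, and_assoc] at H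
    rw [Bool.eq_iff_iff]
    simp only [Bool.and_eq_true, Bool.not_eq_true', Bool.false_eq_true, and_assoc]
    exact H
  have E22 : (x3 && (!x5)) = false := by
    have H := h z r s t
    simp only [C4, X1, N1, Y1, M1, X2, N2, Y2, M2, X3, N3, Y3, M3, X4, N4, Y4, M4, X5, N5, Y5, M5, P0, Q0, P0', Q0', P1, Q1, P1', Q1', P2, Q2, P2', Q2', P3, Q3, P3', Q3', P4, Q4, P4', Q4', P5, Q5, P5', Q5', P6, Q6, P6', Q6', P7, Q7, P7', Q7', P8, Q8, P8', Q8', P9, Q9, P9', Q9', true_and, and_true, false_and, and_false, and_assoc] at H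
    rw [Bool.eq_iff_iff]
    simp only [Bool.and_eq_true, Bool.not_eq_true', Bool.false_eq_true, and_assoc]
    exact H
  have E23 : false = (y3 && (!y4)) := by
    have H := h z r t s
    simp only [C4, X1, N1, Y1, M1, X2, N2, Y2, M2, X3, N3, Y3, M3, X4, N4, Y4, M4, X5, N5, Y5, M5, P0, Q0, P0', Q0', P1, Q1, P1', Q1', P2, Q2, P2', Q2', P3, Q3, P3', Q3', P4, Q4, P4', Q4', P5, Q5, P5', Q5', P6, Q6, P6', Q6', P7, Q7, P7', Q7', P8, Q8, P8', Q8', P9, Q9, P9', Q9', true_and, and_true, false_and, and_false, and_assoc] at H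
    rw [Bool.eq_iff_iff]
    simp only [Bool.and_eq_true, Bool.not_eq_true', Bool.false_eq_true, and_assoc]
    exact H
  rcases u94_chk2 x1 x2 x3 x4 x5 y1 y2 y3 y4 y5 E1 E2 E3 E4 E5 E6 E7 E8 E9 E10 E11 E12 E13 E14 E15 E16 E17 E18 E19 E20 E21 E22 E23 with H | H
  · left
    simp only [Bool.and_eq_true, and_assoc] at H
    rw [X1, X2, X3, X4, X5]
    exact H
  · right
    simp only [Bool.or_eq_false_iff, and_assoc] at H
    rw [N1, N2, N3, N4, N5]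
    exact H

/-- a path from outside `P` into `P` has a step into `P` -/
private theorem u94_step {R : V → V → Prop} {P : V → Prop} {a b : V} (hp : Relation.ReflTransGen R a b)
    (ha : ¬ P a) (hb : P b) : ∃ u v, R u v ∧ ¬ P u ∧ P v := by
  induction hp with
  | refl => exact absurd hb ha
  | @tail x y _ hxy ih =>
    by_cases hx : P x
    · exact ih hx
    · exact ⟨x, y, hxy, hx, hb⟩

/-- if every vertex outside `F` dominates or is dominated by `F`, there is a back arc -/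
private theorem u94_back {T : Tour V} (hT : T.Strong) {F : V → Prop} {f z : V} (hf : F f) (hz : ¬ F z)
    (hun : ∀ x, ¬ F x → (∀ y, F y → T.R x y) ∨ (∀ y, F y → T.R y x)) :
    ∃ k s, T.R k s ∧ (∀ y, F y → T.R y k) ∧ (∀ y, F y → T.R s y) := by
  rcases hun z hz with h1 | h1
  · -- z dominates F: look at a path from f to z
    have hfn : ¬ (∀ y, F y → T.R f y) := fun h2 => T.irr f (h2 f hf)
    obtain ⟨u, v, huv, hu, hv⟩ := u94_step (P := fun x => ∀ y, F y → T.R x y) (hT f z) hfn h1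
    have huF : ¬ F u := fun h3 => T.asym _ _ huv (hv u h3)
    exact ⟨u, v, huv, (hun u huF).resolve_left hu, hv⟩
  · have hfn : ¬ (∀ y, F y → T.R y f) := fun h2 => T.irr f (h2 f hf)
    obtain ⟨u, v, huv, hu, hv⟩ := u94_step (P := fun x => ¬ ∀ y, F y → T.R y x) (hT z f)
      (not_not.mpr h1) hfn
    have hu' : ∀ y, F y → T.R y u := not_not.mp hu
    have hvF : ¬ F v := fun h3 => T.asym _ _ huv (hu' v h3)
    exact ⟨u, v, huv, hu', (hun v hvF).resolve_right hv⟩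

private theorem u94_out [Finite V] (hn : 6 ≤ Nat.card V) (p q r s t : V) :
    ∃ z, z ≠ p ∧ z ≠ q ∧ z ≠ r ∧ z ≠ s ∧ z ≠ t := by
  classical
  haveI := Fintype.ofFinite V
  rw [Nat.card_eq_fintype_card] at hn
  have h1 : (({p, q, r, s, t} : Finset V)).card < Fintype.card V :=
    lt_of_le_of_lt Finset.card_le_five (by omega)
  obtain ⟨z, hz⟩ := Finset.exists_mem_notMem_of_card_lt_card
    (s := ({p, q, r, s, t} : Finset V)) (t := Finset.univ) (by rwa [Finset.card_univ])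
  refine ⟨z, ?_⟩
  simpa using hz.2

private theorem u94_noexc [Finite V] {T T' : Tour V} (hT : T.Strong) (hn : 6 ≤ Nat.card V)
    (h : ∀ a b c d, T.C4 a b c d ↔ T'.C4 a b c d) {p q r s t : V} (hE : U94Exc T T' p q r s t) : False := by
  obtain ⟨z, hz⟩ := u94_out hn p q r s t
  obtain ⟨k, v, hkv, hk, hv⟩ := u94_back hT (F := fun x => x = p ∨ x = q ∨ x = r ∨ x = s ∨ x = t)
    (f := p) (z := z) (Or.inl rfl) (by tauto) (by
      intro x hx
      have h1 : x ≠ p ∧ x ≠ q ∧ x ≠ r ∧ x ≠ s ∧ x ≠ t := by tauto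
      rcases u94_E2 h hE h1.1 h1.2.1 h1.2.2.1 h1.2.2.2.1 h1.2.2.2.2 with h2 | h2
      · left
        rintro y (rfl | rfl | rfl | rfl | rfl) <;> tauto
      · right
        rintro y (rfl | rfl | rfl | rfl | rfl) <;> tauto)
  have h1 : T.C4 s q k v := ⟨hE.sq, hk q (by tauto), hkv, hv s (by tauto)⟩
  exact T'.asym _ _ ((h _ _ _ _).1 h1).1 hE.qs'

/-- a vertex which is mixed on a circuit: everything agrees -/
private theorem u94_mixed [Finite V] {T T' : Tour V} (hT : T.Strong) (hn : 6 ≤ Nat.card V)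
    (h : ∀ a b c d, T.C4 a b c d ↔ T'.C4 a b c d) {a b c d z : V}
    (hC : T.C4 a b c d) (hza : z ≠ a) (hzb : z ≠ b) (hzc : z ≠ c) (hzd : z ≠ d)
    (hm1 : ¬ (T.R z a ∧ T.R z b ∧ T.R z c ∧ T.R z d)) (hm2 : ¬ (T.R a z ∧ T.R b z ∧ T.R c z ∧ T.R d z)) :
    (T.R z a ↔ T'.R z a) ∧ (T.R z b ↔ T'.R z b) ∧ (T.R z c ↔ T'.R z c) ∧ (T.R z d ↔ T'.R z d) ∧
      (T.R a c ↔ T'.R a c) ∧ (T.R b d ↔ T'.R b d) := by
  rcases u94_E1 h hC hza hzb hzc hzd hm1 hm2 with h1 | ⟨p, q, r, s, t, h1⟩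
  · exact h1
  · exact (u94_noexc hT hn h h1).elim

/-- a vertex which is not mixed on a circuit for `T` is not mixed for `T'` -/
private theorem u94_unif {T T' : Tour V}
    (h : ∀ a b c d, T.C4 a b c d ↔ T'.C4 a b c d) {a b c d z : V}
    (hC : T.C4 a b c d) (hza : z ≠ a) (hzb : z ≠ b) (hzc : z ≠ c) (hzd : z ≠ d)
    (hm : (T.R z a ∧ T.R z b ∧ T.R z c ∧ T.R z d) ∨ (T.R a z ∧ T.R b z ∧ T.R c z ∧ T.R d z)) :
    (T'.R z a ∧ T'.R z b ∧ T'.R z c ∧ T'.R z d) ∨ (T'.R a z ∧ T'.R b z ∧ T'.R c z ∧ T'.R d z) := by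
  by_contra hcon
  have hC' := (h a b c d).1 hC
  have hin : ∃ x ∈ ({a, b, c, d} : Set V), T'.R x z := by
    by_contra h1
    apply hcon
    left
    push Not at h1
    have h2 : ∀ x ∈ ({a, b, c, d} : Set V), ¬ T'.R x z := h1
    refine ⟨?_, ?_, ?_, ?_⟩
    · exact T'.of_not (Ne.symm hza) (h2 a (by simp))
    · exact T'.of_not (Ne.symm hzb) (h2 b (by simp))
    · exact T'.of_not (Ne.symm hzc) (h2 c (by simp))
    · exact T'.of_not (Ne.symm hzd) (h2 d (by simp))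
  have hout : ∃ x ∈ ({a, b, c, d} : Set V), T'.R z x := by
    by_contra h1
    apply hcon
    right
    push Not at h1
    have h2 : ∀ x ∈ ({a, b, c, d} : Set V), ¬ T'.R z x := h1
    refine ⟨?_, ?_, ?_, ?_⟩
    · exact T'.of_not hza (h2 a (by simp))
    · exact T'.of_not hzb (h2 b (by simp))
    · exact T'.of_not hzc (h2 c (by simp))
    · exact T'.of_not hzd (h2 d (by simp))
  obtain ⟨p, q, r, hK, hp, hq, hr, _⟩ := lemma5 hC' ⟨hza, hzb, hzc, hzd⟩ hin hout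
  have hK' := (h _ _ _ _).2 hK
  have h1 := hK'.1
  have h2 := hK'.2.2.2
  simp only [Set.mem_insert_iff, Set.mem_singleton_iff] at hp hr
  have ha := T.asym z a
  have hb := T.asym z b
  have hc := T.asym z c
  have hd := T.asym z d
  rcases hm with hm | hm
  · rcases hr with rfl | rfl | rfl | rfl <;> tauto
  · rcases hp with rfl | rfl | rfl | rfl <;> tauto

private theorem u94_ag_symm {T T' : Tour V} {a b : V} (hab : a ≠ b) (h : T.R a b ↔ T'.R a b) :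
    (T.R b a ↔ T'.R b a) := by
  constructor
  · intro h1
    exact T'.of_not hab (fun h2 => T.asym _ _ h1 (h.2 h2))
  · intro h1
    exact T.of_not hab (fun h2 => T'.asym _ _ h1 (h.1 h2))

private theorem u94_flip {T T' : Tour V} {z a c : V}
    (h1 : (T.R z a ∧ T.R z c) ∨ (T.R a z ∧ T.R c z)) (h2 : (T'.R z a ∧ T'.R z c) ∨ (T'.R a z ∧ T'.R c z))
    (h3 : ¬ (T.R z a ↔ T'.R z a)) : ¬ (T.R z c ↔ T'.R z c) := by
  rcases h1 with ⟨h1, h1'⟩ | ⟨h1, h1'⟩ <;> rcases h2 with ⟨h2, h2'⟩ | ⟨h2, h2'⟩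
  · exact absurd ⟨fun _ => h2, fun _ => h1⟩ h3
  · exact fun h4 => T'.asym _ _ h2' (h4.1 h1')
  · exact fun h4 => T.asym _ _ h1' (h4.2 h2')
  · exact absurd ⟨fun h4 => absurd h4 (T.asym _ _ h1), fun h4 => absurd h4 (T'.asym _ _ h2)⟩ h3

private def U94S (T T' : Tour V) (z a b c d : V) : Prop :=
  (z ≠ a ∧ z ≠ b ∧ z ≠ c ∧ z ≠ d) ∧ ¬ (T.R z a ↔ T'.R z a) ∧ ¬ (T.R z b ↔ T'.R z b) ∧
    ¬ (T.R z c ↔ T'.R z c) ∧ ¬ (T.R z d ↔ T'.R z d)

private theorem u94_adj [Finite V] {T T' : Tour V} (hT : T.Strong) (hn : 6 ≤ Nat.card V)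
    (h : ∀ a b c d, T.C4 a b c d ↔ T'.C4 a b c d) {z a b c d c' d' : V}
    (hC' : T.C4 a b c' d') (hS : U94S T T' z a b c d) : U94S T T' z a b c' d' := by
  obtain ⟨⟨hza, hzb, _, _⟩, h1, h2, _, _⟩ := hS
  have hK' := (h _ _ _ _).1 hC'
  have hzc : z ≠ c' := by
    rintro rfl
    apply h2
    exact u94_ag_symm (T.ne hC'.2.1) ⟨fun _ => hK'.2.1, fun _ => hC'.2.1⟩
  have hzd : z ≠ d' := by
    rintro rfl
    exact h1 ⟨fun _ => hK'.2.2.2, fun _ => hC'.2.2.2⟩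
  by_cases hm : (T.R z a ∧ T.R z b ∧ T.R z c' ∧ T.R z d') ∨ (T.R a z ∧ T.R b z ∧ T.R c' z ∧ T.R d' z)
  · have hm' := u94_unif h hC' hza hzb hzc hzd hm
    refine ⟨⟨hza, hzb, hzc, hzd⟩, h1, h2, ?_, ?_⟩
    · exact u94_flip (hm.imp (fun h => ⟨h.1, h.2.2.1⟩) (fun h => ⟨h.1, h.2.2.1⟩))
        (hm'.imp (fun h => ⟨h.1, h.2.2.1⟩) (fun h => ⟨h.1, h.2.2.1⟩)) h1
    · exact u94_flip (hm.imp (fun h => ⟨h.1, h.2.2.2⟩) (fun h => ⟨h.1, h.2.2.2⟩))
        (hm'.imp (fun h => ⟨h.1, h.2.2.2⟩) (fun h => ⟨h.1, h.2.2.2⟩)) h1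
  · rw [not_or] at hm
    exact absurd (u94_mixed hT hn h hC' hza hzb hzc hzd hm.1 hm.2).1 h1

private theorem u94_rot {T T' : Tour V} {z a b c d : V} : U94S T T' z a b c d ↔ U94S T T' z b c d a := by
  unfold U94S
  tauto

/-- `T` and `T'` agree between a circuit and a vertex outside -/
private theorem u94_E3 [Finite V] {T T' : Tour V} (hT : T.Strong) (hn : 6 ≤ Nat.card V)
    (h : ∀ a b c d, T.C4 a b c d ↔ T'.C4 a b c d) {a b c d z : V}
    (hC : T.C4 a b c d) (hza : z ≠ a) (hzb : z ≠ b) (hzc : z ≠ c) (hzd : z ≠ d) :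
    (T.R z a ↔ T'.R z a) := by
  by_cases hm : (T.R z a ∧ T.R z b ∧ T.R z c ∧ T.R z d) ∨ (T.R a z ∧ T.R b z ∧ T.R c z ∧ T.R d z)
  · have hm' := u94_unif h hC hza hzb hzc hzd hm
    by_contra hcon
    have hS : U94S T T' z a b c d := by
      refine ⟨⟨hza, hzb, hzc, hzd⟩, hcon, ?_, ?_, ?_⟩
      · exact u94_flip (hm.imp (fun h => ⟨h.1, h.2.1⟩) (fun h => ⟨h.1, h.2.1⟩))
          (hm'.imp (fun h => ⟨h.1, h.2.1⟩) (fun h => ⟨h.1, h.2.1⟩)) hcon
      · exact u94_flip (hm.imp (fun h => ⟨h.1, h.2.2.1⟩) (fun h => ⟨h.1, h.2.2.1⟩))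
          (hm'.imp (fun h => ⟨h.1, h.2.2.1⟩) (fun h => ⟨h.1, h.2.2.1⟩)) hcon
      · exact u94_flip (hm.imp (fun h => ⟨h.1, h.2.2.2⟩) (fun h => ⟨h.1, h.2.2.2⟩))
          (hm'.imp (fun h => ⟨h.1, h.2.2.2⟩) (fun h => ⟨h.1, h.2.2.2⟩)) hcon
    obtain ⟨p, q, r, hz⟩ := exists_C4_through hT (by omega) z
    have hgam := gamma_conn hT (fun a b c d => U94S T T' z a b c d) (fun _ _ _ _ _ => u94_rot)
      (fun a b c d c' d' h1 h2 => ⟨u94_adj hT hn h h2, u94_adj hT hn h h1⟩) hC hz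
    exact (hgam.1 hS).1.1 rfl
  · rw [not_or] at hm
    exact (u94_mixed hT hn h hC hza hzb hzc hzd hm.1 hm.2).1

private theorem u94_E4 [Finite V] {T T' : Tour V} (hT : T.Strong) (hn : 6 ≤ Nat.card V)
    (h : ∀ a b c d, T.C4 a b c d ↔ T'.C4 a b c d) {a b c d : V} (hC : T.C4 a b c d) :
    (T.R a c ↔ T'.R a c) := by
  by_cases hex : ∃ z, z ≠ a ∧ z ≠ b ∧ z ≠ c ∧ z ≠ d ∧
      ¬ ((T.R z a ∧ T.R z b ∧ T.R z c ∧ T.R z d) ∨ (T.R a z ∧ T.R b z ∧ T.R c z ∧ T.R d z))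
  · obtain ⟨z, hza, hzb, hzc, hzd, hm⟩ := hex
    rw [not_or] at hm
    exact (u94_mixed hT hn h hC hza hzb hzc hzd hm.1 hm.2).2.2.2.2.1
  · have hall : ∀ z, z ≠ a → z ≠ b → z ≠ c → z ≠ d →
        ((T.R z a ∧ T.R z b ∧ T.R z c ∧ T.R z d) ∨ (T.R a z ∧ T.R b z ∧ T.R c z ∧ T.R d z)) := by
      intro z h1 h2 h3 h4
      by_contra h5
      exact hex ⟨z, h1, h2, h3, h4, h5⟩
    obtain ⟨z, hz⟩ := u94_out hn a b c d d
    obtain ⟨k, s, hks, hk, hs⟩ := u94_back hT (F := fun x => x = a ∨ x = b ∨ x = c ∨ x = d)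
      (f := a) (z := z) (Or.inl rfl) (by tauto) (by
        intro x hx
        rcases hall x (by tauto) (by tauto) (by tauto) (by tauto) with h2 | h2
        · left
          rintro y (rfl | rfl | rfl | rfl) <;> tauto
        · right
          rintro y (rfl | rfl | rfl | rfl) <;> tauto)
    have hac := hC.ne13
    rcases T.tot a c hac with h1 | h1
    · have h2 : T.C4 a c k s := ⟨h1, hk c (by tauto), hks, hs a (by tauto)⟩
      exact ⟨fun _ => ((h _ _ _ _).1 h2).1, fun _ => h1⟩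
    · have h2 : T.C4 c a k s := ⟨h1, hk a (by tauto), hks, hs c (by tauto)⟩
      exact u94_ag_symm (Ne.symm hac) ⟨fun _ => ((h _ _ _ _).1 h2).1, fun _ => h1⟩

end Tour

/-- Two tournaments on the same `n ≥ 6` vertices with the same 4-circuits, one of them strong, are equal. -/
theorem lemU [Finite V] {T T' : Tour V} (hT : T.Strong) (hn : 6 ≤ Nat.card V)
    (h : ∀ a b c d, T.C4 a b c d ↔ T'.C4 a b c d) : ∀ a b, T.R a b ↔ T'.R a b := by
  intro x y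
  obtain ⟨b, c, d, hC⟩ := exists_C4_through hT (by omega) x
  have hC' := (h _ _ _ _).1 hC
  by_cases hyx : y = x
  · subst hyx
    exact ⟨fun h1 => absurd h1 (T.irr _), fun h1 => absurd h1 (T'.irr _)⟩
  by_cases hyb : y = b
  · subst hyb
    exact ⟨fun _ => hC'.1, fun _ => hC.1⟩
  by_cases hyc : y = c
  · subst hyc
    exact Tour.u94_E4 hT hn h hC
  by_cases hyd : y = d
  · subst hyd
    exact Tour.u94_ag_symm hyx ⟨fun _ => hC'.2.2.2, fun _ => hC.2.2.2⟩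
  exact Tour.u94_ag_symm hyx (Tour.u94_E3 hT hn h hC hyx hyb hyc hyd)

end Pool.Agent.Helper98.FC
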