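import Pool.Agent.Helper98.FC.TS
import Pool.Agent.Helper98.FC.LemU

/-!
# The two tournaments agree on the non-ghosts (block FC-E3)
-/

namespace Pool.Agent.Helper98.FC

universe u v

variable {V : Type u} {W : Type v} {T : Tour V} {T' : Tour W}

namespace Agree

/-- the exceptional configuration on five vertices -/
def Exc (T T' : Tour V) (p q r α β : V) : Prop :=
  T.R p q ∧ T.R q r ∧ T.R r p ∧ T.R r α ∧ T.R α p ∧ T.R r β ∧ T.R β p ∧ T.R α q ∧ T.R q β ∧ T.R α β ∧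
      T'.R q α ∧ T'.R β q ∧ T'.R β α

theorem e0 {T T' : Tour V} (h : ∀ a b c d, T.C4 a b c d ↔ T'.C4 a b c d) {a b c d z : V} (hC : T.C4 a b c d)
    (hz : z ≠ a ∧ z ≠ b ∧ z ≠ c ∧ z ≠ d) (h1 : T.R z a) (h2 : T.R c z) :
    ((T.R a c ↔ T'.R a c) ∧ (T.R b d ↔ T'.R b d) ∧ (T.R b z ↔ T'.R b z) ∧ (T.R d z ↔ T'.R d z)) ∨
    Exc T T' a b c d z ∨ Exc T T' a b c z d := by
  have n := hC.nes
  have hD : T.C4 z a b c := ⟨h1, hC.1, hC.2.1, h2⟩
  have hC' := (h _ _ _ _).1 hC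
  have hD' := (h _ _ _ _).1 hD
  have k1 := h a b d z
  have k2 := h a b z d
  have k3 := h a c d z
  have k4 := h a c z d
  have k5 := h b c d z
  have k6 := h b c z d
  have s1 := T.tot a c n.2.1
  have s2 := T.tot b d n.2.2.2.2.1
  have s3 := T.tot b z (Ne.symm hz.2.1)
  have s4 := T.tot d z (Ne.symm hz.2.2.2)
  have s1' := T'.tot a c n.2.1
  have s2' := T'.tot b d n.2.2.2.2.1
  have s3' := T'.tot b z (Ne.symm hz.2.1)
  have s4' := T'.tot d z (Ne.symm hz.2.2.2)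
  have t1 := T.asym a c
  have t2 := T.asym b d
  have t3 := T.asym b z
  have t4 := T.asym d z
  have t1' := T'.asym a c
  have t2' := T'.asym b d
  have t3' := T'.asym b z
  have t4' := T'.asym d z
  unfold Exc
  unfold Tour.C4 at *
  clear h n
  obtain ⟨c1, c2, c3, c4⟩ := hC
  obtain ⟨d1, d2, d3, d4⟩ := hD
  obtain ⟨c1', c2', c3', c4'⟩ := hC'
  obtain ⟨d1', d2', d3', d4'⟩ := hD'
  rcases s1 with s1 | s1 <;> rcases s4 with s4 | s4 <;> rcases s2 with s2 | s2 <;> rcases s3 with s3 | s3 <;>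
    grind (splits := 20)

/-- normal form, all five vertices -/
theorem e1n {T T' : Tour V} (h : ∀ a b c d, T.C4 a b c d ↔ T'.C4 a b c d) {a b c d z : V}
    (hall : ∀ x, x = a ∨ x = b ∨ x = c ∨ x = d ∨ x = z) (hC : T.C4 a b c d)
    (hz : z ≠ a ∧ z ≠ b ∧ z ≠ c ∧ z ≠ d) (h1 : T.R z a) (h2 : T.R c z) :
    (∀ x y, T.R x y ↔ T'.R x y) ∨
      ∃ p q r α β, (∀ x, x = p ∨ x = q ∨ x = r ∨ x = α ∨ x = β) ∧ Exc T T' p q r α β := by
  rcases e0 h hC hz h1 h2 with k | k | k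
  · left
    have n := hC.nes
    have hD : T.C4 z a b c := ⟨h1, hC.1, hC.2.1, h2⟩
    have hC' := (h _ _ _ _).1 hC
    have hD' := (h _ _ _ _).1 hD
    clear h
    obtain ⟨c1, c2, c3, c4⟩ := hC
    obtain ⟨d1, d2, d3, d4⟩ := hD
    obtain ⟨c1', c2', c3', c4'⟩ := hC'
    obtain ⟨d1', d2', d3', d4'⟩ := hD'
    intro x y
    have s1 := T.tot x y
    have t1 := T.asym x y
    have s2 := T'.tot x y
    have t2 := T'.asym x y
    have i1 := T.irr x
    have i2 := T'.irr x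
    rcases hall x with rfl | rfl | rfl | rfl | rfl <;> rcases hall y with rfl | rfl | rfl | rfl | rfl <;> grind
  · exact Or.inr ⟨a, b, c, d, z, hall, k⟩
  · exact Or.inr ⟨a, b, c, z, d, fun x => by rcases hall x with h | h | h | h | h <;> simp [h], k⟩

theorem e1o {T T' : Tour V} (h : ∀ a b c d, T.C4 a b c d ↔ T'.C4 a b c d) {a b c d z : V}
    (hall : ∀ x, x = a ∨ x = b ∨ x = c ∨ x = d ∨ x = z) (hC : T.C4 a b c d)
    (hz : z ≠ a ∧ z ≠ b ∧ z ≠ c ∧ z ≠ d) (h1 : T.R z a) (h2 : T.R z c) (h3 : T.R b z) (h4 : T.R d z)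
    (h5 : T.R a c) :
    (∀ x y, T.R x y ↔ T'.R x y) ∨
      ∃ p q r α β, (∀ x, x = p ∨ x = q ∨ x = r ∨ x = α ∨ x = β) ∧ Exc T T' p q r α β := by
  have n := hC.nes
  by_cases h6 : T.R b d
  · exact e1n (a := d) (b := z) (c := a) (d := c) (z := b) h (fun x => by have := hall x; clear * - this; tauto) ⟨h4, h1, h5, hC.2.2.1⟩
      (by grind) h6 hC.1
  · have h7 := T.of_not n.2.2.2.2.1 h6
    left
    have hD : T.C4 z a c d := ⟨h1, h5, hC.2.2.1, h4⟩
    have hE : T.C4 z c d b := ⟨h2, hC.2.2.1, h7, h3⟩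
    have hC' := (h _ _ _ _).1 hC
    have hD' := (h _ _ _ _).1 hD
    have hE' := (h _ _ _ _).1 hE
    clear h
    obtain ⟨c1, c2, c3, c4⟩ := hC
    obtain ⟨c1', c2', c3', c4'⟩ := hC'
    obtain ⟨d1', d2', d3', d4'⟩ := hD'
    obtain ⟨e1', e2', e3', e4'⟩ := hE'
    intro x y
    have s1 := T.tot x y
    have t1 := T.asym x y
    have s2 := T'.tot x y
    have t2 := T'.asym x y
    have i1 := T.irr x
    have i2 := T'.irr x
    rcases hall x with rfl | rfl | rfl | rfl | rfl <;> rcases hall y with rfl | rfl | rfl | rfl | rfl <;> grind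

/-- five vertices: agreement or the exceptional configuration -/
theorem e1 {T T' : Tour V} (h : ∀ a b c d, T.C4 a b c d ↔ T'.C4 a b c d) {a b c d z : V}
    (hall : ∀ x, x = a ∨ x = b ∨ x = c ∨ x = d ∨ x = z) (hC : T.C4 a b c d)
    (hz : z ≠ a ∧ z ≠ b ∧ z ≠ c ∧ z ≠ d) (hin : T.R a z ∨ T.R b z ∨ T.R c z ∨ T.R d z)
    (hout : T.R z a ∨ T.R z b ∨ T.R z c ∨ T.R z d) :
    (∀ x y, T.R x y ↔ T'.R x y) ∨
      ∃ p q r α β, (∀ x, x = p ∨ x = q ∨ x = r ∨ x = α ∨ x = β) ∧ Exc T T' p q r α β := by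
  have n := hC.nes
  have s1 := T.tot a z (Ne.symm hz.1)
  have s2 := T.tot b z (Ne.symm hz.2.1)
  have s3 := T.tot c z (Ne.symm hz.2.2.1)
  have s4 := T.tot d z (Ne.symm hz.2.2.2)
  have t1 := T.asym a z
  have t2 := T.asym b z
  have t3 := T.asym c z
  have t4 := T.asym d z
  by_cases k1 : T.R z a ∧ T.R c z
  · exact e1n h hall hC hz k1.1 k1.2
  by_cases k2 : T.R z b ∧ T.R d z
  · exact e1n h (fun x => by have := hall x; clear * - this; tauto) hC.rot (by grind) k2.1 k2.2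
  by_cases k3 : T.R z c ∧ T.R a z
  · exact e1n h (fun x => by have := hall x; clear * - this; tauto) hC.rot.rot (by grind) k3.1 k3.2
  by_cases k4 : T.R z d ∧ T.R b z
  · exact e1n h (fun x => by have := hall x; clear * - this; tauto) hC.rot.rot.rot (by grind) k4.1 k4.2
  by_cases k5 : T.R z a
  · have k6 : T.R z c := by grind
    have k7 : T.R b z := by grind
    have k8 : T.R d z := by grind
    rcases T.tot a c n.2.1 with k9 | k9
    · exact e1o h hall hC hz k5 k6 k7 k8 k9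
    · exact e1o h (fun x => by have := hall x; clear * - this; tauto) hC.rot.rot (by grind) k6 k5 k8 k7 k9
  · have k6 : T.R c z := by grind
    have k6' : T.R a z := by grind
    have k7 : T.R z b := by grind
    have k8 : T.R z d := by grind
    rcases T.tot b d n.2.2.2.2.1 with k9 | k9
    · exact e1o h (fun x => by have := hall x; clear * - this; tauto) hC.rot (by grind) k7 k8 k6 k6' k9
    · exact e1o h (fun x => by have := hall x; clear * - this; tauto) hC.rot.rot.rot (by grind) k8 k7 k6' k6 k9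

/-- the pull back of `T'` to the non-ghosts -/
def pull {ψ : Phi T T'} {f : V → W} {g : W → V} (h : CohData ψ f g) : Tour {v : V // ¬ T.Ghost v} where
  R a b := T'.R (f a.1) (f b.1)
  asym _ _ k := T'.asym _ _ k
  tot a b k := T'.tot _ _ (fun e => k (Subtype.ext (by rw [← h.gf a.1 a.2, ← h.gf b.1 b.2, e])))

theorem img4 {ψ : Phi T T'} {f : V → W} {g : W → V} (h : CohData ψ f g) {p q r s : V} (hp : ¬ T.Ghost p)
    (hq : ¬ T.Ghost q) (hr : ¬ T.Ghost r) (hs : ¬ T.Ghost s) (hC : T.C4 p q r s) :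
    T'.C4 (f p) (f q) (f r) (f s) := by
  obtain ⟨s', k0, k1, k2, k3, k4, k5⟩ := h.img3 hp hq hr hC
  have := h.coh _ _ _ _ hs hC.rot.rot.rot
  rw [k4] at this
  simp only at this
  rw [← this]
  exact k0

theorem same {ψ : Phi T T'} {f : V → W} {g : W → V} (h : CohData ψ f g) (a b c d : {v : V // ¬ T.Ghost v}) :
    (TS T).C4 a b c d ↔ (pull h).C4 a b c d := by
  constructor
  · intro hC
    exact img4 h a.2 b.2 c.2 d.2 hC
  · intro hC
    have := img4 h.symm (h.fS _ a.2) (h.fS _ b.2) (h.fS _ c.2) (h.fS _ d.2) hC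
    rw [h.gf _ a.2, h.gf _ b.2, h.gf _ c.2, h.gf _ d.2] at this
    exact this

theorem gp [Finite V] [Finite W] (hT : T.Strong) (hT' : T'.Strong) (hn : 6 ≤ Nat.card V) (hn' : 6 ≤ Nat.card W)
    {ψ : Phi T T'} {f : V → W} {g : W → V} (h : CohData ψ f g) {p q r v : V} (hp : ¬ T.Ghost p)
    (hq : ¬ T.Ghost q) (hr : ¬ T.Ghost r) (hv : T.Ghost v) (hC : T.C4 p q r v) :
    T.R r p ∧ T'.R (f r) (f p) := by
  obtain ⟨s', k0, -, -, -, -, k5⟩ := h.img3 hp hq hr hC
  exact ⟨ghost_back hT hn hv hC, ghost_back hT' hn' (k5.1 hv) k0⟩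

/-- the finite check for five vertices -/
theorem chk5 {p q r α β v b a : V} (hg : T.GhostAt v b a) (hb : b = p ∨ b = q ∨ b = r ∨ b = α ∨ b = β)
    (ha : a = p ∨ a = q ∨ a = r ∨ a = α ∨ a = β) (vp : v ≠ p) (vq : v ≠ q) (vr : v ≠ r) (va : v ≠ α) (vb : v ≠ β)
    (h1 : T.R p q) (h2 : T.R q r) (h3 : T.R r p) (h4 : T.R r α) (h5 : T.R α p) (h6 : T.R r β) (h7 : T.R β p)
    (h8 : T.R α q) (h9 : T.R q β) (h10 : T.R α β) : (T.R v β ∧ T.R q v) ∨ (T.R v q ∧ T.R α v) := by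
  obtain ⟨k1, k2, k3, k4, k5, k6, -, -⟩ := hg
  have s1 := T.tot v p vp
  have s2 := T.tot v q vq
  have s3 := T.tot v r vr
  have s4 := T.tot v α va
  have s5 := T.tot v β vb
  have t1 := T.asym v b k1
  have t2 := T.asym a v k2
  have n1 := T.ne h1
  have n2 := T.ne h2
  have n3 := T.ne h3
  have n4 := T.ne h4
  have n5 := T.ne h5
  have n6 := T.ne h6
  have n7 := T.ne h7
  have n8 := T.ne h8
  have n9 := T.ne h9
  have n10 := T.ne h10
  have u1 := k4 p q
  have u2 := k4 q r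
  have u3 := k4 r p
  have u4 := k4 r α
  have u5 := k4 α p
  have u6 := k4 r β
  have u7 := k4 β p
  have u8 := k4 α q
  have u9 := k4 q β
  have u10 := k4 α β
  have w1 := k5 p α
  have w2 := k6 r β
  clear k4 k5 k6
  by_contra hcon
  have c1 : ¬ (T.R v β ∧ T.R q v) := fun h => hcon (Or.inl h)
  have c2 : ¬ (T.R v q ∧ T.R α v) := fun h => hcon (Or.inr h)
  clear hcon
  rcases s2 with s2 | s2 <;> rcases s5 with s5 | s5 <;> rcases s4 with s4 | s4 <;> rcases s3 with s3 | s3 <;>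
    rcases s1 with s1 | s1 <;> grind

/-- the finite check for four vertices -/
theorem chk4 {a b c d v x y : V} (hg : T.GhostAt v x y) (hb : x = a ∨ x = b ∨ x = c ∨ x = d)
    (ha : y = a ∨ y = b ∨ y = c ∨ y = d) (va : v ≠ a) (vb : v ≠ b) (vc : v ≠ c) (vd : v ≠ d)
    (h1 : T.R a b) (h2 : T.R b c) (h3 : T.R c d) (h4 : T.R d a) (h5 : T.R c a) (h6 : T.R d b) :
    (x = a ∧ y = b ∧ T.R v a ∧ T.R c v) ∨ (x = b ∧ y = c ∧ T.R v a ∧ T.R c v ∧ T.R v b ∧ T.R d v) ∨
      (x = c ∧ y = d ∧ T.R v b ∧ T.R d v) := by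
  obtain ⟨k1, k2, k3, k4, k5, k6, -, -⟩ := hg
  have s1 := T.tot v a va
  have s2 := T.tot v b vb
  have s3 := T.tot v c vc
  have s4 := T.tot v d vd
  have t1 := T.asym v x k1
  have t2 := T.asym y v k2
  have t3 := T.asym x y k3
  have n1 := T.ne h1
  have n2 := T.ne h2
  have n3 := T.ne h3
  have n4 := T.ne h4
  have n5 := T.ne h5
  have n6 := T.ne h6
  have u1 := k4 a b
  have u2 := k4 b c
  have u3 := k4 c d
  have u4 := k4 d a
  have u5 := k4 c a
  have u6 := k4 d b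
  have w1 := k5 a d
  have w2 := k6 a d
  clear k4 k5 k6
  rcases s1 with s1 | s1 <;> rcases s2 with s2 | s2 <;> rcases s3 with s3 | s3 <;> rcases s4 with s4 | s4 <;>
    grind (splits := 20)

theorem exists_out [Finite V] (l : List V) (hl : l.length < Nat.card V) : ∃ z, z ∉ l := by
  classical
  by_contra hcon
  push Not at hcon
  have := Fintype.ofFinite V
  have h1 : (Finset.univ : Finset V) ⊆ l.toFinset := fun x _ => by simpa using hcon x
  have h2 := Finset.card_le_card h1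
  have h3 := List.toFinset_card_le l
  rw [Finset.card_univ, ← Nat.card_eq_fintype_card] at h2
  omega

theorem six [Finite V] {a b c d z x : V} (h1 : a ≠ b) (h2 : a ≠ c) (h3 : a ≠ d) (h4 : b ≠ c) (h5 : b ≠ d)
    (h6 : c ≠ d) (hz : z ≠ a ∧ z ≠ b ∧ z ≠ c ∧ z ≠ d) (hx : x ≠ a ∧ x ≠ b ∧ x ≠ c ∧ x ≠ d ∧ x ≠ z) :
    6 ≤ Nat.card V := by
  classical
  have := Fintype.ofFinite V
  have h : ({x, z, a, b, c, d} : Finset V).card = 6 := by
    rw [Finset.card_insert_of_notMem (by simp [hx]), Finset.card_insert_of_notMem (by simp [hz]),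
      Finset.card_insert_of_notMem (by simp [h1, h2, h3]), Finset.card_insert_of_notMem (by simp [h4, h5]),
      Finset.card_insert_of_notMem (by simp [h6]), Finset.card_singleton]
  rw [Nat.card_eq_fintype_card, ← h]
  exact Finset.card_le_univ _

theorem in_arc {T : Tour V} (hT : T.Strong) {a z : V} (h : a ≠ z) : ∃ x, T.R x z := by
  rcases Relation.ReflTransGen.cases_tail (hT a z) with h1 | ⟨c, -, h1⟩
  · exact absurd h1.symm h
  · exact ⟨c, h1⟩

theorem out_arc {T : Tour V} (hT : T.Strong) {a z : V} (h : a ≠ z) : ∃ x, T.R z x := by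
  rcases Relation.ReflTransGen.cases_head (hT z a) with h1 | ⟨c, h1, -⟩
  · exact absurd h1.symm h
  · exact ⟨c, h1⟩

/-- four non-ghosts, normal form -/
theorem four [Finite V] [Finite W] (hT : T.Strong) (hT' : T'.Strong) (hn : 6 ≤ Nat.card V) (hn' : 6 ≤ Nat.card W)
    {ψ : Phi T T'} {f : V → W} {g : W → V} (h : CohData ψ f g) {a b c d : V} (ha : ¬ T.Ghost a)
    (hb : ¬ T.Ghost b) (hc : ¬ T.Ghost c) (hd : ¬ T.Ghost d)
    (hall : ∀ x, ¬ T.Ghost x → x = a ∨ x = b ∨ x = c ∨ x = d) (h1 : T.R a b) (h2 : T.R b c) (h3 : T.R c d)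
    (h4 : T.R d a) (h5 : T.R c a) (h6 : T.R d b) : T'.R (f c) (f a) ∧ T'.R (f d) (f b) := by
  obtain ⟨v, hv⟩ := exists_out [a, b, c, d] (by simp; omega)
  obtain ⟨w, hw⟩ := exists_out [v, a, b, c, d] (by simp; omega)
  simp only [List.mem_cons, List.not_mem_nil, or_false, not_or] at hv hw
  have gv : T.Ghost v := by
    by_contra hcon
    have := hall v hcon
    tauto
  have gw : T.Ghost w := by
    by_contra hcon
    have := hall w hcon
    tauto
  obtain ⟨x, y, kv⟩ := ghost_at hT hn gv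
  obtain ⟨x', y', kw⟩ := ghost_at hT hn gw
  have nv := kv.ng hT hn gv
  have nw := kw.ng hT hn gw
  have hne : ¬ (x = x' ∧ y = y') := by
    rintro ⟨rfl, rfl⟩
    exact hw.1 (kw.eq hT hn gw gv kv)
  have c1 := chk4 kv (hall x nv.1) (hall y nv.2.1) hv.1 hv.2.1 hv.2.2.1 hv.2.2.2 h1 h2 h3 h4 h5 h6
  have c2 := chk4 kw (hall x' nw.1) (hall y' nw.2.1) hw.2.1 hw.2.2.1 hw.2.2.2.1 hw.2.2.2.2 h1 h2 h3 h4 h5 h6
  have g1 : ∀ u, T.Ghost u → T.R u a → T.R c u → T'.R (f c) (f a) := fun u gu k1 k2 =>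
    (gp hT hT' hn hn' h ha hb hc gu ⟨h1, h2, k2, k1⟩).2
  have g2 : ∀ u, T.Ghost u → T.R u b → T.R d u → T'.R (f d) (f b) := fun u gu k1 k2 =>
    (gp hT hT' hn hn' h hb hc hd gu ⟨h2, h3, k2, k1⟩).2
  have g1v := g1 v gv
  have g1w := g1 w gw
  have g2v := g2 v gv
  have g2w := g2 w gw
  clear g1 g2 nv nw kv kw hall hv hw
  grind

end Agree

open Agree

/-- the two tournaments agree on the non-ghosts -/
theorem agree [Finite V] [Finite W] (hT : T.Strong) (hT' : T'.Strong) (hn : 6 ≤ Nat.card V) (hn' : 6 ≤ Nat.card W)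
    {ψ : Phi T T'} {f : V → W} {g : W → V} (h : CohData ψ f g) :
    ∀ p q, ¬ T.Ghost p → ¬ T.Ghost q → (T.R p q ↔ T'.R (f p) (f q)) := by
  suffices key : ∀ x y : {v : V // ¬ T.Ghost v}, (TS T).R x y ↔ (pull h).R x y from
    fun p q hp hq => key ⟨p, hp⟩ ⟨q, hq⟩
  have hS := TS_strong hT hn
  have hs := same h
  by_cases h6 : 6 ≤ Nat.card {v : V // ¬ T.Ghost v}
  · exact lemU hS h6 hs
  obtain ⟨a, b, c, d, hC⟩ := exists_C4 hS (TS_four hT hn)
  have n := hC.nes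
  by_cases h5 : ∃ z, z ≠ a ∧ z ≠ b ∧ z ≠ c ∧ z ≠ d
  · obtain ⟨z, hz⟩ := h5
    have hall : ∀ x, x = a ∨ x = b ∨ x = c ∨ x = d ∨ x = z := by
      intro x
      by_contra hx
      simp only [not_or] at hx
      exact h6 (six n.1 n.2.1 n.2.2.1 n.2.2.2.1 n.2.2.2.2.1 n.2.2.2.2.2 hz hx)
    obtain ⟨x, hx⟩ := in_arc hS (Ne.symm hz.1)
    obtain ⟨y, hy⟩ := out_arc hS (Ne.symm hz.1)
    have hin : (TS T).R a z ∨ (TS T).R b z ∨ (TS T).R c z ∨ (TS T).R d z := by
      rcases hall x with rfl | rfl | rfl | rfl | rfl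
      · exact Or.inl hx
      · exact Or.inr (Or.inl hx)
      · exact Or.inr (Or.inr (Or.inl hx))
      · exact Or.inr (Or.inr (Or.inr hx))
      · exact absurd hx ((TS T).irr _)
    have hout : (TS T).R z a ∨ (TS T).R z b ∨ (TS T).R z c ∨ (TS T).R z d := by
      rcases hall y with rfl | rfl | rfl | rfl | rfl
      · exact Or.inl hy
      · exact Or.inr (Or.inl hy)
      · exact Or.inr (Or.inr (Or.inl hy))
      · exact Or.inr (Or.inr (Or.inr hy))
      · exact absurd hy ((TS T).irr _)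
    rcases e1 hs hall hC hz hin hout with k | ⟨p, q, r, α, β, hall', k⟩
    · exact k
    exfalso
    obtain ⟨k1, k2, k3, k4, k5, k6, k7, k8, k9, k10, k11, k12, k13⟩ := k
    obtain ⟨v, hv⟩ := exists_out [p.1, q.1, r.1, α.1, β.1] (by simp; omega)
    simp only [List.mem_cons, List.not_mem_nil, or_false, not_or] at hv
    have hall2 : ∀ x, ¬ T.Ghost x → x = p.1 ∨ x = q.1 ∨ x = r.1 ∨ x = α.1 ∨ x = β.1 := by
      intro x hx
      rcases hall' ⟨x, hx⟩ with rfl | rfl | rfl | rfl | rfl <;> simp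
    have gv : T.Ghost v := by
      by_contra hcon
      have := hall2 v hcon
      clear * - this hv
      tauto
    obtain ⟨b', a', kv⟩ := ghost_at hT hn gv
    have nv := kv.ng hT hn gv
    rcases chk5 kv (hall2 b' nv.1) (hall2 a' nv.2.1) hv.1 hv.2.1 hv.2.2.1 hv.2.2.2.1 hv.2.2.2.2 k1 k2 k3 k4 k5 k6
      k7 k8 k9 k10 with ⟨c1, c2⟩ | ⟨c1, c2⟩
    · exact T'.asym _ _ (gp hT hT' hn hn' h β.2 p.2 q.2 gv ⟨k7, k1, c2, c1⟩).2 k12
    · exact T'.asym _ _ (gp hT hT' hn hn' h q.2 r.2 α.2 gv ⟨k2, k4, c2, c1⟩).2 k11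
  · have hall : ∀ x, x = a ∨ x = b ∨ x = c ∨ x = d := by
      intro x
      by_contra hx
      simp only [not_or] at hx
      exact h5 ⟨x, hx⟩
    have hall2 : ∀ x, ¬ T.Ghost x → x = a.1 ∨ x = b.1 ∨ x = c.1 ∨ x = d.1 := by
      intro x hx
      rcases hall ⟨x, hx⟩ with rfl | rfl | rfl | rfl <;> simp
    have hC' := (hs _ _ _ _).1 hC
    obtain ⟨c1, c2, c3, c4⟩ := hC
    obtain ⟨d1, d2, d3, d4⟩ := hC'
    have F := fun {a b c d : V} ha hb hc hd hall => four (a := a) (b := b) (c := c) (d := d) hT hT' hn hn' h ha hb hc hd hall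
    have m : ((TS T).R c a ∧ (TS T).R d b ∧ (pull h).R c a ∧ (pull h).R d b) ∨
        ((TS T).R a c ∧ (TS T).R d b ∧ (pull h).R a c ∧ (pull h).R d b) ∨
        ((TS T).R a c ∧ (TS T).R b d ∧ (pull h).R a c ∧ (pull h).R b d) ∨
        ((TS T).R c a ∧ (TS T).R b d ∧ (pull h).R c a ∧ (pull h).R b d) := by
      rcases (TS T).tot a c n.2.1 with e1 | e1 <;> rcases (TS T).tot b d n.2.2.2.2.1 with e2 | e2
      · -- a → c, b → d : normal form for (c, d, a, b)
        have := F c.2 d.2 a.2 b.2 (fun x hx => by have := hall2 x hx; clear * - this; tauto) c3 c4 c1 c2 e1 e2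
        exact Or.inr (Or.inr (Or.inl ⟨e1, e2, this.1, this.2⟩))
      · -- a → c, d → b : normal form for (b, c, d, a): d → b, a → c
        have := F b.2 c.2 d.2 a.2 (fun x hx => by have := hall2 x hx; clear * - this; tauto) c2 c3 c4 c1 e2 e1
        exact Or.inr (Or.inl ⟨e1, e2, this.2, this.1⟩)
      · -- c → a, b → d : normal form for (d, a, b, c): b → d, c → a
        have := F d.2 a.2 b.2 c.2 (fun x hx => by have := hall2 x hx; clear * - this; tauto) c4 c1 c2 c3 e2 e1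
        exact Or.inr (Or.inr (Or.inr ⟨e1, e2, this.2, this.1⟩))
      · have := F a.2 b.2 c.2 d.2 hall2 c1 c2 c3 c4 e1 e2
        exact Or.inl ⟨e1, e2, this.1, this.2⟩
    clear F hall2
    intro x y
    have s1 := (TS T).tot x y
    have t1 := (TS T).asym x y
    have s2 := (pull h).tot x y
    have t2 := (pull h).asym x y
    have i1 := (TS T).irr x
    have i2 := (pull h).irr x
    generalize TS T = Q at *
    generalize pull h = Q' at *
    clear hs hS
    rcases hall x with rfl | rfl | rfl | rfl <;> rcases hall y with rfl | rfl | rfl | rfl <;> grind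

end Pool.Agent.Helper98.FC
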