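import Mathlib

/-!
# Four-circuits of tournaments, base file (MP_ebd9af_co)
-/

namespace Pool.Agent.Helper98.FC

universe u v

/-- A tournament on `V` (no finiteness). -/
structure Tour (V : Type u) where
  R : V → V → Prop
  asym : ∀ a b, R a b → ¬ R b a
  tot : ∀ a b, a ≠ b → R a b ∨ R b a

variable {V : Type u} {W : Type v}

namespace Tour

theorem irr (T : Tour V) (a : V) : ¬ T.R a a := fun h => T.asym a a h h

theorem ne (T : Tour V) {a b : V} (h : T.R a b) : a ≠ b := by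
  rintro rfl
  exact T.irr _ h

/-- `not_R`: if `a ≠ b` and not `a → b` then `b → a`. -/
theorem of_not (T : Tour V) {a b : V} (hab : a ≠ b) (h : ¬ T.R a b) : T.R b a :=
  (T.tot a b hab).resolve_left h

/-- The converse tournament. -/
def conv (T : Tour V) : Tour V where
  R a b := T.R b a
  asym a b h := T.asym b a h
  tot a b h := (T.tot a b h).symm

/-- `a → b → c → d → a`. -/
def C4 (T : Tour V) (a b c d : V) : Prop := T.R a b ∧ T.R b c ∧ T.R c d ∧ T.R d a

/-- Strong: every vertex can be reached from every vertex. -/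
def Strong (T : Tour V) : Prop := ∀ a b, Relation.ReflTransGen T.R a b

end Tour

/-- The arc set of the closed walk `a b c d`. -/
def arcs4 (a b c d : V) : Set (V × V) := {(a, b), (b, c), (c, d), (d, a)}

namespace Tour

/-- Two arcs (pairs) lie in a common 4-circuit. -/
def Co (T : Tour V) (p q : V × V) : Prop :=
  ∃ a b c d, T.C4 a b c d ∧ p ∈ arcs4 a b c d ∧ q ∈ arcs4 a b c d

/-- Three arcs (pairs) lie in a common 4-circuit. -/
def Co3 (T : Tour V) (p q r : V × V) : Prop :=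
  ∃ a b c d, T.C4 a b c d ∧ p ∈ arcs4 a b c d ∧ q ∈ arcs4 a b c d ∧ r ∈ arcs4 a b c d

theorem C4.rot {T : Tour V} {a b c d : V} (h : T.C4 a b c d) : T.C4 b c d a :=
  ⟨h.2.1, h.2.2.1, h.2.2.2, h.1⟩

theorem C4.ne13 {T : Tour V} {a b c d : V} (h : T.C4 a b c d) : a ≠ c := by
  rintro rfl
  exact T.asym _ _ h.1 h.2.1

theorem C4.ne24 {T : Tour V} {a b c d : V} (h : T.C4 a b c d) : b ≠ d := h.rot.ne13

theorem Co.symm {T : Tour V} {p q : V × V} (h : T.Co p q) : T.Co q p := by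
  obtain ⟨a, b, c, d, h1, h2, h3⟩ := h
  exact ⟨a, b, c, d, h1, h3, h2⟩

/-- Normal form: a circuit through `(x,y)` starts with `x → y`. -/
theorem exists_of_mem {T : Tour V} {x y a b c d : V} (h : T.C4 a b c d) (hm : (x, y) ∈ arcs4 a b c d) :
    ∃ z w, T.C4 x y z w ∧ arcs4 x y z w = arcs4 a b c d := by
  simp only [arcs4, Set.mem_insert_iff, Set.mem_singleton_iff, Prod.mk.injEq] at hm
  rcases hm with ⟨rfl, rfl⟩ | ⟨rfl, rfl⟩ | ⟨rfl, rfl⟩ | ⟨rfl, rfl⟩
  · exact ⟨c, d, h, rfl⟩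
  · refine ⟨d, a, h.rot, ?_⟩
    ext q; simp only [arcs4, Set.mem_insert_iff, Set.mem_singleton_iff]; tauto
  · refine ⟨a, b, h.rot.rot, ?_⟩
    ext q; simp only [arcs4, Set.mem_insert_iff, Set.mem_singleton_iff]; tauto
  · refine ⟨b, c, h.rot.rot.rot, ?_⟩
    ext q; simp only [arcs4, Set.mem_insert_iff, Set.mem_singleton_iff]; tauto

theorem co_iff {T : Tour V} {x y : V} {q : V × V} :
    T.Co (x, y) q ↔ ∃ z w, T.C4 x y z w ∧ q ∈ arcs4 x y z w := by
  constructor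
  · rintro ⟨a, b, c, d, h1, h2, h3⟩
    obtain ⟨z, w, h4, h5⟩ := exists_of_mem h1 h2
    exact ⟨z, w, h4, h5 ▸ h3⟩
  · rintro ⟨z, w, h1, h2⟩
    exact ⟨x, y, z, w, h1, by simp [arcs4], h2⟩

theorem co3_iff {T : Tour V} {x y : V} {q r : V × V} :
    T.Co3 (x, y) q r ↔ ∃ z w, T.C4 x y z w ∧ q ∈ arcs4 x y z w ∧ r ∈ arcs4 x y z w := by
  constructor
  · rintro ⟨a, b, c, d, h1, h2, h3, h4⟩
    obtain ⟨z, w, h5, h6⟩ := exists_of_mem h1 h2
    exact ⟨z, w, h5, h6 ▸ h3, h6 ▸ h4⟩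
  · rintro ⟨z, w, h1, h2, h3⟩
    exact ⟨x, y, z, w, h1, by simp [arcs4], h2, h3⟩

/-- two arcs of a circuit with the same tail are equal -/
theorem Co.tail {T : Tour V} {a b c : V} (h : T.Co (a, b) (a, c)) : b = c := by
  obtain ⟨z, w, h1, h2⟩ := co_iff.1 h
  simp only [arcs4, Set.mem_insert_iff, Set.mem_singleton_iff, Prod.mk.injEq] at h2
  have := h1.ne13; have := h1.ne24; have := T.ne h1.1; have := T.ne h1.2.1; have := T.ne h1.2.2.1; have := T.ne h1.2.2.2
  grind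

/-- two arcs of a circuit with the same head are equal -/
theorem Co.head {T : Tour V} {a b c : V} (h : T.Co (a, c) (b, c)) : a = b := by
  obtain ⟨z, w, h1, h2⟩ := co_iff.1 h
  simp only [arcs4, Set.mem_insert_iff, Set.mem_singleton_iff, Prod.mk.injEq] at h2
  have := h1.ne13; have := h1.ne24; have := T.ne h1.1; have := T.ne h1.2.1; have := T.ne h1.2.2.1; have := T.ne h1.2.2.2
  grind

/-- two disjoint arcs of a circuit: the circuit is `a b c d` -/
theorem Co.disj {T : Tour V} {a b c d : V} (h : T.Co (a, b) (c, d)) (hbc : b ≠ c) (hda : d ≠ a) (hac : a ≠ c) :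
    T.C4 a b c d := by
  obtain ⟨z, w, h1, h2⟩ := co_iff.1 h
  simp only [arcs4, Set.mem_insert_iff, Set.mem_singleton_iff, Prod.mk.injEq] at h2
  grind

/-- consecutive arcs of a circuit -/
theorem Co.cons {T : Tour V} {a b c : V} (h : T.Co (a, b) (b, c)) : ∃ d, T.C4 a b c d := by
  obtain ⟨z, w, h1, h2⟩ := co_iff.1 h
  simp only [arcs4, Set.mem_insert_iff, Set.mem_singleton_iff, Prod.mk.injEq] at h2
  have := h1.ne13; have := h1.ne24; have := T.ne h1.1; have := T.ne h1.2.1; have := T.ne h1.2.2.1; have := T.ne h1.2.2.2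
  grind

end Tour


namespace Tour

variable {T : Tour V} {a b c d : V}

theorem C4.co12 (h : T.C4 a b c d) : T.Co (a, b) (b, c) := ⟨a, b, c, d, h, by simp [arcs4], by simp [arcs4]⟩
theorem C4.co13 (h : T.C4 a b c d) : T.Co (a, b) (c, d) := ⟨a, b, c, d, h, by simp [arcs4], by simp [arcs4]⟩
theorem C4.co14 (h : T.C4 a b c d) : T.Co (a, b) (d, a) := ⟨a, b, c, d, h, by simp [arcs4], by simp [arcs4]⟩
theorem C4.co23 (h : T.C4 a b c d) : T.Co (b, c) (c, d) := ⟨a, b, c, d, h, by simp [arcs4], by simp [arcs4]⟩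
theorem C4.co24 (h : T.C4 a b c d) : T.Co (b, c) (d, a) := ⟨a, b, c, d, h, by simp [arcs4], by simp [arcs4]⟩
theorem C4.co34 (h : T.C4 a b c d) : T.Co (c, d) (d, a) := ⟨a, b, c, d, h, by simp [arcs4], by simp [arcs4]⟩
theorem C4.co123 (h : T.C4 a b c d) : T.Co3 (a, b) (b, c) (c, d) :=
  ⟨a, b, c, d, h, by simp [arcs4], by simp [arcs4], by simp [arcs4]⟩
theorem C4.co124 (h : T.C4 a b c d) : T.Co3 (a, b) (b, c) (d, a) :=
  ⟨a, b, c, d, h, by simp [arcs4], by simp [arcs4], by simp [arcs4]⟩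
theorem C4.co134 (h : T.C4 a b c d) : T.Co3 (a, b) (c, d) (d, a) :=
  ⟨a, b, c, d, h, by simp [arcs4], by simp [arcs4], by simp [arcs4]⟩
theorem C4.co234 (h : T.C4 a b c d) : T.Co3 (b, c) (c, d) (d, a) :=
  ⟨a, b, c, d, h, by simp [arcs4], by simp [arcs4], by simp [arcs4]⟩

/-- all pairwise distinctness facts of a circuit -/
theorem C4.nes (h : T.C4 a b c d) : a ≠ b ∧ a ≠ c ∧ a ≠ d ∧ b ≠ c ∧ b ≠ d ∧ c ≠ d :=
  ⟨T.ne h.1, h.ne13, (T.ne h.2.2.2).symm, T.ne h.2.1, h.ne24, T.ne h.2.2.1⟩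

/-- The arc `a → b` lies in some circuit. -/
def Cov (T : Tour V) (a b : V) : Prop := ∃ p q, T.C4 a b p q

/-- `a → b → c → d → a` is the only circuit through `a → b`. -/
def U (T : Tour V) (a b c d : V) : Prop := ∀ p q, T.C4 a b p q → p = c ∧ q = d

/-- `a → b` lies in at least two circuits. -/
def Big (T : Tour V) (a b : V) : Prop := ∃ p q p' q', T.C4 a b p q ∧ T.C4 a b p' q' ∧ ¬ (p = p' ∧ q = q')

/-- Some circuit contains exactly one of the two arcs of the path `a → b → c`. -/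
def Rig (T : Tour V) (a b c : V) : Prop :=
  (∃ y w, T.C4 a b y w ∧ y ≠ c) ∨ (∃ y w, T.C4 b c y w ∧ w ≠ a)

/-- The circuit `a b c d` can be flipped: the opposite arcs `b → c` and `d → a` lie in no other circuit. -/
def Flip (T : Tour V) (a b c d : V) : Prop := T.C4 a b c d ∧ T.U b c d a ∧ T.U d a b c

/-- A circuit which can not be flipped. -/
def NF (T : Tour V) (a b c d : V) : Prop := T.C4 a b c d ∧ ¬ T.Flip a b c d ∧ ¬ T.Flip b c d a

theorem Flip.rot2 (h : T.Flip a b c d) : T.Flip c d a b := ⟨h.1.rot.rot, h.2.2, h.2.1⟩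

theorem NF.rot (h : T.NF a b c d) : T.NF b c d a := ⟨h.1.rot, h.2.2, fun h' => h.2.1 h'.rot2⟩

end Tour

/-- A bijection between the arcs of `T` and of `T'` (given by two maps on pairs, only used on arcs) such that both
directions map 4-circuits to 4-circuits. -/
structure Phi (T : Tour V) (T' : Tour W) where
  f : V × V → W × W
  g : W × W → V × V
  fa : ∀ p, T.R p.1 p.2 → T'.R (f p).1 (f p).2
  ga : ∀ q, T'.R q.1 q.2 → T.R (g q).1 (g q).2
  gf : ∀ p, T.R p.1 p.2 → g (f p) = p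
  fg : ∀ q, T'.R q.1 q.2 → f (g q) = q
  fC : ∀ a b c d, T.C4 a b c d → ∃ w x y z, T'.C4 w x y z ∧ f '' arcs4 a b c d = arcs4 w x y z
  gC : ∀ w x y z, T'.C4 w x y z → ∃ a b c d, T.C4 a b c d ∧ g '' arcs4 w x y z = arcs4 a b c d

end Pool.Agent.Helper98.FC
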