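import Pool.Agent.Helper98.FC.ClaimT

/-!
# Claim T, Case 1, and the claim itself: in a twisted circuit `a b c d` the row `a → b → c` and the column `c → d → a`
are not both rigid.
-/

namespace Pool.Agent.Helper98.FC

universe u v

variable {V : Type u} {W : Type v} {T : Tour V} {T' : Tour W}

namespace Tw

variable {φ : Phi T T'} {a b c d : V} {a' b' c' d' : W}

/-- tightness, other direction -/
theorem tight2 (h : Tw φ a b c d a' b' c' d') {z : V} (h1 : T.R d z) (h2 : T.R z b) : z = a :=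
  h.rot.tight h1 h2

/-- Case 1, first step. -/
theorem case1_split (h : Tw φ a b c d a' b' c' d') {y u : V} (hby : T.R b y) (hdy : T.R d y) (hyu : T.R y u)
    (hua : T.R u a) (huc : T.R u c) :
    (∃ w' z', φ.f (y, u) = (b', d') ∧ T'.C4 a' b' d' w' ∧ T'.C4 b' d' a' z' ∧
      ((φ.f (b, y) = (d', w') ∧ φ.f (u, a) = (w', a')) ∨ (φ.f (b, y) = (w', a') ∧ φ.f (u, a) = (d', w'))) ∧
      ((φ.f (d, y) = (a', z') ∧ φ.f (u, c) = (z', b')) ∨ (φ.f (d, y) = (z', b') ∧ φ.f (u, c) = (a', z')))) ∨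
    (∃ y' p', y' ≠ c' ∧ p' ≠ c' ∧ φ.f (y, u) = (y', p') ∧ T'.C4 a' b' y' p' ∧ T'.C4 d' a' y' p' ∧
      ((φ.f (b, y) = (b', y') ∧ φ.f (u, a) = (p', a')) ∨ (φ.f (b, y) = (p', a') ∧ φ.f (u, a) = (b', y'))) ∧
      ((φ.f (d, y) = (a', y') ∧ φ.f (u, c) = (p', d')) ∨ (φ.f (d, y) = (p', d') ∧ φ.f (u, c) = (a', y')))) := by
  have hF : T.C4 a b y u := ⟨h.C.1, hby, hyu, hua⟩
  have hD : T.C4 c d y u := ⟨h.C.2.2.1, hdy, hyu, huc⟩
  obtain ⟨Y, X, h3, h4, h5⟩ := φ.img1 hF h.ab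
  obtain ⟨Z, P, h6, h7, h8⟩ := φ.img1 hD h.cd
  have m1 := h4 (b, y) (by simp [arcs4])
  have m2 := h4 (y, u) (by simp [arcs4])
  have m3 := h4 (u, a) (by simp [arcs4])
  have m4 := h7 (d, y) (by simp [arcs4])
  have m5 := h7 (y, u) (by simp [arcs4])
  have m6 := h7 (u, c) (by simp [arcs4])
  have k1 := h5 (b', c')
  have k2 := h5 (c', d')
  have k3 := h8 (c', d')
  have k4 := h8 (a', b')
  have k5 := h5 (d', a')
  rw [h.gbc] at k1
  rw [h.gcd'] at k2 k3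
  rw [h.gab] at k4
  rw [h.gda] at k5
  have t1 : ∀ w, T'.R b' w → T'.R w d' → w = c' := fun w u v => h.symm.tight u v
  have t2 : ∀ w, T'.R d' w → T'.R w b' → w = a' := fun w u v => h.symm.tight2 u v
  have g1 := φ.gf (b, y) hby
  have g2 := φ.gf (y, u) hyu
  have g3 := φ.gf (u, a) hua
  have g4 := φ.gf (d, y) hdy
  have g5 := φ.gf (u, c) huc
  have g6 := h.gab
  have g7 := h.gda
  have n1 := hD.nes
  have n2 := hF.nes
  have n3 := h3.nes
  have n4 := h6.nes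
  have n5 := h.C'.nes
  have n6 := h.C.nes
  have as' := T'.asym
  have tt := T'.tot
  have C' := h.C'
  have n7 := T.ne hby
  clear h4 h5 h7 h8
  have key : (φ.f (y, u) = (b', Y) ∧ P = b' ∧ Y = d') ∨ (φ.f (y, u) = (Y, X) ∧ Z = Y ∧ P = X) := by
    clear m1 m3 m4 m6 g1 g3 g4 g5
    unfold Tour.C4 at *
    generalize φ.f (y, u) = q at *
    obtain ⟨q1, q2⟩ := q
    simp only [mem_arcs4, Prod.mk.injEq] at *
    grind
  rcases key with ⟨e1, rfl, rfl⟩ | ⟨e1, rfl, rfl⟩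
  · refine Or.inl ⟨X, Z, e1, h3, ?_, ?_, ?_⟩
    · obtain ⟨q1, q2, q3, q4⟩ := h6
      exact ⟨q4, q1, q2, q3⟩
    · clear m2 m4 m5 m6 g4 g5
      rw [e1] at g2
      generalize φ.f (b, y) = p at *
      generalize φ.f (u, a) = r at *
      obtain ⟨p1, p2⟩ := p
      obtain ⟨r1, r2⟩ := r
      simp only [mem_arcs4, Prod.mk.injEq] at *
      grind
    · clear m1 m2 m3 m5 g1 g3
      rw [e1] at g2
      generalize φ.f (d, y) = p at *
      generalize φ.f (u, c) = r at *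
      obtain ⟨p1, p2⟩ := p
      obtain ⟨r1, r2⟩ := r
      simp only [mem_arcs4, Prod.mk.injEq] at *
      grind
  · refine Or.inr ⟨Z, P, ?_, ?_, e1, h3, h6, ?_, ?_⟩
    · clear m1 m2 m3 m4 m5 m6 g1 g3 g4 g5
      simp only [mem_arcs4, Prod.mk.injEq] at *
      grind
    · clear m1 m2 m3 m4 m5 m6 g1 g3 g4 g5
      simp only [mem_arcs4, Prod.mk.injEq] at *
      grind
    · clear m2 m4 m5 m6 g4 g5
      rw [e1] at g2
      generalize φ.f (b, y) = p at *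
      generalize φ.f (u, a) = r at *
      obtain ⟨p1, p2⟩ := p
      obtain ⟨r1, r2⟩ := r
      simp only [mem_arcs4, Prod.mk.injEq] at *
      grind
    · clear m1 m2 m3 m5 g1 g3
      rw [e1] at g2
      generalize φ.f (d, y) = p at *
      generalize φ.f (u, c) = r at *
      obtain ⟨p1, p2⟩ := p
      obtain ⟨r1, r2⟩ := r
      simp only [mem_arcs4, Prod.mk.injEq] at *
      grind


/-- two arcs of a common circuit of `T` with disjoint images `x → y`, `z → w` -/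
theorem _root_.Pool.Agent.Helper98.FC.Phi.opp' (φ : Phi T T') {p q : V × V} (h : T.Co p q) {x y z w : W}
    (e1 : φ.f p = (x, y)) (e2 : φ.f q = (z, w)) (hyz : y ≠ z) (hwx : w ≠ x) (hxz : x ≠ z) : T'.C4 x y z w := by
  have := φ.co h
  rw [e1, e2] at this
  exact this.disj hyz hwx hxz

/-- the two other arcs of a circuit with two disjoint images -/
theorem _root_.Pool.Agent.Helper98.FC.Phi.two (φ : Phi T T') {a b c d : V} (h : T.C4 a b c d) {x y z w : W}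
    (e1 : φ.f (a, b) = (x, y)) (e2 : φ.f (c, d) = (z, w)) (hyz : y ≠ z) (hwx : w ≠ x) (hxz : x ≠ z) :
    (φ.f (b, c) = (y, z) ∧ φ.f (d, a) = (w, x)) ∨ (φ.f (b, c) = (w, x) ∧ φ.f (d, a) = (y, z)) := by
  obtain ⟨z1, w1, h3, h4, h5⟩ := φ.img1 h e1
  have m1 := h4 (b, c) (by simp [arcs4])
  have m2 := h4 (c, d) (by simp [arcs4])
  have m3 := h4 (d, a) (by simp [arcs4])
  have g1 := φ.gf (a, b) h.1
  have g2 := φ.gf (b, c) h.2.1
  have g3 := φ.gf (c, d) h.2.2.1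
  have g4 := φ.gf (d, a) h.2.2.2
  have n := h.nes
  have n' := h3.nes
  clear h4 h5
  rw [e1] at g1
  rw [e2] at g3 m2
  generalize φ.f (b, c) = p at *
  generalize φ.f (d, a) = r at *
  obtain ⟨p1, p2⟩ := p
  obtain ⟨r1, r2⟩ := r
  simp only [mem_arcs4, Prod.mk.injEq] at *
  grind

theorem case1_alpha (h : Tw φ a b c d a' b' c' d') {y u : V} (hua : T.R u a) (huc : T.R u c) (hbu : u ≠ b) (hdu : u ≠ d)
    {w' z' : W} (h1 : T'.C4 a' b' d' w') (h2 : T'.C4 b' d' a' z')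
    (h3 : (φ.f (b, y) = (d', w') ∧ φ.f (u, a) = (w', a')) ∨ (φ.f (b, y) = (w', a') ∧ φ.f (u, a) = (d', w')))
    (h4 : (φ.f (d, y) = (a', z') ∧ φ.f (u, c) = (z', b')) ∨ (φ.f (d, y) = (z', b') ∧ φ.f (u, c) = (a', z'))) : False := by
  have g1 := φ.gf (u, a) hua
  have g2 := φ.gf (u, c) huc
  have g3 := h.gbc
  have g4 := h.gcd'
  rcases T'.tot a' c' h.C'.ne13 with hac | hca
  · have hC : T'.C4 a' c' d' w' := ⟨hac, h.C'.2.2.1, h1.2.2.1, h1.2.2.2⟩
    rcases h3 with ⟨-, e⟩ | ⟨-, e⟩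
    · rw [e] at g1
      have := φ.symm.head_eq hC.co24 (by simp only [Phi.symm_f]; rw [g1, g4])
      grind
    · rw [e] at g1
      have := φ.symm.head_eq hC.co23 (by simp only [Phi.symm_f]; rw [g1, g4])
      grind
  · have hC : T'.C4 c' a' z' b' := ⟨hca, h2.2.2.1, h2.2.2.2, h.C'.2.1⟩
    rcases h4 with ⟨-, e⟩ | ⟨-, e⟩
    · rw [e] at g2
      have := φ.symm.head_eq hC.co34 (by simp only [Phi.symm_f]; rw [g2, g3])
      grind
    · rw [e] at g2
      have := φ.symm.head_eq hC.co24 (by simp only [Phi.symm_f]; rw [g2, g3])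
      grind

theorem case1_beta (h : Tw φ a b c d a' b' c' d') {y u : V} (hby : T.R b y) (hdy : T.R d y) (hyu : T.R y u)
    (hua : T.R u a) (huc : T.R u c)
    {y' p' : W} (hyc : y' ≠ c') (hpc : p' ≠ c') (e : φ.f (y, u) = (y', p')) (h1 : T'.C4 a' b' y' p') (h2 : T'.C4 d' a' y' p')
    (h3 : (φ.f (b, y) = (b', y') ∧ φ.f (u, a) = (p', a')) ∨ (φ.f (b, y) = (p', a') ∧ φ.f (u, a) = (b', y')))
    (h4 : (φ.f (d, y) = (a', y') ∧ φ.f (u, c) = (p', d')) ∨ (φ.f (d, y) = (p', d') ∧ φ.f (u, c) = (a', y'))) : False := by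
  have nF : T.C4 a b y u := ⟨h.C.1, hby, hyu, hua⟩
  have nD : T.C4 c d y u := ⟨h.C.2.2.1, hdy, hyu, huc⟩
  have nF' := nF.nes
  have nD' := nD.nes
  obtain ⟨a1, a2, a3, a4, a5, a6⟩ := h1.nes
  obtain ⟨b1, b2, b3, b4, b5, b6⟩ := h2.nes
  obtain ⟨c1, c2, c3, c4, c5, c6⟩ := h.C.nes
  obtain ⟨d1, d2, d3, d4, d5, d6⟩ := h.C'.nes
  have hya : y ≠ a := fun e => T.asym _ _ h.C.1 (e ▸ hby)
  have hyc' : y ≠ c := fun e => T.asym _ _ h.C.2.2.1 (e ▸ hdy)
  have hua' : u ≠ a := T.ne hua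
  have huc' : u ≠ c := T.ne huc
  have hdy' : T'.R d' y' := T'.of_not b2.symm fun hh => hyc (h.symm.tight h1.2.1 hh)
  have hpb' : T'.R p' b' := T'.of_not a5 fun hh => hpc (h.symm.tight hh h2.2.2.2)
  -- the two circuits through `y → u`
  have Lbc : T.R c y → T.R u b → T'.R c' y' ∧ ((φ.f (c, y) = (c', y') ∧ φ.f (u, b) = (p', b')) ∨
      (φ.f (c, y) = (p', b') ∧ φ.f (u, b) = (c', y'))) := by
    intro k1 k2
    have hC : T.C4 b c y u := ⟨h.C.2.1, k1, hyu, k2⟩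
    exact ⟨(φ.opp' hC.co13 h.bc e hyc.symm a5.symm a4).2.1,
      φ.two hC h.bc e hyc.symm a5.symm a4⟩
  have Lda : T.R a y → T.R u d → T'.R p' c' ∧ ((φ.f (a, y) = (d', y') ∧ φ.f (u, d) = (p', c')) ∨
      (φ.f (a, y) = (p', c') ∧ φ.f (u, d) = (d', y'))) := by
    intro k1 k2
    have hC : T.C4 d a y u := ⟨h.C.2.2.2, k1, hyu, k2⟩
    exact ⟨(φ.opp' hC.co13 h.da e b2 hpc hyc.symm).2.2.2,
      φ.two hC h.da e b2 hpc hyc.symm⟩
  have ge : φ.g (y', p') = (y, u) := by rw [← e]; exact φ.gf (y, u) hyu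
  have gF1 := φ.gf (b, y) hby
  have gF2 := φ.gf (u, a) hua
  have gD1 := φ.gf (d, y) hdy
  have gD2 := φ.gf (u, c) huc
  -- final contradiction
  have fin : T.R c y → T.R a y → T.R u b → T.R u d → False := by
    intro k1 k2 k3 k4
    obtain ⟨-, hbc⟩ := Lbc k1 k3
    obtain ⟨-, hda⟩ := Lda k2 k4
    rcases T.tot b d c5 with hbd | hdb
    · have hC : T.C4 u b d y := ⟨k3, hbd, hdy, hyu⟩
      have hn := hC.nes
      rcases hbc with ⟨-, q1⟩ | ⟨-, q1⟩ <;> rcases h4 with ⟨q2, -⟩ | ⟨q2, -⟩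
      · have := (φ.opp' hC.co13 q1 q2 a1.symm a6 a3.symm).2.1
        exact T'.asym _ _ this h.C'.1
      · have := φ.tail_eq hC.co13 (by rw [q1, q2])
        grind
      · have := φ.head_eq hC.co13 (by rw [q1, q2])
        grind
      · have := (φ.opp' hC.co13 q1 q2 a6 d6.symm hpc.symm).2.2.2
        exact T'.asym _ _ this h.C'.2.2.1
    · have hC : T.C4 u d b y := ⟨k4, hdb, hby, hyu⟩
      have hn := hC.nes
      rcases hda with ⟨-, q1⟩ | ⟨-, q1⟩ <;> rcases h3 with ⟨q2, -⟩ | ⟨q2, -⟩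
      · have := (φ.opp' hC.co13 q1 q2 d4.symm a6 a5.symm).2.1
        exact T'.asym _ _ this h.C'.2.1
      · have := φ.tail_eq hC.co13 (by rw [q1, q2])
        grind
      · have := φ.head_eq hC.co13 (by rw [q1, q2])
        grind
      · have := (φ.opp' hC.co13 q1 q2 a6 d3 b3).2.2.2
        exact T'.asym _ _ this h.C'.2.2.2
  -- `c' → y'` or `p' → c'`
  have S1 : T'.R c' y' ∨ T'.R p' c' := by
    by_contra hn
    push Not at hn
    have k1 : T'.R y' c' := T'.of_not (Ne.symm hyc) hn.1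
    have k2 : T'.R c' p' := T'.of_not hpc hn.2
    have hG : T'.C4 a' y' c' p' := ⟨h2.2.1, k1, k2, h1.2.2.2⟩
    have hco := φ.symm.co hG.co14
    simp only [Phi.symm_f] at hco
    rcases h3 with ⟨q1, q1'⟩ | ⟨q1, q1'⟩ <;> rcases h4 with ⟨q2, q2'⟩ | ⟨q2, q2'⟩ <;>
      rw [q1] at gF1 <;> rw [q1'] at gF2 <;> rw [q2] at gD1 <;> rw [q2'] at gD2
    · rw [gD1, gF2] at hco
      have := (hco.disj nD'.2.2.2.2.2 c3 nD'.2.2.2.2.1).2.2.2
      exact T.asym _ _ this h.C.2.2.2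
    · rw [gD2, gF2] at hco
      exact c2 hco.tail.symm
    · rw [gD1, gF1] at hco
      exact c5 hco.head.symm
    · rw [gD2, gF1] at hco
      have := (hco.disj c4.symm nF'.2.2.2.2.2 nF'.2.2.2.2.1.symm).2.1
      exact T.asym _ _ this h.C.2.1
  rcases S1 with hS | hS
  · have hC' : T'.C4 b' c' y' p' := ⟨h.C'.2.1, hS, h1.2.2.1, hpb'⟩
    have hC : T.C4 b c y u := φ.symm.opp' hC'.co13 h.gbc ge hyc'.symm nF'.2.2.2.2.1.symm nF'.2.2.2.1
    have hub : T.R u b := hC.2.2.2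
    have hcy : T.R c y := hC.2.1
    have hud : T.R u d := T.of_not nD'.2.2.2.2.1 fun hh => hua' (h.tight2 hh hub)
    have hay : T.R a y := by
      by_contra hn
      have hy : T.R y a := T.of_not (Ne.symm hya) hn
      have hY : T.C4 a b c y := ⟨h.C.1, h.C.2.1, hcy, hy⟩
      obtain ⟨m', hm, hm'⟩ := h.col hcy hy
      obtain ⟨-, hbc⟩ := Lbc hcy hub
      have hm1 := hm.nes
      have := hm.2.2.2
      have := T'.asym _ _ h2.2.1
      grind
    exact fin hcy hay hub hud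
  · have hC' : T'.C4 c' d' y' p' := ⟨h.C'.2.2.1, hdy', h1.2.2.1, hS⟩
    have hC : T.C4 d a y u := φ.symm.opp' hC'.co13 h.gcd' ge hya.symm nD'.2.2.2.2.1.symm nD'.2.2.2.1
    have hud : T.R u d := hC.2.2.2
    have hay : T.R a y := hC.2.1
    have hub : T.R u b := T.of_not nF'.2.2.2.2.1 fun hh => huc' (h.tight hh hud)
    have hcy : T.R c y := by
      by_contra hn
      have hy : T.R y c := T.of_not (Ne.symm hyc') hn
      -- row `y` of the grid: `a → y → c`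
      obtain ⟨m', hm, hm'⟩ := h.rot.col hay hy
      obtain ⟨-, hda⟩ := Lda hay hud
      simp only [Phi.convR_f, Prod.swap_eq_iff_eq_swap, Prod.swap_prod_mk] at hm'
      have hm1 := hm.nes
      have hm2 := (Tour.conv_C4 _ _ _ _ _).1 hm
      have := hm2.2.2.2
      have := T'.asym _ _ h1.2.2.2
      clear Lbc Lda fin ge gF1 gF2 gD1 gD2 h3 h4
      grind
    exact fin hcy hay hub hud

/-- Case 1 is impossible. -/
theorem case1 (h : Tw φ a b c d a' b' c' d') {y u : V} (hby : T.R b y) (hdy : T.R d y) (hyu : T.R y u)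
    (hua : T.R u a) (huc : T.R u c) : False := by
  have nF : T.C4 a b y u := ⟨h.C.1, hby, hyu, hua⟩
  have nD : T.C4 c d y u := ⟨h.C.2.2.1, hdy, hyu, huc⟩
  rcases h.case1_split hby hdy hyu hua huc with ⟨w', z', -, h1, h2, h3, h4⟩ | ⟨y', p', hy, hp, e, h1, h2, h3, h4⟩
  · exact h.case1_alpha hua huc nF.ne24.symm nD.ne24.symm h1 h2 h3 h4
  · exact h.case1_beta hby hdy hyu hua huc hy hp e h1 h2 h3 h4

theorem rowrig1 (h : Tw φ a b c d a' b' c' d') {y w : V} (hF : T.C4 a b y w) (hy : y ≠ c) :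
    T.R c a ∨ ∃ w, T.R b d ∧ T.R d w ∧ T.R w a := by
  by_cases hwc : w = c
  · subst hwc; exact Or.inl hF.2.2.2
  rcases T.tot c w (Ne.symm hwc) with hcw | hwc'
  · by_cases hwd : w = d
    · subst hwd
      exact absurd (h.tight hF.2.1 hF.2.2.1) hy
    · exact Or.inl (h.F1' hF hy hcw hwd)
  · by_cases hyd : y = d
    · subst hyd
      exact Or.inr ⟨w, hF.2.1, hF.2.2.1, hF.2.2.2⟩
    · rcases T.tot d y (Ne.symm hyd) with hdy | hyd'
      · exact (h.case1 hF.2.1 hdy hF.2.2.1 hF.2.2.2 hwc').elim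
      · exact absurd (h.tight hF.2.1 hyd') hy

/-- a rigid row -/
theorem rowrig (h : Tw φ a b c d a' b' c' d') (hr : T.Rig a b c) :
    T.R c a ∨ (∃ w, T.R b d ∧ T.R d w ∧ T.R w a) ∨ (∃ w, T.R d b ∧ T.R w d ∧ T.R c w) := by
  rcases hr with ⟨y, w, h1, h2⟩ | ⟨y, w, h1, h2⟩
  · rcases h.rowrig1 h1 h2 with h3 | h3
    · exact Or.inl h3
    · exact Or.inr (Or.inl h3)
  · have h4 : T.conv.C4 c b w y := (Tour.conv_C4 _ _ _ _ _).2 h1.rot.rot
    rcases h.cv.rowrig1 h4 h2 with h3 | h3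
    · exact Or.inl h3
    · exact Or.inr (Or.inr h3)

/-- **Claim T** -/
theorem claimT (h : Tw φ a b c d a' b' c' d') (h1 : T.Rig a b c) (h2 : T.Rig c d a) : False := by
  have d1 : ∀ x, T.R d b → T.R b x → T.R x c → T.R c a → False := fun x => h.D3
  have d2 : ∀ x, T.R b d → T.R x b → T.R a x → T.R c a → False := fun x => h.cv.D3
  have d3 : ∀ x, T.R b d → T.R d x → T.R x a → T.R a c → False := fun x => h.rot.D3
  have d4 : ∀ x, T.R d b → T.R x d → T.R c x → T.R a c → False := fun x => h.rot.cv.D3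
  have r1 := h.rowrig h1
  have r2 := h.rot.rowrig h2
  have n := h.C.ne13
  rcases T.tot a c n with hac | hca
  · have := T.asym _ _ hac
    rcases r1 with r1 | ⟨w, q1, q2, q3⟩ | ⟨w, q1, q2, q3⟩
    · exact this r1
    · exact d3 w q1 q2 q3 hac
    · exact d4 w q1 q2 q3 hac
  · have := T.asym _ _ hca
    rcases r2 with r2 | ⟨w, q1, q2, q3⟩ | ⟨w, q1, q2, q3⟩
    · exact this r2
    · exact d1 w q1 q2 q3 hca
    · exact d2 w q1 q2 q3 hca

end Tw

end Pool.Agent.Helper98.FC
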