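import Pool.Agent.Helper98.FC.Case1

/-!
# Claim R: in a twisted circuit `a b c d` with loose column `c → d → a` every row of the other flip is loose.
-/

namespace Pool.Agent.Helper98.FC

universe u v

variable {V : Type u} {W : Type v} {T : Tour V} {T' : Tour W}

theorem rig_conv {a b c : V} : T.conv.Rig c b a ↔ T.Rig a b c := by
  unfold Tour.Rig
  simp only [Tour.conv_C4]
  constructor
  · rintro (⟨y, w, h1, h2⟩ | ⟨y, w, h1, h2⟩)
    · exact Or.inr ⟨w, y, h1.rot.rot, h2⟩
    · exact Or.inl ⟨w, y, h1.rot.rot, h2⟩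
  · rintro (⟨y, w, h1, h2⟩ | ⟨y, w, h1, h2⟩)
    · exact Or.inr ⟨w, y, h1.rot.rot, h2⟩
    · exact Or.inl ⟨w, y, h1.rot.rot, h2⟩

namespace Tw

variable {φ : Phi T T'} {a b c d : V} {a' b' c' d' : W}

theorem claimR_aux (h : Tw φ a b c d a' b' c' d') (hd : ¬ T.Rig c d a) {x : V} (hax : T.R a x) (hxc : T.R x c)
    (hac : T.R a c) (hbx : b ≠ x) (hbd : T.R b d) : ¬ T.Rig a x c := by
  have ha : ∀ {u v}, T.R a u → T.R u v → T.R v d → v = c := by
    intro u v h1 h2 h3
    by_contra hv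
    exact hd (Or.inr ⟨u, v, ⟨h.C.2.2.2, h1, h2, h3⟩, hv⟩)
  have hc : ∀ {u v}, T.R d u → T.R u v → T.R v c → u = a := by
    intro u v h1 h2 h3
    by_contra hv
    exact hd (Or.inl ⟨u, v, ⟨h.C.2.2.1, h1, h2, h3⟩, hv⟩)
  have nC := h.C.nes
  have as := T.asym
  have hdx : x ≠ d := by
    rintro rfl
    exact T.asym _ _ hax h.C.2.2.2
  have bx : T.R b x := by
    apply T.of_not hbx.symm
    intro hxb
    exact nC.2.2.2.1 (ha hax hxb hbd)
  have dx : T.R d x := T.of_not hdx fun hh => T.ne hxc (h.tight bx hh)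
  -- `x → q` for all `q` with `d → q`, `q ≠ a, x`
  have xq : ∀ {q}, T.R d q → q ≠ a → q ≠ x → T.R x q := by
    intro q h1 h2 h3
    exact T.of_not h3 fun hh => h2 (hc h1 hh hxc)
  have cq : ∀ {q}, T.R d q → q ≠ a → q ≠ x → T.R c q := by
    intro q h1 h2 h3
    have hqc : q ≠ c := by
      rintro rfl; exact T.asym _ _ h1 h.C.2.2.1
    refine T.of_not hqc fun hh => ?_
    exact (T.ne hax).symm (hc dx (xq h1 h2 h3) hh)
  have pc : ∀ {p}, T.R p d → p ≠ c → T.R p c := by
    intro p h1 h2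
    exact T.of_not h2.symm fun hh => h2 (ha hac hh h1)
  rintro (⟨y, w, h1, h2⟩ | ⟨y, w, h1, h2⟩)
  · -- circuit a x y w, y ≠ c
    obtain ⟨q1, q2, q3, q4⟩ := h1
    have nG := (show T.C4 a x y w from ⟨q1, q2, q3, q4⟩).nes
    have hyd : y ≠ d := by
      rintro rfl; exact T.asym _ _ q2 dx
    have dy : T.R d y := T.of_not hyd fun hh => h2 (ha q1 q2 hh)
    have cy := cq dy nG.2.1.symm nG.2.2.2.1.symm
    have hwd : w ≠ d := by
      rintro rfl; exact T.asym _ _ q3 dy
    have hwc : w ≠ c := by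
      rintro rfl; exact T.asym _ _ q4 hac
    have dw : T.R d w := by
      apply T.of_not hwd
      intro hh
      exact nG.2.1.symm (hc dy q3 (pc hh hwc))
    have cw := cq dw nG.2.2.1.symm nG.2.2.2.2.1.symm
    have hby : b ≠ y := by
      rintro rfl
      exact T.asym _ _ q2 bx
    have by' : T.R b y := by
      apply T.of_not hby.symm
      intro hh
      exact nG.2.1.symm (hc dy hh h.C.2.1)
    have := h.F1' ⟨h.C.1, by', q3, q4⟩ h2 cw hwd
    exact T.asym _ _ this hac
  · -- circuit x c y w, w ≠ a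
    obtain ⟨q1, q2, q3, q4⟩ := h1
    have nG := (show T.C4 x c y w from ⟨q1, q2, q3, q4⟩).nes
    have hyd' : ¬ T.R y d := fun hh => T.asym _ _ q2 (pc hh nG.2.2.2.1.symm)
    by_cases hyd : y = d
    · subst hyd
      exact h2 (hc q3 q4 hxc)
    have dy : T.R d y := T.of_not hyd hyd'
    by_cases hya : y = a
    · subst hya
      exact T.asym _ _ hac q2
    have hwd : w ≠ d := by
      rintro rfl; exact T.asym _ _ q3 dy
    have wd : T.R w d := by
      apply T.of_not hwd.symm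
      intro dw
      exact h2 (hc dw q4 q1)
    exact hya (hc dy q3 (pc wd nG.2.2.2.2.1.symm))

/-- **Claim R** -/
theorem claimR (h : Tw φ a b c d a' b' c' d') (hd : ¬ T.Rig c d a) {x : V} (hax : T.R a x) (hxc : T.R x c)
    {x' : W} (e1 : φ.f (a, x) = (x', c')) (e2 : φ.f (x, c) = (a', x')) : ¬ T.Rig a x c := by
  have hbx : b ≠ x := by
    rintro rfl
    have := h.ab
    rw [e1] at this
    have := h.C'.nes
    grind
  have hac := rowflip h.C.1 h.C.2.1 hax hxc hbx h.ab h.bc e1 e2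
  rcases T.tot b d h.C.ne24 with hbd | hdb
  · exact h.claimR_aux hd hax hxc hac hbx hbd
  · have hd' : ¬ T.conv.Rig a d c := fun hh => hd (rig_conv.1 hh)
    have := h.cv.claimR_aux hd' (x := x) hxc hax hac hbx hdb
    exact fun hh => this (rig_conv.2 hh)

end Tw

end Pool.Agent.Helper98.FC
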