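import Pool.Agent.Helper98.FC.Tw

/-!
# Claim T: a twisted circuit has a loose row or a loose column
-/

namespace Pool.Agent.Helper98.FC

universe u v

variable {V : Type u} {W : Type v} {T : Tour V} {T' : Tour W}

theorem mem_arcs4 {a b c d : V} {x y : V} : (x, y) ∈ arcs4 a b c d ↔
    (x = a ∧ y = b) ∨ (x = b ∧ y = c) ∨ (x = c ∧ y = d) ∨ (x = d ∧ y = a) := by
  simp [arcs4]

theorem rowflip {φ : Phi T T'} {a b c x : V} {a' b' c' x' : W} (hab : T.R a b) (hbc : T.R b c) (hax : T.R a x)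
    (hxc : T.R x c) (hbx : b ≠ x) (e1 : φ.f (a, b) = (a', b')) (e2 : φ.f (b, c) = (b', c'))
    (e3 : φ.f (a, x) = (x', c')) (e4 : φ.f (x, c) = (a', x')) : T.R a c := by
  have hac : a ≠ c := by
    rintro rfl; exact T.asym _ _ hab hbc
  by_contra hn
  have hca := T.of_not hac hn
  rcases T.tot b x hbx with h | h
  · have hC : T.C4 a b x c := ⟨hab, h, hxc, hca⟩
    have := φ.tail_eq hC.co13 (by rw [e1, e4])
    grind
  · have hC : T.C4 a x b c := ⟨hax, h, hbc, hca⟩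
    have := φ.head_eq hC.co13 (by rw [e3, e2])
    grind

namespace Tw

variable {φ : Phi T T'} {a b c d : V} {a' b' c' d' : W}

theorem colflip (h : Tw φ a b c d a' b' c' d') {w : V} {w' : W} (h1 : T.R c w) (h2 : T.R w a) (hwd : w ≠ d)
    (e1 : φ.f (c, w) = (c', w')) (e2 : φ.f (w, a) = (w', a')) : T.R c a := by
  by_contra hca
  have hac : T.R a c := T.of_not h.C.ne13.symm hca
  have n := h.C.nes
  rcases T.tot w d hwd with hwd' | hdw
  · have hC : T.C4 w d a c := ⟨hwd', h.C.2.2.2, hac, h1⟩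
    have := φ.tail_eq hC.co24 (by rw [e1, h.da])
    grind
  · have hC : T.C4 d w a c := ⟨hdw, h2, hac, h.C.2.2.1⟩
    have := φ.head_eq hC.co24 (by rw [e2, h.cd])
    grind

/-- the image of a column `w` -/
theorem col (h : Tw φ a b c d a' b' c' d') {w : V} (h1 : T.R c w) (h2 : T.R w a) :
    ∃ w', T'.C4 a' b' c' w' ∧ ((φ.f (c, w) = (c', w') ∧ φ.f (w, a) = (w', a')) ∨
      (φ.f (c, w) = (w', a') ∧ φ.f (w, a) = (c', w'))) := by
  have hC : T.C4 a b c w := ⟨h.C.1, h.C.2.1, h1, h2⟩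
  obtain ⟨z, w', h3, h4, h5⟩ := φ.img1 hC h.ab
  have m1 := h4 (b, c) (by simp [arcs4])
  have m2 := h4 (c, w) (by simp [arcs4])
  have m3 := h4 (w, a) (by simp [arcs4])
  have n1 := fun e => φ.inj (p := (a, b)) (q := (c, w)) h.C.1 h1 e
  have n2 := fun e => φ.inj (p := (a, b)) (q := (w, a)) h.C.1 h2 e
  have n3 := fun e => φ.inj (p := (b, c)) (q := (c, w)) h.C.2.1 h1 e
  have n4 := fun e => φ.inj (p := (b, c)) (q := (w, a)) h.C.2.1 h2 e
  have n5 := fun e => φ.inj (p := (c, w)) (q := (w, a)) h1 h2 e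
  rw [h.ab, h.bc] at *
  have n := hC.nes
  have n' := h3.nes
  have n'' := h.C'.nes
  generalize φ.f (c, w) = p at *
  generalize φ.f (w, a) = q at *
  obtain ⟨p1, p2⟩ := p
  obtain ⟨q1, q2⟩ := q
  simp only [mem_arcs4, Prod.mk.injEq] at *
  refine ⟨w', ?_, ?_⟩
  · have : z = c' := by grind
    subst this
    exact h3
  · grind

/-- case F1: the column `w` of a circuit `a b y w` is not flipped -/
theorem F1 (h : Tw φ a b c d a' b' c' d') {y w : V} (hF : T.C4 a b y w) (hy : y ≠ c) (hcw : T.R c w) :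
    ∃ w', φ.f (c, w) = (c', w') ∧ φ.f (w, a) = (w', a') := by
  obtain ⟨w', h1, h2 | h2⟩ := h.col hcw hF.2.2.2
  · exact ⟨w', h2⟩
  · exfalso
    obtain ⟨z, z', h3, h4, h5⟩ := φ.img1 hF h.ab
    have m1 := h4 (w, a) (by simp [arcs4])
    have m2 := h5 (b', c')
    rw [h2.2] at m1
    rw [h.gbc] at m2
    have n' := h3.nes
    have n'' := h1.nes
    have n := hF.nes
    have n3 := h.C.nes
    simp only [mem_arcs4] at *
    grind

/-- circuits `a b y w` with `c → w`, `w ≠ d` force `c → a` -/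
theorem F1' (h : Tw φ a b c d a' b' c' d') {y w : V} (hF : T.C4 a b y w) (hy : y ≠ c) (hcw : T.R c w)
    (hwd : w ≠ d) : T.R c a := by
  obtain ⟨w', e1, e2⟩ := h.F1 hF hy hcw
  exact h.colflip hcw hF.2.2.2 hwd e1 e2

/-- `d → b → x → c` and `c → a` is impossible -/
theorem D3 (h : Tw φ a b c d a' b' c' d') {x : V} (hdb : T.R d b) (hbx : T.R b x) (hxc : T.R x c)
    (hca : T.R c a) : False := by
  have hD : T.C4 c d b x := ⟨h.C.2.2.1, hdb, hbx, hxc⟩
  have hH : T.C4 a b x c := ⟨h.C.1, hbx, hxc, hca⟩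
  obtain ⟨z1, w1, h3, h4, h5⟩ := φ.img1 hD h.cd
  obtain ⟨z2, w2, h6, h7, h8⟩ := φ.img1 hH h.ab
  have m1 := h4 (b, x) (by simp [arcs4])
  have m2 := h4 (x, c) (by simp [arcs4])
  have m3 := h7 (b, x) (by simp [arcs4])
  have m4 := h7 (x, c) (by simp [arcs4])
  have k1 := h5 (c', d')
  rw [h.gcd'] at k1
  have t1 : T'.R b' w1 → T'.R w1 d' → w1 = c' := fun u v => h.symm.tight u v
  have i1 := fun e => φ.inj (p := (b, x)) (q := (x, c)) hbx hxc e
  have i2 := fun e => φ.inj (p := (b, x)) (q := (a, b)) hbx h.C.1 e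
  have i3 := fun e => φ.inj (p := (x, c)) (q := (a, b)) hxc h.C.1 e
  have i4 := fun e => φ.inj (p := (b, x)) (q := (c, d)) hbx h.C.2.2.1 e
  have i5 := fun e => φ.inj (p := (x, c)) (q := (c, d)) hxc h.C.2.2.1 e
  have n1 := hD.nes
  have n2 := hH.nes
  have n3 := h3.nes
  have n4 := h6.nes
  have n5 := h.C'.nes
  rw [h.ab, h.cd] at *
  obtain ⟨q1, q2, q3, q4⟩ := h3
  obtain ⟨r1, r2, r3, r4⟩ := h6
  generalize φ.f (b, x) = p at *
  generalize φ.f (x, c) = q at *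
  obtain ⟨p1, p2⟩ := p
  obtain ⟨s1, s2⟩ := q
  simp only [mem_arcs4, Prod.mk.injEq] at *
  clear h4 h5 h7 h8
  grind

end Tw

end Pool.Agent.Helper98.FC
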