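import Pool.Agent.Helper98.FC.Prism

/-!
# Adjacent circuits of different sign with a coincidence
-/

namespace Pool.Agent.Helper98.FC

universe u v

variable {V : Type u} {W : Type v} {T : Tour V} {T' : Tour W}

/-- `(u,v,x,y)` is positive, `(u,v,y,w)` is negative. -/
structure Coin (φ : Phi T T') (u v x y w : V) (u' v' x1 y1 p q : W) : Prop where
  C1 : T.C4 u v x y
  C2 : T.C4 u v y w
  fuv : φ.f (u, v) = (u', v')
  fvx : φ.f (v, x) = (v', x1)
  fxy : φ.f (x, y) = (x1, y1)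
  fyu : φ.f (y, u) = (y1, u')
  fwu : φ.f (w, u) = (v', p)
  fyw : φ.f (y, w) = (p, q)
  fvy : φ.f (v, y) = (q, u')

theorem conv_flip {a b c d : V} (h : T.conv.Flip a b c d) : T.Flip b a d c := by
  obtain ⟨q1, q2, q3⟩ := h
  refine ⟨((Tour.conv_C4 _ _ _ _ _).1 q1).rot.rot, ?_, ?_⟩
  · intro x y hx
    have := q3 y x (by rw [Tour.conv_C4]; exact hx.rot.rot)
    exact ⟨this.2, this.1⟩
  · intro x y hx
    have := q2 y x (by rw [Tour.conv_C4]; exact hx.rot.rot)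
    exact ⟨this.2, this.1⟩

namespace Coin

variable {φ : Phi T T'} {u v x y w : V} {u' v' x1 y1 p q : W}

theorem D1 (h : Coin φ u v x y w u' v' x1 y1 p q) : T'.C4 u' v' x1 y1 := by
  have h1 := φ.fa (u, v) h.C1.1
  have h2 := φ.fa (v, x) h.C1.2.1
  have h3 := φ.fa (x, y) h.C1.2.2.1
  have h4 := φ.fa (y, u) h.C1.2.2.2
  rw [h.fuv] at h1
  rw [h.fvx] at h2
  rw [h.fxy] at h3
  rw [h.fyu] at h4
  exact ⟨h1, h2, h3, h4⟩

theorem D2 (h : Coin φ u v x y w u' v' x1 y1 p q) : T'.C4 u' v' p q := by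
  have h1 := φ.fa (u, v) h.C1.1
  have h2 := φ.fa (w, u) h.C2.2.2.2
  have h3 := φ.fa (y, w) h.C2.2.2.1
  have h4 := φ.fa (v, y) h.C2.2.1
  rw [h.fuv] at h1
  rw [h.fwu] at h2
  rw [h.fyw] at h3
  rw [h.fvy] at h4
  exact ⟨h1, h2, h3, h4⟩

/-- converse on the left -/
theorem left (h : Coin φ u v x y w u' v' x1 y1 p q) : Coin φ.conv.convR v u w y x u' v' p q x1 y1 := by
  refine ⟨(Tour.conv_C4 _ _ _ _ _).2 h.C2.rot.rot, (Tour.conv_C4 _ _ _ _ _).2 h.C1.rot.rot, ?_, ?_, ?_, ?_, ?_, ?_, ?_⟩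
    <;> simp [h.fuv, h.fvx, h.fxy, h.fyu, h.fwu, h.fyw, h.fvy]

theorem gs (h : Coin φ u v x y w u' v' x1 y1 p q) : φ.g (u', v') = (u, v) ∧ φ.g (v', x1) = (v, x) ∧
    φ.g (x1, y1) = (x, y) ∧ φ.g (y1, u') = (y, u) ∧ φ.g (v', p) = (w, u) ∧ φ.g (p, q) = (y, w) ∧
    φ.g (q, u') = (v, y) := by
  refine ⟨?_, ?_, ?_, ?_, ?_, ?_, ?_⟩
  · rw [← h.fuv]; exact φ.gf _ h.C1.1
  · rw [← h.fvx]; exact φ.gf _ h.C1.2.1
  · rw [← h.fxy]; exact φ.gf _ h.C1.2.2.1
  · rw [← h.fyu]; exact φ.gf _ h.C1.2.2.2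
  · rw [← h.fwu]; exact φ.gf _ h.C2.2.2.2
  · rw [← h.fyw]; exact φ.gf _ h.C2.2.2.1
  · rw [← h.fvy]; exact φ.gf _ h.C2.2.1

theorem wx_ne (h : Coin φ u v x y w u' v' x1 y1 p q) : w ≠ x := by
  rintro rfl
  exact T.asym _ _ h.C1.2.2.1 h.C2.2.2.1

theorem wx (h : Coin φ u v x y w u' v' x1 y1 p q) : T.R w x := by
  apply T.of_not h.wx_ne.symm
  intro hh
  have hC : T.C4 u v x w := ⟨h.C1.1, h.C1.2.1, hh, h.C2.2.2.2⟩
  have := φ.tail_eq hC.co24 (by rw [h.fvx, h.fwu])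
  have := h.C1.nes
  grind

/-- the two types -/
theorem PQ (hU : φ.Unt) (h : Coin φ u v x y w u' v' x1 y1 p q) : p = y1 ∨ q = x1 := by
  by_contra hn
  push Not at hn
  have n := h.C1.nes
  have n2 := h.C2.nes
  have d1 := h.D1
  have d2 := h.D2
  obtain ⟨g1, g2, g3, g4, g5, g6, g7⟩ := h.gs
  have k1 : T'.R y1 p := by
    apply T'.of_not hn.1
    intro hh
    have hC : T'.C4 u' v' p y1 := ⟨d1.1, d2.2.1, hh, d1.2.2.2⟩
    have := φ.symm.head_eq hC.co24 (by simp only [Phi.symm_f]; rw [g5, g4])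
    grind
  have k2 : T'.R q x1 := by
    apply T'.of_not hn.2.symm
    intro hh
    have hC : T'.C4 u' v' x1 q := ⟨d1.1, d1.2.1, hh, d2.2.2.2⟩
    have := φ.symm.tail_eq hC.co24 (by simp only [Phi.symm_f]; rw [g2, g7])
    grind
  have hC : T'.C4 x1 y1 p q := ⟨d1.2.2.1, k1, d2.2.2.1, k2⟩
  have := (hU.symm.opp2 hC (by simp only [Phi.symm_f]; exact g3) (by simp only [Phi.symm_f]; exact g6)).1.nes
  grind

/-- type P: `x → u` -/
theorem xu (h : Coin φ u v x y w u' v' x1 y1 p q) (hp : p = y1) : T.R x u := by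
  subst hp
  have n := h.C1.nes
  apply T.of_not n.2.1
  intro hh
  have hC : T.C4 u x y w := ⟨hh, h.C1.2.2.1, h.C2.2.2.1, h.C2.2.2.2⟩
  have := φ.head_eq hC.co24 (by rw [h.fxy, h.fwu])
  grind

/-- type Q: `v → w` -/
theorem vw (h : Coin φ u v x y w u' v' x1 y1 p q) (hq : q = x1) : T.R v w := h.left.xu hq.symm

/-- tails, case 2 -/
theorem tail2 (hU : φ.Unt) (h : Coin φ u v x y w u' v' x1 y1 p q) {z : V} (z1 : z ≠ x) (z2 : z ≠ v)
    (k1 : T.R u z) (k2 : T.R z y) : False := by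
  obtain ⟨s, e1, e2, e3⟩ := hU.nimg (a := y) (b := w) (c := u) (d := z) ⟨h.C2.2.2.1, h.C2.2.2.2, k1, k2⟩ h.fyw h.fwu
  have ns := e3.nes
  have n := h.C1.nes
  rcases T.tot z v z2 with m | m
  · have hC : T.C4 u z v y := ⟨k1, m, h.C2.2.1, h.C1.2.2.2⟩
    have := φ.head_eq hC.co34 (by rw [h.fvy, h.fyu])
    grind
  · obtain ⟨s2, f1, f2, f3⟩ := hU.pimg (a := y) (b := u) (c := v) (d := z) ⟨h.C1.2.2.2, h.C1.1, m, k2⟩ h.fyu h.fuv
    rw [e2] at f2
    rcases h.PQ hU with hp | hq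
    · grind
    · have e7 : φ.f (z, y) = φ.f (x, y) := by rw [h.fxy, e2]; grind
      have := φ.inj (p := (z, y)) (q := (x, y)) k2 h.C1.2.2.1 e7
      grind

/-- tails, case 1, common facts -/
theorem tail1a (hU : φ.Unt) (h : Coin φ u v x y w u' v' x1 y1 p q) {z : V} (z1 : z ≠ x)
    (k1 : T.R y z) (k2 : T.R z u) : ∃ t, φ.f (y, z) = (t, q) ∧ φ.f (z, u) = (v', t) ∧ T'.C4 u' v' t q ∧ T.R z x := by
  obtain ⟨t, e1, e2, e3⟩ := hU.nimg (a := u) (b := v) (c := y) (d := z) ⟨h.C1.1, h.C2.2.1, k1, k2⟩ h.fuv h.fvy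
  refine ⟨t, e1, e2, e3, ?_⟩
  have n := e3.nes
  apply T.of_not z1.symm
  intro m
  obtain ⟨s, f1, f2, f3⟩ := hU.pimg (a := u) (b := v) (c := x) (d := z) ⟨h.C1.1, h.C1.2.1, m, k2⟩ h.fuv h.fvx
  rw [e2] at f2
  grind

theorem noA (h : Coin φ u v x y w u' v' x1 y1 p q) {z : V} (k1 : T.R u z) (k2 : T.R z v) : False := by
  have hC : T.C4 v y u z := ⟨h.C2.2.1, h.C1.2.2.2, k1, k2⟩
  have := φ.head_eq hC.co12 (by rw [h.fvy, h.fyu])
  have := h.C1.nes
  grind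

theorem noK (hU : φ.Unt) (h : Coin φ u v x y w u' v' x1 y1 p q) {k s : V} (q1 : T.R u k) (q2 : T.R k s)
    (q3 : T.R s w) (q4 : T.R s y) : False := by
  have hC : T.C4 w u k s := ⟨h.C2.2.2.2, q1, q2, q3⟩
  have hD : T.C4 y u k s := ⟨h.C1.2.2.2, q1, q2, q4⟩
  have e1 := hU.P_iff hC
  have e2 := hU.P_iff hD
  have e3 := hU.not_P hC
  have e4 := hU.not_P hD
  have n1 := h.D1.nes
  have n2 := h.D2.nes
  unfold Phi.P Phi.N at *
  rw [h.fwu] at e1 e3
  rw [h.fyu] at e2 e4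
  simp only at *
  grind

/-- the second circuit is flippable once all vertices outside are not mixed on `{u,y}` and `{v,w}` and `x → u` -/
theorem flipC2 (hU : φ.Unt) (h : Coin φ u v x y w u' v' x1 y1 p q) (hxu : T.R x u)
    (ht : ∀ z, z ≠ u → z ≠ v → z ≠ x → z ≠ y → z ≠ w → (T.R z u ↔ T.R z y))
    (hh : ∀ z, z ≠ u → z ≠ v → z ≠ x → z ≠ y → z ≠ w → (T.R z v ↔ T.R z w)) : T.Flip u v y w := by
  refine flip_crit h.C2 ?_ ?_ ?_ ?_
  · intro z z1 z2 z3 z4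
    by_cases zx : z = x
    · subst zx
      exact ⟨fun _ => h.C1.2.2.1, fun _ => hxu⟩
    exact ht z z1 z2 zx z3 z4
  · intro z z1 z2 z3 z4
    by_cases zx : z = x
    · subst zx
      exact ⟨fun q => (T.asym _ _ q h.C1.2.1).elim, fun q => (T.asym _ _ q h.wx).elim⟩
    exact hh z z1 z2 zx z3 z4
  · intro z q1 q2 q3 q4
    exact h.noA q1 q3
  · intro k s q1 q2 q3 q4 q5 q6 q7 q8 q9
    exact h.noK hU q1 q9 q8 q6

/-- In type P1 (`p = y1`, `w → v`): image of `w → v`. -/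
theorem fwv (hU : φ.Unt) (h : Coin φ u v x y w u' v' x1 y1 p q) (hp : p = y1) (hwv : T.R w v) :
    φ.f (w, v) = (q, v') := by
  subst hp
  obtain ⟨s, e1, e2, e3⟩ := hU.pimg (a := x) (b := y) (c := w) (d := v) ⟨h.C1.2.2.1, h.C2.2.2.1, hwv, h.C1.2.1⟩ h.fxy h.fyw
  rw [h.fvx] at e2
  grind

/-- type P1 is closed under the converse -/
theorem cvP1 (hU : φ.Unt) (h : Coin φ u v x y w u' v' x1 y1 p q) (hp : p = y1) (hwv : T.R w v) :
    Coin φ.conv w y x v u q y1 x1 v' v' u' := by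
  have e := h.fwv hU hp hwv
  subst hp
  refine ⟨(Tour.conv_C4 _ _ _ _ _).2 ?_, (Tour.conv_C4 _ _ _ _ _).2 ?_, ?_, ?_, ?_, ?_, ?_, ?_, ?_⟩
  · exact ⟨h.C1.2.1, h.C1.2.2.1, h.C2.2.2.1, hwv⟩
  · exact h.C2
  all_goals simp [h.fuv, h.fvx, h.fxy, h.fwu, h.fyw, h.fvy, e]

/-- type P1 is closed under taking inverses -/
theorem symmP1 (hU : φ.Unt) (h : Coin φ u v x y w u' v' x1 y1 p q) (hp : p = y1) (hwv : T.R w v) :
    Coin φ.symm u' v' x1 y1 q u v x y y w ∧ T'.R q v' := by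
  have e := h.fwv hU hp hwv
  have e2 := φ.fa (w, v) hwv
  rw [e] at e2
  obtain ⟨g1, g2, g3, g4, g5, g6, g7⟩ := h.gs
  subst hp
  have d1 := h.D1
  have d2 := h.D2
  exact ⟨⟨d1, d2, g1, g2, g3, g4, g7, g6, g5⟩, e2⟩

theorem tail1P1 (hU : φ.Unt) (h : Coin φ u v x y w u' v' x1 y1 p q) (hp : p = y1) (hwv : T.R w v) {z : V}
    (z1 : z ≠ x) (z2 : z ≠ w) (z3 : z ≠ v) (k1 : T.R y z) (k2 : T.R z u) : False := by
  obtain ⟨t, e1, e2, e3, e4⟩ := h.tail1a hU z1 k1 k2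
  obtain ⟨h', hq⟩ := h.symmP1 hU hp hwv
  have h'' := h'.cvP1 hU.symm rfl hq
  refine h''.tail2 hU.symm.conv (z := t) ?_ ?_ e3.2.2.1 e3.2.1
  · rintro rfl
    have := φ.inj (p := (z, u)) (q := (v, x)) k2 h.C1.2.1 (by rw [e2, h.fvx])
    grind
  · rintro rfl
    have := φ.inj (p := (z, u)) (q := (w, u)) k2 h.C2.2.2.2 (by rw [e2, h.fwu, hp])
    grind

theorem tailsP1 (hU : φ.Unt) (h : Coin φ u v x y w u' v' x1 y1 p q) (hp : p = y1) (hwv : T.R w v) {z : V}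
    (z0 : z ≠ u) (z1 : z ≠ x) (z2 : z ≠ w) (z3 : z ≠ v) (z4 : z ≠ y) : T.R z u ↔ T.R z y :=
  ⟨fun k => T.of_not z4.symm fun k' => h.tail1P1 hU hp hwv z1 z2 z3 k' k,
    fun k => T.of_not z0.symm fun k' => h.tail2 hU z1 z3 k' k⟩

/-- type P1: the second circuit can be flipped -/
theorem P1 (hU : φ.Unt) (h : Coin φ u v x y w u' v' x1 y1 p q) (hp : p = y1) (hwv : T.R w v) : T.Flip u v y w := by
  refine h.flipC2 hU (h.xu hp) ?_ ?_
  · intro z z0 z3 z1 z4 z2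
    exact h.tailsP1 hU hp hwv z0 z1 z2 z3 z4
  · intro z z0 z3 z1 z4 z2
    have h' := h.cvP1 hU hp hwv
    have := h'.tailsP1 hU.conv rfl (show T.R y u from h.C1.2.2.2) (z := z) z2 z1 z0 z4 z3
    simp only [Tour.conv_R] at this
    have e : ∀ x, z ≠ x → (T.R z x ↔ ¬ T.R x z) := fun x hx =>
      ⟨fun hh h' => T.asym _ _ hh h', fun hh => T.of_not hx.symm hh⟩
    rw [e v z3, e w z2]
    tauto

/-- the third circuit is positive: data -/
structure Three (φ : Phi T T') (u v x w : V) (u' v' e f : W) : Prop where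
  xu : T.R x u
  vw : T.R v w
  fvw : φ.f (v, w) = (v', e)
  fwx : φ.f (w, x) = (e, f)
  fxu : φ.f (x, u) = (f, u')
  D : T'.C4 u' v' e f

theorem three (hU : φ.Unt) (h : Coin φ u v x y w u' v' x1 y1 p q) (hxu : T.R x u) (hvw : T.R v w)
    (hP : φ.P u v w) : ∃ e f, Three φ u v x w u' v' e f := by
  have hC : T.C4 u v w x := ⟨h.C1.1, hvw, h.wx, hxu⟩
  unfold Phi.P at hP
  rw [h.fuv] at hP
  obtain ⟨e, he⟩ : ∃ e, φ.f (v, w) = (v', e) := ⟨(φ.f (v, w)).2, Prod.ext hP.symm rfl⟩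
  obtain ⟨f, f1, f2, f3⟩ := hU.pimg hC h.fuv he
  exact ⟨e, f, hxu, hvw, he, f1, f2, f3⟩

variable {e f : W}

/-- `e = q` in type P, `f = p` in type Q -/
theorem ef (hU : φ.Unt) (h : Coin φ u v x y w u' v' x1 y1 p q) (t : Three φ u v x w u' v' e f) :
    (p = y1 → e = q) ∧ (q = x1 → f = p) := by
  have h' : Coin φ.conv v u x w y v' u' f e q p := by
    refine ⟨(Tour.conv_C4 _ _ _ _ _).2 ?_, (Tour.conv_C4 _ _ _ _ _).2 ?_, ?_, ?_, ?_, ?_, ?_, ?_, ?_⟩
    · exact ⟨h.wx, t.xu, h.C1.1, t.vw⟩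
    · exact h.C2.rot.rot
    all_goals simp [h.fuv, t.fvw, t.fwx, t.fxu, h.fwu, h.fyw, h.fvy]
  have n := h.C1.nes
  have n2 := h.C2.nes
  have := h.wx_ne
  have := h'.PQ hU.conv
  constructor
  · intro hp
    rcases this with r | r
    · exact r.symm
    · exfalso
      have := φ.inj (p := (x, u)) (q := (y, u)) t.xu h.C1.2.2.2 (by rw [t.fxu, h.fyu, ← r, hp])
      grind
  · intro hq
    rcases this with r | r
    · exfalso
      have := φ.inj (p := (v, w)) (q := (v, x)) t.vw h.C1.2.1 (by rw [t.fvw, h.fvx, ← r, hq])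
      grind
    · exact r.symm

theorem tail1T (hU : φ.Unt) (h : Coin φ u v x y w u' v' x1 y1 p q) (t : Three φ u v x w u' v' e f) {z : V}
    (z1 : z ≠ x) (z2 : z ≠ w) (z3 : z ≠ v) (k1 : T.R y z) (k2 : T.R z u) : False := by
  obtain ⟨r, e1, e2, e3, e4⟩ := h.tail1a hU z1 k1 k2
  have nr := e3.nes
  have nt := t.D.nes
  have zw : T.R z w := by
    apply T.of_not z2.symm
    intro m
    obtain ⟨s, f1, f2, f3⟩ := hU.pimg (a := u) (b := v) (c := w) (d := z) ⟨h.C1.1, t.vw, m, k2⟩ h.fuv t.fvw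
    rw [e2] at f2
    grind
  rcases T.tot z v z3 with m | m
  · obtain ⟨s, f1, f2, f3⟩ := hU.pimg (a := v) (b := x) (c := y) (d := z) ⟨h.C1.2.1, h.C1.2.2.1, k1, m⟩ h.fvx h.fxy
    rw [e1] at f1
    have hr : r = y1 := by grind
    subst hr
    rcases h.PQ hU with hp | hq
    · have := φ.inj (p := (y, z)) (q := (y, w)) k1 h.C2.2.2.1 (by rw [e1, h.fyw, hp])
      grind
    · subst hq
      exact T'.asym _ _ e3.2.2.1 h.D1.2.2.1
  · obtain ⟨a, f1, f2, f3⟩ := hU.nimg (a := w) (b := u) (c := v) (d := z) ⟨h.C2.2.2.2, h.C1.1, m, zw⟩ h.fwu h.fuv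
    obtain ⟨s, g1, g2, g3⟩ := hU.pimg (a := x) (b := u) (c := v) (d := z) ⟨t.xu, h.C1.1, m, e4⟩ t.fxu h.fuv
    rw [f1] at g1
    have := g3.nes
    grind

theorem head1T (hU : φ.Unt) (h : Coin φ u v x y w u' v' x1 y1 p q) (t : Three φ u v x w u' v' e f) {z : V}
    (z0 : z ≠ u) (z1 : z ≠ x) (z4 : z ≠ y) (k1 : T.R w z) (k2 : T.R z v) : False := by
  obtain ⟨r, e1, e2, e3⟩ := hU.nimg (a := v) (b := y) (c := w) (d := z) ⟨h.C2.2.1, h.C2.2.2.1, k1, k2⟩ h.fvy h.fyw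
  have nr := e3.nes
  have nt := t.D.nes
  have n1 := h.D1.nes
  have n2 := h.D2.nes
  have nC := h.C1.nes
  have nC2 := h.C2.nes
  have hr : r ≠ v' := by
    rintro rfl
    have := φ.inj (p := (z, v)) (q := (u, v)) k2 h.C1.1 (by rw [e2, h.fuv])
    grind
  have zy : T.R z y := by
    apply T.of_not z4.symm
    intro m
    have hC : T.C4 z v x y := ⟨k2, h.C1.2.1, h.C1.2.2.1, m⟩
    have := hU.cns' hC e2 h.fvx
    grind
  have zx : T.R z x := by
    apply T.of_not z1.symm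
    intro m
    have hC : T.C4 z v w x := ⟨k2, t.vw, h.wx, m⟩
    have := hU.cns' hC e2 t.fvw
    grind
  have zu : T.R z u := by
    apply T.of_not z0.symm
    intro m
    have hC : T.C4 u z v y := ⟨m, k2, h.C2.2.1, h.C1.2.2.2⟩
    have := φ.head_eq hC.co34 (by rw [h.fvy, h.fyu])
    grind
  have hC : T.C4 x y w z := ⟨h.C1.2.2.1, h.C2.2.2.1, k1, zx⟩
  rcases h.PQ hU with hp | hq
  · subst hp
    obtain ⟨s, f1, f2, f3⟩ := hU.pimg hC h.fxy h.fyw
    rw [e1] at f1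
    grind
  · subst hq
    have hf := (h.ef hU t).2 rfl
    subst hf
    obtain ⟨s, f1, f2, f3⟩ := hU.nimg hC h.fxy h.fyw
    rw [e1] at f1
    have hs : s = r := by grind
    subst hs
    obtain ⟨g1, g2, g3, g4, g5, g6, g7⟩ := h.gs
    have gz : φ.g (s, f) = (w, z) := by rw [← e1]; exact φ.gf _ k1
    have gx : φ.g (f, u') = (x, u) := by rw [← t.fxu]; exact φ.gf _ t.xu
    have gzx : φ.g (y1, s) = (z, x) := by rw [← f2]; exact φ.gf _ zx
    rcases T'.tot s v' hr with m | m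
    · have hD : T'.C4 s v' q y1 := ⟨m, h.D1.2.1, h.D1.2.2.1, f3.2.1⟩
      have := φ.symm.head_eq hD.co24 (by simp only [Phi.symm_f]; rw [g2, gzx])
      grind
    · have hD : T'.C4 u' v' s f := ⟨h.D1.1, m, f3.2.2.1, t.D.2.2.2⟩
      have := (hU.symm.opp2 hD (by simp only [Phi.symm_f]; exact g1) (by simp only [Phi.symm_f]; exact gz)).2
      simp only [Phi.symm_f] at this
      rw [gx] at this
      grind

theorem head2T (hU : φ.Unt) (h : Coin φ u v x y w u' v' x1 y1 p q) (t : Three φ u v x w u' v' e f) {z : V}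
    (z0 : z ≠ u) (z1 : z ≠ x) (z4 : z ≠ y) (k1 : T.R v z) (k2 : T.R z w) : False := by
  obtain ⟨a, e1, e2, e3⟩ := hU.nimg (a := w) (b := u) (c := v) (d := z) ⟨h.C2.2.2.2, h.C1.1, k1, k2⟩ h.fwu h.fuv
  have nr := e3.nes
  have nt := t.D.nes
  have n1 := h.D1.nes
  have n2 := h.D2.nes
  have nC := h.C1.nes
  have nC2 := h.C2.nes
  have xz : T.R x z := by
    apply T.of_not z1
    intro m
    obtain ⟨s, g1, g2, g3⟩ := hU.pimg (a := x) (b := u) (c := v) (d := z) ⟨t.xu, h.C1.1, k1, m⟩ t.fxu h.fuv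
    rw [e1] at g1
    have := g3.nes
    grind
  have yz : T.R y z := by
    apply T.of_not z4
    intro m
    obtain ⟨s, g1, g2, g3⟩ := hU.pimg (a := y) (b := u) (c := v) (d := z) ⟨h.C1.2.2.2, h.C1.1, k1, m⟩ h.fyu h.fuv
    rw [e1] at g1
    have := g3.nes
    grind
  have uz : T.R u z := by
    apply T.of_not z0
    intro m
    obtain ⟨s, g1, g2, g3⟩ := hU.pimg (a := u) (b := v) (c := x) (d := z) ⟨h.C1.1, h.C1.2.1, xz, m⟩ h.fuv h.fvx
    obtain ⟨s', g4, g5, g6⟩ := hU.nimg (a := u) (b := v) (c := y) (d := z) ⟨h.C1.1, h.C2.2.1, yz, m⟩ h.fuv h.fvy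
    rw [g2] at g5
    have := g3.nes
    have := g6.nes
    grind
  have hC : T.C4 w x y z := ⟨h.wx, h.C1.2.2.1, yz, k2⟩
  rcases hU.cns' hC t.fwx h.fxy with r | r
  · subst r
    rcases h.PQ hU with hp | hq
    · have he := (h.ef hU t).1 hp
      obtain ⟨s, f1, f2, f3⟩ := hU.pimg hC t.fwx h.fxy
      rw [e2] at f2
      have := f3.nes
      grind
    · have hf := (h.ef hU t).2 hq
      grind
  · subst r
    rcases h.PQ hU with hp | hq
    · have he := (h.ef hU t).1 hp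
      grind
    · have hf := (h.ef hU t).2 hq
      subst hf hq
      obtain ⟨s, f1, f2, f3⟩ := hU.nimg hC t.fwx h.fxy
      rw [e2] at f2
      have hs : s = a := by grind
      subst hs
      obtain ⟨g1, g2, g3, g4, g5, g6, g7⟩ := h.gs
      have ga : φ.g (s, q) = (y, z) := by rw [← f1]; exact φ.gf _ yz
      have gb : φ.g (f, s) = (z, w) := by rw [← e2]; exact φ.gf _ k2
      have gc : φ.g (v', y1) = (v, w) := by rw [← t.fvw]; exact φ.gf _ t.vw
      have hsv : s ≠ v' := by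
        rintro rfl
        have := e3.nes
        have := T'.asym _ _ h.D1.1
        have h5 := φ.fa (v, z) k1
        rw [e1] at h5
        exact this h5
      rcases T'.tot s v' hsv with m | m
      · have hD : T'.C4 f s v' y1 := ⟨f3.2.1, m, t.D.2.1, f3.1⟩
        have := φ.symm.head_eq hD.co13 (by simp only [Phi.symm_f]; rw [gb, gc])
        grind
      · have hD : T'.C4 u' v' s q := ⟨h.D1.1, m, f3.2.2.1, h.D2.2.2.2⟩
        have := (hU.symm.opp2 hD (by simp only [Phi.symm_f]; exact g1) (by simp only [Phi.symm_f]; exact ga)).1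
        exact T.asym _ _ this.2.2.2 uz

theorem flipT (hU : φ.Unt) (h : Coin φ u v x y w u' v' x1 y1 p q) (hxu : T.R x u) (hvw : T.R v w)
    (hP : φ.P u v w) : T.Flip u v y w := by
  obtain ⟨e, f, t⟩ := h.three hU hxu hvw hP
  refine h.flipC2 hU hxu ?_ ?_
  · intro z z0 z3 z1 z4 z2
    exact ⟨fun k => T.of_not z4.symm fun k' => h.tail1T hU t z1 z2 z3 k' k,
      fun k => T.of_not z0.symm fun k' => h.tail2 hU z1 z3 k' k⟩
  · intro z z0 z3 z1 z4 z2
    exact ⟨fun k => T.of_not z2.symm fun k' => h.head1T hU t z0 z1 z4 k' k,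
      fun k => T.of_not z3.symm fun k' => h.head2T hU t z0 z1 z4 k' k⟩

/-- One of the two circuits can be flipped. -/
theorem main (hU : φ.Unt) (h : Coin φ u v x y w u' v' x1 y1 p q) : T.Flip u v x y ∨ T.Flip u v y w := by
  have hU' : φ.conv.convR.Unt := hU.conv.convR
  have left' : ∀ hh : T.conv.Flip v u y x, T.Flip u v x y := fun hh => conv_flip hh
  have sgn : T.R x u → T.R v w → φ.P u v w ∨ φ.conv.convR.P v u x := by
    intro k1 k2
    have hC : T.C4 u v w x := ⟨h.C1.1, k2, h.wx, k1⟩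
    rcases hU.sgn hC with r | r
    · exact Or.inl r.1
    · right
      have := r.2.2.2
      rw [Phi.P_convR, Phi.N_conv]
      exact this
  rcases h.PQ hU with hp | hq
  · have hxu := h.xu hp
    have nw : w ≠ v := h.C2.nes.2.2.2.2.1.symm
    rcases T.tot w v nw with k | k
    · exact Or.inr (h.P1 hU hp k)
    · rcases sgn hxu k with r | r
      · exact Or.inr (h.flipT hU hxu k r)
      · exact Or.inl (left' (h.left.flipT hU' k hxu r))
  · have hvw := h.vw hq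
    have nx : x ≠ u := h.C1.nes.2.1.symm
    rcases T.tot x u nx with k | k
    · rcases sgn k hvw with r | r
      · exact Or.inr (h.flipT hU k hvw r)
      · exact Or.inl (left' (h.left.flipT hU' hvw k r))
    · exact Or.inl (left' (h.left.P1 hU' hq.symm k))

end Coin

end Pool.Agent.Helper98.FC
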