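import Pool.Agent.Helper98.FC.Phi

/-!
# Four-circuits of tournaments: at most five vertices (MP_ebd9af_co, block FC-5)
-/

namespace Pool.Agent.Helper98.FC

universe u v w

variable {V : Type u} {W : Type v} {X : Type w}

/-- isomorphism of tournaments -/
def Iso (T : Tour V) (T' : Tour W) : Prop := ∃ e : V ≃ W, ∀ a b, T.R a b ↔ T'.R (e a) (e b)

namespace Small

theorem iso_symm {T : Tour V} {T' : Tour W} (h : Iso T T') : Iso T' T := by
  obtain ⟨e, he⟩ := h
  exact ⟨e.symm, fun a b => by rw [he]; simp⟩

theorem iso_trans {T : Tour V} {T' : Tour W} {T'' : Tour X} (h : Iso T T') (h' : Iso T' T'') : Iso T T'' := by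
  obtain ⟨e, he⟩ := h
  obtain ⟨e', he'⟩ := h'
  exact ⟨e.trans e', fun a b => by rw [he, he']; rfl⟩

theorem arcs4_image (e : V → W) (a b c d : V) :
    (Prod.map e e) '' arcs4 a b c d = arcs4 (e a) (e b) (e c) (e d) := by
  simp [arcs4, Set.image_insert_eq, Set.image_singleton]

/-- a map of arcs from an isomorphism -/
def ofIso {T : Tour V} {T' : Tour W} (e : V ≃ W) (he : ∀ a b, T.R a b ↔ T'.R (e a) (e b)) : Phi T T' where
  f := Prod.map e e
  g := Prod.map e.symm e.symm
  fa p h := (he _ _).1 h
  ga q h := by rw [he]; simpa using h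
  gf p _ := by obtain ⟨x, y⟩ := p; simp
  fg q _ := by obtain ⟨x, y⟩ := q; simp
  fC a b c d h := ⟨e a, e b, e c, e d, ⟨(he _ _).1 h.1, (he _ _).1 h.2.1, (he _ _).1 h.2.2.1, (he _ _).1 h.2.2.2⟩,
    arcs4_image _ _ _ _ _⟩
  gC a b c d h := by
    refine ⟨e.symm a, e.symm b, e.symm c, e.symm d, ?_, arcs4_image _ _ _ _ _⟩
    obtain ⟨h1, h2, h3, h4⟩ := h
    refine ⟨?_, ?_, ?_, ?_⟩ <;> rw [he] <;> simpa

/-- composition -/
def trans {T : Tour V} {T' : Tour W} {T'' : Tour X} (φ : Phi T T') (ψ : Phi T' T'') : Phi T T'' where
  f p := ψ.f (φ.f p)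
  g q := φ.g (ψ.g q)
  fa p h := ψ.fa _ (φ.fa p h)
  ga q h := φ.ga _ (ψ.ga q h)
  gf p h := by rw [ψ.gf _ (φ.fa p h), φ.gf p h]
  fg q h := by rw [φ.fg _ (ψ.ga q h), ψ.fg q h]
  fC a b c d h := by
    obtain ⟨a1, b1, c1, d1, h1, h2⟩ := φ.fC a b c d h
    obtain ⟨a2, b2, c2, d2, h3, h4⟩ := ψ.fC _ _ _ _ h1
    exact ⟨a2, b2, c2, d2, h3, by rw [← h4, ← h2, Set.image_image]⟩
  gC a b c d h := by
    obtain ⟨a1, b1, c1, d1, h1, h2⟩ := ψ.gC a b c d h
    obtain ⟨a2, b2, c2, d2, h3, h4⟩ := φ.gC _ _ _ _ h1
    exact ⟨a2, b2, c2, d2, h3, by rw [← h4, ← h2, Set.image_image]⟩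

/-! ### codes -/

/-- bounded universal quantifier -/
def allB (f : Nat → Bool) : Nat → Bool
  | 0 => true
  | n + 1 => f n && allB f n

/-- bounded existential quantifier -/
def anyB (f : Nat → Bool) : Nat → Bool
  | 0 => false
  | n + 1 => f n || anyB f n

theorem allB_iff (f : Nat → Bool) (n : Nat) : allB f n = true ↔ ∀ i < n, f i = true := by
  induction n with
  | zero => simp [allB]
  | succ n ih =>
    simp only [allB, Bool.and_eq_true, ih]
    constructor
    · rintro ⟨h1, h2⟩ i hi
      rcases Nat.lt_succ_iff_lt_or_eq.1 hi with h | h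
      · exact h2 i h
      · rw [h]; exact h1
    · intro h
      exact ⟨h n (Nat.lt_succ_self n), fun i hi => h i (Nat.lt_succ_of_lt hi)⟩

theorem anyB_iff (f : Nat → Bool) (n : Nat) : anyB f n = true ↔ ∃ i < n, f i = true := by
  induction n with
  | zero => simp [anyB]
  | succ n ih =>
    simp only [anyB, Bool.or_eq_true, ih]
    constructor
    · rintro (h1 | ⟨i, hi, h⟩)
      · exact ⟨n, Nat.lt_succ_self n, h1⟩
      · exact ⟨i, Nat.lt_succ_of_lt hi, h⟩
    · rintro ⟨i, hi, h⟩
      rcases Nat.lt_succ_iff_lt_or_eq.1 hi with h' | h'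
      · exact Or.inr ⟨i, h', h⟩
      · rw [h'] at h; exact Or.inl h

/-- bit position of the pair `i < j` -/
def idx (i j : Nat) : Nat := j * (j - 1) / 2 + i

/-- first coordinate of a position -/
def ii (m : Nat) : Nat := [0, 0, 1, 0, 1, 2, 0, 1, 2, 3].getD m 0

/-- second coordinate of a position -/
def jj (m : Nat) : Nat := [1, 2, 2, 3, 3, 3, 4, 4, 4, 4].getD m 0

theorem idx_spec : ∀ n < 6, ∀ j < n, ∀ i < j, idx i j < n * (n - 1) / 2 ∧ ii (idx i j) = i ∧ jj (idx i j) = j := by
  decide

/-- the relation with code `k` -/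
def r (k i j : Nat) : Bool :=
  bif Nat.blt i j then k.testBit (idx i j) else bif Nat.blt j i then !k.testBit (idx j i) else false

theorem r_lt {k i j : Nat} (h : i < j) : r k i j = k.testBit (idx i j) := by
  have : Nat.blt i j = true := by rw [Nat.blt_eq]; exact h
  simp [r, this]

theorem r_gt {k i j : Nat} (h : j < i) : r k i j = !k.testBit (idx j i) := by
  have h1 : Nat.blt i j = false := by
    rw [← Bool.not_eq_true, Nat.blt_eq]; omega
  have h2 : Nat.blt j i = true := by rw [Nat.blt_eq]; exact h
  simp [r, h1, h2]

theorem r_self (k i : Nat) : r k i i = false := by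
  have h1 : Nat.blt i i = false := by
    rw [← Bool.not_eq_true, Nat.blt_eq]; omega
  simp [r, h1]

theorem r_asym {k i j : Nat} (h : r k i j = true) : r k j i = false := by
  rcases lt_trichotomy i j with h1 | h1 | h1
  · rw [r_lt h1] at h; rw [r_gt h1, h]; rfl
  · subst h1; exact r_self _ _
  · rw [r_gt h1] at h; rw [r_lt h1]; simpa using h

theorem r_tot {k i j : Nat} (h : i ≠ j) : r k i j = true ∨ r k j i = true := by
  rcases Nat.lt_or_gt_of_ne h with h1 | h1
  · rw [r_lt h1, r_gt h1]; cases k.testBit (idx i j) <;> simp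
  · rw [r_gt h1, r_lt h1]; cases k.testBit (idx j i) <;> simp

/-- the tournament with code `k` -/
def tour (n k : Nat) : Tour (Fin n) where
  R i j := r k i j = true
  asym i j h := by rw [r_asym h]; simp
  tot i j h := r_tot (fun h' => h (Fin.ext h'))

instance (n k : Nat) : DecidableRel (tour n k).R := fun i j => inferInstanceAs (Decidable (r k i j = true))

theorem exists_code {n : Nat} (hn : n < 6) (T : Tour (Fin n)) :
    ∃ k < 2 ^ (n * (n - 1) / 2), ∀ i j : Fin n, T.R i j ↔ r k i j = true := by
  classical
  set f : Fin (n * (n - 1) / 2) → Bool :=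
    fun m => decide (∃ h1 : ii m < n, ∃ h2 : jj m < n, T.R ⟨ii m, h1⟩ ⟨jj m, h2⟩) with hf
  refine ⟨Nat.ofBits f, Nat.ofBits_lt_two_pow f, ?_⟩
  have key : ∀ i j : Fin n, i < j → ((Nat.ofBits f).testBit (idx i j) = true ↔ T.R i j) := by
    intro i j hij
    obtain ⟨h1, h2, h3⟩ := idx_spec n hn j j.2 i hij
    rw [Nat.testBit_ofBits_lt f _ h1, hf]
    simp only [decide_eq_true_eq]
    constructor
    · rintro ⟨h4, h5, h6⟩
      have e1 : (⟨ii (idx i j), h4⟩ : Fin n) = i := Fin.ext h2
      have e2 : (⟨jj (idx i j), h5⟩ : Fin n) = j := Fin.ext h3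
      rwa [e1, e2] at h6
    · intro h
      refine ⟨h2.symm ▸ i.2, h3.symm ▸ j.2, ?_⟩
      have e1 : (⟨ii (idx i j), h2.symm ▸ i.2⟩ : Fin n) = i := Fin.ext h2
      have e2 : (⟨jj (idx i j), h3.symm ▸ j.2⟩ : Fin n) = j := Fin.ext h3
      rwa [e1, e2]
  intro i j
  rcases lt_trichotomy i j with h | h | h
  · rw [r_lt h, key i j h]
  · subst h
    rw [r_self]
    simp [T.irr i]
  · rw [r_gt h]
    have := key j i h
    constructor
    · intro h1
      have h2 := T.asym _ _ h1
      rw [← this] at h2
      simpa using h2
    · intro h1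
      have h2 : ¬ T.R j i := by
        rw [← this]; simpa using h1
      exact T.of_not (ne_of_lt h) h2

/-- every vertex has an out-neighbour and an in-neighbour -/
def nosrc (n k : Nat) : Bool := allB (fun i => anyB (fun j => r k i j) n && anyB (fun j => r k j i) n) n

/-- digits of a coded map -/
def sg (s i : Nat) : Nat := (s >>> (3 * i)) % 8

/-- the map coded by `s` is an isomorphism from the tournament `k` to the tournament `k'` -/
def isoChk (n k k' s : Nat) : Bool :=
  allB (fun i => Nat.blt (sg s i) n && allB (fun j => r k i j == r k' (sg s i) (sg s j)) n) n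

/-- the representative number `c` -/
def rep (rtab c : Nat) : Nat := (rtab >>> (10 * c)) % 1024

/-- the check for one code -/
def chk (n nc tab rtab k : Nat) : Bool :=
  !nosrc n k || (Nat.blt ((tab >>> (18 * k + 15)) % 8) nc &&
    isoChk n k (rep rtab ((tab >>> (18 * k + 15)) % 8)) ((tab >>> (18 * k)) % 32768))

theorem iso_of_chk {n k k' s : Nat} (T : Tour (Fin n)) (hT : ∀ i j : Fin n, T.R i j ↔ r k i j = true)
    (h : isoChk n k k' s = true) : Iso T (tour n k') := by
  simp only [isoChk, allB_iff, Bool.and_eq_true, Nat.blt_eq, beq_iff_eq] at h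
  let σ : Fin n → Fin n := fun i => ⟨sg s i, (h i i.2).1⟩
  have hσ : ∀ i j : Fin n, T.R i j ↔ (tour n k').R (σ i) (σ j) := by
    intro i j
    rw [hT, (h i i.2).2 j j.2]
    rfl
  have inj : Function.Injective σ := by
    intro i j hij
    by_contra hne
    rcases T.tot i j hne with h1 | h1
    · rw [hσ, hij] at h1
      exact (tour n k').irr _ h1
    · rw [hσ, hij] at h1
      exact (tour n k').irr _ h1
  refine ⟨Equiv.ofBijective σ (Finite.injective_iff_bijective.1 inj), hσ⟩

theorem nosrc_of_strong {n k : Nat} (hn : 2 ≤ n) (T : Tour (Fin n)) (hS : T.Strong)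
    (hT : ∀ i j : Fin n, T.R i j ↔ r k i j = true) : nosrc n k = true := by
  simp only [nosrc, allB_iff, anyB_iff, Bool.and_eq_true]
  intro i hi
  have : ∃ j : Fin n, j ≠ ⟨i, hi⟩ := by
    have : Nontrivial (Fin n) := Fin.nontrivial_iff_two_le.2 hn
    exact exists_ne _
  obtain ⟨j, hj⟩ := this
  constructor
  · rcases (hS ⟨i, hi⟩ j).cases_head with h | ⟨x, h, -⟩
    · exact absurd h.symm hj
    · exact ⟨x, x.2, (hT _ _).1 h⟩
  · rcases (hS j ⟨i, hi⟩).cases_tail with h | ⟨x, -, h⟩
    · exact absurd h.symm hj
    · exact ⟨x, x.2, (hT _ _).1 h⟩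

theorem cls {n nc tab rtab : Nat} (hn : 2 ≤ n) (hn6 : n < 6)
    (hc : ∀ k < 2 ^ (n * (n - 1) / 2), chk n nc tab rtab k = true) (T : Tour (Fin n)) (hS : T.Strong) :
    ∃ c < nc, Iso T (tour n (rep rtab c)) := by
  obtain ⟨k, hk, hT⟩ := exists_code hn6 T
  have h1 := hc k hk
  have h2 := nosrc_of_strong hn T hS hT
  simp only [chk, h2, Bool.not_true, Bool.false_or, Bool.and_eq_true, Nat.blt_eq] at h1
  exact ⟨_, h1.1, iso_of_chk T hT h1.2⟩

/-- the image tournament -/
def push (T : Tour V) (e : V ≃ W) : Tour W where
  R a b := T.R (e.symm a) (e.symm b)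
  asym _ _ h := T.asym _ _ h
  tot _ _ h := T.tot _ _ (fun h' => h (e.symm.injective h'))

theorem push_strong {T : Tour V} (hT : T.Strong) (e : V ≃ W) : (push T e).Strong := by
  intro a b
  have key : ∀ x y, Relation.ReflTransGen T.R x y → Relation.ReflTransGen (push T e).R (e x) (e y) := by
    intro x y h
    induction h with
    | refl => exact Relation.ReflTransGen.refl
    | tail _ h2 ih => exact ih.tail (by simpa [push] using h2)
  simpa using key _ _ (hT (e.symm a) (e.symm b))

theorem push_iso (T : Tour V) (e : V ≃ W) : Iso T (push T e) := ⟨e, fun a b => by simp [push]⟩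

theorem clsV {n nc tab rtab : Nat} (hn : 2 ≤ n) (hn6 : n < 6)
    (hc : ∀ k < 2 ^ (n * (n - 1) / 2), chk n nc tab rtab k = true) [Finite V] (hV : Nat.card V = n)
    (T : Tour V) (hS : T.Strong) :
    ∃ c < nc, Iso T (tour n (rep rtab c)) := by
  have e := Finite.equivFinOfCardEq hV
  obtain ⟨c, hc', h⟩ := cls hn hn6 hc (push T e) (push_strong hS e)
  exact ⟨c, hc', iso_trans (push_iso T e) h⟩

/-! ### the checks -/

/-- table for five vertices -/
def tab5 : Nat := 0xa70000025380000000b5095180000000004538000000538000004546015180000000006133210a38540ca0e10133117100000000008604ca81929c04000025c40171000000000001170000045a80000061a3214238444ca11925a80000005a8000008620ca6212a304000001950989846260189801a3118d02634018d00000000000000000000000000000000000000000002a32540c02e20000094c40000000008427184e145c0804e12833215180000000000000114c40540d15030000014c40000000002a02e181a05c08970200000a7080000000000000004638507186a10000116842842e111a2620c06624630806a10620d18830630898c200000968429832189800000168400000a8c800000000000000000000000000000000000040a7102a38cc0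882e220b523310000000000a538204e149c04000089c21a70800000000081332a70869c0627010000127080000000004e029381109c040000000002708000000000411710463a5a8206a181a32a8c84c42931118e10886624a30400006a30628c10a30400002195238508a321a8c80000128c80000028c800000000000000000000000000000000000000000000025070000000000942300c4c031a28170000085380000084351162261464051900000a0634585210e20000214c40142d87110604c181a4604c981a2604d181a01c2807110000000000507000000000014234507114230000000002998000002a10c162286308962200000000005850a85800000a6442585218d000000000000000000000000000000000000020a7000008ca80000040b52322240c4c831a899800000699800000a54612621814640000819513062aa16130a14133297104142e07116a06428198a06400008e029281921c28000000000000049980000081171a621a998226210000000000998000004e10826214e20400000000000004a160285821a3228588e221b8880000000000000000000000000000000000000000082a38c85102e200002328420c4d031a4c1520662b0a6104e14c232c2d081c29051900002264449832b85000001a64400002050b0a02db8114a02e381100002280b00000871100000000069832046300001264489832b8880000000008a10c86a10a10d28436e2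0638810000000000983138500000026440000138880000000000000000000000000000000000001014c405a7026440991022dc0d11032840d15014cc05a9026400005022e40d13032800003014d405a90329409900002408b00000c0d10e02838112e028000000000b8110000000000000000009014cc0993022e405a5032940d10000000002e20400000e108b8420e20400000000000002e140385000000b88800000388800000000000000000000000000000000000000000000000000000000000000000000000004270000028b80000004350a3180000000000000010a328c0c10e200000a2c40000000004427110a385c0890e224352171000000000000000000028870000000000a2230444c111a24270000085a8000004435216224444c911a0000090a38585110e20000216842444d111a0214c085a6226408990222d88d10232808d100000000000000000000000000000000000048b80000008b80000048c60231800000000080a71a0e14cc0820e1213322318000000000a8b8220e14d40400008d421b50800000000021170000088b80000080b5132226846421198d18000006d1800000a8c613421884640000419523062a626120e141a3298d08c42921194214c885a8226400004222e08d12232800000000000000000000000000000000000000006833202a388c0c84e10833133100000000000000122c408c0d23030000022c400000000088332b5086d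40635010000135080000000000000084634c85202e20000222c40842db1118c1510662b116106a148332b3104842e31110000234444d032c65000001b44400002210b2214d085a82329089900002088b0000088d10000000000000000000000000000000000009084cc4192d40400002cc4033100000000003102e421a0cc08b30200000b5080000000005182946110d40400000000035080000000001084c421a5084cc21a3084d421a0c42831117106444199106400009182944192c42800001102dc6115102e461100002440b00000b11111828461131828000000000c6110000000000000000000000000000000000000000000000817000004ca8000006c232222380c4c851900000206388871b0a10000132842142e031a481712063aca8230a18c232c4c841c2907110000000000887000000000022234887122230000000004d180000088171b421ad18234210000000006d03220630000134448d032c6880000000008214c88992222e085a4232908d10000000000000000000000000000000000002ca8000000ca80000090a0cb42131304000030a0c306250b0830a110a0d428310b08c2c291908b0625130400007130644c11130400000000000002d18000003110c322290b08b2220000000000d180000051908342151a0400000000000009110cb0a11110d444371a06468100000000031a04000011908c64211a0400000000000000000000000000000000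000000000c150c29850a6042980c23142d030b4042d000000b2842d032429800000328400000c4c82c152465091321c4c80000144c80000044c80000000000c850c45800000b4442c85242d00000000005116044582c232445891a21c6880000000000d031465000000344400001468800000000031940465000000c688000004688000000000000000000000000000000000000000000000000000000000000000000000000000000000000000000000000000000000000000000000000000000000000000000000000000000000000000000000000000000000000000000000000000000000000000000000000000000000000000000000000000000000000000000000000000000000000000000000000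

theorem allB_chunk {f : Nat → Bool} (m d : Nat) (h : allB f d = true) (h' : allB (fun i => f (i + d)) m = true) :
    allB f (d + m) = true := by
  rw [allB_iff] at *
  intro i hi
  by_cases h1 : i < d
  · exact h i h1
  · have := h' (i - d) (by omega)
    rwa [Nat.sub_add_cancel (by omega)] at this

theorem c5_0 : allB (fun i => chk 5 6 tab5 0x320511404810840 (i + 0)) 128 = true := by decide +kernel
theorem c5_1 : allB (fun i => chk 5 6 tab5 0x320511404810840 (i + 128)) 128 = true := by decide +kernel
theorem c5_2 : allB (fun i => chk 5 6 tab5 0x320511404810840 (i + 256)) 128 = true := by decide +kernel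
theorem c5_3 : allB (fun i => chk 5 6 tab5 0x320511404810840 (i + 384)) 128 = true := by decide +kernel
theorem c5_4 : allB (fun i => chk 5 6 tab5 0x320511404810840 (i + 512)) 128 = true := by decide +kernel
theorem c5_5 : allB (fun i => chk 5 6 tab5 0x320511404810840 (i + 640)) 128 = true := by decide +kernel
theorem c5_6 : allB (fun i => chk 5 6 tab5 0x320511404810840 (i + 768)) 128 = true := by decide +kernel
theorem c5_7 : allB (fun i => chk 5 6 tab5 0x320511404810840 (i + 896)) 128 = true := by decide +kernel

theorem c5 : ∀ k < 2 ^ (5 * (5 - 1) / 2), chk 5 6 tab5 0x320511404810840 k = true := by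
  have h : allB (chk 5 6 tab5 0x320511404810840) 1024 = true :=
    allB_chunk 128 896 (allB_chunk 128 768 (allB_chunk 128 640 (allB_chunk 128 512 (allB_chunk 128 384
      (allB_chunk 128 256 (allB_chunk 128 128 (allB_chunk 128 0 rfl c5_0) c5_1) c5_2) c5_3) c5_4) c5_5) c5_6) c5_7
  rw [allB_iff] at h
  exact h

theorem c4 : ∀ k < 2 ^ (4 * (4 - 1) / 2), chk 4 1 0x14c000000a6000000022c02d000000000000000005a00b0800990000002830000000000182806110130400000000004c80000000000000000000084c000000000021a0032800d100000000001160000001908041901a0400000000000000102c0650000000443000000688000000000000000000000000000000000000 0x8 k = true := by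
  have h : allB (chk 4 1 0x14c000000a6000000022c02d000000000000000005a00b0800990000002830000000000182806110130400000000004c80000000000000000000084c000000000021a0032800d100000000001160000001908041901a0400000000000000102c0650000000443000000688000000000000000000000000000000000000 0x8) 64 = true := by decide +kernel
  rw [allB_iff] at h
  exact h

theorem c3 : ∀ k < 2 ^ (3 * (3 - 1) / 2), chk 3 1 0x1400000000000088000000000 0x2 k = true := by
  have h : allB (chk 3 1 0x1400000000000088000000000 0x2) 8 = true := by decide +kernel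
  rw [allB_iff] at h
  exact h

theorem c2 : ∀ k < 2 ^ (2 * (2 - 1) / 2), chk 2 0 0x0 0x0 k = true := by
  have h : allB (chk 2 0 0x0 0x0) 2 = true := by decide +kernel
  rw [allB_iff] at h
  exact h

/-! ### the invariant -/

/-- number of 4-circuits through an arc -/
def D (T : Tour (Fin 5)) [DecidableRel T.R] (p : Fin 5 × Fin 5) : Nat :=
  (Finset.univ.filter fun q : Fin 5 × Fin 5 => T.R p.1 p.2 ∧ T.R p.2 q.1 ∧ T.R q.1 q.2 ∧ T.R q.2 p.1).card

/-- the invariant -/
def I (T : Tour (Fin 5)) [DecidableRel T.R] : Nat :=
  ∑ p ∈ Finset.univ.filter (fun p : Fin 5 × Fin 5 => T.R p.1 p.2), 11 ^ D T p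

theorem D_le {T T' : Tour (Fin 5)} [DecidableRel T.R] [DecidableRel T'.R] (φ : Phi T T') (p : Fin 5 × Fin 5) :
    D T p ≤ D T' (φ.f p) := by
  obtain ⟨a, b⟩ := p
  have h : ∀ q : Fin 5 × Fin 5, T.C4 a b q.1 q.2 → ∃ q' : Fin 5 × Fin 5, T'.C4 (φ.f (a, b)).1 (φ.f (a, b)).2 q'.1 q'.2 ∧
      (∀ p ∈ arcs4 a b q.1 q.2, φ.f p ∈ arcs4 (φ.f (a, b)).1 (φ.f (a, b)).2 q'.1 q'.2) ∧
      (∀ r ∈ arcs4 (φ.f (a, b)).1 (φ.f (a, b)).2 q'.1 q'.2, φ.g r ∈ arcs4 a b q.1 q.2) := by
    rintro ⟨c, d⟩ hC
    obtain ⟨z, w, h1, h2, h3⟩ := φ.img1 hC (x := (φ.f (a, b)).1) (y := (φ.f (a, b)).2) rfl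
    exact ⟨(z, w), h1, h2, h3⟩
  choose! F hF using h
  unfold D
  refine Finset.card_le_card_of_injOn F ?_ ?_
  · intro q hq
    simp only [Finset.coe_filter, Finset.mem_univ, true_and, Set.mem_ofPred_eq] at hq ⊢
    exact (hF q hq).1
  · intro q1 hq1 q2 hq2 he
    simp only [Finset.coe_filter, Finset.mem_univ, true_and, Set.mem_ofPred_eq] at hq1 hq2
    obtain ⟨h1, h2, h3⟩ := hF q1 hq1
    obtain ⟨h1', h2', h3'⟩ := hF q2 hq2
    rw [← he] at h1' h2' h3'
    obtain ⟨c1, d1⟩ := q1
    obtain ⟨c2, d2⟩ := q2
    have A : ∀ p, T.R p.1 p.2 → p ∈ arcs4 a b c1 d1 → p ∈ arcs4 a b c2 d2 := by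
      intro p hp hp'
      have := h3' _ (h2 p hp')
      rwa [φ.gf p hp] at this
    have A1 := A (b, c1) hq1.2.1 (by simp [arcs4])
    have A2 := A (d1, a) hq1.2.2.2 (by simp [arcs4])
    have n1 : T.C4 a b c1 d1 := hq1
    have n2 : T.C4 a b c2 d2 := hq2
    have n1' := n1.nes
    have n2' := n2.nes
    simp only [arcs4, Set.mem_insert_iff, Set.mem_singleton_iff, Prod.mk.injEq] at A1 A2
    grind

theorem I_eq {T T' : Tour (Fin 5)} [DecidableRel T.R] [DecidableRel T'.R] (φ : Phi T T') : I T = I T' := by
  unfold I
  refine Finset.sum_nbij' φ.f φ.g ?_ ?_ ?_ ?_ ?_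
  · intro p hp
    simp only [Finset.mem_filter, Finset.mem_univ, true_and] at hp ⊢
    exact φ.fa p hp
  · intro p hp
    simp only [Finset.mem_filter, Finset.mem_univ, true_and] at hp ⊢
    exact φ.ga p hp
  · intro p hp
    simp only [Finset.mem_filter, Finset.mem_univ, true_and] at hp
    exact φ.gf p hp
  · intro p hp
    simp only [Finset.mem_filter, Finset.mem_univ, true_and] at hp
    exact φ.fg p hp
  · intro p hp
    simp only [Finset.mem_filter, Finset.mem_univ, true_and] at hp
    have h1 := D_le φ p
    have h2 := D_le φ.symm (φ.f p)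
    rw [Phi.symm_f, φ.gf p hp] at h2
    rw [le_antisymm h1 h2]

theorem i5 : ∀ c < 6, ∀ c' < 6, I (tour 5 (rep 0x320511404810840 c)) = I (tour 5 (rep 0x320511404810840 c')) → c = c' := by
  have h0 : I (tour 5 (rep 0x320511404810840 0)) = 1630 := by decide +kernel
  have h1 : I (tour 5 (rep 0x320511404810840 1)) = 290 := by decide +kernel
  have h2 : I (tour 5 (rep 0x320511404810840 2)) = 3070 := by decide +kernel
  have h3 : I (tour 5 (rep 0x320511404810840 3)) = 1430 := by decide +kernel
  have h4 : I (tour 5 (rep 0x320511404810840 4)) = 530 := by decide +kernel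
  have h5 : I (tour 5 (rep 0x320511404810840 5)) = 6710 := by decide +kernel
  intro c hc c' hc'
  interval_cases c <;> interval_cases c' <;>
    first
    | (intro _; rfl)
    | (simp only [h0, h1, h2, h3, h4, h5]; omega)

theorem iso_le_one (n : Nat) (hn : n ≤ 1) [Finite V] [Finite W] (hV : Nat.card V = n) (hW : Nat.card W = n)
    (T : Tour V) (T' : Tour W) : Iso T T' := by
  have e : V ≃ W := (Finite.equivFinOfCardEq hV).trans (Finite.equivFinOfCardEq hW).symm
  have hsV : Subsingleton V := by
    rw [← Finite.card_le_one_iff_subsingleton]; omega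
  have hsW : Subsingleton W := by
    rw [← Finite.card_le_one_iff_subsingleton]; omega
  refine ⟨e, fun a b => ?_⟩
  have h1 : ¬ T.R a b := by rw [Subsingleton.elim b a]; exact T.irr a
  have h2 : ¬ T'.R (e a) (e b) := by rw [Subsingleton.elim (e b) (e a)]; exact T'.irr _
  tauto

end Small

theorem small_iso [Finite V] [Finite W] {T : Tour V} {T' : Tour W} (φ : Phi T T') (hT : T.Strong) (hT' : T'.Strong)
    (hc : Nat.card V = Nat.card W) (h5 : Nat.card V ≤ 5) : Iso T T' := by
  generalize hn : Nat.card V = n at *
  have hV := hn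
  have hW : Nat.card W = n := hc.symm
  have h01 : n ≤ 1 ∨ n = 2 ∨ n = 3 ∨ n = 4 ∨ n = 5 := by omega
  rcases h01 with h | rfl | rfl | rfl | rfl
  · exact Small.iso_le_one n h hV hW T T'
  · obtain ⟨c, h1, h2⟩ := Small.clsV (by norm_num) (by norm_num) Small.c2 hV T hT
    omega
  · obtain ⟨c, h1, h2⟩ := Small.clsV (by norm_num) (by norm_num) Small.c3 hV T hT
    obtain ⟨c', h1', h2'⟩ := Small.clsV (by norm_num) (by norm_num) Small.c3 hW T' hT'
    have : c' = c := by omega
    subst this
    exact Small.iso_trans h2 (Small.iso_symm h2')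
  · obtain ⟨c, h1, h2⟩ := Small.clsV (by norm_num) (by norm_num) Small.c4 hV T hT
    obtain ⟨c', h1', h2'⟩ := Small.clsV (by norm_num) (by norm_num) Small.c4 hW T' hT'
    have : c' = c := by omega
    subst this
    exact Small.iso_trans h2 (Small.iso_symm h2')
  · obtain ⟨c, h1, h2⟩ := Small.clsV (by norm_num) (by norm_num) Small.c5 hV T hT
    obtain ⟨c', h1', h2'⟩ := Small.clsV (by norm_num) (by norm_num) Small.c5 hW T' hT'
    obtain ⟨e, he⟩ := id h2
    obtain ⟨e', he'⟩ := id h2'
    have ψ := Small.trans (Small.trans (Small.ofIso e he).symm φ) (Small.ofIso e' he')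
    have : c' = c := (Small.i5 c h1 c' h1' (Small.I_eq ψ)).symm
    subst this
    exact Small.iso_trans h2 (Small.iso_symm h2')

/-- Strong tournaments with at most five vertices whose arcs admit a bijection preserving the 4-circuits in both
directions are isomorphic (so in particular isomorphic or anti-isomorphic). -/
theorem small [Finite V] [Finite W] {T : Tour V} {T' : Tour W} (φ : Phi T T') (hT : T.Strong) (hT' : T'.Strong)
    (hc : Nat.card V = Nat.card W) (h5 : Nat.card V ≤ 5) : Iso T T' ∨ Iso T.conv T' :=
  Or.inl (small_iso φ hT hT' hc h5)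

end Pool.Agent.Helper98.FC
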