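import Pool.Agent.Helper98.FC.Signs
import Pool.Agent.Helper98.FC.Small

/-!
# Definitions for the end game: ghosts, coherent data
-/

namespace Pool.Agent.Helper98.FC

universe u v

variable {V : Type u} {W : Type v} {T : Tour V} {T' : Tour W}

namespace Tour

/-- All arcs at `v` lie in at most one circuit. -/
def Ghost (T : Tour V) (v : V) : Prop := ∀ p q r, T.C4 v p q r → ¬ T.Big v p ∧ ¬ T.Big r v

/-- `b → a` is the unique back arc of `v` (out-neighbour to in-neighbour), with at most one `y` (`v → y → b`) and at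
most one `x` (`a → x → v`). -/
structure GhostAt (T : Tour V) (v b a : V) : Prop where
  hb : T.R v b
  ha : T.R a v
  hba : T.R b a
  uniq : ∀ p q, T.R v p → T.R q v → T.R p q → p = b ∧ q = a
  Lu : ∀ y y', T.R v y → T.R y b → T.R v y' → T.R y' b → y = y'
  Ru : ∀ x x', T.R x v → T.R a x → T.R x' v → T.R a x' → x = x'
  Le : (∃ z, z ≠ b ∧ T.R v z) → ∃ y, T.R v y ∧ T.R y b
  Re : (∃ z, z ≠ a ∧ T.R z v) → ∃ x, T.R x v ∧ T.R a x

theorem big_conv {x y : V} : T.conv.Big x y ↔ T.Big y x := by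
  unfold Tour.Big
  simp only [Tour.conv_C4]
  constructor
  · rintro ⟨p, q, p', q', h1, h2, h3⟩
    exact ⟨q, p, q', p', h1.rot.rot, h2.rot.rot, fun h => h3 ⟨h.2, h.1⟩⟩
  · rintro ⟨p, q, p', q', h1, h2, h3⟩
    exact ⟨q, p, q', p', h1.rot.rot, h2.rot.rot, fun h => h3 ⟨h.2, h.1⟩⟩

theorem ghost_conv {v : V} : T.conv.Ghost v ↔ T.Ghost v := by
  unfold Tour.Ghost
  simp only [Tour.conv_C4, big_conv]
  constructor
  · intro h p q r hC
    have := h r q p hC.rot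
    exact ⟨this.2, this.1⟩
  · intro h p q r hC
    have := h r q p hC.rot.rot.rot
    exact ⟨this.2, this.1⟩

theorem GhostAt.conv {v b a : V} (h : T.GhostAt v b a) : T.conv.GhostAt v a b :=
  ⟨h.ha, h.hb, h.hba, fun p q h1 h2 h3 => (h.uniq q p h2 h1 h3).symm, fun y y' h1 h2 h3 h4 => h.Ru y y' h1 h2 h3 h4,
    fun x x' h1 h2 h3 h4 => h.Lu x x' h1 h2 h3 h4, fun h1 => h.Re h1, fun h1 => h.Le h1⟩

theorem GhostAt.of_conv {v b a : V} (h : T.conv.GhostAt v a b) : T.GhostAt v b a := h.conv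

end Tour

namespace Phi

variable {φ : Phi T T'}

theorem Pos.unt (h : φ.Pos) : φ.Unt := fun a b c d hC => Or.inl (h a b c d hC)

/-- the image of a circuit under a positive map -/
theorem Pos.img (h : φ.Pos) {a b c d : V} (hC : T.C4 a b c d) : ∃ p q r s, T'.C4 p q r s ∧ φ.f (a, b) = (p, q) ∧
    φ.f (b, c) = (q, r) ∧ φ.f (c, d) = (r, s) ∧ φ.f (d, a) = (s, p) := by
  obtain ⟨p, q, e1⟩ : ∃ p q, φ.f (a, b) = (p, q) := ⟨_, _, rfl⟩
  have hP := h a b c d hC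
  unfold Phi.P at hP
  rw [e1] at hP
  obtain ⟨s, e3, e4, e5⟩ := h.unt.pimg hC e1 (r := (φ.f (b, c)).2) (Prod.ext hP.symm rfl)
  exact ⟨p, q, _, s, e5, e1, Prod.ext hP.symm rfl, e3, e4⟩

/-- the image of a circuit under a positive map, first arc given -/
theorem Pos.img' (h : φ.Pos) {a b c d : V} (hC : T.C4 a b c d) {p q : W} (e : φ.f (a, b) = (p, q)) : ∃ r s,
    T'.C4 p q r s ∧ φ.f (b, c) = (q, r) ∧ φ.f (c, d) = (r, s) ∧ φ.f (d, a) = (s, p) := by
  obtain ⟨p', q', r, s, h1, h2, h3, h4, h5⟩ := h.img hC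
  rw [e] at h2
  simp only [Prod.mk.injEq] at h2
  obtain ⟨rfl, rfl⟩ := h2
  exact ⟨r, s, h1, h3, h4, h5⟩

theorem Pos.symm (h : φ.Pos) : φ.symm.Pos := by
  intro p q r s hC
  obtain ⟨c, d, h3, h4, -⟩ := φ.symm.img1 hC (x := (φ.g (p, q)).1) (y := (φ.g (p, q)).2) rfl
  obtain ⟨p', q', r', s', k0, k1, k2, k3, k4⟩ := h.img h3
  have m2 := h4 (q, r) (by simp [arcs4])
  have n := k0.nes
  have n' := hC.nes
  have g1 := φ.fg (p, q) hC.1
  have g2 := φ.fg (q, r) hC.2.1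
  unfold Phi.P
  simp only [symm_f] at *
  generalize φ.g (p, q) = o at *
  generalize φ.g (q, r) = t at *
  obtain ⟨o1, o2⟩ := o
  obtain ⟨t1, t2⟩ := t
  simp only [mem_arcs4] at *
  rcases m2 with ⟨rfl, rfl⟩ | ⟨rfl, rfl⟩ | ⟨rfl, rfl⟩ | ⟨rfl, rfl⟩
  · grind
  · rfl
  · grind
  · grind

theorem Pos.conv (h : φ.Pos) : φ.conv.Pos := by
  intro a b c d hC
  rw [Phi.P_conv]
  exact h c b a d ((Tour.conv_C4 _ _ _ _ _).1 hC).rot

theorem big_img (φ : Phi T T') (h : φ.Pos) {a b : V} (hb : T.Big a b) : T'.Big (φ.f (a, b)).1 (φ.f (a, b)).2 := by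
  obtain ⟨p, q, p', q', h1, h2, h3⟩ := hb
  obtain ⟨x, y, r, s, k0, k1, k2, k3, k4⟩ := h.img h1
  obtain ⟨r', s', l0, l2, l3, l4⟩ := h.img' h2 k1
  rw [k1]
  refine ⟨r, s, r', s', k0, l0, ?_⟩
  rintro ⟨rfl, rfl⟩
  apply h3
  have e1 := φ.inj (p := (b, p)) (q := (b, p')) h1.2.1 h2.2.1 (by rw [k2, l2])
  have e2 := φ.inj (p := (q, a)) (q := (q', a)) h1.2.2.2 h2.2.2.2 (by rw [k4, l4])
  simp only [Prod.mk.injEq] at e1 e2
  exact ⟨e1.2, e2.1⟩

end Phi

/-- Coherent data: every non-ghost has a single label, in both directions. -/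
structure CohData (ψ : Phi T T') (f : V → W) (g : W → V) : Prop where
  pos : ψ.Pos
  fS : ∀ v, ¬ T.Ghost v → ¬ T'.Ghost (f v)
  gS : ∀ w, ¬ T'.Ghost w → ¬ T.Ghost (g w)
  gf : ∀ v, ¬ T.Ghost v → g (f v) = v
  fg : ∀ w, ¬ T'.Ghost w → f (g w) = w
  coh : ∀ v p q r, ¬ T.Ghost v → T.C4 v p q r → (ψ.f (v, p)).1 = f v
  coh' : ∀ w p q r, ¬ T'.Ghost w → T'.C4 w p q r → (ψ.g (w, p)).1 = g w

namespace CohData

variable {ψ : Phi T T'} {f : V → W} {g : W → V}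

theorem symm (h : CohData ψ f g) : CohData ψ.symm g f := ⟨h.pos.symm, h.gS, h.fS, h.fg, h.gf, h.coh', h.coh⟩

/-- the in-arc version -/
theorem cohin (h : CohData ψ f g) {v p q r : V} (hv : ¬ T.Ghost v) (hC : T.C4 v p q r) : (ψ.f (r, v)).2 = f v := by
  obtain ⟨a, b, c, d, k0, k1, k2, k3, k4⟩ := h.pos.img hC
  have := h.coh v p q r hv hC
  rw [k1] at this
  rw [k4]
  exact this

theorem conv (h : CohData ψ f g) : CohData ψ.conv f g := by
  refine ⟨h.pos.conv, fun v hv => ?_, fun w hw => ?_, fun v hv => ?_, fun w hw => ?_, fun v p q r hv hC => ?_,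
    fun w p q r hw hC => ?_⟩
  · rw [Tour.ghost_conv] at *; exact h.fS v hv
  · rw [Tour.ghost_conv] at *; exact h.gS w hw
  · rw [Tour.ghost_conv] at *; exact h.gf v hv
  · rw [Tour.ghost_conv] at *; exact h.fg w hw
  · rw [Tour.ghost_conv] at hv
    rw [Tour.conv_C4] at hC
    have := h.cohin hv hC.rot.rot.rot
    simpa using this
  · rw [Tour.ghost_conv] at hw
    rw [Tour.conv_C4] at hC
    have := h.symm.cohin hw hC.rot.rot.rot
    simpa using this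

/-- a circuit whose last vertex may be a ghost: image -/
theorem img3 (h : CohData ψ f g) {p q r s : V} (hp : ¬ T.Ghost p) (hq : ¬ T.Ghost q) (hr : ¬ T.Ghost r)
    (hC : T.C4 p q r s) : ∃ s', T'.C4 (f p) (f q) (f r) s' ∧ ψ.f (p, q) = (f p, f q) ∧ ψ.f (q, r) = (f q, f r) ∧
      ψ.f (r, s) = (f r, s') ∧ ψ.f (s, p) = (s', f p) ∧ (T.Ghost s ↔ T'.Ghost s') := by
  obtain ⟨a, b, c, d, k0, k1, k2, k3, k4⟩ := h.pos.img hC
  have e1 := h.coh _ _ _ _ hp hC
  have e2 := h.coh _ _ _ _ hq hC.rot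
  have e3 := h.coh _ _ _ _ hr hC.rot.rot
  rw [k1] at e1
  rw [k2] at e2
  rw [k3] at e3
  simp only at e1 e2 e3
  subst e1 e2 e3
  refine ⟨d, k0, k1, k2, k3, k4, ?_⟩
  constructor
  · intro hs
    by_contra hd
    have := h.coh' _ _ _ _ hd k0.rot.rot.rot
    rw [show ψ.g (d, f p) = (s, p) from by rw [← k4]; exact ψ.gf _ hC.2.2.2] at this
    simp only at this
    exact h.gS _ hd (this ▸ hs)
  · intro hd
    by_contra hs
    have := h.coh _ _ _ _ hs hC.rot.rot.rot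
    rw [k4] at this
    simp only at this
    exact h.fS _ hs (this ▸ hd)

end CohData

end Pool.Agent.Helper98.FC
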