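import Pool.Agent.Helper98.FC.Ghost

/-!
# FC-E2: the tournament of the non-ghosts is strong and has at least four vertices
-/

namespace Pool.Agent.Helper98.FC

universe u v

variable {V : Type u} {T : Tour V}

open Tour

/-- The restriction of `T` to the non-ghosts. -/
def TS (T : Tour V) : Tour {v : V // ¬ T.Ghost v} where
  R a b := T.R a.1 b.1
  asym a b h := T.asym a.1 b.1 h
  tot a b h := T.tot a.1 b.1 (fun h' => h (Subtype.ext h'))

@[simp] theorem TS_R (T : Tour V) (a b : {v : V // ¬ T.Ghost v}) : (TS T).R a b ↔ T.R a.1 b.1 := Iff.rfl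

theorem TS_strong [Finite V] (hT : T.Strong) (hn : 6 ≤ Nat.card V) : (TS T).Strong := by
  intro p q
  have key : ∀ q : V, Relation.ReflTransGen T.R p.1 q →
      (∀ hq : ¬ T.Ghost q, Relation.ReflTransGen (TS T).R p ⟨q, hq⟩) ∧
      (T.Ghost q → ∀ o, T.R q o → ∀ ho : ¬ T.Ghost o, Relation.ReflTransGen (TS T).R p ⟨o, ho⟩) := by
    intro q hq
    induction hq with
    | refl => exact ⟨fun _ => Relation.ReflTransGen.refl, fun h => absurd h p.2⟩
    | @tail i g _ hig ih =>
      refine ⟨fun hg => ?_, fun hg o hgo ho => ?_⟩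
      · by_cases hi : T.Ghost i
        · exact ih.2 hi g hig hg
        · exact (ih.1 hi).tail hig
      · obtain ⟨b, a, h⟩ := ghost_at hT hn hg
        have hio : i ≠ o := by
          rintro rfl
          exact T.asym _ _ hgo hig
        by_cases hR : T.R i o
        · by_cases hi : T.Ghost i
          · exact ih.2 hi o hR ho
          · exact (ih.1 hi).tail hR
        · have hoi : T.R o i := T.of_not hio hR
          obtain ⟨hob, hia⟩ := h.uniq o i hgo hig hoi
          subst hob hia
          obtain ⟨-, hna, hny, hnx⟩ := GhostAt.ng hT hn hg h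
          have hpa := ih.1 hna
          rcases GhostAt.LR (by omega) h with ⟨y, hy1, hy2⟩ | ⟨x, hx1, hx2⟩
          · have hiy : T.R i y := by
              refine (T.tot i y ?_).resolve_right ?_
              · rintro rfl
                exact T.asym _ _ hy1 hig
              · intro hyi
                have := (h.uniq y i hy1 hig hyi).1
                subst this
                exact T.irr _ hy2
            have hyS := hny y hy1 hy2
            have s1 : (TS T).R ⟨i, hna⟩ ⟨y, hyS⟩ := hiy
            have s2 : (TS T).R ⟨y, hyS⟩ ⟨o, ho⟩ := hy2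
            exact (hpa.tail s1).tail s2
          · have hxo : T.R x o := by
              refine (T.tot x o ?_).resolve_right ?_
              · rintro rfl
                exact T.asym _ _ hx1 hgo
              · intro hox
                have := (h.uniq o x hgo hx1 hox).2
                subst this
                exact T.irr _ hx2
            have hxS := hnx x hx1 hx2
            have s1 : (TS T).R ⟨i, hna⟩ ⟨x, hxS⟩ := hx2
            have s2 : (TS T).R ⟨x, hxS⟩ ⟨o, ho⟩ := hxo
            exact (hpa.tail s1).tail s2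
  exact (key q.1 (hT p.1 q.1)).1 q.2

theorem h34_out (hT : T.Strong) (P : V → Prop) {x : V} (hx : P x) {y : V} (hy : ¬ P y) :
    ∃ p q, P p ∧ ¬ P q ∧ T.R p q := by
  by_contra hc
  push Not at hc
  apply hy
  have : ∀ z, Relation.ReflTransGen T.R x z → P z := by
    intro z hz
    induction hz with
    | refl => exact hx
    | @tail i j _ hij ih =>
      by_contra hj
      exact hc i j ih hj hij
  exact this y (hT x y)

/-- four different non-ghosts, when `R(v)` is empty -/
theorem h34_four [Finite V] (hT : T.Strong) (hn : 6 ≤ Nat.card V) {v b a : V} (hv : T.Ghost v) (h : T.GhostAt v b a)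
    (hR : ¬ ∃ x, T.R x v ∧ T.R a x) : ∃ c1 c2 c3 c4 : V, [c1, c2, c3, c4].Nodup ∧ ∀ c ∈ [c1, c2, c3, c4], ¬ T.Ghost c := by
  classical
  obtain ⟨hnb, hna, hny, -⟩ := GhostAt.ng hT hn hv h
  obtain ⟨y, hy1, hy2⟩ := (GhostAt.LR (by omega) h).resolve_right hR
  have hyS := hny y hy1 hy2
  have hI : ∀ z, T.R z v → z = a := by
    intro z hz
    by_contra hza
    exact hR (h.Re ⟨z, hza, hz⟩)
  have hvb := T.ne h.hb
  have hav := T.ne h.ha
  have hba := T.ne h.hba
  have hvy := T.ne hy1
  have hyb := T.ne hy2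
  have hya : y ≠ a := by
    rintro rfl
    exact T.asym _ _ hy1 h.ha
  have hO : ∀ z, z ≠ v → z ≠ a → T.R v z := by
    intro z h1 h2
    exact T.of_not h1 (fun h3 => h2 (hI z h3))
  by_cases hz : ∃ z, T.R v z ∧ z ≠ b ∧ z ≠ y ∧ ¬ T.Ghost z
  · obtain ⟨z, hz1, hz2, hz3, hz4⟩ := hz
    have hza : z ≠ a := by
      rintro rfl
      exact T.asym _ _ hz1 h.ha
    refine ⟨a, b, y, z, ?_, ?_⟩
    · simp only [List.nodup_cons, List.mem_cons, List.not_mem_nil, or_false, not_or, not_false_eq_true, List.nodup_nil, and_true]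
      grind
    · simp only [List.mem_cons, List.not_mem_nil, or_false]
      rintro c (rfl | rfl | rfl | rfl)
      · exact hna
      · exact hnb
      · exact hyS
      · exact hz4
  exfalso
  push Not at hz
  -- a vertex outside a list of at most five
  have hex : ∀ l : List V, l.length ≤ 5 → ∃ z, z ∉ l := by
    intro l hl
    by_contra hc
    push Not at hc
    have := Fintype.ofFinite V
    have h1 : (Finset.univ : Finset V) ⊆ l.toFinset := fun z _ => List.mem_toFinset.2 (hc z)
    have h2 := Finset.card_le_card h1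
    have h3 := List.toFinset_card_le l
    rw [Finset.card_univ, ← Nat.card_eq_fintype_card] at h2
    omega
  -- first step
  obtain ⟨z0, hz0⟩ := hex [v, a, b, y] (by simp)
  simp only [List.mem_cons, List.not_mem_nil, or_false, not_or] at hz0
  obtain ⟨z, t, ⟨k1, k2, k3⟩, hnt, hzt⟩ := h34_out hT (fun z => T.R v z ∧ z ≠ b ∧ z ≠ y)
    (x := z0) ⟨hO z0 hz0.1 hz0.2.1, hz0.2.2.1, hz0.2.2.2⟩ (y := v) (fun h' => T.irr _ h'.1)
  have hLz : ∀ z, T.R v z → z ≠ b → z ≠ y → ¬ T.R z b := fun z h1 h2 h3 h4 => h3 (h.Lu z y h1 h4 hy1 hy2)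
  have hza' : ∀ z, T.R v z → z ≠ b → ¬ T.R z a := fun z h1 h2 h3 => h2 (h.uniq z a h1 h.ha h3).1
  have step : ∀ z t, T.R v z → z ≠ b → z ≠ y → T.R z t → ¬ (T.R v t ∧ t ≠ b ∧ t ≠ y) → t = y := by
    intro z t h1 h2 h3 h4 h5
    by_contra hty
    by_cases htb : t = b
    · subst htb
      exact hLz z h1 h2 h3 h4
    · by_cases htv : t = v
      · subst htv
        exact T.asym _ _ h1 h4
      · by_cases hta : t = a
        · subst hta
          exact hza' z h1 h2 h4
        · exact h5 ⟨hO t htv hta, htb, hty⟩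
  have hty := step z t k1 k2 k3 hzt hnt
  subst hty
  have az : ∀ z, T.R v z → z ≠ b → T.R a z := by
    intro z h1 h2
    refine T.of_not ?_ (hza' z h1 h2)
    rintro rfl
    exact T.asym _ _ h1 h.ha
  have bz : ∀ z, T.R v z → z ≠ b → z ≠ t → T.R b z := fun z h1 h2 h3 => T.of_not h2 (hLz z h1 h2 h3)
  have at' : ∀ z, T.R v z → z ≠ b → z ≠ t → T.R z t → T.GhostAt z t b := by
    intro z h1 h2 h3 h4
    have hC : T.C4 t b a z := ⟨hy2, h.hba, az z h1 h2, h4⟩
    rcases ghost_arc hT hn (hz z h1 h2 h3) hC with h5 | h5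
    · exact absurd h5.1 (hLz z h1 h2 h3)
    · exact h5.2
  have hzg := at' z k1 k2 k3 hzt
  -- second step
  obtain ⟨z1, hz1⟩ := hex [v, a, b, t, z] (by simp)
  simp only [List.mem_cons, List.not_mem_nil, or_false, not_or] at hz1
  obtain ⟨z2, s, ⟨m1, m2, m3, m4⟩, hns, hzs⟩ := h34_out hT (fun z' => T.R v z' ∧ z' ≠ b ∧ z' ≠ t ∧ z' ≠ z)
    (x := z1) ⟨hO z1 hz1.1 hz1.2.1, hz1.2.2.1, hz1.2.2.2.1, hz1.2.2.2.2⟩ (y := v) (fun h' => T.irr _ h'.1)
  have hst : s ≠ t := by
    rintro rfl
    exact m4 (GhostAt.eq hT hn (hz z2 m1 m2 m3) (hz z k1 k2 k3) (at' z2 m1 m2 m3 hzs) hzg)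
  have hsz : s = z := by
    by_contra hsz
    apply hst
    refine step z2 s m1 m2 m3 hzs ?_
    rintro ⟨q1, q2, q3⟩
    exact hns ⟨q1, q2, q3, hsz⟩
  subst hsz
  have := hzg.Ru z2 a hzs (bz z2 m1 m2 m3) (az s k1 k2) h.hba
  subst this
  exact T.asym _ _ m1 h.ha

theorem TS_four [Finite V] (hT : T.Strong) (hn : 6 ≤ Nat.card V) : 4 ≤ Nat.card {v : V // ¬ T.Ghost v} := by
  classical
  have fin : ∀ c1 c2 c3 c4 : V, [c1, c2, c3, c4].Nodup → (∀ c ∈ [c1, c2, c3, c4], ¬ T.Ghost c) →
      4 ≤ Nat.card {v : V // ¬ T.Ghost v} := by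
    intro c1 c2 c3 c4 h1 h2
    have h3 : (([c1, c2, c3, c4].toFinset : Finset V) : Set V) ⊆ {v : V | ¬ T.Ghost v} := by
      intro c hc
      exact h2 c (List.mem_toFinset.1 (Finset.mem_coe.1 hc))
    have h4 := Set.ncard_le_ncard h3 (Set.toFinite _)
    rw [Set.ncard_coe_finset, List.toFinset_card_of_nodup h1] at h4
    exact h4
  by_cases hg : ∃ v, T.Ghost v
  · obtain ⟨v, hv⟩ := hg
    obtain ⟨b, a, h⟩ := ghost_at hT hn hv
    by_cases hR : ∃ x, T.R x v ∧ T.R a x
    · by_cases hL : ∃ y, T.R v y ∧ T.R y b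
      · obtain ⟨hnb, hna, hny, hnx⟩ := GhostAt.ng hT hn hv h
        obtain ⟨x, hx1, hx2⟩ := hR
        obtain ⟨y, hy1, hy2⟩ := hL
        have hba := T.ne h.hba
        have hax := T.ne hx2
        have hyb := T.ne hy2
        have d1 : x ≠ y := by rintro rfl; exact T.asym _ _ hx1 hy1
        have d2 : x ≠ b := by rintro rfl; exact T.asym _ _ hx1 h.hb
        have d3 : a ≠ y := by rintro rfl; exact T.asym _ _ h.ha hy1
        refine fin a b x y ?_ ?_
        · simp only [List.nodup_cons, List.mem_cons, List.not_mem_nil, or_false, not_or, not_false_eq_true, List.nodup_nil, and_true]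
          grind
        · simp only [List.mem_cons, List.not_mem_nil, or_false]
          rintro c (rfl | rfl | rfl | rfl)
          · exact hna
          · exact hnb
          · exact hnx _ hx1 hx2
          · exact hny _ hy1 hy2
      · obtain ⟨c1, c2, c3, c4, h1, h2⟩ := h34_four (T := T.conv) (conv_strong hT) hn (ghost_conv.2 hv) h.conv
          (by simpa using hL)
        refine fin c1 c2 c3 c4 h1 (fun c hc => ?_)
        exact fun h3 => h2 c hc (ghost_conv.2 h3)
    · obtain ⟨c1, c2, c3, c4, h1, h2⟩ := h34_four hT hn hv h hR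
      exact fin c1 c2 c3 c4 h1 h2
  · push Not at hg
    have : Nat.card {v : V // ¬ T.Ghost v} = Nat.card V := Nat.card_congr (Equiv.subtypeUnivEquiv hg)
    omega

end Pool.Agent.Helper98.FC
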