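import Pool.Agent.Helper98.FC.Ghost
import Pool.Agent.Helper98.FC.TS
import Pool.Agent.Helper98.FC.Agree

/-!
# FC-E4: matching ghosts (MP_ebd9af_co)
-/

namespace Pool.Agent.Helper98.FC

universe u v

variable {V : Type u} {W : Type v} {T : Tour V} {T' : Tour W}

open Tour

/-- leaving a set -/
private theorem exit74 (hT : T.Strong) {A : Set V} {x y : V} (hx : x ∈ A) (hy : y ∉ A) :
    ∃ p ∈ A, ∃ q, q ∉ A ∧ T.R p q := by
  have h := hT x y
  induction h with
  | refl => exact absurd hx hy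
  | @tail b c _ hbc ih =>
    by_cases hb : b ∈ A
    · exact ⟨b, hb, c, hy, hbc⟩
    · exact ih hb

private theorem CohData.inj74 {ψ : Phi T T'} {f : V → W} {g : W → V} (h : CohData ψ f g) {p q : V}
    (hp : ¬ T.Ghost p) (hq : ¬ T.Ghost q) (e : f p = f q) : p = q := by
  rw [← h.gf p hp, ← h.gf q hq, e]

/-- the facts about a swapped vertex -/
private theorem swap74 [Finite V] [Finite W] (hT : T.Strong) (hT' : T'.Strong) (hn : 6 ≤ Nat.card V)
    (hn' : 6 ≤ Nat.card W) {ψ : Phi T T'} {f : V → W} {g : W → V} (h : CohData ψ f g) {v b a : V}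
    {w : W} (hv : T.Ghost v) (h1 : T.GhostAt v b a)
    (h2 : T'.GhostAt w (f b) (f a)) {z : V} (hz : ¬ T.Ghost z) (hvz : T.R v z)
    (hzw : T'.R (f z) w) : z ≠ a ∧ z ≠ b ∧ T.R z b ∧ T.R a z := by
  obtain ⟨nb, na, -, -⟩ := GhostAt.ng hT hn hv h1
  have hza : z ≠ a := by
    rintro rfl
    exact T.asym _ _ hvz h1.ha
  have hzb : z ≠ b := by
    rintro rfl
    exact T'.asym _ _ hzw h2.hb
  have haz : T.R a z := by
    rcases T.tot a z hza.symm with h3 | h3
    · exact h3
    · exact absurd (h1.uniq z a hvz h1.ha h3).1 hzb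
  have hfzb : f z ≠ f b := fun e => hzb (h.inj74 hz nb e)
  have hfza : f z ≠ f a := fun e => hza (h.inj74 hz na e)
  have hzb' : T'.R (f z) (f b) := by
    rcases T'.tot (f z) (f b) hfzb with h3 | h3
    · exact h3
    · exact absurd (h2.uniq (f b) (f z) h2.hb hzw h3).2 hfza
  exact ⟨hza, hzb, (agree hT hT' hn hn' h z b hz nb).2 hzb', haz⟩

/-- only `b` and `z` -/
private theorem only74 [Finite V] [Finite W] (hT : T.Strong) (hT' : T'.Strong) (hn : 6 ≤ Nat.card V)
    (hn' : 6 ≤ Nat.card W) {ψ : Phi T T'} {f : V → W} {g : W → V} (h : CohData ψ f g) {v b a : V}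
    {w : W} (hv : T.Ghost v) (hw : T'.Ghost w) (h1 : T.GhostAt v b a)
    (h2 : T'.GhostAt w (f b) (f a)) {z : V} (hz : ¬ T.Ghost z) (hvz : T.R v z)
    (hzw : T'.R (f z) w) {p : V} (hp : ¬ T.Ghost p) (hvp : T.R v p) : p = b ∨ p = z := by
  obtain ⟨nb, na, -, -⟩ := GhostAt.ng hT hn hv h1
  obtain ⟨hza, hzb, hRzb, hRaz⟩ := swap74 hT hT' hn hn' h hv h1 h2 hz hvz hzw
  have hfza : f z ≠ f a := fun e => hza (h.inj74 hz na e)
  -- elements of `S` out of `v`
  have hS : ∀ q, ¬ T.Ghost q → T.R v q → q ≠ b → q ≠ z → T.R z q := by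
    intro q hq hvq hqb hqz
    have hwq : T'.R w (f q) := by
      have hne : w ≠ f q := by
        rintro rfl
        exact h.fS q hq hw
      rcases T'.tot w (f q) hne with h3 | h3
      · exact h3
      · obtain ⟨-, -, h4, -⟩ := swap74 hT hT' hn hn' h hv h1 h2 hq hvq h3
        exact absurd (h1.Lu q z hvq h4 hvz hRzb) hqz
    have hne : f z ≠ f q := fun e => hqz (h.inj74 hz hq e).symm
    rcases T'.tot (f z) (f q) hne with h3 | h3
    · exact (agree hT hT' hn hn' h z q hz hq).2 h3
    · exact absurd (h2.uniq (f q) (f z) hwq hzw h3).2 hfza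
  by_contra hcon
  push Not at hcon
  obtain ⟨hpb, hpz⟩ := hcon
  -- a vertex of `O(v)` different from `b`, `z` and entering `z` is a ghost at `(z, b)`
  have key : ∀ u, T.R v u → u ≠ b → u ≠ z → T.R u z → T.Ghost u ∧ T.R b u ∧ T.GhostAt u z b := by
    intro u hvu hub huz hRuz
    have hu : T.Ghost u := by
      by_contra hu
      exact T.asym _ _ (hS u hu hvu hub huz) hRuz
    have hbu : T.R b u := by
      rcases T.tot b u hub.symm with h3 | h3
      · exact h3
      · exact absurd (h1.Lu u z hvu h3 hvz hRzb) huz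
    have hua : u ≠ a := by
      rintro rfl
      exact T.asym _ _ hvu h1.ha
    have hau : T.R a u := by
      rcases T.tot a u hua.symm with h3 | h3
      · exact h3
      · exact absurd (h1.uniq u a hvu h1.ha h3).1 hub
    have hC : T.C4 z b a u := ⟨hRzb, h1.hba, hau, hRuz⟩
    rcases ghost_arc hT hn hu hC with h3 | h3
    · exact absurd hbu (T.asym _ _ h3.1)
    · exact ⟨hu, hbu, h3.2⟩
  -- first exit
  obtain ⟨u, ⟨hvu, hub, huz⟩, y, hy, huy⟩ := exit74 hT (A := {x | T.R v x ∧ x ≠ b ∧ x ≠ z})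
    (x := p) (y := v) ⟨hvp, hpb, hpz⟩ (fun hc => T.irr _ hc.1)
  have hyz : y = z := by
    by_contra hyz
    have hyv : y ≠ v := by
      rintro rfl
      exact T.asym _ _ hvu huy
    rcases T.tot v y hyv.symm with h3 | h3
    · have hyb : y ≠ b := by
        rintro rfl
        exact huz (h1.Lu u z hvu huy hvz hRzb)
      exact hy ⟨h3, hyb, hyz⟩
    · exact hub (h1.uniq u y hvu h3 huy).1
  subst hyz
  obtain ⟨hgu, hbu, hAt⟩ := key u hvu hub huz huy
  -- second exit
  obtain ⟨x, ⟨hvx, hxb, hxz, hxu⟩, y', hy', hxy'⟩ := exit74 hT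
    (A := {x | T.R v x ∧ x ≠ b ∧ x ≠ y ∧ x ≠ u})
    (x := p) (y := v) ⟨hvp, hpb, hpz, fun e => hp (e ▸ hgu)⟩ (fun hc => T.irr _ hc.1)
  have hy'u : y' = u := by
    by_contra hne
    have hyv : y' ≠ v := by
      rintro rfl
      exact T.asym _ _ hvx hxy'
    rcases T.tot v y' hyv.symm with h3 | h3
    · have hyb : y' ≠ b := by
        rintro rfl
        exact hxz (h1.Lu x y hvx hxy' hvz hRzb)
      have hyz' : y' ≠ y := by
        rintro rfl
        obtain ⟨hgx, _, hAt'⟩ := key x hvx hxb hxz hxy'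
        exact hxu (GhostAt.eq hT hn hgx hgu hAt' hAt)
      exact hy' ⟨h3, hyb, hyz', hne⟩
    · exact hxb (h1.uniq x y' hvx h3 hxy').1
  subst hy'u
  have hbx : T.R b x := by
    rcases T.tot b x hxb.symm with h3 | h3
    · exact h3
    · exact absurd (h1.Lu x y hvx h3 hvz hRzb) hxz
  have hay' : T.R a y' := by
    have hua : y' ≠ a := by
      rintro rfl
      exact T.asym _ _ hvu h1.ha
    rcases T.tot a y' hua.symm with h3 | h3
    · exact h3
    · exact absurd (h1.uniq y' a hvu h1.ha h3).1 hub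
  have hxa : x = a := hAt.Ru x a hxy' hbx hay' h1.hba
  rw [hxa] at hvx
  exact T.asym _ _ hvx h1.ha

private theorem cut_half74 [Finite V] [Finite W] (hT : T.Strong) (hT' : T'.Strong)
    (hn : 6 ≤ Nat.card V) (hn' : 6 ≤ Nat.card W) {ψ : Phi T T'} {f : V → W} {g : W → V}
    (h : CohData ψ f g) {v b a : V}
    {w : W} (hv : T.Ghost v) (hw : T'.Ghost w) (h1 : T.GhostAt v b a)
    (h2 : T'.GhostAt w (f b) (f a)) {z : V} (hz : ¬ T.Ghost z) (hvz : T.R v z) :
    T'.R w (f z) := by
  obtain ⟨nb, na, -, -⟩ := GhostAt.ng hT hn hv h1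
  have hne : w ≠ f z := by
    rintro rfl
    exact h.fS z hz hw
  rcases T'.tot w (f z) hne with h3 | hzw
  · exact h3
  exfalso
  obtain ⟨hza, hzb, hRzb, hRaz⟩ := swap74 hT hT' hn hn' h hv h1 h2 hz hvz hzw
  have hI := fun p (hp : ¬ T.Ghost p) (hvp : T.R v p) =>
    only74 hT hT' hn hn' h hv hw h1 h2 hz hvz hzw hp hvp
  have hII : ∀ p, ¬ T.Ghost p → T'.R (f p) w → p = a ∨ p = z := by
    intro p hp hpw
    have h3 : T.conv.GhostAt v (g (f a)) (g (f b)) := by
      rw [h.gf a na, h.gf b nb]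
      exact h1.conv
    have h4 := only74 (T := T'.conv) (T' := T.conv) (conv_strong hT') (conv_strong hT) hn' hn
      h.symm.conv (v := w) (b := f a) (a := f b) (w := v) (ghost_conv.2 hw) (ghost_conv.2 hv)
      h2.conv h3 (z := f z) (fun hc => h.fS z hz (ghost_conv.1 hc)) hzw
      (by rw [h.gf z hz]; exact hvz) (p := f p) (fun hc => h.fS p hp (ghost_conv.1 hc)) hpw
    rcases h4 with h5 | h5
    · exact Or.inl (h.inj74 hp na h5)
    · exact Or.inr (h.inj74 hp hz h5)
  obtain ⟨q, hq, hqz, hqa, hqb⟩ : ∃ q, ¬ T.Ghost q ∧ q ≠ z ∧ q ≠ a ∧ q ≠ b := by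
    by_contra hcon
    push Not at hcon
    have h4 := TS_four hT hn
    classical
    have h5 : Nat.card {v : V // ¬ T.Ghost v} ≤ Nat.card ({z, a, b} : Finset V) := by
      refine Nat.card_le_card_of_injective (fun x => ⟨x.1, ?_⟩) ?_
      · simp only [Finset.mem_insert, Finset.mem_singleton]
        by_cases e1 : x.1 = z
        · exact Or.inl e1
        · by_cases e2 : x.1 = a
          · exact Or.inr (Or.inl e2)
          · exact Or.inr (Or.inr (hcon x.1 x.2 e1 e2))
      · intro x y hxy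
        simpa [Subtype.ext_iff] using hxy
    rw [Nat.card_eq_fintype_card (α := ({z, a, b} : Finset V)), Fintype.card_coe] at h5
    have h6 := Finset.card_le_three (a := z) (b := a) (c := b)
    omega
  have hqv : T.R q v := by
    have hne2 : q ≠ v := by
      rintro rfl
      exact hq hv
    rcases T.tot q v hne2 with h3 | h3
    · exact h3
    · rcases hI q hq h3 with h4 | h4
      · exact absurd h4 hqb
      · exact absurd h4 hqz
  have hwq : T'.R w (f q) := by
    have hne2 : w ≠ f q := by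
      rintro rfl
      exact h.fS q hq hw
    rcases T'.tot w (f q) hne2 with h3 | h3
    · exact h3
    · rcases hII q hq h3 with h4 | h4
      · exact absurd h4 hqa
      · exact absurd h4 hqz
  have hRqz : T.R q z := by
    rcases T.tot q z hqz with h3 | h3
    · exact h3
    · exact absurd (h1.uniq z q hvz hqv h3).1 hzb
  have hRzq : T'.R (f z) (f q) := by
    have hne2 : f z ≠ f q := fun e => hqz (h.inj74 hz hq e).symm
    rcases T'.tot (f z) (f q) hne2 with h3 | h3
    · exact h3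
    · exact absurd (h.inj74 hz na (h2.uniq (f q) (f z) hwq hzw h3).2) hza
  exact T.asym _ _ hRqz ((agree hT hT' hn hn' h z q hz hq).2 hRzq)

theorem cut_unique [Finite V] [Finite W] (hT : T.Strong) (hT' : T'.Strong) (hn : 6 ≤ Nat.card V)
    (hn' : 6 ≤ Nat.card W) {ψ : Phi T T'} {f : V → W} {g : W → V} (h : CohData ψ f g) {v b a : V}
    {w : W} (hv : T.Ghost v) (hw : T'.Ghost w) (h1 : T.GhostAt v b a)
    (h2 : T'.GhostAt w (f b) (f a)) : ∀ z, ¬ T.Ghost z → (T.R v z ↔ T'.R w (f z)) := by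
  intro z hz
  obtain ⟨nb, na, -, -⟩ := GhostAt.ng hT hn hv h1
  refine ⟨fun hvz => cut_half74 hT hT' hn hn' h hv hw h1 h2 hz hvz, fun hwz => ?_⟩
  have h3 : T.GhostAt v (g (f b)) (g (f a)) := by
    rw [h.gf a na, h.gf b nb]
    exact h1
  have h4 := cut_half74 hT' hT hn' hn h.symm hw hv h2 h3 (z := f z) (h.fS z hz) hwz
  rwa [h.gf z hz] at h4

theorem iso_of_match [Finite V] [Finite W] (hT : T.Strong) (hT' : T'.Strong)
    (hn : 6 ≤ Nat.card V) (hn' : 6 ≤ Nat.card W) {ψ : Phi T T'} {f : V → W} {g : W → V}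
    (h : CohData ψ f g)
    (hG : ∀ b a, ¬ T.Ghost b → ¬ T.Ghost a → ((∃ v, T.Ghost v ∧ T.GhostAt v b a) ↔
      (∃ w, T'.Ghost w ∧ T'.GhostAt w (f b) (f a)))) :
    Iso T T' := by
  have hex : ∀ v, ∃ w, (¬ T.Ghost v → w = f v) ∧ (T.Ghost v → T'.Ghost w ∧
      ∃ b a, T.GhostAt v b a ∧ T'.GhostAt w (f b) (f a)) := by
    intro v
    by_cases hv : T.Ghost v
    · obtain ⟨b, a, h1⟩ := ghost_at hT hn hv
      obtain ⟨nb, na, -, -⟩ := GhostAt.ng hT hn hv h1
      obtain ⟨w, hw, h2⟩ := (hG b a nb na).1 ⟨v, hv, h1⟩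
      exact ⟨w, fun hc => absurd hv hc, fun _ => ⟨hw, b, a, h1, h2⟩⟩
    · exact ⟨f v, fun _ => rfl, fun hc => absurd hc hv⟩
  choose F hF1 hF2 using hex
  have hR : ∀ x y, T.R x y → T'.R (F x) (F y) := by
    intro x y hxy
    by_cases hx : T.Ghost x
    · obtain ⟨hFx, b, a, h1, h2⟩ := hF2 x hx
      obtain ⟨nb, na, -, -⟩ := GhostAt.ng hT hn hx h1
      by_cases hy : T.Ghost y
      · obtain ⟨hFy, b', a', h3, h4⟩ := hF2 y hy
        obtain ⟨nb', na', -, -⟩ := GhostAt.ng hT hn hy h3
        have hne : F x ≠ F y := by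
          intro e
          rw [e] at h2
          obtain ⟨e1, e2⟩ := GhostAt.inj_arc h2 h4
          have e1' := h.inj74 nb nb' e1
          have e2' := h.inj74 na na' e2
          subst e1' e2'
          have := GhostAt.eq hT hn hx hy h1 h3
          rw [this] at hxy
          exact T.irr _ hxy
        rcases T'.tot (F x) (F y) hne with h5 | h5
        · exact h5
        exfalso
        have hxb' : T.R x b' := ghost_nested hT hn hx hy hxy b' h3.hb
        have hxa' : T.R x a' := by
          have hne2 : x ≠ a' := by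
            rintro rfl
            exact na' hx
          rcases T.tot x a' hne2 with h6 | h6
          · exact h6
          · exfalso
            obtain ⟨e1, e2⟩ := h1.uniq b' a' hxb' h6 h3.hba
            subst e1 e2
            have := GhostAt.eq hT hn hx hy h1 h3
            rw [this] at hxy
            exact T.irr _ hxy
        have h6 := (cut_unique hT hT' hn hn' h hx hFx h1 h2 a' na').1 hxa'
        have h7 := ghost_nested hT' hn' hFy hFx h5 (f a') h6
        exact T'.asym _ _ h7 h4.ha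
      · rw [hF1 y hy]
        exact (cut_unique hT hT' hn hn' h hx hFx h1 h2 y hy).1 hxy
    · by_cases hy : T.Ghost y
      · obtain ⟨hFy, b', a', h3, h4⟩ := hF2 y hy
        rw [hF1 x hx]
        have hne : f x ≠ F y := by
          intro e
          rw [← e] at hFy
          exact h.fS x hx hFy
        rcases T'.tot (f x) (F y) hne with h5 | h5
        · exact h5
        · have := (cut_unique hT hT' hn hn' h hy hFy h3 h4 x hx).2 h5
          exact absurd hxy (T.asym _ _ this)
      · rw [hF1 x hx, hF1 y hy]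
        exact (agree hT hT' hn hn' h x y hx hy).1 hxy
  have hinj : Function.Injective F := by
    intro x y e
    by_contra hne
    rcases T.tot x y hne with h1 | h1
    · have := hR x y h1
      rw [e] at this
      exact T'.irr _ this
    · have := hR y x h1
      rw [e] at this
      exact T'.irr _ this
  have hsurj : Function.Surjective F := by
    intro w
    by_cases hw : T'.Ghost w
    · obtain ⟨b', a', h1⟩ := ghost_at hT' hn' hw
      obtain ⟨nb, na, -, -⟩ := GhostAt.ng hT' hn' hw h1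
      have h2 : T'.GhostAt w (f (g b')) (f (g a')) := by
        rw [h.fg b' nb, h.fg a' na]
        exact h1
      obtain ⟨v, hv, h3⟩ := (hG (g b') (g a') (h.gS b' nb) (h.gS a' na)).2 ⟨w, hw, h2⟩
      refine ⟨v, ?_⟩
      obtain ⟨hFv, b, a, h4, h5⟩ := hF2 v hv
      obtain ⟨rfl, rfl⟩ := GhostAt.inj_arc h3 h4
      exact GhostAt.eq hT' hn' hFv hw h5 h2
    · refine ⟨g w, ?_⟩
      rw [hF1 _ (h.gS w hw), h.fg w hw]
  refine ⟨Equiv.ofBijective F ⟨hinj, hsurj⟩, fun x y => ⟨hR x y, fun hxy => ?_⟩⟩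
  change T'.R (F x) (F y) at hxy
  have hne : x ≠ y := by
    rintro rfl
    exact T'.irr _ hxy
  rcases T.tot x y hne with h1 | h1
  · exact h1
  · exact absurd hxy (T'.asym _ _ (hR y x h1))

end Pool.Agent.Helper98.FC
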