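import Pool.Agent.Helper98.FC.Prop5

/-!
# FC-E5b: chain extraction and the isomorphism onto the converse (MP_ebd9af_co)
-/

namespace Pool.Agent.Helper98.FC

universe u v

variable {V : Type u} {W : Type v} {T : Tour V} {T' : Tour W}

open Tour

namespace Mismatch

/-- `(b, a)` carries a ghost of `T` and none of `T'`; `O` is the set of non-ghosts behind it. -/
def MT (T : Tour V) (T' : Tour W) (f : V → W) (b a : V) (O : Set V) : Prop :=
  ¬ T.Ghost b ∧ ¬ T.Ghost a ∧ (∃ v, T.Ghost v ∧ T.GhostAt v b a ∧ ∀ z, z ∈ O ↔ ¬ T.Ghost z ∧ T.R v z) ∧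
    ¬ ∃ w, T'.Ghost w ∧ T'.GhostAt w (f b) (f a)

/-- `(b, a)` carries a ghost of `T'` and none of `T`. -/
def MF (T : Tour V) (T' : Tour W) (f : V → W) (b a : V) (O : Set V) : Prop :=
  ¬ T.Ghost b ∧ ¬ T.Ghost a ∧
    (∃ w, T'.Ghost w ∧ T'.GhostAt w (f b) (f a) ∧ ∀ z, z ∈ O ↔ ¬ T.Ghost z ∧ T'.R w (f z)) ∧
    ¬ ∃ v, T.Ghost v ∧ T.GhostAt v b a

/-- Both, by parity. -/
def Mu (T : Tour V) (T' : Tour W) (f : V → W) (n : ℕ) (b a : V) (O : Set V) : Prop :=
  if n % 2 = 0 then MT T T' f b a O else MF T T' f b a O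

section

variable {ψ : Phi T T'} {f : V → W} {g : W → V}

theorem finj (h : CohData ψ f g) {p q : V} (hp : ¬ T.Ghost p) (hq : ¬ T.Ghost q) (e : f p = f q) : p = q := by
  rw [← h.gf p hp, ← h.gf q hq, e]

theorem MF.swap (h : CohData ψ f g) {b a : V} {O : Set V} (hM : MF T T' f b a O) :
    MT T' T g (f b) (f a) {w | ¬ T'.Ghost w ∧ g w ∈ O} := by
  obtain ⟨h1, h2, ⟨w, h3, h4, h5⟩, h6⟩ := hM
  refine ⟨h.fS _ h1, h.fS _ h2, ⟨w, h3, h4, fun z => ?_⟩, ?_⟩
  · constructor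
    · rintro ⟨hz, hz'⟩
      have := ((h5 _).1 hz').2
      rw [h.fg z hz] at this
      exact ⟨hz, this⟩
    · rintro ⟨hz, hz'⟩
      refine ⟨hz, (h5 _).2 ⟨h.gS z hz, ?_⟩⟩
      rw [h.fg z hz]
      exact hz'
  · rw [h.gf b h1, h.gf a h2]
    exact h6

theorem MF.unswap (h : CohData ψ f g) {b a : V} {O' : Set W} (hb : ¬ T.Ghost b) (ha : ¬ T.Ghost a)
    (hM : MF T' T g (f b) (f a) O') : MT T T' f b a {z | ¬ T.Ghost z ∧ f z ∈ O'} := by
  have := MF.swap h.symm hM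
  rw [h.gf b hb, h.gf a ha] at this
  exact this

variable [Finite V] [Finite W] (hT : T.Strong) (hT' : T'.Strong) (hn : 6 ≤ Nat.card V) (hn' : 6 ≤ Nat.card W)
include hT hT' hn hn'

theorem MT.back (h : CohData ψ f g) {b a : V} {O : Set V} (hM : MT T T' f b a O) {z : V} (hz : z ∈ O) (hzb : z ≠ b) :
    ∃ y, MF T T' f y b (O \ {b}) := by
  obtain ⟨h1, h2, ⟨v, h3, h4, h5⟩, h6⟩ := hM
  obtain ⟨y, s, k1, k2, k3, k4, k5, k6, k7⟩ := prop_back hT hT' hn hn' h h3 h4 h6 ⟨z, hzb, ((h5 z).1 hz).2⟩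
  refine ⟨y, k1, h1, ⟨s, k4, k5, fun x => ?_⟩, k6⟩
  rw [Set.mem_sdiff, h5, Set.mem_singleton_iff]
  constructor
  · rintro ⟨⟨l1, l2⟩, l3⟩
    exact ⟨l1, (k7 x l1).2 ⟨l2, l3⟩⟩
  · rintro ⟨l1, l2⟩
    have := (k7 x l1).1 l2
    exact ⟨⟨l1, this.1⟩, this.2⟩

theorem MT.fwd (h : CohData ψ f g) {b a : V} {O : Set V} (hM : MT T T' f b a O) {z : V} (hz0 : ¬ T.Ghost z)
    (hz : z ∉ O) (hza : z ≠ a) :
    ∃ x, ¬ T.Ghost x ∧ x ∉ O ∧ x ≠ a ∧ MF T T' f a x (insert a O) := by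
  obtain ⟨h1, h2, ⟨v, h3, h4, h5⟩, h6⟩ := hM
  have hzv : T.R z v := by
    have hne : v ≠ z := fun e => hz0 (e ▸ h3)
    exact T.of_not hne fun h' => hz ((h5 z).2 ⟨hz0, h'⟩)
  obtain ⟨x, s, k1, k2, k3, k4, k5, k6, k7⟩ := prop_fwd hT hT' hn hn' h h3 h4 h6 ⟨z, hza, hzv⟩
  refine ⟨x, k1, fun hx => T.asym _ _ k2 ((h5 x).1 hx).2, (T.ne k3).symm, h2, k1, ⟨s, k4, k5, fun y => ?_⟩, k6⟩
  rw [Set.mem_insert_iff, h5]
  constructor
  · rintro (rfl | ⟨l1, l2⟩)
    · exact ⟨h2, (k7 y h2).2 (Or.inr rfl)⟩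
    · exact ⟨l1, (k7 y l1).2 (Or.inl l2)⟩
  · rintro ⟨l1, l2⟩
    rcases (k7 y l1).1 l2 with l3 | l3
    · exact Or.inr ⟨l1, l3⟩
    · exact Or.inl l3

theorem MF.back (h : CohData ψ f g) {b a : V} {O : Set V} (hM : MF T T' f b a O) {z : V} (hz : z ∈ O) (hzb : z ≠ b) :
    ∃ y, MT T T' f y b (O \ {b}) := by
  have hO : ∀ x ∈ O, ¬ T.Ghost x := by
    obtain ⟨h1, h2, ⟨w, h3, h4, h5⟩, h6⟩ := hM
    exact fun x hx => ((h5 x).1 hx).1
  have hz0 := hO z hz
  obtain ⟨y', hy⟩ := MT.back hT' hT hn' hn h.symm (MF.swap h hM) (z := f z)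
    ⟨h.fS z hz0, by rw [h.gf z hz0]; exact hz⟩ (fun e => hzb (finj h hz0 hM.1 e))
  have e1 : f (g y') = y' := h.fg y' hy.1
  rw [← e1] at hy
  refine ⟨g y', ?_⟩
  have h7 := MF.unswap h (h.gS y' (by rw [← e1]; exact hy.1)) hM.1 hy
  convert h7 using 1
  ext x
  simp only [Set.mem_sdiff, Set.mem_singleton_iff, Set.mem_ofPred_eq]
  constructor
  · rintro ⟨l1, l2⟩
    have l3 := hO x l1
    exact ⟨l3, ⟨h.fS x l3, by rw [h.gf x l3]; exact l1⟩, fun e => l2 (finj h l3 hM.1 e)⟩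
  · rintro ⟨l1, ⟨l2, l3⟩, l4⟩
    rw [h.gf x l1] at l3
    exact ⟨l3, fun e => l4 (by rw [e])⟩

theorem MF.fwd (h : CohData ψ f g) {b a : V} {O : Set V} (hM : MF T T' f b a O) {z : V} (hz0 : ¬ T.Ghost z)
    (hz : z ∉ O) (hza : z ≠ a) :
    ∃ x, ¬ T.Ghost x ∧ x ∉ O ∧ x ≠ a ∧ MT T T' f a x (insert a O) := by
  have hO : ∀ x ∈ O, ¬ T.Ghost x := by
    obtain ⟨h1, h2, ⟨w, h3, h4, h5⟩, h6⟩ := hM
    exact fun x hx => ((h5 x).1 hx).1
  obtain ⟨x', k1, k2, k3, hy⟩ := MT.fwd hT' hT hn' hn h.symm (MF.swap h hM) (z := f z) (h.fS z hz0)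
    (fun hh => hz (by have := hh.2; rwa [h.gf z hz0] at this)) (fun e => hza (finj h hz0 hM.2.1 e))
  have e1 : f (g x') = x' := h.fg x' k1
  rw [← e1] at hy
  refine ⟨g x', h.gS x' k1, fun hh => k2 ⟨k1, hh⟩, fun e => k3 (by rw [← e1, e]), ?_⟩
  have h7 := MF.unswap h hM.2.1 (h.gS x' k1) hy
  convert h7 using 1
  ext x
  simp only [Set.mem_insert_iff, Set.mem_ofPred_eq]
  constructor
  · rintro (rfl | l1)
    · exact ⟨hM.2.1, Or.inl rfl⟩
    · have l3 := hO x l1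
      exact ⟨l3, Or.inr ⟨h.fS x l3, by rw [h.gf x l3]; exact l1⟩⟩
  · rintro ⟨l1, l2 | ⟨l2, l3⟩⟩
    · exact Or.inl (finj h l1 hM.2.1 l2)
    · rw [h.gf x l1] at l3
      exact Or.inr l3

theorem Mu.back (h : CohData ψ f g) {n : ℕ} {b a : V} {O : Set V} (hM : Mu T T' f n b a O) {z : V} (hz : z ∈ O)
    (hzb : z ≠ b) : ∃ y, Mu T T' f (n + 1) y b (O \ {b}) := by
  unfold Mu at hM
  split_ifs at hM with h0
  · obtain ⟨y, hy⟩ := MT.back hT hT' hn hn' h hM hz hzb
    exact ⟨y, by unfold Mu; rw [if_neg (by omega)]; exact hy⟩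
  · obtain ⟨y, hy⟩ := MF.back hT hT' hn hn' h hM hz hzb
    exact ⟨y, by unfold Mu; rw [if_pos (by omega)]; exact hy⟩

theorem Mu.fwd (h : CohData ψ f g) {n : ℕ} {b a : V} {O : Set V} (hM : Mu T T' f n b a O) {z : V} (hz0 : ¬ T.Ghost z)
    (hz : z ∉ O) (hza : z ≠ a) :
    ∃ x, ¬ T.Ghost x ∧ x ∉ O ∧ x ≠ a ∧ Mu T T' f (n + 1) a x (insert a O) := by
  unfold Mu at hM
  split_ifs at hM with h0
  · obtain ⟨y, h1, h2, h3, hy⟩ := MT.fwd hT hT' hn hn' h hM hz0 hz hza
    exact ⟨y, h1, h2, h3, by unfold Mu; rw [if_neg (by omega)]; exact hy⟩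
  · obtain ⟨y, h1, h2, h3, hy⟩ := MF.fwd hT hT' hn hn' h hM hz0 hz hza
    exact ⟨y, h1, h2, h3, by unfold Mu; rw [if_pos (by omega)]; exact hy⟩

/-- basic facts -/
theorem Mu.facts (h : CohData ψ f g) {n : ℕ} {b a : V} {O : Set V} (hM : Mu T T' f n b a O) :
    ¬ T.Ghost b ∧ ¬ T.Ghost a ∧ b ∈ O ∧ a ∉ O ∧ T.R b a ∧ (∀ z ∈ O, ¬ T.Ghost z) ∧
      ∀ p q, ¬ T.Ghost q → p ∈ O → q ∉ O → T.R p q → p = b ∧ q = a := by
  unfold Mu at hM
  split_ifs at hM with h0
  · obtain ⟨h1, h2, ⟨v, h3, h4, h5⟩, h6⟩ := hM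
    refine ⟨h1, h2, (h5 b).2 ⟨h1, h4.hb⟩, fun ha => T.asym _ _ h4.ha ((h5 a).1 ha).2, h4.hba,
      fun z hz => ((h5 z).1 hz).1, fun p q hq hp hq' hpq => ?_⟩
    have hqv : T.R q v := by
      have hne : v ≠ q := fun e => hq (e ▸ h3)
      exact T.of_not hne fun h' => hq' ((h5 q).2 ⟨hq, h'⟩)
    exact h4.uniq p q ((h5 p).1 hp).2 hqv hpq
  · obtain ⟨h1, h2, ⟨w, h3, h4, h5⟩, h6⟩ := hM
    refine ⟨h1, h2, (h5 b).2 ⟨h1, h4.hb⟩, fun ha => T'.asym _ _ h4.ha ((h5 a).1 ha).2,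
      (agree hT hT' hn hn' h b a h1 h2).2 h4.hba,
      fun z hz => ((h5 z).1 hz).1, fun p q hq hp hq' hpq => ?_⟩
    obtain ⟨hp1, hp2⟩ := (h5 p).1 hp
    have hqv : T'.R (f q) w := by
      have hne : w ≠ f q := fun e => h.fS q hq (e ▸ h3)
      exact T'.of_not hne fun h' => hq' ((h5 q).2 ⟨hq, h'⟩)
    have := h4.uniq (f p) (f q) hp2 hqv ((agree hT hT' hn hn' h p q hp1 hq).1 hpq)
    exact ⟨finj h hp1 h1 this.1, finj h hq h2 this.2⟩

/-- The first element of the chain. -/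
theorem first (h : CohData ψ f g) (k : ℕ) : ∀ {n : ℕ} {b a : V} {O : Set V}, Mu T T' f n b a O → O.ncard ≤ k →
    ∃ n' b' a', Mu T T' f n' b' a' {b'} := by
  induction k with
  | zero =>
    intro n b a O hM hk
    have hb := (Mu.facts hT hT' hn hn' h hM).2.2.1
    have : 0 < O.ncard := (Set.ncard_pos (Set.toFinite _)).2 ⟨b, hb⟩
    omega
  | succ k ih =>
    intro n b a O hM hk
    have hb := (Mu.facts hT hT' hn hn' h hM).2.2.1
    by_cases hz : ∃ z ∈ O, z ≠ b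
    · obtain ⟨z, hz1, hz2⟩ := hz
      obtain ⟨y, hy⟩ := Mu.back hT hT' hn hn' h hM hz1 hz2
      refine ih hy ?_
      rw [Set.ncard_sdiff_singleton_of_mem hb]
      omega
    · push Not at hz
      refine ⟨n, b, a, ?_⟩
      have : O = {b} := by
        ext x
        rw [Set.mem_singleton_iff]
        exact ⟨fun hx => hz x hx, fun hx => hx ▸ hb⟩
      rwa [this] at hM

/-- The chain. -/
theorem chain (h : CohData ψ f g) {n : ℕ} {b a : V} (hM : Mu T T' f n b a {b}) (k : ℕ)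
    (hk : k + 2 ≤ Nat.card {v : V // ¬ T.Ghost v}) :
    ∃ c : ℕ → V, (∀ i, i ≤ k + 1 → ¬ T.Ghost (c i)) ∧
      (∀ i, i ≤ k + 1 → ∀ j, j ≤ k + 1 → c i = c j → i = j) ∧
      ∀ j, j ≤ k → Mu T T' f (n + j) (c j) (c (j + 1)) {z | ∃ i, i ≤ j ∧ c i = z} := by
  induction k with
  | zero =>
    obtain ⟨h1, h2, h3, h4, h5, h6, h7⟩ := Mu.facts hT hT' hn hn' h hM
    refine ⟨fun i => if i = 0 then b else a, ?_, ?_, ?_⟩
    · intro i _
      dsimp only
      split_ifs
      · exact h1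
      · exact h2
    · intro i hi j hj hij
      have hba : b ≠ a := T.ne h5
      dsimp only at hij
      split_ifs at hij with e1 e2 e2
      · omega
      · exact absurd hij hba
      · exact absurd hij hba.symm
      · omega
    · intro j hj
      obtain rfl : j = 0 := by omega
      have : {z | ∃ i, i ≤ 0 ∧ (if i = 0 then b else a) = z} = {b} := by
        ext x
        simp only [Set.mem_ofPred_eq, Set.mem_singleton_iff]
        constructor
        · rintro ⟨i, hi, hx⟩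
          obtain rfl : i = 0 := by omega
          rw [if_pos rfl] at hx
          exact hx.symm
        · intro hx
          exact ⟨0, le_rfl, by rw [if_pos rfl, hx]⟩
      rw [this]
      simpa using hM
  | succ k ih =>
    obtain ⟨c, h1, h2, h3⟩ := ih (by omega)
    -- a further non-ghost
    obtain ⟨z, hz0, hz⟩ : ∃ z, ¬ T.Ghost z ∧ ∀ i, i ≤ k + 1 → c i ≠ z := by
      by_contra hcon
      push Not at hcon
      have hle : Nat.card {v : V // ¬ T.Ghost v} ≤ Nat.card (Fin (k + 2)) := by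
        refine Nat.card_le_card_of_surjective (fun i : Fin (k + 2) => (⟨c i.1, h1 _ (by omega)⟩ : {v : V // ¬ T.Ghost v})) ?_
        rintro ⟨x, hx⟩
        obtain ⟨i, hi, hix⟩ := hcon x hx
        exact ⟨⟨i, by omega⟩, Subtype.ext hix⟩
      have e : Nat.card (Fin (k + 2)) = k + 2 := by simp
      omega
    have hMk := h3 k le_rfl
    obtain ⟨x, k1, k2, k3, k4⟩ := Mu.fwd hT hT' hn hn' h hMk hz0
      (by rintro ⟨i, hi, hiz⟩; exact hz i (by omega) hiz) (fun e => hz (k + 1) le_rfl e.symm)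
    have hx : ∀ i, i ≤ k + 1 → c i ≠ x := by
      intro i hi hix
      rcases Nat.lt_or_ge k i with hki | hki
      · obtain rfl : i = k + 1 := by omega
        exact k3 hix.symm
      · exact k2 ⟨i, hki, hix⟩
    have e1 : ∀ i, i ≤ k + 1 → Function.update c (k + 2) x i = c i := by
      intro i hi
      rw [Function.update_of_ne (by omega)]
    have e2 : Function.update c (k + 2) x (k + 2) = x := Function.update_self ..
    refine ⟨Function.update c (k + 2) x, ?_, ?_, ?_⟩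
    · intro i hi
      rcases Nat.lt_or_ge (k + 1) i with hki | hki
      · obtain rfl : i = k + 2 := by omega
        rw [e2]
        exact k1
      · rw [e1 i hki]
        exact h1 i hki
    · intro i hi j hj hij
      rcases Nat.lt_or_ge (k + 1) i with hki | hki
      · obtain rfl : i = k + 2 := by omega
        rcases Nat.lt_or_ge (k + 1) j with hkj | hkj
        · omega
        · rw [e2, e1 j hkj] at hij
          exact absurd hij.symm (hx j hkj)
      · rcases Nat.lt_or_ge (k + 1) j with hkj | hkj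
        · obtain rfl : j = k + 2 := by omega
          rw [e2, e1 i hki] at hij
          exact absurd hij (hx i hki)
        · rw [e1 i hki, e1 j hkj] at hij
          exact h2 i hki j hkj hij
    · intro j hj
      have hset : ∀ j, j ≤ k + 1 → {z | ∃ i, i ≤ j ∧ Function.update c (k + 2) x i = z} = {z | ∃ i, i ≤ j ∧ c i = z} := by
        intro j hj
        ext y
        simp only [Set.mem_ofPred_eq]
        constructor
        · rintro ⟨i, hi, hy⟩
          rw [e1 i (by omega)] at hy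
          exact ⟨i, hi, hy⟩
        · rintro ⟨i, hi, hy⟩
          exact ⟨i, hi, by rw [e1 i (by omega)]; exact hy⟩
      rw [hset j hj]
      rcases Nat.lt_or_ge k j with hkj | hkj
      · obtain rfl : j = k + 1 := by omega
        rw [e1 (k + 1) le_rfl, e2]
        have hs : {z | ∃ i, i ≤ k + 1 ∧ c i = z} = insert (c (k + 1)) {z | ∃ i, i ≤ k ∧ c i = z} := by
          ext y
          simp only [Set.mem_ofPred_eq, Set.mem_insert_iff]
          constructor
          · rintro ⟨i, hi, hy⟩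
            rcases Nat.lt_or_ge k i with hki | hki
            · obtain rfl : i = k + 1 := by omega
              exact Or.inl hy.symm
            · exact Or.inr ⟨i, hki, hy⟩
          · rintro (hy | ⟨i, hi, hy⟩)
            · exact ⟨k + 1, le_rfl, hy.symm⟩
            · exact ⟨i, by omega, hy⟩
        rw [hs]
        exact k4
      · rw [e1 j (by omega), e1 (j + 1) (by omega)]
        exact h3 j hkj

end

/-- The structure of `T` in the mismatch case: `m` non-ghosts `c 0, ..., c (m - 1)` and ghosts at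
`(c (k - 1), c k)` for `k ≡ t` mod `2`. -/
structure Ch (T : Tour V) (m t : ℕ) (c : ℕ → V) : Prop where
  m4 : 4 ≤ m
  cS : ∀ i, i < m → ¬ T.Ghost (c i)
  inj : ∀ i, i < m → ∀ j, j < m → c i = c j → i = j
  surj : ∀ z, ¬ T.Ghost z → ∃ i, i < m ∧ c i = z
  rel : ∀ i, i < m → ∀ j, j < m → (T.R (c i) (c j) ↔ j = i + 1 ∨ j + 1 < i)
  gh : ∀ k, k + 1 < m → k % 2 = t % 2 →
    ∃ v, T.Ghost v ∧ T.GhostAt v (c k) (c (k + 1)) ∧ ∀ i, i < m → (T.R v (c i) ↔ i ≤ k)
  ngh : ∀ k, k + 1 < m → k % 2 ≠ t % 2 → ¬ ∃ v, T.Ghost v ∧ T.GhostAt v (c k) (c (k + 1))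

/-- A ghost sits at consecutive vertices. -/
theorem Ch.cons {m t : ℕ} {c : ℕ → V} (h : Ch T m t c) {u : V} (hu : T.Ghost u) {i j : ℕ} (hi : i < m) (hj : j < m)
    (hG : T.GhostAt u (c i) (c j)) : j = i + 1 := by
  have m4 := h.m4
  have hOI : ∀ l, l < m → (T.R u (c l) ∨ T.R (c l) u) := fun l hl =>
    T.tot _ _ (fun e => h.cS l hl (e ▸ hu))
  have key : ∀ l l', l < m → l' < m → T.R u (c l) → T.R (c l') u → (l' = l + 1 ∨ l' + 1 < l) → l = i ∧ l' = j := by
    intro l l' hl hl' h1 h2 h3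
    have := hG.uniq (c l) (c l') h1 h2 ((h.rel l hl l' hl').2 h3)
    exact ⟨h.inj l hl i hi this.1, h.inj l' hl' j hj this.2⟩
  have hO := hG.hb
  have hI := hG.ha
  rcases (h.rel i hi j hj).1 hG.hba with h1 | h1
  · exact h1
  exfalso
  -- `j + 1 < i`
  have hm : ∀ l, 1 ≤ l → l < j → l + 1 = j → False := by
    intro l _ hl hlj
    rcases hOI l (by omega) with h2 | h2
    · have := key l j (by omega) hj h2 hI (by omega); omega
    · have := key i l hi (by omega) hO h2 (by omega); omega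
  have hm' : ∀ l, l + 1 = j → False := by
    intro l hlj
    rcases hOI l (by omega) with h2 | h2
    · have := key l j (by omega) hj h2 hI (by omega); omega
    · have := key i l hi (by omega) hO h2 (by omega); omega
  have hj0 : j = 0 := by
    rcases Nat.eq_zero_or_pos j with h2 | h2
    · exact h2
    · exact (hm' (j - 1) (by omega)).elim
  have hM : ∀ l, l = i + 1 → l < m → False := by
    intro l hl hlm
    rcases hOI l hlm with h2 | h2
    · have := key l j hlm hj h2 hI (by omega); omega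
    · have := key i l hi hlm hO h2 (by omega); omega
  have hi2 : i + 1 = m := by
    rcases Nat.lt_or_ge (i + 1) m with h2 | h2
    · exact (hM (i + 1) rfl h2).elim
    · omega
  -- so `j = 0`, `i = m - 1 ≥ 3`
  subst hj0
  rcases hOI 2 (by omega) with h2 | h2
  · have := key 2 0 (by omega) hj h2 hI (by omega); omega
  · rcases hOI 1 (by omega) with h3 | h3
    · have := key 1 2 (by omega) (by omega) h3 h2 (by omega); omega
    · have := key i 1 hi (by omega) hO h3 (by omega); omega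

/-- The position of a vertex. -/
def Pos (T : Tour V) (m t : ℕ) (c : ℕ → V) (v : V) (p : ℕ) : Prop :=
  (∃ i, i < m ∧ c i = v ∧ p = 2 * i) ∨
    ∃ k, k + 1 < m ∧ k % 2 = t % 2 ∧ T.Ghost v ∧ T.GhostAt v (c k) (c (k + 1)) ∧ p = 2 * k + 1

def Rho (p q : ℕ) : Prop := (q < p ∧ ¬ (p = q + 2 ∧ p % 2 = 0)) ∨ (q = p + 2 ∧ p % 2 = 0)

def Rng (m t p : ℕ) : Prop := (∃ i, i < m ∧ p = 2 * i) ∨ ∃ k, k + 1 < m ∧ k % 2 = t % 2 ∧ p = 2 * k + 1

section

variable [Finite V] (hT : T.Strong) (hn : 6 ≤ Nat.card V)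
include hT hn

theorem Ch.pos_ex {m t : ℕ} {c : ℕ → V} (h : Ch T m t c) (v : V) : ∃ p, Pos T m t c v p := by
  by_cases hv : T.Ghost v
  · obtain ⟨b, a, hG⟩ := ghost_at hT hn hv
    obtain ⟨hb, ha, -, -⟩ := GhostAt.ng hT hn hv hG
    obtain ⟨i, hi, rfl⟩ := h.surj b hb
    obtain ⟨j, hj, rfl⟩ := h.surj a ha
    obtain rfl := h.cons hv hi hj hG
    refine ⟨2 * i + 1, Or.inr ⟨i, hj, ?_, hv, hG, rfl⟩⟩
    by_contra hne
    exact h.ngh i hj hne ⟨v, hv, hG⟩
  · obtain ⟨i, hi, rfl⟩ := h.surj v hv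
    exact ⟨2 * i, Or.inl ⟨i, hi, rfl, rfl⟩⟩

theorem Ch.pos_inj {m t : ℕ} {c : ℕ → V} (_ : Ch T m t c) {v w : V} {p : ℕ} (hv : Pos T m t c v p)
    (hw : Pos T m t c w p) : v = w := by
  rcases hv with ⟨i, h1, rfl, h3⟩ | ⟨k, h1, h2, h3, h4, h5⟩
  · rcases hw with ⟨j, h4, rfl, h6⟩ | ⟨k, h4, h5, h6, h7, h8⟩
    · rw [show i = j by omega]
    · omega
  · rcases hw with ⟨j, h4, rfl, h6⟩ | ⟨k', h6, h7, h8, h9, h10⟩
    · omega
    · obtain rfl : k = k' := by omega
      exact GhostAt.eq hT hn h3 h8 h4 h9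

theorem Ch.pos_rel {m t : ℕ} {c : ℕ → V} (h : Ch T m t c) {v w : V} {p q : ℕ} (hv : Pos T m t c v p)
    (hw : Pos T m t c w q) : T.R v w ↔ Rho p q := by
  have cut : ∀ {k : ℕ} {u : V}, k + 1 < m → k % 2 = t % 2 → T.Ghost u → T.GhostAt u (c k) (c (k + 1)) →
      ∀ i, i < m → (T.R u (c i) ↔ i ≤ k) := by
    intro k u hk hkt hu hG
    obtain ⟨v', h1, h2, h3⟩ := h.gh k hk hkt
    rw [GhostAt.eq hT hn hu h1 hG h2]
    exact h3
  have nest : ∀ {k k' : ℕ} {u u' : V}, k + 1 < m → k % 2 = t % 2 → T.Ghost u → T.GhostAt u (c k) (c (k + 1)) →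
      k' + 1 < m → k' % 2 = t % 2 → T.Ghost u' → T.GhostAt u' (c k') (c (k' + 1)) → k < k' → T.R u' u := by
    intro k k' u u' h1 h2 h3 h4 h1' h2' h3' h4' hlt
    have hne : u ≠ u' := by
      rintro rfl
      have := (cut h1 h2 h3 h4 k' (by omega)).1 ((cut h1' h2' h3 h4' k' (by omega)).2 le_rfl)
      omega
    refine T.of_not hne fun hR => ?_
    have e1 := ghost_nested hT hn h3 h3' hR (c k') ((cut h1' h2' h3' h4' k' (by omega)).2 le_rfl)
    have := (cut h1 h2 h3 h4 k' (by omega)).1 e1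
    omega
  rcases hv with ⟨i, h1, rfl, rfl⟩ | ⟨k, h1, h2, h3, h4, rfl⟩
  · rcases hw with ⟨j, h4, rfl, rfl⟩ | ⟨k, h4, h5, h6, h7, rfl⟩
    · rw [h.rel i h1 j h4]
      unfold Rho
      omega
    · have hne : w ≠ c i := fun e => h.cS i h1 (e ▸ h6)
      have e1 : T.R (c i) w ↔ ¬ T.R w (c i) := ⟨fun hh => T.asym _ _ hh, fun hh => T.of_not hne hh⟩
      rw [e1, cut h4 h5 h6 h7 i h1]
      unfold Rho
      omega
  · rcases hw with ⟨j, h5, rfl, rfl⟩ | ⟨k', h5, h6, h7, h8, rfl⟩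
    · rw [cut h1 h2 h3 h4 j h5]
      unfold Rho
      omega
    · rcases lt_trichotomy k k' with hlt | rfl | hlt
      · have e1 := nest h1 h2 h3 h4 h5 h6 h7 h8 hlt
        constructor
        · intro e2; exact (T.asym _ _ e1 e2).elim
        · unfold Rho; omega
      · rw [GhostAt.eq hT hn h3 h7 h4 h8]
        constructor
        · intro e2; exact (T.irr _ e2).elim
        · unfold Rho; omega
      · have e1 := nest h5 h6 h7 h8 h1 h2 h3 h4 hlt
        constructor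
        · intro _; unfold Rho; omega
        · intro _; exact e1

/-- The position function. -/
theorem Ch.pos_fun {m t : ℕ} {c : ℕ → V} (h : Ch T m t c) : ∃ π : V → ℕ, Function.Injective π ∧
    (∀ p, (∃ v, π v = p) ↔ Rng m t p) ∧ ∀ v w, T.R v w ↔ Rho (π v) (π w) := by
  choose π hπ using h.pos_ex hT hn
  refine ⟨π, ?_, ?_, fun v w => h.pos_rel hT hn (hπ v) (hπ w)⟩
  · intro v w hvw
    exact h.pos_inj hT hn (hπ v) (hvw ▸ hπ w)
  · intro p
    have uniq : ∀ {v : V} {p q : ℕ}, Pos T m t c v p → Pos T m t c v q → p = q := by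
      rintro v p q (⟨i, h1, rfl, rfl⟩ | ⟨k, h1, h2, h3, h4, rfl⟩)
      · rintro (⟨j, h5, h6, rfl⟩ | ⟨k, h5, h6, h7, h8, rfl⟩)
        · rw [h.inj j h5 i h1 h6]
        · exact absurd h7 (h.cS i h1)
      · rintro (⟨j, h5, rfl, rfl⟩ | ⟨k', h5, h6, h7, h8, rfl⟩)
        · exact absurd h3 (h.cS j h5)
        · have := (GhostAt.inj_arc h4 h8).1
          rw [h.inj k (by omega) k' (by omega) this]
    constructor
    · rintro ⟨v, rfl⟩
      rcases hπ v with ⟨i, h1, -, h3⟩ | ⟨k, h1, h2, -, -, h5⟩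
      · exact Or.inl ⟨i, h1, h3⟩
      · exact Or.inr ⟨k, h1, h2, h5⟩
    · rintro (⟨i, h1, rfl⟩ | ⟨k, h1, h2, rfl⟩)
      · exact ⟨c i, uniq (hπ (c i)) (Or.inl ⟨i, h1, rfl, rfl⟩)⟩
      · obtain ⟨v, h3, h4, -⟩ := h.gh k h1 h2
        exact ⟨v, uniq (hπ v) (Or.inr ⟨k, h1, h2, h3, h4, rfl⟩)⟩

end

theorem count (N : ℕ) : ((Finset.range N).filter fun k => k % 2 = 0).card = (N + 1) / 2 ∧
    ((Finset.range N).filter fun k => k % 2 = 1).card = N / 2 := by
  induction N with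
  | zero => simp
  | succ N ih =>
    obtain ⟨h0, h1⟩ := ih
    rw [Finset.range_add_one, Finset.filter_insert, Finset.filter_insert]
    constructor
    · split_ifs with h
      · rw [Finset.card_insert_of_notMem (by simp), h0]; omega
      · rw [h0]; omega
    · split_ifs with h
      · rw [Finset.card_insert_of_notMem (by simp), h1]; omega
      · rw [h1]; omega

theorem card_rng {m t : ℕ} {π : V → ℕ} (h1 : Function.Injective π) (h2 : ∀ p, (∃ v, π v = p) ↔ Rng m t p) :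
    Nat.card V = m + ((Finset.range (m - 1)).filter fun k => k % 2 = t % 2).card := by
  classical
  have e1 : Nat.card V = (Set.range π).ncard := by
    rw [← Nat.card_coe_set_eq, Nat.card_range_of_injective h1]
  set F : Finset ℕ := ((Finset.range m).image fun i => 2 * i) ∪
    (((Finset.range (m - 1)).filter fun k => k % 2 = t % 2).image fun k => 2 * k + 1) with hF
  have e2 : Set.range π = ↑F := by
    ext p
    have : p ∈ Set.range π ↔ Rng m t p := h2 p
    rw [this, hF]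
    unfold Rng
    simp only [Finset.coe_union, Finset.coe_image, Set.mem_union, Set.mem_image, Finset.mem_coe, Finset.mem_range,
      Finset.mem_filter]
    constructor
    · rintro (⟨i, h3, rfl⟩ | ⟨k, h3, h4, rfl⟩)
      · exact Or.inl ⟨i, h3, rfl⟩
      · exact Or.inr ⟨k, ⟨by omega, h4⟩, rfl⟩
    · rintro (⟨i, h3, rfl⟩ | ⟨k, ⟨h3, h4⟩, rfl⟩)
      · exact Or.inl ⟨i, h3, rfl⟩
      · exact Or.inr ⟨k, by omega, h4, rfl⟩
  rw [e1, e2, Set.ncard_coe_finset, hF, Finset.card_union_of_disjoint, Finset.card_image_of_injective,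
    Finset.card_image_of_injective, Finset.card_range]
  · intro a b hab
    simpa using hab
  · intro a b hab
    simpa using hab
  · rw [Finset.disjoint_left]
    intro p hp hq
    simp only [Finset.mem_image] at hp hq
    obtain ⟨i, -, h3⟩ := hp
    obtain ⟨k, -, h4⟩ := hq
    omega

theorem m_odd {m t : ℕ} (h4 : 4 ≤ m) {π : V → ℕ} (h1 : Function.Injective π)
    (h2 : ∀ p, (∃ v, π v = p) ↔ Rng m t p) {π' : W → ℕ} (h1' : Function.Injective π')
    (h2' : ∀ p, (∃ v, π' v = p) ↔ Rng m (t + 1) p) (hc : Nat.card V = Nat.card W) : m % 2 = 1 := by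
  rw [card_rng h1 h2, card_rng h1' h2'] at hc
  obtain ⟨c0, c1⟩ := count (m - 1)
  rcases Nat.mod_two_eq_zero_or_one t with h | h
  · have h' : (t + 1) % 2 = 1 := by omega
    simp only [h, h', c0, c1] at hc
    omega
  · have h' : (t + 1) % 2 = 0 := by omega
    simp only [h, h', c0, c1] at hc
    omega

theorem iso_of_pos [Finite V] [Finite W] {m t : ℕ} (h4 : 4 ≤ m) {π : V → ℕ} (h1 : Function.Injective π)
    (h2 : ∀ p, (∃ v, π v = p) ↔ Rng m t p) (h3 : ∀ v w, T.R v w ↔ Rho (π v) (π w)) {π' : W → ℕ}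
    (h1' : Function.Injective π') (h2' : ∀ p, (∃ v, π' v = p) ↔ Rng m (t + 1) p)
    (h3' : ∀ v w, T'.R v w ↔ Rho (π' v) (π' w)) (hc : Nat.card V = Nat.card W) : Iso T.conv T' := by
  have hm := m_odd h4 h1 h2 h1' h2' hc
  have hr : ∀ v, Rng m t (π v) := fun v => (h2 _).1 ⟨v, rfl⟩
  have hle : ∀ v, π v ≤ 2 * (m - 1) := by
    intro v
    rcases hr v with ⟨i, h5, h6⟩ | ⟨k, h5, h6, h7⟩ <;> omega
  have hex : ∀ v, ∃ w, π' w = 2 * (m - 1) - π v := by
    intro v
    rw [h2']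
    rcases hr v with ⟨i, h5, h6⟩ | ⟨k, h5, h6, h7⟩
    · exact Or.inl ⟨m - 1 - i, by omega, by omega⟩
    · exact Or.inr ⟨m - 2 - k, by omega, by omega, by omega⟩
  choose F hF using hex
  have hFi : Function.Injective F := by
    intro v w hvw
    apply h1
    have e1 := hF v
    have e2 := hF w
    rw [hvw] at e1
    have := hle v
    have := hle w
    omega
  have hFb : Function.Bijective F := hFi.bijective_of_nat_card_le hc.ge
  refine ⟨Equiv.ofBijective F hFb, fun a b => ?_⟩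
  have e0 : T.conv.R a b ↔ T.R b a := Iff.rfl
  rw [e0, h3, Equiv.ofBijective_apply, Equiv.ofBijective_apply, h3', hF, hF]
  have := hle a
  have := hle b
  unfold Rho
  omega

section

variable {ψ : Phi T T'} {f : V → W} {g : W → V}
variable [Finite V] [Finite W] (hT : T.Strong) (hT' : T'.Strong) (hn : 6 ≤ Nat.card V) (hn' : 6 ≤ Nat.card W)
include hT hT' hn hn'

theorem exists_Ch (h : CohData ψ f g) {n : ℕ} {b a : V} (hM : Mu T T' f n b a {b}) :
    ∃ m t c, Ch T m t c ∧ Ch T' m (t + 1) (fun i => f (c i)) := by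
  have hm4 := TS_four hT hn
  set m := Nat.card {v : V // ¬ T.Ghost v} with hm
  obtain ⟨c, h1, h2, h3⟩ := chain hT hT' hn hn' h hM (m - 2) (by omega)
  have cS : ∀ i, i < m → ¬ T.Ghost (c i) := fun i hi => h1 i (by omega)
  have inj : ∀ i, i < m → ∀ j, j < m → c i = c j → i = j := fun i hi j hj => h2 i (by omega) j (by omega)
  have surj : ∀ z, ¬ T.Ghost z → ∃ i, i < m ∧ c i = z := by
    intro z hz
    have hi : Function.Injective (fun i : Fin m => (⟨c i.1, cS _ i.2⟩ : {v : V // ¬ T.Ghost v})) := by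
      intro i j hij
      simp only [Subtype.mk.injEq] at hij
      exact Fin.ext (inj _ i.2 _ j.2 hij)
    have hb := hi.bijective_of_nat_card_le (by
      have e : Nat.card (Fin m) = m := by simp
      rw [e])
    obtain ⟨i, hi⟩ := hb.2 ⟨z, hz⟩
    exact ⟨i.1, i.2, congrArg Subtype.val hi⟩
  have mem : ∀ i j, i < m → j < m → (c i ∈ {z | ∃ i, i ≤ j ∧ c i = z} ↔ i ≤ j) := by
    intro i j hi hj
    constructor
    · rintro ⟨i', h4, h5⟩
      have := inj i' (by omega) i hi h5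
      omega
    · intro h4
      exact ⟨i, h4, rfl⟩
  have up : ∀ i j, i < j → j < m → (T.R (c i) (c j) ↔ j = i + 1) := by
    intro i j hij hj
    obtain ⟨-, -, -, -, f5, -, f7⟩ := Mu.facts hT hT' hn hn' h (h3 i (by omega))
    constructor
    · intro hR
      have := f7 (c i) (c j) (cS j hj) ((mem i i (by omega) (by omega)).2 le_rfl)
        (fun h' => by have := (mem j i hj (by omega)).1 h'; omega) hR
      exact inj j hj (i + 1) (by omega) this.2
    · rintro rfl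
      exact f5
  have rel : ∀ i, i < m → ∀ j, j < m → (T.R (c i) (c j) ↔ j = i + 1 ∨ j + 1 < i) := by
    intro i hi j hj
    rcases lt_trichotomy i j with hij | rfl | hij
    · rw [up i j hij hj]
      omega
    · constructor
      · intro h'
        exact (T.irr _ h').elim
      · omega
    · have hne : c j ≠ c i := fun e => by have := inj j hj i hi e; omega
      have e1 : T.R (c i) (c j) ↔ ¬ T.R (c j) (c i) := ⟨fun hh => T.asym _ _ hh, fun hh => T.of_not hne hh⟩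
      rw [e1, up j i hij hi]
      omega
  refine ⟨m, n, c, ⟨hm4, cS, inj, surj, rel, ?_, ?_⟩, ⟨hm4, ?_, ?_, ?_, ?_, ?_, ?_⟩⟩
  · intro k hk hkn
    have hMk := h3 k (by omega)
    unfold Mu at hMk
    rw [if_pos (by omega)] at hMk
    obtain ⟨-, -, ⟨v, k1, k2, k3⟩, -⟩ := hMk
    refine ⟨v, k1, k2, fun i hi => ?_⟩
    rw [← mem i k hi (by omega), k3]
    exact ⟨fun hh => ⟨cS i hi, hh⟩, fun hh => hh.2⟩
  · intro k hk hkn
    have hMk := h3 k (by omega)
    unfold Mu at hMk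
    rw [if_neg (by omega)] at hMk
    exact hMk.2.2.2
  · intro i hi
    exact h.fS _ (cS i hi)
  · intro i hi j hj hij
    exact inj i hi j hj (finj h (cS i hi) (cS j hj) hij)
  · intro z hz
    obtain ⟨i, hi, hiz⟩ := surj (g z) (h.gS z hz)
    exact ⟨i, hi, by rw [hiz, h.fg z hz]⟩
  · intro i hi j hj
    rw [← agree hT hT' hn hn' h _ _ (cS i hi) (cS j hj)]
    exact rel i hi j hj
  · intro k hk hkn
    have hMk := h3 k (by omega)
    unfold Mu at hMk
    rw [if_neg (by omega)] at hMk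
    obtain ⟨-, -, ⟨w, k1, k2, k3⟩, -⟩ := hMk
    refine ⟨w, k1, k2, fun i hi => ?_⟩
    rw [← mem i k hi (by omega), k3]
    exact ⟨fun hh => ⟨cS i hi, hh⟩, fun hh => hh.2⟩
  · intro k hk hkn
    have hMk := h3 k (by omega)
    unfold Mu at hMk
    rw [if_pos (by omega)] at hMk
    exact hMk.2.2.2

end

end Mismatch

/-- **The mismatch case.** -/
theorem iso_of_mismatch [Finite V] [Finite W] (hT : T.Strong) (hT' : T'.Strong) (hn : 6 ≤ Nat.card V)
    (hn' : 6 ≤ Nat.card W) (hc : Nat.card V = Nat.card W) {ψ : Phi T T'} {f : V → W} {g : W → V}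
    (h : CohData ψ f g) {b a v : V} (hv : T.Ghost v) (h1 : T.GhostAt v b a)
    (hno : ¬ ∃ w, T'.Ghost w ∧ T'.GhostAt w (f b) (f a)) : Iso T.conv T' := by
  obtain ⟨hb, ha, -, -⟩ := GhostAt.ng hT hn hv h1
  have hM : Mismatch.Mu T T' f 0 b a {z | ¬ T.Ghost z ∧ T.R v z} :=
    ⟨hb, ha, ⟨v, hv, h1, fun z => Iff.rfl⟩, hno⟩
  obtain ⟨n, b', a', hM'⟩ := Mismatch.first hT hT' hn hn' h _ hM le_rfl
  obtain ⟨m, t, c, hC, hC'⟩ := Mismatch.exists_Ch hT hT' hn hn' h hM'
  obtain ⟨π, p1, p2, p3⟩ := hC.pos_fun hT hn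
  obtain ⟨π', p1', p2', p3'⟩ := hC'.pos_fun hT' hn'
  exact Mismatch.iso_of_pos hC.m4 p1 p2 p3 p1' p2' p3' hc

end Pool.Agent.Helper98.FC
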