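import Pool.Agent.Helper98.FC.Gamma

/-!
# The non-flippable 4-circuits of a strong tournament with at least 6 vertices are connected (MP_ebd9af_co, FC-N)
-/

namespace Pool.Agent.Helper98.FC

universe u v

variable {V : Type u} {T : Tour V}

namespace NConn

variable {a b c d z k s : V}

/-- N0: every vertex outside a flippable circuit is the same on the tails and the same on the heads of the rungs,
and no vertex is dominated by the tails and dominates the heads. -/
theorem n0 (h : T.Flip a b c d) (h1 : z ≠ a) (h2 : z ≠ b) (h3 : z ≠ c) (h4 : z ≠ d) :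
    (T.R z a ↔ T.R z c) ∧ (T.R z b ↔ T.R z d) ∧ (T.R a z ↔ T.R c z) ∧ (T.R b z ↔ T.R d z) ∧
      ¬ (T.R a z ∧ T.R z b) := by
  obtain ⟨⟨r1, r2, r3, r4⟩, u1, u2⟩ := h
  have n := Tour.C4.nes (T := T) ⟨r1, r2, r3, r4⟩
  -- circuits through `b → c`
  have v1 : ∀ p q, T.R c p → T.R p q → T.R q b → p = d ∧ q = a := fun p q x y w => u1 p q ⟨r2, x, y, w⟩
  have v2 : ∀ p q, T.R a p → T.R p q → T.R q d → p = b ∧ q = c := fun p q x y w => u2 p q ⟨r4, x, y, w⟩
  clear u1 u2
  have A1 : ¬ (T.R c z ∧ T.R z a) := fun hh => by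
    have := v1 z a hh.1 hh.2 r1
    grind
  have A2 : ¬ (T.R a z ∧ T.R z c) := fun hh => by
    have := v2 z c hh.1 hh.2 r3
    grind
  have A3 : ¬ (T.R b z ∧ T.R z d) := fun hh => by
    have := v2 b z r1 hh.1 hh.2
    grind
  have A4 : ¬ (T.R d z ∧ T.R z b) := fun hh => by
    have := v1 d z r3 hh.1 hh.2
    grind
  have t1 := T.tot z a h1
  have t2 := T.tot z b h2
  have t3 := T.tot z c h3
  have t4 := T.tot z d h4
  have s1 := T.asym z a
  have s2 := T.asym z b
  have s3 := T.asym z c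
  have s4 := T.asym z d
  have E1 : (T.R z a ↔ T.R z c) := by grind
  have E2 : (T.R z b ↔ T.R z d) := by grind
  have E3 : (T.R a z ↔ T.R c z) := by grind
  have E4 : (T.R b z ↔ T.R d z) := by grind
  refine ⟨E1, E2, E3, E4, fun hh => ?_⟩
  rcases T.tot a c n.2.1 with hac | hac
  · have := v2 c z hac (E3.1 hh.1) (E2.1 hh.2)
    grind
  · have := v1 a z hac hh.1 hh.2
    grind

/-- no vertex dominated by the flippable circuit sends an arc to a vertex dominating it -/
theorem noks (h : T.Flip a b c d) (hk' : s ≠ a) (s2 : T.R s b) (k3 : T.R c k) : ¬ T.R k s := by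
  intro hh
  obtain ⟨⟨r1, r2, r3, r4⟩, u1, u2⟩ := h
  have := u1 k s ⟨r2, k3, hh, s2⟩
  grind

/-- a second circuit through the rung `a → b` gives a vertex of type `B` if `d → b` -/
theorem getB (h : T.Flip a b c d) (hdb : T.R d b) {x y : V} (hC : T.C4 a b x y) (hne : ¬ (x = c ∧ y = d)) :
    ∃ z, (z ≠ a ∧ z ≠ b ∧ z ≠ c ∧ z ≠ d) ∧ T.R b z ∧ T.R z a := by
  have n := h.1.nes
  have m := hC.nes
  obtain ⟨c1, c2, c3, c4⟩ := hC
  have hxd : x ≠ d := by
    rintro rfl
    exact T.asym _ _ hdb c2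
  by_cases hxc : x = c
  · subst hxc
    have hyd : y ≠ d := fun e => hne ⟨rfl, e⟩
    have := n0 h (z := y) (by grind) (by grind) (by grind) hyd
    exact absurd c3 (T.asym _ _ (this.1.1 c4))
  have Nx := n0 h (z := x) (by grind) (by grind) hxc hxd
  by_cases hyd : y = d
  · subst hyd
    exact absurd c2 (T.asym _ _ (Nx.2.1.2 c3))
  by_cases hyc : y = c
  · subst hyc
    exact ⟨x, by grind, c2, Nx.1.2 c3⟩
  have Ny := n0 h (z := y) (by grind) (by grind) hyc hyd
  by_cases hxa : T.R x a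
  · exact ⟨x, by grind, c2, hxa⟩
  by_cases hby : T.R b y
  · exact ⟨y, by grind, hby, c4⟩
  exfalso
  have h1 : T.R a x := T.of_not (by grind) hxa
  have h2 : T.R y b := T.of_not (by grind) hby
  exact noks h (k := x) (s := y) (by grind) h2 (Nx.2.2.1.1 h1) c3

/-- the situation `c → a`, `b → d`: the other circuits through the second rung `c → d` -/
theorem outside (h : T.Flip a b c d) (hca : T.R c a) (hbd : T.R b d) {o i : V} (hD : T.C4 c d o i)
    (hne : ¬ (o = a ∧ i = b)) :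
    (o ≠ a ∧ o ≠ b ∧ o ≠ c ∧ o ≠ d) ∧ (i ≠ a ∧ i ≠ b ∧ i ≠ c ∧ i ≠ d) ∧ T.R b o ∧ T.R i a := by
  have n := h.1.nes
  have m := hD.nes
  obtain ⟨c1, c2, c3, c4⟩ := hD
  have hob : o ≠ b := by
    rintro rfl
    exact T.asym _ _ hbd c2
  have hia : i ≠ a := by
    rintro rfl
    exact T.asym _ _ hca c4
  by_cases hoa : o = a
  · subst hoa
    have hib : i ≠ b := fun e => hne ⟨rfl, e⟩
    have := n0 h (z := i) (by grind) hib (by grind) (by grind)
    exact absurd c3 (T.asym _ _ (this.1.2 c4))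
  have No := n0 h (z := o) hoa hob (by grind) (by grind)
  by_cases hib : i = b
  · subst hib
    exact absurd c2 (T.asym _ _ (No.2.1.1 c3))
  have Ni := n0 h (z := i) hia hib (by grind) (by grind)
  exact ⟨by grind, by grind, No.2.2.2.1.2 c2, Ni.1.2 c4⟩

/-- case (iii) of N1: the circuit `a b o i` is not flippable -/
theorem nf_iii (h : T.Flip a b c d) (hca : T.R c a) (hbd : T.R b d) {o i : V} (hD : T.NF c d o i) :
    T.NF a b o i ∧ T.C4 o i c d := by
  have hne : ¬ (o = a ∧ i = b) := by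
    rintro ⟨rfl, rfl⟩
    exact hD.2.1 h.rot2
  have n := h.1.nes
  have m := hD.1.nes
  obtain ⟨ho, hi, hbo, hia⟩ := outside h hca hbd hD.1 hne
  obtain ⟨c1, c2, c3, c4⟩ := hD.1
  have No := n0 h ho.1 ho.2.1 ho.2.2.1 ho.2.2.2
  have Ni := n0 h hi.1 hi.2.1 hi.2.2.1 hi.2.2.2
  obtain ⟨r1, r2, r3, r4⟩ := h.1
  -- `o` of type `B` or `i` of type `B` is impossible when `b → o` and `i → a` are private
  refine ⟨⟨⟨r1, hbo, c3, hia⟩, ?_, ?_⟩, ⟨c3, c4, c1, c2⟩⟩
  · rintro ⟨-, f1, f2⟩
    -- f1 : U b o i a, f2 : U i a b o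
    have hoc : ¬ T.R o c := fun hh => by
      have := f1 c a ⟨hbo, hh, hca, r1⟩
      grind
    have hbi : ¬ T.R b i := fun hh => by
      have := f2 b d ⟨hia, r1, hbd, Ni.2.2.2.1.1 hh⟩
      grind
    have hib : T.R i b := T.of_not (by grind) hbi
    have hco : T.R c o := T.of_not (by grind) hoc
    exact noks h hi.1 hib hco c3
  · rintro ⟨-, f1, f2⟩
    have := f1 c d ⟨c3, c4, c1, c2⟩
    grind


/-! ### N1 -/

section sigma

variable {σ : V → V → V → V → Prop}

theorem n1_i (hrot : ∀ a b c d, T.C4 a b c d → (σ a b c d ↔ σ b c d a))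
    (hadj : ∀ a b c d c' d', T.NF a b c d → T.NF a b c' d' → (σ a b c d ↔ σ a b c' d'))
    (h : T.Flip a b c d) (hca : T.R c a) (hdb : T.R d b) {x y p q : V} (hC : T.NF a b x y) (hD : T.NF c d p q) :
    σ a b x y ↔ σ c d p q := by
  have n := h.1.nes
  have hne : ¬ (x = c ∧ y = d) := by
    rintro ⟨rfl, rfl⟩
    exact hC.2.1 h
  obtain ⟨z, hz, hbz, hza⟩ := getB h hdb hC.1 hne
  have Nz := n0 h hz.1 hz.2.1 hz.2.2.1 hz.2.2.2
  obtain ⟨r1, r2, r3, r4⟩ := h.1
  have hzc : T.R z c := Nz.1.1 hza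
  have k1 : T.C4 b z c a := ⟨hbz, hzc, hca, r1⟩
  have k2 : T.C4 b z c d := ⟨hbz, hzc, r3, hdb⟩
  have N1 : T.NF a b z c := by
    refine ⟨k1.rot.rot.rot, ?_, ?_⟩
    · rintro ⟨-, f1, f2⟩
      have := f1 c d k2
      grind
    · rintro ⟨-, f1, f2⟩
      have := f1 d b k2.rot
      grind
  have N2 : T.NF c d b z := by
    refine ⟨k2.rot.rot, ?_, ?_⟩
    · rintro ⟨-, f1, f2⟩
      have := f2 a b k1.rot
      grind
    · rintro ⟨-, f1, f2⟩
      have := f1 c a k1
      grind
  have e1 := hadj _ _ _ _ _ _ hC N1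
  have e2 := hadj _ _ _ _ _ _ hD N2
  have e3 := hadj _ _ _ _ _ _ N1.rot N2.rot.rot
  have e4 := hrot _ _ _ _ N1.1
  have e5 := hrot _ _ _ _ N2.1
  have e6 := hrot _ _ _ _ N2.rot.1
  exact e1.trans (e4.trans (e3.trans (e6.symm.trans (e5.symm.trans e2.symm))))

theorem n1_iii (hrot : ∀ a b c d, T.C4 a b c d → (σ a b c d ↔ σ b c d a))
    (hadj : ∀ a b c d c' d', T.NF a b c d → T.NF a b c' d' → (σ a b c d ↔ σ a b c' d'))
    (h : T.Flip a b c d) (hca : T.R c a) (hbd : T.R b d) {x y p q : V} (hC : T.NF a b x y) (hD : T.NF c d p q) :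
    σ a b x y ↔ σ c d p q := by
  obtain ⟨hN, -⟩ := nf_iii h hca hbd hD
  have e1 := hadj _ _ _ _ _ _ hC hN
  have e2 := hadj _ _ _ _ _ _ hN.rot.rot hD.rot.rot
  have e3 := hrot _ _ _ _ hN.1
  have e4 := hrot _ _ _ _ hN.rot.1
  have e5 := hrot _ _ _ _ hD.1
  have e6 := hrot _ _ _ _ hD.rot.1
  exact e1.trans (e3.trans (e4.trans (e2.trans (e6.symm.trans e5.symm))))

/-- N1: non-flippable circuits through the two rungs of a flippable circuit have the same sign. -/
theorem n1 (hrot : ∀ a b c d, T.C4 a b c d → (σ a b c d ↔ σ b c d a))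
    (hadj : ∀ a b c d c' d', T.NF a b c d → T.NF a b c' d' → (σ a b c d ↔ σ a b c' d'))
    (h : T.Flip a b c d) {x y p q : V} (hC : T.NF a b x y) (hD : T.NF c d p q) :
    σ a b x y ↔ σ c d p q := by
  have n := h.1.nes
  rcases T.tot a c n.2.1 with hac | hca
  · rcases T.tot b d n.2.2.2.2.1 with hbd | hdb
    · exact (n1_i hrot hadj h.rot2 hac hbd hD hC).symm
    · exact (n1_iii hrot hadj h.rot2 hac hdb hD hC).symm
  · rcases T.tot b d n.2.2.2.2.1 with hbd | hdb
    · exact n1_iii hrot hadj h hca hbd hC hD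
    · exact n1_i hrot hadj h hca hdb hC hD

end sigma

/-! ### N2 -/

/-- a set which is left by no arc is everything or empty (form: closed under `T.R`) -/
theorem closed_top (hT : T.Strong) (P : V → Prop) (hP : ∀ x y, P x → T.R x y → P y) {x : V} (hx : P x) (y : V) : P y := by
  have := hT x y
  induction this with
  | refl => exact hx
  | tail _ h2 ih => exact hP _ _ ih h2

/-- six vertices: there is one outside any five -/
theorem exists_sixth [Finite V] (hn : 6 ≤ Nat.card V) (a b c d e : V) :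
    ∃ w, w ≠ a ∧ w ≠ b ∧ w ≠ c ∧ w ≠ d ∧ w ≠ e := by
  classical
  by_contra hcon
  push Not at hcon
  have hs : (Set.univ : Set V) ⊆ ({a, b, c, d, e} : Set V) := by
    intro w _
    simp only [Set.mem_insert_iff, Set.mem_singleton_iff]
    by_contra h
    push Not at h
    exact h.2.2.2.2 (hcon w h.1 h.2.1 h.2.2.1 h.2.2.2.1)
  have h1 : Nat.card V = (Set.univ : Set V).ncard := (Set.ncard_univ V).symm
  have h2 : (Set.univ : Set V).ncard ≤ ({a, b, c, d, e} : Set V).ncard := Set.ncard_le_ncard hs (Set.toFinite _)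
  have h3 : ({a, b, c, d, e} : Set V).ncard ≤ 5 := by
    calc ({a, b, c, d, e} : Set V).ncard ≤ ({b, c, d, e} : Set V).ncard + 1 := Set.ncard_insert_le _ _
      _ ≤ ({c, d, e} : Set V).ncard + 1 + 1 := by gcongr; exact Set.ncard_insert_le _ _
      _ ≤ ({d, e} : Set V).ncard + 1 + 1 + 1 := by gcongr; exact Set.ncard_insert_le _ _
      _ ≤ ({e} : Set V).ncard + 1 + 1 + 1 + 1 := by gcongr; exact Set.ncard_insert_le _ _
      _ = 5 := by rw [Set.ncard_singleton]
  omega

/-- A strong tournament with at least 6 vertices has no five vertices such that every other vertex is uniform on them,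
if no vertex dominated by them sends an arc to a vertex dominating them. -/
theorem no_five [Finite V] (hT : T.Strong) (hn : 6 ≤ Nat.card V) (h : T.Flip a b c d) (e : V)
    (hun : ∀ w, w ≠ a → w ≠ b → w ≠ c → w ≠ d → w ≠ e →
      (T.R w a ∧ T.R w b ∧ T.R w c ∧ T.R w d ∧ T.R w e) ∨ (T.R a w ∧ T.R b w ∧ T.R c w ∧ T.R d w ∧ T.R e w)) : False := by
  obtain ⟨w, w1, w2, w3, w4, w5⟩ := exists_sixth hn a b c d e
  rcases hun w w1 w2 w3 w4 w5 with hw | hw
  · -- the set of the vertices which are not of type `S` is closed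
    have := closed_top hT (fun x => (x = a ∨ x = b ∨ x = c ∨ x = d ∨ x = e) ∨
      (T.R a x ∧ T.R b x ∧ T.R c x ∧ T.R d x ∧ T.R e x)) ?_ (x := a) (by tauto) w
    · rcases this with h' | h'
      · grind
      · exact T.asym _ _ hw.1 h'.1
    · intro x y hx hxy
      by_cases hy : y = a ∨ y = b ∨ y = c ∨ y = d ∨ y = e
      · exact Or.inl hy
      refine Or.inr ?_
      rcases hun y (by tauto) (by tauto) (by tauto) (by tauto) (by tauto) with h1 | h1
      · exfalso
        rcases hx with hx | hx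
        · have := T.asym x y hxy
          rcases hx with rfl | rfl | rfl | rfl | rfl <;> tauto
        · exact noks h (k := x) (s := y) (by tauto) h1.2.1 hx.2.2.1 hxy
      · exact h1
  · have := closed_top hT (fun x => T.R a x ∧ T.R b x ∧ T.R c x ∧ T.R d x ∧ T.R e x) ?_ (x := w) hw a
    · exact T.irr _ this.1
    · intro x y hx hxy
      have hne : ¬ (y = a ∨ y = b ∨ y = c ∨ y = d ∨ y = e) := by
        rintro (rfl | rfl | rfl | rfl | rfl)
        · exact T.asym _ _ hxy hx.1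
        · exact T.asym _ _ hxy hx.2.1
        · exact T.asym _ _ hxy hx.2.2.1
        · exact T.asym _ _ hxy hx.2.2.2.1
        · exact T.asym _ _ hxy hx.2.2.2.2
      rcases hun y (by tauto) (by tauto) (by tauto) (by tauto) (by tauto) with h1 | h1
      · exact absurd hxy (noks h (k := x) (s := y) (by tauto) h1.2.1 hx.2.2.1)
      · exact h1

/-- N2: two different flippable circuits with a common rung `a → b`: the other two rungs form a non-flippable circuit. -/
theorem n2 [Finite V] (hT : T.Strong) (hn : 6 ≤ Nat.card V) (h : T.Flip a b c d) {p q : V} (h0 : T.Flip a b p q)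
    (hne : ¬ (p = c ∧ q = d)) : T.NF p q c d := by
  have n := h.1.nes
  have m := h0.1.nes
  obtain ⟨r1, r2, r3, r4⟩ := h.1
  obtain ⟨s1, s2, s3, s4⟩ := h0.1
  by_cases hpd : p = d
  · -- F0 = (a,b,d,q): b → d
    exfalso
    subst hpd
    have hqc : q ≠ c := by
      rintro rfl
      exact T.asym _ _ r3 s3
    have Nq := n0 h (z := q) (by grind) (by grind) hqc (by grind)
    have hqc' : T.R q c := Nq.1.1 s4
    -- c → a
    have hca : T.R c a := by
      refine T.of_not n.2.1 fun hac => ?_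
      have := h0.2.2 c p ⟨s4, hac, r3, s3⟩
      grind
    refine no_five hT hn h q fun w w1 w2 w3 w4 w5 => ?_
    have N1 := n0 h w1 w2 w3 w4
    have N2 := n0 h0 w1 w2 w4 w5
    have t1 := T.tot w a w1
    have t2 := T.tot w b w2
    have t3 := T.tot w c w3
    have t4 := T.tot w p w4
    have t5 := T.tot w q w5
    have s1 := T.asym w a
    have s2 := T.asym w b
    have s3 := T.asym w c
    have s4 := T.asym w p
    have s5 := T.asym w q
    grind
  by_cases hqc : q = c
  · exfalso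
    subst hqc
    have Np := n0 h (z := p) (by grind) (by grind) (by grind) hpd
    refine no_five hT hn h p fun w w1 w2 w3 w4 w5 => ?_
    have N1 := n0 h w1 w2 w3 w4
    have N2 := n0 h0 w1 w2 w5 w3
    have t1 := T.tot w a w1
    have t2 := T.tot w b w2
    have t3 := T.tot w q w3
    have t4 := T.tot w d w4
    have t5 := T.tot w p w5
    have s1 := T.asym w a
    have s2 := T.asym w b
    have s3 := T.asym w q
    have s4 := T.asym w d
    have s5 := T.asym w p
    grind
  have hpc : p ≠ c := by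
    rintro rfl
    have hqd : q ≠ d := fun e => hne ⟨rfl, e⟩
    have Nq := n0 h (z := q) (by grind) (by grind) (by grind) hqd
    exact T.asym _ _ s3 (Nq.1.1 s4)
  have hqd : q ≠ d := by
    rintro rfl
    have Np := n0 h (z := p) (by grind) (by grind) (by grind) (by grind)
    exact T.asym _ _ s2 (Np.2.1.2 s3)
  have Np := n0 h (z := p) (by grind) (by grind) hpc hpd
  have Nq := n0 h (z := q) (by grind) (by grind) hqc hqd
  have Nc := n0 h0 (z := c) (by grind) (by grind) (by grind) (by grind)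
  have Nd := n0 h0 (z := d) (by grind) (by grind) (by grind) (by grind)
  have hdp : T.R d p := Np.2.2.2.1.1 s2
  have hqc' : T.R q c := Nq.1.1 s4
  refine ⟨⟨s3, hqc', r3, hdp⟩, ?_, ?_⟩
  · rintro ⟨-, f1, f2⟩
    -- f1 : U q c d p, f2 : U d p q c
    rcases T.tot a p (by grind) with hap | hpa
    · -- a → p, c → p, c → a
      have hcp : T.R c p := Np.2.2.1.1 hap
      have hca : T.R c a := by
        refine T.of_not (by grind) fun hac => ?_
        exact T.asym _ _ hcp (Nc.2.2.1.1 hac)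
      have := f2 q c
      have k : T.C4 q c a p := ⟨hqc', hca, hap, s3⟩
      have := f1 a p k
      grind
    · have hpc' : T.R p c := Np.1.1 hpa
      have hac : T.R a c := Nc.2.2.1.2 hpc'
      have k : T.C4 d p a c := ⟨hdp, hpa, hac, r3⟩
      have := f2 a c k
      grind
  · rintro ⟨-, f1, f2⟩
    -- f1 : U c d p q
    have := f1 a b ⟨r3, r4, r1, r2⟩
    grind

/-! ### The final step -/

section final

/-- the arc `a → b` lies in a non-flippable circuit -/
def Cvd (T : Tour V) (a b : V) : Prop := ∃ p q, T.NF a b p q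

/-- the arc `a → b` lies in a non-flippable circuit with sign `σ` -/
def Pos (T : Tour V) (σ : V → V → V → V → Prop) (a b : V) : Prop := ∃ p q, T.NF a b p q ∧ σ a b p q

/-- the sign of an arc -/
def Spos (T : Tour V) (σ : V → V → V → V → Prop) (a b : V) : Prop :=
  Pos T σ a b ∨ (¬ Cvd T a b ∧ ∃ p q, T.Flip a b p q ∧ Pos T σ p q)

/-- the sign of a circuit -/
def Tau (T : Tour V) (σ : V → V → V → V → Prop) (a b c d : V) : Prop :=
  (T.Big a b ∧ Spos T σ a b) ∨ (T.Big b c ∧ Spos T σ b c) ∨ (T.Big c d ∧ Spos T σ c d) ∨ (T.Big d a ∧ Spos T σ d a)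

variable {σ : V → V → V → V → Prop}

theorem pos_iff (hadj : ∀ a b c d c' d', T.NF a b c d → T.NF a b c' d' → (σ a b c d ↔ σ a b c' d'))
    (h : T.NF a b c d) : Pos T σ a b ↔ σ a b c d :=
  ⟨fun ⟨_, _, h1, h2⟩ => (hadj _ _ _ _ _ _ h1 h).1 h2, fun h' => ⟨c, d, h, h'⟩⟩

theorem spos_iff (hadj : ∀ a b c d c' d', T.NF a b c d → T.NF a b c' d' → (σ a b c d ↔ σ a b c' d'))
    (h : T.NF a b c d) : Spos T σ a b ↔ σ a b c d := by
  rw [← pos_iff hadj h]
  unfold Spos
  have : Cvd T a b := ⟨c, d, h⟩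
  tauto

theorem big_of_ne (h : T.C4 a b c d) {p q : V} (h' : T.C4 a b p q) (hne : ¬ (p = c ∧ q = d)) : T.Big a b :=
  ⟨p, q, c, d, h', h, hne⟩

theorem not_big_of_U (h : T.U a b c d) : ¬ T.Big a b := by
  rintro ⟨p, q, p', q', h1, h2, h3⟩
  have e1 := h _ _ h1
  have e2 := h _ _ h2
  grind

/-- an uncovered big rung: the parallel rungs are covered -/
theorem cvd_of_not [Finite V] (hT : T.Strong) (hn : 6 ≤ Nat.card V) (h : T.Flip a b c d) (hb : T.Big a b)
    (hu : ¬ Cvd T a b) : Cvd T c d := by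
  -- a second circuit through `a → b`
  obtain ⟨p, q, h1, h2⟩ : ∃ p q, T.C4 a b p q ∧ ¬ (p = c ∧ q = d) := by
    obtain ⟨p, q, p', q', k1, k2, k3⟩ := hb
    by_cases hpq : p = c ∧ q = d
    · refine ⟨p', q', k2, ?_⟩
      rintro ⟨rfl, rfl⟩
      exact k3 hpq
    · exact ⟨p, q, k1, hpq⟩
  by_cases hf : T.Flip a b p q
  · have := n2 hT hn h hf h2
    exact ⟨p, q, this.rot.rot⟩
  by_cases hf' : T.Flip b p q a
  · exfalso
    have := hf'.2.2 c d h.1
    grind
  · exact absurd ⟨p, q, h1, hf, hf'⟩ hu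

/-- the two rungs of a flippable circuit have the same sign, first form -/
theorem spos_rungs_mp [Finite V] (hT : T.Strong) (hn : 6 ≤ Nat.card V)
    (hrot : ∀ a b c d, T.C4 a b c d → (σ a b c d ↔ σ b c d a))
    (hadj : ∀ a b c d c' d', T.NF a b c d → T.NF a b c' d' → (σ a b c d ↔ σ a b c' d'))
    (h : T.Flip a b c d) (hb : T.Big a b) (hb' : T.Big c d) (hs : Spos T σ a b) : Spos T σ c d := by
  by_cases hc1 : Cvd T a b
  · by_cases hc2 : Cvd T c d
    · -- both covered
      obtain ⟨p, q, hC⟩ := hc1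
      obtain ⟨x, y, hD⟩ := hc2
      exact (spos_iff hadj hD).2 ((n1 hrot hadj h hC hD).1 ((spos_iff hadj hC).1 hs))
    · -- `a → b` covered, `c → d` not
      refine Or.inr ⟨hc2, a, b, h.rot2, ?_⟩
      rcases hs with hs | hs
      · exact hs
      · exact absurd hc1 hs.1
  · have hc2 : Cvd T c d := cvd_of_not hT hn h hb hc1
    rcases hs with ⟨p, q, hs, -⟩ | ⟨-, p, q, hf, hp⟩
    · exact absurd ⟨p, q, hs⟩ hc1
    · by_cases hpq : p = c ∧ q = d
      · obtain ⟨rfl, rfl⟩ := hpq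
        exact Or.inl hp
      · have hN := n2 hT hn h hf hpq
        -- hN : NF p q c d
        have e1 := (pos_iff hadj hN).1 hp
        have e2 := (hrot _ _ _ _ hN.1).1 e1
        have e3 := (hrot _ _ _ _ hN.rot.1).1 e2
        exact (spos_iff hadj hN.rot.rot).2 e3

theorem spos_rungs [Finite V] (hT : T.Strong) (hn : 6 ≤ Nat.card V)
    (hrot : ∀ a b c d, T.C4 a b c d → (σ a b c d ↔ σ b c d a))
    (hadj : ∀ a b c d c' d', T.NF a b c d → T.NF a b c' d' → (σ a b c d ↔ σ a b c' d'))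
    (h : T.Flip a b c d) (hb : T.Big a b) (hb' : T.Big c d) : Spos T σ a b ↔ Spos T σ c d :=
  ⟨spos_rungs_mp hT hn hrot hadj h hb hb', spos_rungs_mp hT hn hrot hadj h.rot2 hb' hb⟩

/-- consecutive big arcs of a circuit have the same sign -/
theorem spos_cons [Finite V] (hadj : ∀ a b c d c' d', T.NF a b c d → T.NF a b c' d' → (σ a b c d ↔ σ a b c' d'))
    (hrot : ∀ a b c d, T.C4 a b c d → (σ a b c d ↔ σ b c d a))
    (h : T.C4 a b c d) (hb : T.Big a b) (hb' : T.Big b c) : Spos T σ a b ↔ Spos T σ b c := by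
  have hN : T.NF a b c d :=
    ⟨h, fun hf => not_big_of_U hf.2.1 hb', fun hf => not_big_of_U hf.2.2 hb⟩
  rw [spos_iff hadj hN, spos_iff hadj hN.rot]
  exact hrot _ _ _ _ h

/-- opposite big arcs of a circuit have the same sign -/
theorem spos_opp [Finite V] (hT : T.Strong) (hn : 6 ≤ Nat.card V)
    (hrot : ∀ a b c d, T.C4 a b c d → (σ a b c d ↔ σ b c d a))
    (hadj : ∀ a b c d c' d', T.NF a b c d → T.NF a b c' d' → (σ a b c d ↔ σ a b c' d'))
    (h : T.C4 a b c d) (hb : T.Big a b) (hb' : T.Big c d) : Spos T σ a b ↔ Spos T σ c d := by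
  by_cases hf : T.Flip a b c d
  · exact spos_rungs hT hn hrot hadj hf hb hb'
  have hN : T.NF a b c d := ⟨h, hf, fun hf' => not_big_of_U hf'.2.1 hb'⟩
  rw [spos_iff hadj hN, spos_iff hadj hN.rot.rot]
  exact (hrot _ _ _ _ h).trans (hrot _ _ _ _ h.rot)

theorem tau_iff [Finite V] (hT : T.Strong) (hn : 6 ≤ Nat.card V)
    (hrot : ∀ a b c d, T.C4 a b c d → (σ a b c d ↔ σ b c d a))
    (hadj : ∀ a b c d c' d', T.NF a b c d → T.NF a b c' d' → (σ a b c d ↔ σ a b c' d'))
    (h : T.C4 a b c d) (hb : T.Big a b) : Tau T σ a b c d ↔ Spos T σ a b := by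
  constructor
  · rintro (h1 | h1 | h1 | h1)
    · exact h1.2
    · exact (spos_cons hadj hrot h hb h1.1).2 h1.2
    · exact (spos_opp hT hn hrot hadj h hb h1.1).2 h1.2
    · exact (spos_cons hadj hrot h.rot.rot.rot h1.1 hb).1 h1.2
  · intro h1
    exact Or.inl ⟨hb, h1⟩

theorem tau_rot : Tau T σ a b c d ↔ Tau T σ b c d a := by
  unfold Tau
  constructor
  · rintro (h1 | h1 | h1 | h1)
    · exact Or.inr (Or.inr (Or.inr h1))
    · exact Or.inl h1
    · exact Or.inr (Or.inl h1)
    · exact Or.inr (Or.inr (Or.inl h1))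
  · rintro (h1 | h1 | h1 | h1)
    · exact Or.inr (Or.inl h1)
    · exact Or.inr (Or.inr (Or.inl h1))
    · exact Or.inr (Or.inr (Or.inr h1))
    · exact Or.inl h1

theorem exists_big (h : T.NF a b c d) : T.Big b c ∨ T.Big d a := by
  by_contra hcon
  push Not at hcon
  apply h.2.1
  refine ⟨h.1, ?_, ?_⟩
  · intro p q hpq
    by_contra hne
    exact hcon.1 (big_of_ne h.1.rot hpq hne)
  · intro p q hpq
    by_contra hne
    exact hcon.2 (big_of_ne h.1.rot.rot.rot hpq hne)

theorem tau_nf [Finite V] (hT : T.Strong) (hn : 6 ≤ Nat.card V)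
    (hrot : ∀ a b c d, T.C4 a b c d → (σ a b c d ↔ σ b c d a))
    (hadj : ∀ a b c d c' d', T.NF a b c d → T.NF a b c' d' → (σ a b c d ↔ σ a b c' d'))
    (h : T.NF a b c d) : Tau T σ a b c d ↔ σ a b c d := by
  rcases exists_big h with hb | hb
  · rw [tau_rot, tau_iff hT hn hrot hadj h.1.rot hb, spos_iff hadj h.rot]
    exact (hrot _ _ _ _ h.1).symm
  · rw [← tau_rot, tau_iff hT hn hrot hadj h.1.rot.rot.rot hb, spos_iff hadj h.rot.rot.rot]
    exact hrot _ _ _ _ h.1.rot.rot.rot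

end final

end NConn

theorem nf_conn [Finite V] {T : Tour V} (hT : T.Strong) (hn : 6 ≤ Nat.card V) (σ : V → V → V → V → Prop)
    (hrot : ∀ a b c d, T.C4 a b c d → (σ a b c d ↔ σ b c d a))
    (hadj : ∀ a b c d c' d', T.NF a b c d → T.NF a b c' d' → (σ a b c d ↔ σ a b c' d'))
    {a b c d a' b' c' d' : V} (h : T.NF a b c d) (h' : T.NF a' b' c' d') : σ a b c d ↔ σ a' b' c' d' := by
  rw [← NConn.tau_nf hT hn hrot hadj h, ← NConn.tau_nf hT hn hrot hadj h']
  refine gamma_conn hT (NConn.Tau T σ) (fun a b c d _ => NConn.tau_rot) ?_ h.1 h'.1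
  intro a b c d c' d' h1 h2
  by_cases he : c = c' ∧ d = d'
  · obtain ⟨rfl, rfl⟩ := he
    rfl
  · have hb : T.Big a b := ⟨c, d, c', d', h1, h2, he⟩
    rw [NConn.tau_iff hT hn hrot hadj h1 hb, NConn.tau_iff hT hn hrot hadj h2 hb]

end Pool.Agent.Helper98.FC
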