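import Pool.Agent.Helper98.FC.Adj

/-!
# Making an untwisted map positive by flipping circuits
-/

namespace Pool.Agent.Helper98.FC

universe u v

variable {V : Type u} {W : Type v} {T : Tour V} {T' : Tour W}

open Classical in
/-- exchange the two arcs `(h1,t2)` and `(h2,t1)` -/
noncomputable def fl (t1 h1 t2 h2 : V) (p : V × V) : V × V :=
  if p = (h1, t2) then (h2, t1) else if p = (h2, t1) then (h1, t2) else p

section fl

variable {t1 h1 t2 h2 : V}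

theorem fl1 : fl t1 h1 t2 h2 (h1, t2) = (h2, t1) := by simp [fl]

theorem fl2 (h : h1 ≠ h2) : fl t1 h1 t2 h2 (h2, t1) = (h1, t2) := by
  simp [fl, h.symm]

theorem fl3 {p : V × V} (k1 : p ≠ (h1, t2)) (k2 : p ≠ (h2, t1)) : fl t1 h1 t2 h2 p = p := by
  simp [fl, k1, k2]

/-- a circuit containing an exchanged arc is the flippable one -/
theorem fl_grid (hF : T.Flip t1 h1 t2 h2) {a b c d : V} (hC : T.C4 a b c d) {e : V × V} (he : e ∈ arcs4 a b c d)
    (hm : fl t1 h1 t2 h2 e ≠ e) : arcs4 a b c d = arcs4 t1 h1 t2 h2 := by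
  have hn : e = (h1, t2) ∨ e = (h2, t1) := by
    by_contra hn
    push Not at hn
    exact hm (fl3 hn.1 hn.2)
  rcases hn with rfl | rfl
  · obtain ⟨z, w, k1, k2⟩ := Tour.exists_of_mem hC he
    obtain ⟨rfl, rfl⟩ := hF.2.1 _ _ k1
    rw [← k2]
    ext ⟨u, v⟩
    simp only [mem_arcs4]
    tauto
  · obtain ⟨z, w, k1, k2⟩ := Tour.exists_of_mem hC he
    obtain ⟨rfl, rfl⟩ := hF.2.2 _ _ k1
    rw [← k2]
    ext ⟨u, v⟩
    simp only [mem_arcs4]
    tauto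

theorem fl_inv (hF : T.Flip t1 h1 t2 h2) (p : V × V) : fl t1 h1 t2 h2 (fl t1 h1 t2 h2 p) = p := by
  have n := hF.1.nes
  by_cases k1 : p = (h1, t2)
  · subst k1; rw [fl1, fl2 n.2.2.2.2.1]
  · by_cases k2 : p = (h2, t1)
    · subst k2; rw [fl2 n.2.2.2.2.1, fl1]
    · rw [fl3 k1 k2, fl3 k1 k2]

theorem fl_arc (hF : T.Flip t1 h1 t2 h2) (p : V × V) (hp : T.R p.1 p.2) :
    T.R (fl t1 h1 t2 h2 p).1 (fl t1 h1 t2 h2 p).2 := by
  have n := hF.1.nes
  by_cases k1 : p = (h1, t2)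
  · subst k1; rw [fl1]; exact hF.1.2.2.2
  · by_cases k2 : p = (h2, t1)
    · subst k2; rw [fl2 n.2.2.2.2.1]; exact hF.1.2.1
    · rw [fl3 k1 k2]; exact hp

theorem fl_mem (hF : T.Flip t1 h1 t2 h2) {a b c d : V} (hC : T.C4 a b c d) {e : V × V} (he : e ∈ arcs4 a b c d) :
    fl t1 h1 t2 h2 e ∈ arcs4 a b c d := by
  have n := hF.1.nes
  by_cases hm : fl t1 h1 t2 h2 e = e
  · rw [hm]; exact he
  have h2' := fl_grid hF hC he hm
  rw [h2']
  have hn : e = (h1, t2) ∨ e = (h2, t1) := by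
    by_contra hn
    push Not at hn
    exact hm (fl3 hn.1 hn.2)
  rcases hn with rfl | rfl
  · rw [fl1]; simp [arcs4]
  · rw [fl2 n.2.2.2.2.1]; simp [arcs4]

theorem fl_img (hF : T.Flip t1 h1 t2 h2) {a b c d : V} (hC : T.C4 a b c d) :
    fl t1 h1 t2 h2 '' arcs4 a b c d = arcs4 a b c d := by
  ext e
  constructor
  · rintro ⟨e', he', rfl⟩
    exact fl_mem hF hC he'
  · intro he
    exact ⟨fl t1 h1 t2 h2 e, fl_mem hF hC he, fl_inv hF e⟩

/-- the flipped map -/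
noncomputable def Phi.flip (φ : Phi T T') (hF : T.Flip t1 h1 t2 h2) : Phi T T' :=
  φ.pre (fl t1 h1 t2 h2) (fl_arc hF) (fun p _ => fl_inv hF p) (fun p q r s hC => ⟨p, q, r, s, hC, fl_img hF hC⟩)

@[simp] theorem Phi.flip_f (φ : Phi T T') (hF : T.Flip t1 h1 t2 h2) (p : V × V) :
    (φ.flip hF).f p = φ.f (fl t1 h1 t2 h2 p) := rfl

/-- positive after the flip -/
theorem Phi.flip_P {φ : Phi T T'} (hU : φ.Unt) (hF : T.Flip t1 h1 t2 h2) (hN : φ.N t1 h1 t2) {a b c d : V}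
    (_hC : T.C4 a b c d) (he : arcs4 a b c d = arcs4 t1 h1 t2 h2) : (φ.flip hF).P a b c := by
  have n := hF.1.nes
  obtain ⟨p, q, e1⟩ : ∃ p q, φ.f (t1, h1) = (p, q) := ⟨_, _, rfl⟩
  obtain ⟨r, e2⟩ : ∃ r, φ.f (h1, t2) = (r, p) := by
    unfold Phi.N at hN
    rw [e1] at hN
    exact ⟨(φ.f (h1, t2)).1, Prod.ext rfl hN⟩
  obtain ⟨s, e3, e4, e5⟩ := hU.nimg hF.1 e1 e2
  have f1 : (φ.flip hF).f (t1, h1) = (p, q) := by rw [Phi.flip_f, fl3 (by simp [n.1]) (by simp [n.2.2.1]), e1]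
  have f2 : (φ.flip hF).f (h1, t2) = (q, s) := by rw [Phi.flip_f, fl1, e4]
  have f3 : (φ.flip hF).f (t2, h2) = (s, r) := by
    rw [Phi.flip_f, fl3 (by simp [n.2.2.2.1.symm]) (by simp [n.2.2.2.2.2]), e3]
  have f4 : (φ.flip hF).f (h2, t1) = (r, p) := by rw [Phi.flip_f, fl2 n.2.2.2.2.1, e2]
  have m1 : (a, b) ∈ arcs4 t1 h1 t2 h2 := by rw [← he]; simp [arcs4]
  have m2 : (b, c) ∈ arcs4 t1 h1 t2 h2 := by rw [← he]; simp [arcs4]
  rw [mem_arcs4] at m1 m2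
  unfold Phi.P
  rcases m1 with ⟨rfl, rfl⟩ | ⟨rfl, rfl⟩ | ⟨rfl, rfl⟩ | ⟨rfl, rfl⟩ <;>
    rcases m2 with ⟨m3, m4⟩ | ⟨m3, m4⟩ | ⟨m3, m4⟩ | ⟨m3, m4⟩ <;> grind

end fl

/-- the negative corners -/
def ngset (φ : Phi T T') : Set (V × V × V × V) :=
  {t | T.C4 t.1 t.2.1 t.2.2.1 t.2.2.2 ∧ ¬ φ.P t.1 t.2.1 t.2.2.1}

theorem flip_unt {φ : Phi T T'} (hU : φ.Unt) {t1 h1 t2 h2 : V} (hF : T.Flip t1 h1 t2 h2) (hN : φ.N t1 h1 t2) :
    (φ.flip hF).Unt ∧ ngset (φ.flip hF) ⊂ ngset φ := by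
  have same : ∀ a b c d, T.C4 a b c d → arcs4 a b c d ≠ arcs4 t1 h1 t2 h2 →
      (φ.flip hF).f (a, b) = φ.f (a, b) ∧ (φ.flip hF).f (b, c) = φ.f (b, c) := by
    intro a b c d hC hne
    constructor
    · rw [Phi.flip_f]
      by_contra hm
      exact hne (fl_grid hF hC (e := (a, b)) (by simp [arcs4]) fun hh => hm (by rw [hh]))
    · rw [Phi.flip_f]
      by_contra hm
      exact hne (fl_grid hF hC (e := (b, c)) (by simp [arcs4]) fun hh => hm (by rw [hh]))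
  refine ⟨?_, ?_, ?_⟩
  · intro a b c d hC
    by_cases he : arcs4 a b c d = arcs4 t1 h1 t2 h2
    · exact Or.inl (Phi.flip_P hU hF hN hC he)
    · obtain ⟨k1, k2⟩ := same a b c d hC he
      unfold Phi.Cns
      rw [k1, k2]
      exact hU a b c d hC
  · rintro ⟨a, b, c, d⟩ ⟨hC, hn⟩
    simp only at hC hn
    refine ⟨hC, ?_⟩
    simp only
    by_cases he : arcs4 a b c d = arcs4 t1 h1 t2 h2
    · exact absurd (Phi.flip_P hU hF hN hC he) hn
    · obtain ⟨k1, k2⟩ := same a b c d hC he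
      unfold Phi.P at *
      rw [k1, k2] at hn
      exact hn
  · intro hsub
    have hm : (t1, h1, t2, h2) ∈ ngset φ := ⟨hF.1, (hU.not_P hF.1).2 hN⟩
    have := hsub hm
    exact this.2 (Phi.flip_P hU hF hN hF.1 rfl)

/-- If all non-flippable circuits are positive then there is a positive map. -/
theorem exists_pos_aux [Finite V] : ∀ n, ∀ φ : Phi T T', (ngset φ).ncard = n → φ.Unt →
    (∀ a b c d, T.NF a b c d → φ.P a b c) → ∃ ψ : Phi T T', ψ.Pos := by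
  intro n
  induction n using Nat.strong_induction_on with
  | _ n ih =>
    intro φ hn hU hNF
    by_cases hP : φ.Pos
    · exact ⟨φ, hP⟩
    · unfold Phi.Pos at hP
      push Not at hP
      obtain ⟨a, b, c, d, hC, hc⟩ := hP
      have hN := (hU.not_P hC).1 hc
      have : ∃ t1 h1 t2 h2, T.Flip t1 h1 t2 h2 ∧ φ.N t1 h1 t2 := by
        by_contra hno
        push Not at hno
        apply hc
        apply hNF a b c d
        refine ⟨hC, fun hF => hno _ _ _ _ hF hN, fun hF => hno _ _ _ _ hF ((hU.N_iff hC).1 hN)⟩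
      obtain ⟨t1, h1, t2, h2, hF, hN'⟩ := this
      obtain ⟨k1, k2⟩ := flip_unt hU hF hN'
      refine ih _ (hn ▸ Set.ncard_lt_ncard k2 (Set.toFinite _)) (φ.flip hF) rfl k1 ?_
      intro p q r s hG
      by_contra hng
      have : (p, q, r, s) ∈ ngset (φ.flip hF) := ⟨hG.1, hng⟩
      exact (k2.1 this).2 (hNF p q r s hG)

end Pool.Agent.Helper98.FC
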