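import Pool.Agent.Helper98.FC.Swap
import Pool.Agent.Helper98.FC.Pos
import Pool.Agent.Helper98.FC.NConn
import Pool.Agent.Helper98.FC.Match
import Pool.Agent.Helper98.FC.Mismatch


/-!
# The theorem: strong tournaments whose arcs correspond so that the 4-circuits correspond are isomorphic or converse
-/

namespace Pool.Agent.Helper98.FC

universe u v

variable {V : Type u} {W : Type v} {T : Tour V} {T' : Tour W}

/-- a positive map to `T'` or to the converse of `T'` -/
theorem exists_pos [Finite V] (hT : T.Strong) (hn : 6 ≤ Nat.card V) (φ : Phi T T') :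
    (∃ ψ : Phi T T', ψ.Pos) ∨ (∃ ψ : Phi T T'.conv, ψ.Pos) := by
  obtain ⟨ψ, hU⟩ := exists_unt φ
  have key : ∀ a b c d a' b' c' d', T.NF a b c d → T.NF a' b' c' d' → (ψ.P a b c ↔ ψ.P a' b' c') := by
    intro a b c d a' b' c' d' h h'
    exact nf_conn hT hn (fun a b c _ => ψ.P a b c) (fun a b c d hC => hU.P_iff hC)
      (fun a b c d c' d' k k' => adj hU k k') h h'
  by_cases hex : ∃ a b c d, T.NF a b c d ∧ ψ.P a b c
  · obtain ⟨a, b, c, d, h, hp⟩ := hex
    exact Or.inl (exists_pos_aux _ ψ rfl hU fun a' b' c' d' h' => (key _ _ _ _ _ _ _ _ h h').1 hp)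
  · push Not at hex
    refine Or.inr (exists_pos_aux _ ψ.convR rfl hU.convR fun a b c d h => ?_)
    rw [Phi.P_convR]
    exact (hU.not_P h.1).1 (hex a b c d h)

/-- the set of arcs -/
def arcset (T : Tour V) : Set (V × V) := {p | T.R p.1 p.2}

theorem card_arcset [Finite V] (T : Tour V) : 2 * (arcset T).ncard + Nat.card V = Nat.card V * Nat.card V := by
  classical
  haveI := Fintype.ofFinite V
  have h1 : (arcset T.conv).ncard = (arcset T).ncard := by
    have : arcset T.conv = Prod.swap '' arcset T := by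
      ext ⟨x, y⟩
      simp only [arcset, Set.mem_setOf_eq, Tour.conv_R, Set.mem_image, Prod.exists, Prod.swap_prod_mk, Prod.mk.injEq]
      constructor
      · intro h; exact ⟨y, x, h, rfl, rfl⟩
      · rintro ⟨a, b, h, rfl, rfl⟩; exact h
    rw [this, Set.ncard_image_of_injective _ Prod.swap_injective]
  have h2 : (Set.univ : Set (V × V)) = (arcset T ∪ arcset T.conv) ∪ Set.range (fun v : V => (v, v)) := by
    ext ⟨x, y⟩
    simp only [arcset, Set.mem_univ, Tour.conv_R, Set.mem_union, Set.mem_setOf_eq, Set.mem_range, Prod.mk.injEq,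
      exists_eq_left, true_iff]
    by_cases h : x = y
    · exact Or.inr h
    · exact Or.inl (T.tot x y h)
  have h3 : Disjoint (arcset T) (arcset T.conv) := by
    rw [Set.disjoint_left]
    rintro ⟨x, y⟩ h h'
    exact T.asym _ _ h h'
  have h4 : Disjoint (arcset T ∪ arcset T.conv) (Set.range (fun v : V => (v, v))) := by
    rw [Set.disjoint_left]
    rintro ⟨x, y⟩ h ⟨z, h'⟩
    simp only [Prod.mk.injEq] at h'
    obtain ⟨rfl, rfl⟩ := h'
    rcases h with h | h
    · exact T.irr _ h
    · exact T.irr _ h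
  have h5 : (Set.univ : Set (V × V)).ncard = Nat.card V * Nat.card V := by
    rw [Set.ncard_univ, Nat.card_prod]
  have h6 : (Set.range (fun v : V => (v, v))).ncard = Nat.card V := by
    rw [← Set.image_univ, Set.ncard_image_of_injective _ (fun a b h => by simpa using h), Set.ncard_univ]
  rw [h2, Set.ncard_union_eq h4 (Set.toFinite _) (Set.toFinite _), Set.ncard_union_eq h3 (Set.toFinite _)
    (Set.toFinite _), h1, h6] at h5
  omega

theorem card_eq [Finite V] [Finite W] [Nonempty V] [Nonempty W] (φ : Phi T T') : Nat.card V = Nat.card W := by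
  have h1 : (arcset T).ncard = (arcset T').ncard := by
    have e : arcset T' = φ.f '' arcset T := by
      ext q
      constructor
      · intro h; exact ⟨φ.g q, φ.ga q h, φ.fg q h⟩
      · rintro ⟨p, h, rfl⟩; exact φ.fa p h
    rw [e, Set.ncard_image_of_injOn]
    intro p hp q hq h
    exact φ.inj hp hq h
  have h2 := card_arcset T
  have h3 := card_arcset T'
  rw [h1] at h2
  have p1 : 0 < Nat.card V := Nat.card_pos
  have p2 : 0 < Nat.card W := Nat.card_pos
  generalize Nat.card V = n at *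
  generalize Nat.card W = m at *
  generalize (arcset T').ncard = k at *
  obtain ⟨n, rfl⟩ : ∃ n', n = n' + 1 := ⟨n - 1, by omega⟩
  obtain ⟨m, rfl⟩ : ∃ m', m = m' + 1 := ⟨m - 1, by omega⟩
  have h4 : n * (n + 1) = m * (m + 1) := by nlinarith
  rcases Nat.lt_trichotomy n m with h | h | h
  · nlinarith
  · rw [h]
  · nlinarith

theorem Iso.conv (h : Iso T T') : Iso T.conv T'.conv := by
  obtain ⟨e, he⟩ := h
  exact ⟨e, fun a b => he b a⟩

/-- coherent data give an isomorphism onto `T'` or onto its converse -/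
theorem endgame [Finite V] [Finite W] (hT : T.Strong) (hT' : T'.Strong) (hn : 6 ≤ Nat.card V)
    (hc : Nat.card V = Nat.card W) {ψ : Phi T T'} {f : V → W} {g : W → V} (h : CohData ψ f g) :
    Iso T T' ∨ Iso T.conv T' := by
  have hn' : 6 ≤ Nat.card W := hc ▸ hn
  by_cases hG : ∀ b a, ¬ T.Ghost b → ¬ T.Ghost a → ((∃ v, T.Ghost v ∧ T.GhostAt v b a) ↔
      (∃ w, T'.Ghost w ∧ T'.GhostAt w (f b) (f a)))
  · exact Or.inl (iso_of_match hT hT' hn hn' h hG)
  · push Not at hG
    obtain ⟨b, a, hb, ha, hG⟩ := hG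
    right
    rcases hG with ⟨⟨v, hv, h1⟩, h2⟩ | ⟨h1, ⟨w, hw, h2⟩⟩
    · exact iso_of_mismatch hT hT' hn hn' hc h hv h1 fun ⟨w, hw, h3⟩ => h2 w hw h3
    · have h3 : Iso T'.conv T := by
        refine iso_of_mismatch hT' hT hn' hn hc.symm h.symm hw h2 ?_
        rw [h.gf b hb, h.gf a ha]
        rintro ⟨v, hv, h4⟩
        exact h1 v hv h4
      exact Small.iso_symm h3.conv

/-- **Main theorem.** -/
theorem main [Finite V] [Finite W] [Nonempty V] [Nonempty W] (hT : T.Strong) (hT' : T'.Strong) (φ : Phi T T') :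
    Iso T T' ∨ Iso T.conv T' := by
  have hc := card_eq φ
  by_cases h5 : Nat.card V ≤ 5
  · exact small φ hT hT' hc h5
  have hn : 6 ≤ Nat.card V := by omega
  rcases exists_pos hT hn φ with ⟨ψ, hP⟩ | ⟨ψ, hP⟩
  · obtain ⟨ψ1, hP1, hM1⟩ := exists_noM3 hP
    obtain ⟨ψ2, F, G, hD⟩ := exists_coh hP1 hM1
    exact endgame hT hT' hn hc hD
  · obtain ⟨ψ1, hP1, hM1⟩ := exists_noM3 hP
    obtain ⟨ψ2, F, G, hD⟩ := exists_coh hP1 hM1
    rcases endgame hT (Tour.conv_strong hT') hn hc hD with h | h
    · exact Or.inr h.conv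
    · exact Or.inl h.conv

end Pool.Agent.Helper98.FC
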