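import Pool.Agent.Helper98.FC.Base

/-!
# FC-G: four-circuits of a strong tournament are connected (MP_ebd9af_co)
-/

namespace Pool.Agent.Helper98.FC

universe u

variable {V : Type u}

namespace Tour

/-- An arc leaves every nonempty proper set of vertices of a strong tournament. -/
private theorem h60_cut {T : Tour V} (hT : T.Strong) (X : Set V) {a b : V} (ha : a ∈ X)
    (hb : b ∉ X) : ∃ x y, x ∈ X ∧ y ∉ X ∧ T.R x y := by
  by_contra hcon
  push Not at hcon
  have h1 : ∀ y, Relation.ReflTransGen T.R a y → y ∈ X := by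
    intro y hy
    induction hy with
    | refl => exact ha
    | tail _ h2 ih =>
      by_contra h3
      exact hcon _ _ ih h3 h2
  exact hb (h1 b (hT a b))

end Tour

/-- A vertex outside a 4-circuit which is mixed on it lies on a 4-circuit sharing an arc. -/
theorem lemma5 {T : Tour V} {a b c d z : V} (hC : T.C4 a b c d)
    (hz : z ≠ a ∧ z ≠ b ∧ z ≠ c ∧ z ≠ d)
    (hin : ∃ x ∈ ({a, b, c, d} : Set V), T.R x z) (hout : ∃ x ∈ ({a, b, c, d} : Set V), T.R z x) :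
    ∃ p q r, T.C4 z p q r ∧ p ∈ ({a,b,c,d} : Set V) ∧ q ∈ ({a,b,c,d} : Set V) ∧
      r ∈ ({a,b,c,d} : Set V) ∧ ∃ e, e ∈ arcs4 z p q r ∧ e ∈ arcs4 a b c d := by
  obtain ⟨hza, hzb, hzc, hzd⟩ := hz
  have hC' := hC
  obtain ⟨h1, h2, h3, h4⟩ := hC'
  have key : ∀ x0 x1 x2 : V, T.R z x0 → T.R x0 x1 → T.R x1 x2 → T.R x2 z →
      x0 ∈ ({a,b,c,d} : Set V) → x1 ∈ ({a,b,c,d} : Set V) → x2 ∈ ({a,b,c,d} : Set V) →
      ((x0, x1) ∈ arcs4 a b c d ∨ (x1, x2) ∈ arcs4 a b c d) →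
      ∃ p q r, T.C4 z p q r ∧ p ∈ ({a,b,c,d} : Set V) ∧ q ∈ ({a,b,c,d} : Set V) ∧
        r ∈ ({a,b,c,d} : Set V) ∧ ∃ e, e ∈ arcs4 z p q r ∧ e ∈ arcs4 a b c d := by
    intro x0 x1 x2 g1 g2 g3 g4 m0 m1 m2 hm
    refine ⟨x0, x1, x2, ⟨g1, g2, g3, g4⟩, m0, m1, m2, ?_⟩
    rcases hm with hm | hm
    · exact ⟨(x0, x1), by simp [arcs4], hm⟩
    · exact ⟨(x1, x2), by simp [arcs4], hm⟩
  have ha := T.tot z a hza
  have hb := T.tot z b hzb
  have hc := T.tot z c hzc
  have hd := T.tot z d hzd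
  by_cases c1 : T.R z a ∧ T.R c z
  · exact key a b c c1.1 h1 h2 c1.2 (by simp) (by simp) (by simp) (Or.inl (by simp [arcs4]))
  by_cases c2 : T.R z b ∧ T.R d z
  · exact key b c d c2.1 h2 h3 c2.2 (by simp) (by simp) (by simp) (Or.inl (by simp [arcs4]))
  by_cases c3 : T.R z c ∧ T.R a z
  · exact key c d a c3.1 h3 h4 c3.2 (by simp) (by simp) (by simp) (Or.inl (by simp [arcs4]))
  by_cases c4 : T.R z d ∧ T.R b z
  · exact key d a b c4.1 h4 h1 c4.2 (by simp) (by simp) (by simp) (Or.inl (by simp [arcs4]))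
  rcases ha with ha | ha
  · have hc' : T.R z c := hc.resolve_right (fun h => c1 ⟨ha, h⟩)
    rcases hb with hb | hb
    · exfalso
      have hd' : T.R z d := hd.resolve_right (fun h => c2 ⟨hb, h⟩)
      obtain ⟨x, hx, hxz⟩ := hin
      simp only [Set.mem_insert_iff, Set.mem_singleton_iff] at hx
      rcases hx with rfl | rfl | rfl | rfl
      · exact T.asym _ _ hxz ha
      · exact T.asym _ _ hxz hb
      · exact T.asym _ _ hxz hc'
      · exact T.asym _ _ hxz hd'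
    · have hd' : T.R d z := hd.resolve_left (fun h => c4 ⟨h, hb⟩)
      rcases T.tot a c hC.ne13 with hac | hca
      · exact key a c d ha hac h3 hd' (by simp) (by simp) (by simp) (Or.inr (by simp [arcs4]))
      · exact key c a b hc' hca h1 hb (by simp) (by simp) (by simp) (Or.inr (by simp [arcs4]))
  · have hc' : T.R c z := hc.resolve_left (fun h => c3 ⟨h, ha⟩)
    rcases hb with hb | hb
    · have hd' : T.R z d := hd.resolve_right (fun h => c2 ⟨hb, h⟩)
      rcases T.tot b d hC.ne24 with hbd | hdb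
      · exact key b d a hb hbd h4 ha (by simp) (by simp) (by simp) (Or.inr (by simp [arcs4]))
      · exact key d b c hd' hdb h2 hc' (by simp) (by simp) (by simp) (Or.inr (by simp [arcs4]))
    · exfalso
      have hd' : T.R d z := hd.resolve_left (fun h => c4 ⟨h, hb⟩)
      obtain ⟨x, hx, hxz⟩ := hout
      simp only [Set.mem_insert_iff, Set.mem_singleton_iff] at hx
      rcases hx with rfl | rfl | rfl | rfl
      · exact T.asym _ _ hxz ha
      · exact T.asym _ _ hxz hb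
      · exact T.asym _ _ hxz hc'
      · exact T.asym _ _ hxz hd'

/-- A strong tournament with at least 4 vertices has a 4-circuit. -/
theorem exists_C4 [Finite V] {T : Tour V} (hT : T.Strong) (h4 : 4 ≤ Nat.card V) :
    ∃ a b c d, T.C4 a b c d := by
  classical
  haveI := Fintype.ofFinite V
  rw [Nat.card_eq_fintype_card] at h4
  -- a vertex outside any set of at most three vertices
  have hex : ∀ s : Finset V, s.card ≤ 3 → ∃ w, w ∉ s := by
    intro s hs
    by_contra hcon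
    push Not at hcon
    have : s = Finset.univ := Finset.eq_univ_iff_forall.2 hcon
    rw [this, Finset.card_univ] at hs
    omega
  obtain ⟨v, _⟩ := hex ∅ (by simp)
  obtain ⟨w, hw⟩ := hex {v} (by simp)
  have hwv : w ≠ v := by simpa using hw
  -- an out-neighbour of v
  obtain ⟨v', o, hv1, _, hvo⟩ := T.h60_cut hT {v} (a := v) (b := w) rfl hwv
  rw [Set.mem_singleton_iff] at hv1
  rw [hv1] at hvo
  -- the 3-cycle
  obtain ⟨x, y, hx, hy, hxy⟩ := T.h60_cut hT {x | T.R v x} (a := o) (b := v) hvo (T.irr v)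
  have hyv : T.R y v := by
    have hne : v ≠ y := by
      rintro rfl; exact T.asym _ _ hx hxy
    exact T.of_not hne hy
  by_contra hcon
  push Not at hcon
  obtain ⟨w, hw⟩ := hex {v, x, y} Finset.card_le_three
  have hun : ∀ w, w ≠ v → w ≠ x → w ≠ y →
      (T.R w v ∧ T.R w x ∧ T.R w y) ∨ (T.R v w ∧ T.R x w ∧ T.R y w) := by
    intro w h1 h2 h3
    have e1 := hcon v w x y
    have e2 := hcon x w y v
    have e3 := hcon y w v x
    simp only [Tour.C4] at e1 e2 e3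
    have t1 := T.tot w v h1
    have t2 := T.tot w x h2
    have t3 := T.tot w y h3
    have hx' : T.R v x := hx
    tauto
  have hw' : w ≠ v ∧ w ≠ x ∧ w ≠ y := by simpa using hw
  have hvx : T.R v x := hx
  have hks : ∃ k s, (T.R v k ∧ T.R x k ∧ T.R y k) ∧ (T.R s v ∧ T.R s x ∧ T.R s y) ∧ T.R k s := by
    rcases hun w hw'.1 hw'.2.1 hw'.2.2 with h | h
    · -- w dominates
      obtain ⟨k, s, hk, hs, hr⟩ := T.h60_cut hT {u | ¬ (T.R u v ∧ T.R u x ∧ T.R u y)}
        (a := v) (b := w) (fun h' => T.irr v h'.1) (fun h' => h' h)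
      have hs' : T.R s v ∧ T.R s x ∧ T.R s y := not_not.1 hs
      have hk' : ¬ (T.R k v ∧ T.R k x ∧ T.R k y) := hk
      have k1 : k ≠ v := by rintro rfl; exact T.asym _ _ hr hs'.1
      have k2 : k ≠ x := by rintro rfl; exact T.asym _ _ hr hs'.2.1
      have k3 : k ≠ y := by rintro rfl; exact T.asym _ _ hr hs'.2.2
      exact ⟨k, s, (hun k k1 k2 k3).resolve_left hk', hs', hr⟩
    · obtain ⟨k, s, hk, hs, hr⟩ := T.h60_cut hT {u | T.R v u ∧ T.R x u ∧ T.R y u}
        (a := w) (b := v) h (fun h' => T.irr v h'.1)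
      have hk' : T.R v k ∧ T.R x k ∧ T.R y k := hk
      have k1 : s ≠ v := by rintro rfl; exact T.asym _ _ hr hk'.1
      have k2 : s ≠ x := by rintro rfl; exact T.asym _ _ hr hk'.2.1
      have k3 : s ≠ y := by rintro rfl; exact T.asym _ _ hr hk'.2.2
      exact ⟨k, s, hk', (hun s k1 k2 k3).resolve_right hs, hr⟩
  obtain ⟨k, s, hk, hs, hr⟩ := hks
  exact hcon v x k s ⟨hvx, hk.2.1, hr, hs.1⟩

/-- The class of circuits connected to a given one. -/
private inductive H60K (T : Tour V) (a0 b0 c0 d0 : V) : V → V → V → V → Prop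
  | base : H60K T a0 b0 c0 d0 a0 b0 c0 d0
  | rot {a b c d : V} : H60K T a0 b0 c0 d0 a b c d → H60K T a0 b0 c0 d0 b c d a
  | adj {a b c d c' d' : V} : H60K T a0 b0 c0 d0 a b c d → T.C4 a b c' d' →
      H60K T a0 b0 c0 d0 a b c' d'

private theorem h60K_C4 {T : Tour V} {a0 b0 c0 d0 : V} (h0 : T.C4 a0 b0 c0 d0) {a b c d : V}
    (h : H60K T a0 b0 c0 d0 a b c d) : T.C4 a b c d := by
  induction h with
  | base => exact h0
  | rot _ ih => exact ih.rot
  | adj _ h _ => exact h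

/-- Rotation so that a given arc is the first one. -/
private theorem h60K_mem {T : Tour V} {a0 b0 c0 d0 : V} (h0 : T.C4 a0 b0 c0 d0)
    {a b c d x y : V} (h : H60K T a0 b0 c0 d0 a b c d) (hm : (x, y) ∈ arcs4 a b c d) :
    ∃ z w, H60K T a0 b0 c0 d0 x y z w := by
  simp only [arcs4, Set.mem_insert_iff, Set.mem_singleton_iff, Prod.mk.injEq] at hm
  rcases hm with ⟨rfl, rfl⟩ | ⟨rfl, rfl⟩ | ⟨rfl, rfl⟩ | ⟨rfl, rfl⟩
  · exact ⟨c, d, h⟩
  · exact ⟨d, a, h.rot⟩
  · exact ⟨a, b, h.rot.rot⟩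
  · exact ⟨b, c, h.rot.rot.rot⟩

/-- Circuits sharing an arc with a member of the class are in the class. -/
private theorem h60K_share {T : Tour V} {a0 b0 c0 d0 : V} (h0 : T.C4 a0 b0 c0 d0)
    {a b c d p q r s : V} (h : H60K T a0 b0 c0 d0 a b c d) (h' : T.C4 p q r s)
    (hs : ∃ e, e ∈ arcs4 p q r s ∧ e ∈ arcs4 a b c d) : H60K T a0 b0 c0 d0 p q r s := by
  obtain ⟨⟨x, y⟩, hx, hy⟩ := hs
  obtain ⟨z, w, hK⟩ := h60K_mem h0 h hy
  simp only [arcs4, Set.mem_insert_iff, Set.mem_singleton_iff, Prod.mk.injEq] at hx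
  rcases hx with ⟨rfl, rfl⟩ | ⟨rfl, rfl⟩ | ⟨rfl, rfl⟩ | ⟨rfl, rfl⟩
  · exact hK.adj h'
  · exact ((hK.adj h'.rot).rot).rot.rot
  · exact ((hK.adj h'.rot.rot).rot).rot
  · exact (hK.adj h'.rot.rot.rot).rot

/-- Every vertex lies on a circuit connected to the given one. -/
private theorem h60_cover {T : Tour V} (hT : T.Strong) {a0 b0 c0 d0 : V}
    (h0 : T.C4 a0 b0 c0 d0) (z : V) : ∃ b c d, H60K T a0 b0 c0 d0 z b c d := by
  by_contra hcon
  -- membership in a circuit of the class, in any position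
  have hX : ∀ {u a b c d : V}, H60K T a0 b0 c0 d0 a b c d → u ∈ ({a, b, c, d} : Set V) →
      ∃ p q r, H60K T a0 b0 c0 d0 u p q r := by
    intro u a b c d h hu
    simp only [Set.mem_insert_iff, Set.mem_singleton_iff] at hu
    rcases hu with rfl | rfl | rfl | rfl
    · exact ⟨_, _, _, h⟩
    · exact ⟨_, _, _, h.rot⟩
    · exact ⟨_, _, _, h.rot.rot⟩
    · exact ⟨_, _, _, h.rot.rot.rot⟩
  set X : Set V := {u | ∃ p q r, H60K T a0 b0 c0 d0 u p q r} with hXdef
  -- vertices outside X are not mixed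
  have hmix : ∀ u, u ∉ X → ∀ a b c d, H60K T a0 b0 c0 d0 a b c d →
      (T.R u a ∧ T.R u b ∧ T.R u c ∧ T.R u d) ∨ (T.R a u ∧ T.R b u ∧ T.R c u ∧ T.R d u) := by
    intro u hu a b c d h
    have hC := h60K_C4 h0 h
    have hne : u ≠ a ∧ u ≠ b ∧ u ≠ c ∧ u ≠ d := by
      refine ⟨?_, ?_, ?_, ?_⟩ <;> rintro rfl <;> exact hu (hX h (by simp))
    by_contra hc
    have hin : ∃ x ∈ ({a, b, c, d} : Set V), T.R x u := by
      by_contra hc2
      push Not at hc2
      apply hc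
      left
      refine ⟨T.of_not hne.1.symm (hc2 a (by simp)), T.of_not hne.2.1.symm (hc2 b (by simp)),
        T.of_not hne.2.2.1.symm (hc2 c (by simp)), T.of_not hne.2.2.2.symm (hc2 d (by simp))⟩
    have hout : ∃ x ∈ ({a, b, c, d} : Set V), T.R u x := by
      by_contra hc2
      push Not at hc2
      apply hc
      right
      refine ⟨T.of_not hne.1 (hc2 a (by simp)), T.of_not hne.2.1 (hc2 b (by simp)),
        T.of_not hne.2.2.1 (hc2 c (by simp)), T.of_not hne.2.2.2 (hc2 d (by simp))⟩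
    obtain ⟨p, q, r, g1, _, _, _, g5⟩ := lemma5 hC hne hin hout
    exact hu ⟨p, q, r, h60K_share h0 h g1 g5⟩
  -- the same choice for all circuits of the class
  have hdom : ∀ u, u ∉ X → T.R u a0 → ∀ a b c d, H60K T a0 b0 c0 d0 a b c d →
      T.R u a ∧ T.R u b ∧ T.R u c ∧ T.R u d := by
    intro u hu hua a b c d h
    induction h with
    | base =>
      refine (hmix u hu _ _ _ _ H60K.base).resolve_right (fun h => T.asym _ _ hua h.1)
    | rot h ih => exact ⟨ih.2.1, ih.2.2.1, ih.2.2.2, ih.1⟩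
    | adj h hC ih =>
      exact (hmix u hu _ _ _ _ (h.adj hC)).resolve_right (fun h' => T.asym _ _ ih.1 h'.1)
  have hsub : ∀ u, u ∉ X → T.R a0 u → ∀ a b c d, H60K T a0 b0 c0 d0 a b c d →
      T.R a u ∧ T.R b u ∧ T.R c u ∧ T.R d u := by
    intro u hu hua a b c d h
    induction h with
    | base =>
      refine (hmix u hu _ _ _ _ H60K.base).resolve_left (fun h => T.asym _ _ hua h.1)
    | rot h ih => exact ⟨ih.2.1, ih.2.2.1, ih.2.2.2, ih.1⟩
    | adj h hC ih =>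
      exact (hmix u hu _ _ _ _ (h.adj hC)).resolve_left (fun h' => T.asym _ _ ih.1 h'.1)
  have ha0 : a0 ∈ X := ⟨b0, c0, d0, H60K.base⟩
  have hz : z ∉ X := hcon
  have hza : z ≠ a0 := by rintro rfl; exact hz ha0
  -- an arc from a dominated to a dominating vertex
  have hks : ∃ k s, k ∉ X ∧ s ∉ X ∧ T.R a0 k ∧ T.R s a0 ∧ T.R k s := by
    rcases T.tot z a0 hza with h | h
    · obtain ⟨k, s, hk, hs, hr⟩ := T.h60_cut hT {u | ¬ (u ∉ X ∧ T.R u a0)}
        (a := a0) (b := z) (fun h' => h'.1 ha0) (fun h' => h' ⟨hz, h⟩)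
      have hs' : s ∉ X ∧ T.R s a0 := not_not.1 hs
      have hk' : ¬ (k ∉ X ∧ T.R k a0) := hk
      have hkX : k ∉ X := by
        rintro ⟨p, q, r, hkK⟩
        exact T.asym _ _ hr (hdom s hs'.1 hs'.2 _ _ _ _ hkK).1
      have hka : k ≠ a0 := by rintro rfl; exact hkX ha0
      exact ⟨k, s, hkX, hs'.1, T.of_not hka (fun h' => hk' ⟨hkX, h'⟩), hs'.2, hr⟩
    · obtain ⟨k, s, hk, hs, hr⟩ := T.h60_cut hT {u | u ∉ X ∧ T.R a0 u}
        (a := z) (b := a0) ⟨hz, h⟩ (fun h' => h'.1 ha0)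
      have hk' : k ∉ X ∧ T.R a0 k := hk
      have hsX : s ∉ X := by
        rintro ⟨p, q, r, hsK⟩
        exact T.asym _ _ hr (hsub k hk'.1 hk'.2 _ _ _ _ hsK).1
      have hsa : s ≠ a0 := by rintro rfl; exact hsX ha0
      exact ⟨k, s, hk'.1, hsX, hk'.2, T.of_not hsa.symm (fun h' => hs ⟨hsX, h'⟩), hr⟩
  obtain ⟨k, s, hk, hs, hak, hsa, hr⟩ := hks
  have h1 := hsub k hk hak _ _ _ _ H60K.base
  have h2 : T.C4 a0 b0 k s := ⟨h0.1, h1.2.1, hr, hsa⟩
  exact hk (hX (H60K.base.adj h2) (by simp))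

/-- Every vertex of a strong tournament with at least 4 vertices lies on a 4-circuit. -/
theorem exists_C4_through [Finite V] {T : Tour V} (hT : T.Strong) (h4 : 4 ≤ Nat.card V) (v : V) :
    ∃ b c d, T.C4 v b c d := by
  obtain ⟨a, b, c, d, h⟩ := exists_C4 hT h4
  obtain ⟨p, q, r, hK⟩ := h60_cover hT h v
  exact ⟨p, q, r, h60K_C4 h hK⟩

/-- Two circuits through a common vertex have the same sign. -/
private theorem h60_vertex {T : Tour V} (σ : V → V → V → V → Prop)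
    (hlink : ∀ a b c d a' b' c' d', T.C4 a b c d → T.C4 a' b' c' d' →
      (∃ e, e ∈ arcs4 a b c d ∧ e ∈ arcs4 a' b' c' d') → (σ a b c d ↔ σ a' b' c' d'))
    {v a b c x y z : V} (hC : T.C4 v a b c) (hD : T.C4 v x y z) : σ v a b c ↔ σ v x y z := by
  have key : ∀ p q r s, T.C4 p q r s →
      (∃ e, e ∈ arcs4 v a b c ∧ e ∈ arcs4 p q r s) →
      (∃ e, e ∈ arcs4 p q r s ∧ e ∈ arcs4 v x y z) → (σ v a b c ↔ σ v x y z) := by
    intro p q r s h h1 h2
    exact (hlink _ _ _ _ _ _ _ _ hC h h1).trans (hlink _ _ _ _ _ _ _ _ h hD h2)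
  have nC := hC.nes
  have nD := hD.nes
  obtain ⟨c1, c2, c3, c4⟩ := hC
  obtain ⟨d1, d2, d3, d4⟩ := hD
  have hC : T.C4 v a b c := ⟨c1, c2, c3, c4⟩
  have hD : T.C4 v x y z := ⟨d1, d2, d3, d4⟩
  by_cases e1 : a = x
  · subst e1
    exact hlink _ _ _ _ _ _ _ _ hC hD ⟨(v, a), by simp [arcs4], by simp [arcs4]⟩
  by_cases e2 : c = z
  · subst e2
    exact hlink _ _ _ _ _ _ _ _ hC hD ⟨(c, v), by simp [arcs4], by simp [arcs4]⟩
  have e3 : a ≠ z := by rintro rfl; exact T.asym _ _ c1 d4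
  have e4 : c ≠ x := by rintro rfl; exact T.asym _ _ c4 d1
  by_cases f1 : T.R b z
  · exact key v a b z ⟨c1, c2, f1, d4⟩ ⟨(v, a), by simp [arcs4], by simp [arcs4]⟩
      ⟨(z, v), by simp [arcs4], by simp [arcs4]⟩
  by_cases f2 : T.R a y
  · exact key v a y z ⟨c1, f2, d3, d4⟩ ⟨(v, a), by simp [arcs4], by simp [arcs4]⟩
      ⟨(z, v), by simp [arcs4], by simp [arcs4]⟩
  by_cases f3 : T.R y c
  · exact key v x y c ⟨d1, d2, f3, c4⟩ ⟨(c, v), by simp [arcs4], by simp [arcs4]⟩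
      ⟨(v, x), by simp [arcs4], by simp [arcs4]⟩
  by_cases f4 : T.R x b
  · exact key v x b c ⟨d1, f4, c3, c4⟩ ⟨(c, v), by simp [arcs4], by simp [arcs4]⟩
      ⟨(v, x), by simp [arcs4], by simp [arcs4]⟩
  by_cases e6 : a = y
  · subst e6
    by_cases n1 : b = z
    · subst n1
      exact hlink _ _ _ _ _ _ _ _ hC hD ⟨(a, b), by simp [arcs4], by simp [arcs4]⟩
    have n2 : b ≠ x := by rintro rfl; exact T.asym _ _ c2 d2
    have g1 : T.R z b := T.of_not n1 f1
    by_cases g2 : T.R c a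
    · exact key z b c a ⟨g1, c3, g2, d3⟩ ⟨(b, c), by simp [arcs4], by simp [arcs4]⟩
        ⟨(a, z), by simp [arcs4], by simp [arcs4]⟩
    · have g3 : T.R a c := T.of_not nC.2.2.2.2.1.symm g2
      exact key x a c v ⟨d2, g3, c4, d1⟩ ⟨(c, v), by simp [arcs4], by simp [arcs4]⟩
        ⟨(x, a), by simp [arcs4], by simp [arcs4]⟩
  by_cases e7 : b = x
  · subst e7
    by_cases n1 : c = y
    · subst n1
      exact hlink _ _ _ _ _ _ _ _ hC hD ⟨(b, c), by simp [arcs4], by simp [arcs4]⟩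
    have g1 : T.R c y := T.of_not (Ne.symm n1) f3
    have g2 : T.R z b := T.of_not nD.2.2.2.2.1 f1
    exact key c y z b ⟨g1, d3, g2, c3⟩ ⟨(b, c), by simp [arcs4], by simp [arcs4]⟩
      ⟨(y, z), by simp [arcs4], by simp [arcs4]⟩
  have g1 : T.R b x := T.of_not (Ne.symm e7) f4
  have g2 : T.R y a := T.of_not e6 f2
  exact key b x y a ⟨g1, d2, g2, c2⟩ ⟨(a, b), by simp [arcs4], by simp [arcs4]⟩
    ⟨(x, y), by simp [arcs4], by simp [arcs4]⟩

/-- The 4-circuits of a strong tournament are connected (sign version). -/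
theorem gamma_conn {T : Tour V} (hT : T.Strong) (σ : V → V → V → V → Prop)
    (hrot : ∀ a b c d, T.C4 a b c d → (σ a b c d ↔ σ b c d a))
    (hadj : ∀ a b c d c' d', T.C4 a b c d → T.C4 a b c' d' → (σ a b c d ↔ σ a b c' d'))
    {a b c d a' b' c' d' : V} (h : T.C4 a b c d) (h' : T.C4 a' b' c' d') :
    σ a b c d ↔ σ a' b' c' d' := by
  have hmem : ∀ {a b c d x y : V}, T.C4 a b c d → (x, y) ∈ arcs4 a b c d →
      ∃ z w, T.C4 x y z w ∧ (σ a b c d ↔ σ x y z w) := by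
    intro a b c d x y h hm
    have r1 := hrot _ _ _ _ h
    have r2 := hrot _ _ _ _ h.rot
    have r3 := hrot _ _ _ _ h.rot.rot
    simp only [arcs4, Set.mem_insert_iff, Set.mem_singleton_iff, Prod.mk.injEq] at hm
    rcases hm with ⟨rfl, rfl⟩ | ⟨rfl, rfl⟩ | ⟨rfl, rfl⟩ | ⟨rfl, rfl⟩
    · exact ⟨c, d, h, Iff.rfl⟩
    · exact ⟨d, a, h.rot, r1⟩
    · exact ⟨a, b, h.rot.rot, r1.trans r2⟩
    · exact ⟨b, c, h.rot.rot.rot, (r1.trans r2).trans r3⟩
  have hlink : ∀ a b c d a' b' c' d', T.C4 a b c d → T.C4 a' b' c' d' →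
      (∃ e, e ∈ arcs4 a b c d ∧ e ∈ arcs4 a' b' c' d') → (σ a b c d ↔ σ a' b' c' d') := by
    intro a b c d a' b' c' d' g g' he
    obtain ⟨⟨x, y⟩, hx, hy⟩ := he
    obtain ⟨z, w, g1, g2⟩ := hmem g hx
    obtain ⟨z', w', g1', g2'⟩ := hmem g' hy
    exact (g2.trans (hadj _ _ _ _ _ _ g1 g1')).trans g2'.symm
  -- all circuits of the class of (a,b,c,d) have the same sign
  have hclass : ∀ p q r s, H60K T a b c d p q r s → (σ a b c d ↔ σ p q r s) := by
    intro p q r s hK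
    induction hK with
    | base => exact Iff.rfl
    | rot hK ih => exact ih.trans (hrot _ _ _ _ (h60K_C4 h hK))
    | adj hK hC ih => exact ih.trans (hadj _ _ _ _ _ _ (h60K_C4 h hK) hC)
  obtain ⟨p, q, r, hK⟩ := h60_cover hT h a'
  exact (hclass _ _ _ _ hK).trans (h60_vertex σ hlink (h60K_C4 h hK) h')

end Pool.Agent.Helper98.FC
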