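import Pool.Agent.Helper98.FC.EndDefs

/-!
# FC-E1: the structure of ghosts (MP_ebd9af_co)
-/

namespace Pool.Agent.Helper98.FC

universe u

variable {V : Type u} {T : Tour V}

open Tour

/-- leaving a set -/
private theorem h66_exit (hT : T.Strong) (P : V → Prop) {x y : V} (hx : P x) (hy : ¬ P y) :
    ∃ p q, P p ∧ ¬ P q ∧ T.R p q := by
  have h := hT x y
  induction h with
  | refl => exact absurd hx hy
  | @tail b c _ hbc ih =>
    by_cases hb : P b
    · exact ⟨b, c, hb, hy, hbc⟩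
    · exact ih hb

/-- a vertex outside a short list -/
private theorem h66_out [Finite V] {n : ℕ} (hn : n ≤ Nat.card V) (l : List V) (hl : l.length < n) : ∃ z, z ∉ l := by
  classical
  by_contra hc
  push Not at hc
  have := Fintype.ofFinite V
  have h1 : (Finset.univ : Finset V) ⊆ l.toFinset := fun z _ => List.mem_toFinset.2 (hc z)
  have h2 := Finset.card_le_card h1
  have h3 := List.toFinset_card_le l
  rw [Finset.card_univ, ← Nat.card_eq_fintype_card] at h2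
  omega

private theorem h66_gout {v p q r q' r' : V} (hv : T.Ghost v) (h : T.C4 v p q r) (h' : T.C4 v p q' r') :
    q = q' ∧ r = r' := by
  by_contra hc
  exact (hv p q r h).1 ⟨q, r, q', r', h, h', hc⟩

private theorem h66_gin {v p q r p' q' : V} (hv : T.Ghost v) (h : T.C4 v p q r) (h' : T.C4 v p' q' r) :
    p = p' ∧ q = q' := by
  by_contra hc
  exact (hv p q r h).2 ⟨p, q, p', q', h.rot.rot.rot, h'.rot.rot.rot, hc⟩

private theorem h66_c1 [Finite V] (hT : T.Strong) (hn : 6 ≤ Nat.card V) {v b1 a1 b2 a2 : V} (hv : T.Ghost v)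
    (hb1 : T.R v b1) (ha1 : T.R a1 v) (h1 : T.R b1 a1) (hb2 : T.R v b2) (ha2 : T.R a2 v) (h2 : T.R b2 a2)
    (hb : T.R b1 b2) (ha : a1 ≠ a2) : False := by
  have OI : ∀ {x y : V}, T.R v x → T.R y v → x ≠ y := by
    rintro x y hx hy rfl
    exact T.asym _ _ hx hy
  have C1 : T.C4 v b1 b2 a2 := ⟨hb1, hb, h2, ha2⟩
  have ha21 : T.R a2 a1 := by
    refine (T.tot a1 a2 ha).resolve_left (fun h => ?_)
    exact OI hb2 ha1 (h66_gout hv C1 (q' := a1) (r' := a2) ⟨hb1, h1, h, ha2⟩).1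
  have C2 : T.C4 v b2 a2 a1 := ⟨hb2, h2, ha21, ha1⟩
  have n1 : ∀ y, T.R v y → ¬ T.R y b1 := by
    intro y hy hyb
    exact OI hb1 ha2 (h66_gin hv C2 (p' := y) (q' := b1) ⟨hy, hyb, h1, ha1⟩).2.symm
  have n2 : ∀ x, T.R x v → ¬ T.R a1 x := by
    intro x hx hax
    exact OI hb2 ha1 (h66_gout hv C1 (q' := a1) (r' := x) ⟨hb1, h1, hax, hx⟩).1
  have n3 : ∀ y, T.R v y → T.R y b2 → y = b1 := by
    intro y hy hyb
    exact (h66_gin hv C1 (p' := y) (q' := b2) ⟨hy, hyb, h2, ha2⟩).1.symm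
  have n4 : ∀ x, T.R x v → T.R a2 x → x = a1 := by
    intro x hx hax
    exact (h66_gout hv C2 (q' := a2) (r' := x) ⟨hb2, h2, hax, hx⟩).2.symm
  have n5 : ∀ z, T.R v z → z ≠ b1 → T.R b1 z := fun z hz hzb => T.of_not hzb (n1 z hz)
  have n6 : ∀ z w, T.R v z → z ≠ b1 → z ≠ b2 → T.R w v → ¬ T.R z w := by
    intro z w hz hz1 hz2 hw hzw
    exact hz2 (h66_gout hv C1 (q' := z) (r' := w) ⟨hb1, n5 z hz hz1, hzw, hw⟩).1.symm
  -- `O = {b1, b2}`
  have hO : ∀ z, T.R v z → z = b1 ∨ z = b2 := by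
    by_contra hc
    push Not at hc
    obtain ⟨z, hz, hz1, hz2⟩ := hc
    obtain ⟨p, q, ⟨k1, k2, k3⟩, hq, hpq⟩ := h66_exit hT (fun z => T.R v z ∧ z ≠ b1 ∧ z ≠ b2) (x := z) (y := v)
      ⟨hz, hz1, hz2⟩ (fun h => T.irr _ h.1)
    by_cases hqv : q = v
    · subst hqv
      exact T.asym _ _ k1 hpq
    · rcases T.tot v q (Ne.symm hqv) with h | h
      · by_cases hq1 : q = b1
        · subst hq1
          exact n1 p k1 hpq
        · by_cases hq2 : q = b2
          · subst hq2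
            exact k2 (n3 p k1 hpq)
          · exact hq ⟨h, hq1, hq2⟩
      · exact n6 p q k1 k2 k3 h hpq
  have n7 : ∀ x w, T.R x v → x ≠ a1 → x ≠ a2 → T.R v w → ¬ T.R w x := by
    intro x w hx hx1 hx2 hw hwx
    by_cases hw1 : w = b1
    · subst hw1
      exact OI hb2 hx (h66_gout hv C1 (q' := x) (r' := a1) ⟨hb1, hwx, T.of_not hx1.symm (n2 x hx), ha1⟩).1
    · exact hx2 (h66_gout hv C1 (q' := w) (r' := x) ⟨hb1, n5 w hw hw1, hwx, hx⟩).2.symm
  have hI : ∀ x, T.R x v → x = a1 ∨ x = a2 := by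
    by_contra hc
    push Not at hc
    obtain ⟨x, hx, hx1, hx2⟩ := hc
    obtain ⟨p, q, k, hq, hpq⟩ := h66_exit hT (fun z => ¬ (T.R z v ∧ z ≠ a1 ∧ z ≠ a2)) (x := v) (y := x)
      (fun h => T.irr _ h.1) (fun h => h ⟨hx, hx1, hx2⟩)
    push Not at hq
    obtain ⟨q1, q2, q3⟩ := hq
    by_cases hpv : p = v
    · subst hpv
      exact T.asym _ _ q1 hpq
    · rcases T.tot v p (Ne.symm hpv) with h | h
      · exact n7 q p q1 q2 q3 h hpq
      · by_cases hp1 : p = a1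
        · subst hp1
          exact n2 q q1 hpq
        · by_cases hp2 : p = a2
          · subst hp2
            exact q2 (n4 q q1 hpq)
          · exact k ⟨h, hp1, hp2⟩
  obtain ⟨z, hz⟩ := h66_out hn [v, b1, b2, a1, a2] (by simp)
  simp only [List.mem_cons, List.not_mem_nil, or_false, not_or] at hz
  obtain ⟨z0, z1, z2, z3, z4⟩ := hz
  rcases T.tot v z (Ne.symm z0) with h | h
  · rcases hO z h with h | h
    · exact z1 h
    · exact z2 h
  · rcases hI z h with h | h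
    · exact z3 h
    · exact z4 h

private theorem h66_c2 [Finite V] (hT : T.Strong) (hn : 6 ≤ Nat.card V) {v b a1 a2 : V} (hv : T.Ghost v)
    (hb : T.R v b) (ha1 : T.R a1 v) (h1 : T.R b a1) (ha2 : T.R a2 v) (h2 : T.R b a2)
    (ha : T.R a1 a2) : False := by
  have OI : ∀ {x y : V}, T.R v x → T.R y v → x ≠ y := by
    rintro x y hx hy rfl
    exact T.asym _ _ hx hy
  have C : T.C4 v b a1 a2 := ⟨hb, h1, ha, ha2⟩
  have n1 : ∀ y, T.R v y → ¬ T.R y b := by
    intro y hy hyb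
    exact T.ne hyb (h66_gin hv C (p' := y) (q' := b) ⟨hy, hyb, h2, ha2⟩).1.symm
  have n2 : ∀ x, T.R x v → T.R a1 x → x = a2 := by
    intro x hx hax
    exact (h66_gout hv C (q' := a1) (r' := x) ⟨hb, h1, hax, hx⟩).2.symm
  have n3 : ∀ x, T.R x v → ¬ T.R a2 x := by
    intro x hx hax
    exact T.ne ha (h66_gout hv C (q' := a2) (r' := x) ⟨hb, h2, hax, hx⟩).1
  have n4 : ∀ z w, T.R v z → z ≠ b → T.R w v → ¬ T.R z w := by
    intro z w hz hzb hw hzw
    have hbz : T.R b z := T.of_not hzb (n1 z hz)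
    by_cases hw1 : w = a1
    · subst hw1
      exact h66_c1 hT hn hv hb ha2 h2 hz hw hzw hbz (T.ne ha).symm
    · exact h66_c1 hT hn hv hb ha1 h1 hz hw hzw hbz (Ne.symm hw1)
  have hO : ∀ z, T.R v z → z = b := by
    by_contra hc
    push Not at hc
    obtain ⟨z, hz, hz1⟩ := hc
    obtain ⟨p, q, ⟨k1, k2⟩, hq, hpq⟩ := h66_exit hT (fun z => T.R v z ∧ z ≠ b) (x := z) (y := v)
      ⟨hz, hz1⟩ (fun h => T.irr _ h.1)
    by_cases hqv : q = v
    · subst hqv
      exact T.asym _ _ k1 hpq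
    · rcases T.tot v q (Ne.symm hqv) with h | h
      · by_cases hq1 : q = b
        · subst hq1
          exact n1 p k1 hpq
        · exact hq ⟨h, hq1⟩
      · exact n4 p q k1 k2 h hpq
  have hI : ∀ x, T.R x v → x = a1 ∨ x = a2 := by
    by_contra hc
    push Not at hc
    obtain ⟨x, hx, hx1, hx2⟩ := hc
    obtain ⟨p, q, k, hq, hpq⟩ := h66_exit hT (fun z => ¬ (T.R z v ∧ z ≠ a1 ∧ z ≠ a2)) (x := v) (y := x)
      (fun h => T.irr _ h.1) (fun h => h ⟨hx, hx1, hx2⟩)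
    push Not at hq
    obtain ⟨q1, q2, q3⟩ := hq
    by_cases hpv : p = v
    · subst hpv
      exact T.asym _ _ q1 hpq
    · rcases T.tot v p (Ne.symm hpv) with h | h
      · have := hO p h
        subst this
        have hqa : T.R q a1 := T.of_not (Ne.symm q2) (fun h' => q3 (n2 q q1 h'))
        exact q2 (h66_gout hv C (q' := q) (r' := a1) ⟨hb, hpq, hqa, ha1⟩).1.symm
      · by_cases hp1 : p = a1
        · subst hp1
          exact q3 (n2 q q1 hpq)
        · by_cases hp2 : p = a2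
          · subst hp2
            exact n3 q q1 hpq
          · exact k ⟨h, hp1, hp2⟩
  obtain ⟨z, hz⟩ := h66_out hn [v, b, a1, a2] (by simp)
  simp only [List.mem_cons, List.not_mem_nil, or_false, not_or] at hz
  obtain ⟨z0, z1, z3, z4⟩ := hz
  rcases T.tot v z (Ne.symm z0) with h | h
  · exact z1 (hO z h)
  · rcases hI z h with h | h
    · exact z3 h
    · exact z4 h

private theorem h66_uniq [Finite V] (hT : T.Strong) (hn : 6 ≤ Nat.card V) {v b1 a1 b2 a2 : V} (hv : T.Ghost v)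
    (hb1 : T.R v b1) (ha1 : T.R a1 v) (h1 : T.R b1 a1) (hb2 : T.R v b2) (ha2 : T.R a2 v) (h2 : T.R b2 a2) :
    b2 = b1 ∧ a2 = a1 := by
  by_cases hb : b1 = b2
  · subst hb
    by_cases ha : a1 = a2
    · exact ⟨rfl, ha.symm⟩
    · exfalso
      rcases T.tot a1 a2 ha with h | h
      · exact h66_c2 hT hn hv hb1 ha1 h1 ha2 h2 h
      · exact h66_c2 hT hn hv hb1 ha2 h2 ha1 h1 h
  · exfalso
    by_cases ha : a1 = a2
    · subst ha
      have hT' := conv_strong hT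
      rcases T.tot b1 b2 hb with h | h
      · exact h66_c2 (T := T.conv) hT' hn (ghost_conv.2 hv) (v := v) (b := a1) (a1 := b2) (a2 := b1) ha1 hb2 h2 hb1 h1 h
      · exact h66_c2 (T := T.conv) hT' hn (ghost_conv.2 hv) (v := v) (b := a1) (a1 := b1) (a2 := b2) ha1 hb1 h1 hb2 h2 h
    · rcases T.tot b1 b2 hb with h | h
      · exact h66_c1 hT hn hv hb1 ha1 h1 hb2 ha2 h2 h ha
      · exact h66_c1 hT hn hv hb2 ha2 h2 hb1 ha1 h1 h (Ne.symm ha)

private theorem h66_Le (hT : T.Strong) {v b a : V}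
    (hu : ∀ p q, T.R v p → T.R q v → T.R p q → p = b ∧ q = a) (hz : ∃ z, z ≠ b ∧ T.R v z) :
    ∃ y, T.R v y ∧ T.R y b := by
  obtain ⟨z, hz1, hz2⟩ := hz
  obtain ⟨p, q, ⟨k1, k2⟩, hq, hpq⟩ := h66_exit hT (fun z => T.R v z ∧ z ≠ b) (x := z) (y := v)
    ⟨hz2, hz1⟩ (fun h => T.irr _ h.1)
  by_cases hqb : q = b
  · subst hqb
    exact ⟨p, k1, hpq⟩
  · exfalso
    by_cases hqv : q = v
    · subst hqv
      exact T.asym _ _ k1 hpq
    · rcases T.tot v q (Ne.symm hqv) with h | h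
      · exact hq ⟨h, hqb⟩
      · exact k2 (hu p q k1 h hpq).1

/-- A ghost has a unique back arc. -/
theorem ghost_at [Finite V] (hT : T.Strong) (hn : 6 ≤ Nat.card V) {v : V} (hv : T.Ghost v) :
    ∃ b a, T.GhostAt v b a := by
  obtain ⟨z, hz⟩ := h66_out hn [v] (by simp)
  simp only [List.mem_cons, List.not_mem_nil, or_false] at hz
  -- an in-neighbour
  obtain ⟨p, q, hp, hq, hpq⟩ := h66_exit hT (fun z => z ≠ v) (x := z) (y := v) hz (fun h => h rfl)
  push Not at hq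
  subst hq
  have hpR : ¬ (p = q ∨ T.R q p) := by
    rintro (h | h)
    · exact hp h
    · exact T.asym _ _ h hpq
  obtain ⟨b, a, hb, ha, hba⟩ := h66_exit hT (fun z => z = q ∨ T.R q z) (x := q) (y := p) (Or.inl rfl) hpR
  rw [not_or] at ha
  have haq : T.R a q := T.of_not (Ne.symm ha.1) ha.2
  have hqb : T.R q b := by
    rcases hb with rfl | h
    · exact absurd hba ha.2
    · exact h
  have hu : ∀ p q', T.R q p → T.R q' q → T.R p q' → p = b ∧ q' = a := fun p q' h1 h2 h3 =>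
    h66_uniq hT hn hv hqb haq hba h1 h2 h3
  refine ⟨b, a, hqb, haq, hba, hu, ?_, ?_, ?_, ?_⟩
  · intro y y' h1 h2 h3 h4
    exact (h66_gin hv (p := y) (q := b) (r := a) (p' := y') (q' := b) ⟨h1, h2, hba, haq⟩ ⟨h3, h4, hba, haq⟩).1
  · intro x x' h1 h2 h3 h4
    exact (h66_gout hv (p := b) (q := a) (r := x) (q' := a) (r' := x') ⟨hqb, hba, h2, h1⟩ ⟨hqb, hba, h4, h3⟩).2
  · exact h66_Le hT hu
  · exact h66_Le (T := T.conv) (conv_strong hT) (v := q) (b := a) (a := b)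
      (fun p q' h1 h2 h3 => (hu q' p h2 h1 h3).symm)

namespace Tour

theorem GhostAt.inj_arc {v b a b' a' : V} (h : T.GhostAt v b a) (h' : T.GhostAt v b' a') : b = b' ∧ a = a' :=
  h'.uniq b a h.hb h.ha h.hba

theorem GhostAt.LR [Finite V] (hn : 4 ≤ Nat.card V) {v b a : V} (h : T.GhostAt v b a) :
    (∃ y, T.R v y ∧ T.R y b) ∨ (∃ x, T.R x v ∧ T.R a x) := by
  obtain ⟨z, hz⟩ := h66_out hn [v, b, a] (by simp)
  simp only [List.mem_cons, List.not_mem_nil, or_false, not_or] at hz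
  rcases T.tot v z (Ne.symm hz.1) with h1 | h1
  · exact Or.inl (h.Le ⟨z, hz.2.1, h1⟩)
  · exact Or.inr (h.Re ⟨z, hz.2.2, h1⟩)

end Tour

/-- the case `R(v) = ∅` -/
private theorem h66_ng [Finite V] (hT : T.Strong) (hn : 6 ≤ Nat.card V) {v b a : V}
    (h : T.GhostAt v b a) (hR : ¬ ∃ x, T.R x v ∧ T.R a x) :
    ¬ T.Ghost b ∧ ¬ T.Ghost a ∧ (∀ y, T.R v y → T.R y b → ¬ T.Ghost y) := by
  have OI : ∀ {x y : V}, T.R v x → T.R y v → x ≠ y := by
    rintro x y hx hy rfl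
    exact T.asym _ _ hx hy
  obtain ⟨y, hy1, hy2⟩ := (h.LR (by omega)).resolve_right hR
  have hI : ∀ z, T.R z v → z = a := by
    intro z hz
    by_contra hza
    exact hR (h.Re ⟨z, hza, hz⟩)
  obtain ⟨z0, hz0⟩ := h66_out hn [v, a, b, y] (by simp)
  simp only [List.mem_cons, List.not_mem_nil, or_false, not_or] at hz0
  have hvz0 : T.R v z0 := T.of_not hz0.1 (fun h => hz0.2.1 (hI z0 h))
  obtain ⟨z, t, ⟨k1, k2, k3⟩, hnt, hzt⟩ := h66_exit hT (fun z => T.R v z ∧ z ≠ b ∧ z ≠ y)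
    (x := z0) ⟨hvz0, hz0.2.2.1, hz0.2.2.2⟩ (y := v) (fun h' => T.irr _ h'.1)
  have hty : t = y := by
    by_contra hty
    by_cases htb : t = b
    · subst htb
      exact k3 (h.Lu z y k1 hzt hy1 hy2)
    · by_cases htv : t = v
      · subst htv
        exact T.asym _ _ k1 hzt
      · rcases T.tot v t (Ne.symm htv) with h1 | h1
        · exact hnt ⟨h1, htb, hty⟩
        · exact k2 (h.uniq z t k1 h1 hzt).1
  subst hty
  have haz : T.R a z := T.of_not (OI k1 h.ha) (fun h1 => k2 (h.uniq z a k1 h.ha h1).1)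
  have C1 : T.C4 b a z t := ⟨h.hba, haz, hzt, hy2⟩
  have C2 : T.C4 b a v t := ⟨h.hba, h.ha, hy1, hy2⟩
  have hzv : z ≠ v := (T.ne k1).symm
  have B1 : T.Big b a := ⟨z, t, v, t, C1, C2, fun h' => hzv h'.1⟩
  have B2 : T.Big t b := ⟨a, z, a, v, C1.rot.rot.rot, C2.rot.rot.rot, fun h' => hzv h'.2⟩
  refine ⟨fun hg => ?_, fun hg => ?_, fun y' h1 h2 hg => ?_⟩
  · exact (hg _ _ _ C1).1 B1
  · exact (hg _ _ _ C1.rot).2 B1
  · have := h.Lu y' t h1 h2 hy1 hy2
    subst this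
    exact (hg _ _ _ C1.rot.rot.rot).1 B2

/-- The ends of the back arc of a ghost, and the elements of `L`, `R`, are non-ghosts. -/
theorem Tour.GhostAt.ng [Finite V] (hT : T.Strong) (hn : 6 ≤ Nat.card V) {v b a : V} (_hv : T.Ghost v)
    (h : T.GhostAt v b a) :
    ¬ T.Ghost b ∧ ¬ T.Ghost a ∧ (∀ y, T.R v y → T.R y b → ¬ T.Ghost y) ∧ (∀ x, T.R x v → T.R a x → ¬ T.Ghost x) := by
  have OI : ∀ {x y : V}, T.R v x → T.R y v → x ≠ y := by
    rintro x y hx hy rfl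
    exact T.asym _ _ hx hy
  by_cases hR : ∃ x, T.R x v ∧ T.R a x
  · by_cases hL : ∃ y, T.R v y ∧ T.R y b
    · obtain ⟨x, hx1, hx2⟩ := hR
      obtain ⟨y, hy1, hy2⟩ := hL
      have hxy : T.R x y := T.of_not (OI hy1 hx1)
        (fun h' => T.ne hy2 (h.uniq y x hy1 hx1 h').1)
      have C1 : T.C4 b a x y := ⟨h.hba, hx2, hxy, hy2⟩
      have C2 : T.C4 b a v y := ⟨h.hba, h.ha, hy1, hy2⟩
      have C3 : T.C4 b a x v := ⟨h.hba, hx2, hx1, h.hb⟩
      have hxv : x ≠ v := T.ne hx1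
      have hyv : y ≠ v := (T.ne hy1).symm
      have B1 : T.Big b a := ⟨x, y, v, y, C1, C2, fun h' => hxv h'.1⟩
      have B2 : T.Big y b := ⟨a, x, a, v, C1.rot.rot.rot, C2.rot.rot.rot, fun h' => hxv h'.2⟩
      have B3 : T.Big a x := ⟨y, b, v, b, C1.rot, C3.rot, fun h' => hyv h'.1⟩
      refine ⟨fun hg => (hg _ _ _ C1).1 B1, fun hg => (hg _ _ _ C1.rot).2 B1, fun y' h1 h2 hg => ?_,
        fun x' h1 h2 hg => ?_⟩
      · have := h.Lu y' y h1 h2 hy1 hy2
        subst this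
        exact (hg _ _ _ C1.rot.rot.rot).1 B2
      · have := h.Ru x' x h1 h2 hx1 hx2
        subst this
        exact (hg _ _ _ C1.rot.rot).2 B3
    · have h1 := h66_ng (T := T.conv) (conv_strong hT) hn (v := v) (b := a) (a := b) h.conv (by simpa using hL)
      simp only [ghost_conv] at h1
      exact ⟨h1.2.1, h1.1, fun y h2 h3 => absurd ⟨y, h2, h3⟩ hL, h1.2.2⟩
  · have h1 := h66_ng hT hn h hR
    exact ⟨h1.1, h1.2.1, h1.2.2, fun x h2 h3 => absurd ⟨x, h2, h3⟩ hR⟩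

/-- Different ghosts have different back arcs. -/
theorem Tour.GhostAt.eq [Finite V] (hT : T.Strong) (hn : 6 ≤ Nat.card V) {v w b a : V} (hv : T.Ghost v)
    (hw : T.Ghost w) (h : T.GhostAt v b a) (h' : T.GhostAt w b a) : v = w := by
  by_contra hc
  rcases T.tot v w hc with h1 | h1
  · exact (GhostAt.ng hT hn hv h).2.2.1 w h1 h'.hb hw
  · exact (GhostAt.ng hT hn hw h').2.2.1 v h1 h.hb hv

/-- The diagonal of a circuit through a ghost. -/
theorem ghost_back [Finite V] (hT : T.Strong) (hn : 6 ≤ Nat.card V) {p q r g : V} (hg : T.Ghost g)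
    (hC : T.C4 p q r g) : T.R r p := by
  obtain ⟨b, a, h⟩ := ghost_at hT hn hg
  refine T.of_not hC.ne13 (fun hpr => ?_)
  have e1 := h.uniq p r hC.2.2.2 hC.2.2.1 hpr
  rcases T.tot g q hC.ne24.symm with h1 | h1
  · exact T.ne hC.1 (e1.1.trans (h.uniq q r h1 hC.2.2.1 hC.2.1).1.symm)
  · exact T.ne hC.2.1 ((h.uniq p q hC.2.2.2 h1 hC.1).2.trans e1.2.symm)

/-- The back arc of a ghost, read off from a circuit. -/
theorem ghost_arc [Finite V] (hT : T.Strong) (hn : 6 ≤ Nat.card V) {p q r g : V} (hg : T.Ghost g)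
    (hC : T.C4 p q r g) : (T.R g q ∧ T.GhostAt g q r) ∨ (T.R q g ∧ T.GhostAt g p q) := by
  obtain ⟨b, a, h⟩ := ghost_at hT hn hg
  rcases T.tot g q hC.ne24.symm with h1 | h1
  · obtain ⟨rfl, rfl⟩ := h.uniq q r h1 hC.2.2.1 hC.2.1
    exact Or.inl ⟨h1, h⟩
  · obtain ⟨rfl, rfl⟩ := h.uniq p q hC.2.2.2 h1 hC.1
    exact Or.inr ⟨h1, h⟩

/-- The cuts of ghosts are nested. -/
theorem ghost_nested [Finite V] (hT : T.Strong) (hn : 6 ≤ Nat.card V) {v w : V} (hv : T.Ghost v) (hw : T.Ghost w)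
    (h : T.R v w) : ∀ z, T.R w z → T.R v z := by
  intro z hwz
  by_contra hc
  have hvz : v ≠ z := by
    rintro rfl
    exact T.asym _ _ h hwz
  have hzv : T.R z v := (T.tot v z hvz).resolve_left hc
  obtain ⟨b, a, h1⟩ := ghost_at hT hn hv
  obtain ⟨rfl, rfl⟩ := h1.uniq w z h hzv hwz
  exact (GhostAt.ng hT hn hv h1).1 hw

end Pool.Agent.Helper98.FC
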