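import Pool.Agent.Helper98.FC.EndDefs

/-!
# Inconsistent pairs of a positive map
-/

namespace Pool.Agent.Helper98.FC

universe u v

variable {V : Type u} {W : Type v} {T : Tour V} {T' : Tour W}

/-- The back arc `b → a` of `v` links `a → v → y` and `x → v → b` with different labels `s`, `s'` at `v`. -/
structure Inc (φ : Phi T T') (b a v x y : V) (b' a' s s' x' y' : W) : Prop where
  Cy : T.C4 b a v y
  Cx : T.C4 b a x v
  fba : φ.f (b, a) = (b', a')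
  fav : φ.f (a, v) = (a', s)
  fvy : φ.f (v, y) = (s, y')
  fyb : φ.f (y, b) = (y', b')
  fax : φ.f (a, x) = (a', x')
  fxv : φ.f (x, v) = (x', s')
  fvb : φ.f (v, b) = (s', b')
  hs : s ≠ s'

/-- a reversed 3-cycle module -/
structure M3 (φ : Phi T T') (b a m0 m1 m2 : V) (b' a' n0 n1 n2 : W) : Prop where
  hba : T.R b a
  a0 : T.R a m0
  a1 : T.R a m1
  a2 : T.R a m2
  b0 : T.R m0 b
  b1 : T.R m1 b
  b2 : T.R m2 b
  m01 : T.R m0 m1
  m12 : T.R m1 m2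
  m20 : T.R m2 m0
  fba : φ.f (b, a) = (b', a')
  fa0 : φ.f (a, m0) = (a', n0)
  fa1 : φ.f (a, m1) = (a', n2)
  fa2 : φ.f (a, m2) = (a', n1)
  f0b : φ.f (m0, b) = (n2, b')
  f1b : φ.f (m1, b) = (n1, b')
  f2b : φ.f (m2, b) = (n0, b')
  f01 : φ.f (m0, m1) = (n0, n1)
  f12 : φ.f (m1, m2) = (n2, n0)
  f20 : φ.f (m2, m0) = (n1, n2)

theorem Phi.gof (φ : Phi T T') {a b : V} {p q : W} (h : T.R a b) (e : φ.f (a, b) = (p, q)) :
    φ.g (p, q) = (a, b) ∧ T'.R p q := by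
  have h1 := φ.gf (a, b) h
  have h2 := φ.fa (a, b) h
  rw [e] at h1 h2
  exact ⟨h1, h2⟩

namespace Inc

variable {φ : Phi T T'} {b a v x y : V} {b' a' s s' x' y' : W}

theorem cv (h : Inc φ b a v x y b' a' s s' x' y') : Inc φ.conv a b v y x a' b' s' s y' x' := by
  refine ⟨(Tour.conv_C4 _ _ _ _ _).2 h.Cx.rot.rot, (Tour.conv_C4 _ _ _ _ _).2 h.Cy.rot.rot, ?_, ?_, ?_, ?_, ?_, ?_, ?_,
    h.hs.symm⟩
  all_goals simp [h.fba, h.fav, h.fvy, h.fyb, h.fax, h.fxv, h.fvb]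

/-- `x → b` -/
theorem xb (hP : φ.Pos) (h : Inc φ b a v x y b' a' s s' x' y') : T.R x b := by
  have n1 := h.Cx.nes
  apply T.of_not n1.2.1
  intro hh
  have hC : T.C4 v y b x := ⟨h.Cy.2.2.1, h.Cy.2.2.2, hh, h.Cx.2.2.1⟩
  obtain ⟨p, q, h1, h2, h3, h4⟩ := hP.img' hC h.fvy
  rw [h.fxv] at h4
  have := h.hs
  grind

theorem ay (hP : φ.Pos) (h : Inc φ b a v x y b' a' s s' x' y') : T.R a y :=
  show T.conv.R y a from h.cv.xb hP.conv

/-- `s' → s` -/
theorem s's (hP : φ.Pos) (h : Inc φ b a v x y b' a' s s' x' y') : T'.R s' s := by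
  apply T'.of_not h.hs
  intro hh
  obtain ⟨g1, r1⟩ := φ.gof h.Cy.1 h.fba
  obtain ⟨g2, r2⟩ := φ.gof h.Cy.2.1 h.fav
  obtain ⟨g3, r3⟩ := φ.gof h.Cx.2.2.2 h.fvb
  have hC : T'.C4 b' a' s s' := ⟨r1, r2, hh, r3⟩
  obtain ⟨c, d, k0, k1, k2, k3⟩ := hP.symm.img' hC (by simp only [Phi.symm_f]; exact g1)
  simp only [Phi.symm_f] at k1 k2 k3
  rw [g2] at k1
  rw [g3] at k3
  have := k0.nes
  grind

/-- a circuit `b → p → a → v` is impossible -/
theorem no1 (hP : φ.Pos) (h : Inc φ b a v x y b' a' s s' x' y') {p : V} (h1 : T.R b p) (h2 : T.R p a) : False := by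
  obtain ⟨r, t, k0, k1, k2, k3⟩ := hP.img' (a := v) (b := b) (c := p) (d := a) ⟨h.Cx.2.2.2, h1, h2, h.Cy.2.1⟩ h.fvb
  rw [h.fav] at k3
  have := h.hs
  grind

/-- case γ1: `s' → a'`; the vertex `x` is unique -/
theorem xuniq (hP : φ.Pos) (h : Inc φ b a v x y b' a' s s' x' y') (hg : T'.R s' a') {z : V} (h1 : T.R a z)
    (h2 : T.R z v) : z = x := by
  by_contra hz
  have hC : T.C4 b a z v := ⟨h.Cy.1, h1, h2, h.Cx.2.2.2⟩
  obtain ⟨z', t, k0, k1, k2, k3⟩ := hP.img' hC h.fba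
  rw [h.fvb] at k3
  have ht : t = s' := by grind
  subst ht
  obtain ⟨g1, r1⟩ := φ.gof h1 k1
  obtain ⟨g2, r2⟩ := φ.gof h2 k2
  obtain ⟨g3, r3⟩ := φ.gof h.Cx.2.1 h.fax
  obtain ⟨g4, r4⟩ := φ.gof h.Cx.2.2.1 h.fxv
  have hne : z' ≠ x' := by
    rintro rfl
    rw [g1] at g3
    grind
  have nv := h.Cy.nes
  rcases T'.tot z' x' hne with m | m
  · obtain ⟨c, d, l0, l1, l2, l3⟩ := hP.symm.img' (a := a') (b := z') (c := x') (d := t) ⟨r1, m, r4, hg⟩
      (by simp only [Phi.symm_f]; exact g1)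
    simp only [Phi.symm_f] at l1 l2 l3
    rw [g4] at l2
    have : d = v := by grind
    subst this
    exact T.asym _ _ l0.2.2.2 h.Cy.2.1
  · obtain ⟨c, d, l0, l1, l2, l3⟩ := hP.symm.img' (a := a') (b := x') (c := z') (d := t) ⟨r3, m, r2, hg⟩
      (by simp only [Phi.symm_f]; exact g3)
    simp only [Phi.symm_f] at l1 l2 l3
    rw [g2] at l2
    have : d = v := by grind
    subst this
    exact T.asym _ _ l0.2.2.2 h.Cy.2.1

theorem free1 (hP : φ.Pos) (h : Inc φ b a v x y b' a' s s' x' y') (hg : T'.R s' a') : T.U v b a x := by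
  intro p q hC
  have nC := hC.nes
  have ny := h.Cy.nes
  have nx := h.Cx.nes
  have xb := h.xb hP
  by_cases hpa : p = a
  · subst hpa
    exact ⟨rfl, h.xuniq hP hg hC.2.2.1 hC.2.2.2⟩
  exfalso
  have ap : T.R a p := T.of_not hpa fun hh => h.no1 hP hC.2.1 hh
  have hqa : q ≠ a := by
    rintro rfl
    exact T.asym _ _ ap hC.2.2.1
  have qb : T.R q b := by
    apply T.of_not nC.2.2.2.2.1
    intro bq
    rcases T.tot q a hqa with m | m
    · exact h.no1 hP bq m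
    · have := h.xuniq hP hg m hC.2.2.2
      subst this
      exact T.asym _ _ xb bq
  obtain ⟨p', q', k0, k1, k2, k3⟩ := hP.img' (a := b) (b := a) (c := p) (d := q) ⟨h.Cy.1, ap, hC.2.2.1, qb⟩ h.fba
  obtain ⟨p'', q'', l0, l1, l2, l3⟩ := hP.img' hC h.fvb
  rw [k2] at l2
  have e1 : p'' = p' := by grind
  have e2 : q'' = q' := by grind
  subst e1 e2
  obtain ⟨g1, r1⟩ := φ.gof ap k1
  obtain ⟨g2, r2⟩ := φ.gof hC.2.2.1 k2
  obtain ⟨g3, r3⟩ := φ.gof hC.2.2.2 l3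
  obtain ⟨c, d, o0, o1, o2, o3⟩ := hP.symm.img' (a := a') (b := p'') (c := q'') (d := s') ⟨r1, r2, r3, hg⟩
    (by simp only [Phi.symm_f]; exact g1)
  simp only [Phi.symm_f] at o1 o2 o3
  rw [g3] at o2
  have : d = v := by grind
  subst this
  exact T.asym _ _ o0.2.2.2 h.Cy.2.1

theorem free2 (hP : φ.Pos) (h : Inc φ b a v x y b' a' s s' x' y') (hg : T'.R s' a') : T.U x v b a := by
  intro p q hC
  have nC := hC.nes
  have ny := h.Cy.nes
  have nx := h.Cx.nes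
  have xb := h.xb hP
  by_cases hpb : p = b
  · subst hpb
    obtain ⟨h1, h2⟩ := h.free1 hP hg _ _ hC.rot
    exact ⟨rfl, h1⟩
  exfalso
  -- the label of `v → p` is `s'`
  obtain ⟨p', q', l0, l1, l2, l3⟩ := hP.img' hC h.fxv
  have lab : ∀ z, T.R p z → T.R z a → False := by
    intro z h1 h2
    obtain ⟨r, t, k0, k1, k2, k3⟩ := hP.img' (a := a) (b := v) (c := p) (d := z) ⟨h.Cy.2.1, hC.2.1, h1, h2⟩ h.fav
    rw [l1] at k1
    have := h.hs
    grind
  have bp : T.R b p := by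
    apply T.of_not hpb
    intro hh
    exact lab b hh h.Cy.1
  have hpa : p ≠ a := by
    rintro rfl
    exact T.asym _ _ hC.2.1 h.Cy.2.1
  have ap : T.R a p := T.of_not hpa fun hh => h.no1 hP bp hh
  have hqa : q ≠ a := by
    rintro rfl
    exact T.asym _ _ ap hC.2.2.1
  have vq : T.R v q := by
    apply T.of_not nC.2.2.2.2.1.symm
    intro hh
    have := (h.free1 hP hg p q ⟨h.Cx.2.2.2, bp, hC.2.2.1, hh⟩).1
    exact hpa this
  have aq : T.R a q := by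
    apply T.of_not hqa
    intro qa
    by_cases hqb : q = b
    · subst hqb
      exact T.asym _ _ bp hC.2.2.1
    rcases T.tot b q (Ne.symm hqb) with m | m
    · exact h.no1 hP m qa
    · obtain ⟨r, t, k0, k1, k2, k3⟩ := hP.img' (a := a) (b := v) (c := q) (d := b) ⟨h.Cy.2.1, vq, m, h.Cy.1⟩ h.fav
      obtain ⟨r', t', j0, j1, j2, j3⟩ := hP.img' (a := x) (b := v) (c := q) (d := a) ⟨h.Cx.2.2.1, vq, qa, h.Cx.2.1⟩ h.fxv
      rw [k1] at j1
      have := h.hs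
      grind
  obtain ⟨q2, x2, k0, k1, k2, k3⟩ := hP.img' (a := b) (b := a) (c := q) (d := x) ⟨h.Cy.1, aq, hC.2.2.2, xb⟩ h.fba
  rw [k2] at l3
  have e1 : q2 = q' := by grind
  have e2 : x2 = x' := by grind
  subst e1 e2
  obtain ⟨g1, r1⟩ := φ.gof aq k1
  obtain ⟨g2, r2⟩ := φ.gof hC.2.2.2 k2
  obtain ⟨g3, r3⟩ := φ.gof h.Cx.2.2.1 h.fxv
  obtain ⟨c, d, o0, o1, o2, o3⟩ := hP.symm.img' (a := a') (b := q2) (c := x2) (d := s') ⟨r1, r2, r3, hg⟩
    (by simp only [Phi.symm_f]; exact g1)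
  simp only [Phi.symm_f] at o1 o2 o3
  rw [g3] at o2
  have : d = v := by grind
  subst this
  exact T.asym _ _ o0.2.2.2 h.Cy.2.1

/-- case γ3 -/
theorem gam3 (hP : φ.Pos) (h : Inc φ b a v x y b' a' s s' x' y') (ha : T'.R a' s') (hb : T'.R s b') :
    ∃ m1 m2 t, M3 φ b a v m1 m2 b' a' s t s' := by
  have hss := h.s's hP
  obtain ⟨g1, r1⟩ := φ.gof h.Cy.1 h.fba
  obtain ⟨gav, rav⟩ := φ.gof h.Cy.2.1 h.fav
  obtain ⟨gvb, rvb⟩ := φ.gof h.Cx.2.2.2 h.fvb
  obtain ⟨m1, m2, k0, k1, k2, k3⟩ := hP.symm.img' (a := b') (b := a') (c := s') (d := s) ⟨r1, ha, hss, hb⟩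
    (by simp only [Phi.symm_f]; exact g1)
  simp only [Phi.symm_f] at k1 k2 k3
  have nk := k0.nes
  have nCy := h.Cy.nes
  have fa1 : φ.f (a, m1) = (a', s') := by rw [← k1]; exact φ.fg _ ha
  have f12 : φ.f (m1, m2) = (s', s) := by rw [← k2]; exact φ.fg _ hss
  have f2b : φ.f (m2, b) = (s, b') := by rw [← k3]; exact φ.fg _ hb
  have hs := h.hs
  have n1 : m1 ≠ v := by
    rintro rfl
    rw [h.fav] at fa1
    grind
  have n2 : m2 ≠ v := by
    rintro rfl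
    rw [h.fvb] at f2b
    grind
  have v1 : T.R v m1 := by
    apply T.of_not n1
    intro hh
    obtain ⟨r, t, o0, o1, o2, o3⟩ := hP.img' (a := b) (b := a) (c := m1) (d := v) ⟨h.Cy.1, k0.2.1, hh, h.Cx.2.2.2⟩ h.fba
    rw [fa1] at o1
    rw [h.fvb] at o3
    have := o0.nes
    grind
  have v2 : T.R m2 v := by
    apply T.of_not n2.symm
    intro hh
    obtain ⟨r, t, o0, o1, o2, o3⟩ := hP.img' (a := b) (b := a) (c := v) (d := m2) ⟨h.Cy.1, h.Cy.2.1, hh, k0.2.2.2⟩ h.fba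
    rw [h.fav] at o1
    rw [f2b] at o3
    have := o0.nes
    grind
  have a2 : T.R a m2 := by
    apply T.of_not nk.2.2.2.2.1.symm
    intro hh
    obtain ⟨r, t, o0, o1, o2, o3⟩ := hP.img' (a := a) (b := v) (c := m1) (d := m2) ⟨h.Cy.2.1, v1, k0.2.2.1, hh⟩ h.fav
    rw [f12] at o2
    have := o0.nes
    grind
  have b1 : T.R m1 b := by
    apply T.of_not nk.2.1
    intro hh
    obtain ⟨r, t, o0, o1, o2, o3⟩ := hP.img' (a := v) (b := b) (c := m1) (d := m2) ⟨h.Cx.2.2.2, hh, k0.2.2.1, v2⟩ h.fvb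
    rw [f12] at o2
    have := o0.nes
    grind
  obtain ⟨t1, w1, o0, o1, o2, o3⟩ := hP.img' (a := b) (b := a) (c := m2) (d := v) ⟨h.Cy.1, a2, v2, h.Cx.2.2.2⟩ h.fba
  obtain ⟨w2, t2, p0, p1, p2, p3⟩ := hP.img' (a := b) (b := a) (c := v) (d := m1) ⟨h.Cy.1, h.Cy.2.1, v1, b1⟩ h.fba
  have e1 : w1 = s' := by rw [h.fvb] at o3; grind
  have e2 : w2 = s := by rw [h.fav] at p1; grind
  subst e1 e2
  obtain ⟨ga2, ra2⟩ := φ.gof a2 o1
  obtain ⟨g2v, r2v⟩ := φ.gof v2 o2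
  obtain ⟨gv1, rv1⟩ := φ.gof v1 p2
  obtain ⟨g1b, r1b⟩ := φ.gof b1 p3
  obtain ⟨ga1, ra1⟩ := φ.gof k0.2.1 fa1
  have no := o0.nes
  have np := p0.nes
  have t12 : t1 = t2 := by
    by_contra hne
    have t2s : t2 ≠ w1 := by
      rintro rfl
      exact T'.asym _ _ hss p0.2.2.1
    have t2s' : T'.R t2 w1 := by
      apply T'.of_not t2s.symm
      intro hh
      obtain ⟨c, d, q0, q1, q2, q3⟩ := hP.symm.img' (a := b') (b := a') (c := w1) (d := t2) ⟨r1, ha, hh, r1b⟩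
        (by simp only [Phi.symm_f]; exact g1)
      simp only [Phi.symm_f] at q1 q2 q3
      rw [k1] at q1
      rw [g1b] at q3
      have := q0.nes
      grind
    have t1s : t1 ≠ w2 := by
      rintro rfl
      exact T'.asym _ _ hss o0.2.2.1
    have st1 : T'.R w2 t1 := by
      apply T'.of_not t1s
      intro hh
      obtain ⟨c, d, q0, q1, q2, q3⟩ := hP.symm.img' (a := b') (b := a') (c := t1) (d := w2) ⟨r1, ra2, hh, hb⟩
        (by simp only [Phi.symm_f]; exact g1)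
      simp only [Phi.symm_f] at q1 q2 q3
      rw [ga2] at q1
      rw [k3] at q3
      have := q0.nes
      grind
    have t21 : T'.R t2 t1 := by
      apply T'.of_not hne
      intro hh
      obtain ⟨c, d, q0, q1, q2, q3⟩ := hP.symm.img' (a := b') (b := a') (c := t1) (d := t2) ⟨r1, ra2, hh, r1b⟩
        (by simp only [Phi.symm_f]; exact g1)
      simp only [Phi.symm_f] at q1 q2 q3
      rw [ga2] at q1
      rw [g1b] at q3
      have e3 : c = m2 := by grind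
      have e4 : d = m1 := by grind
      subst e3 e4
      exact T.asym _ _ q0.2.2.1 k0.2.2.1
    have t1b : T'.R t1 b' := by
      apply T'.of_not no.2.1
      intro hh
      obtain ⟨c, d, q0, q1, q2, q3⟩ := hP.symm.img' (a := t1) (b := w1) (c := w2) (d := b') ⟨r2v, hss, hb, hh⟩
        (by simp only [Phi.symm_f]; exact g2v)
      simp only [Phi.symm_f] at q1 q2 q3
      rw [k2] at q1
      grind
    obtain ⟨c, z, q0, q1, q2, q3⟩ := hP.symm.img' (a := b') (b := a') (c := w2) (d := t1) ⟨r1, rav, st1, t1b⟩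
      (by simp only [Phi.symm_f]; exact g1)
    simp only [Phi.symm_f] at q1 q2 q3
    rw [gav] at q1
    have e3 : c = v := by grind
    subst e3
    have nq := q0.nes
    have fcz : φ.f (c, z) = (w2, t1) := by rw [← q2]; exact φ.fg _ st1
    have fzb : φ.f (z, b) = (t1, b') := by rw [← q3]; exact φ.fg _ t1b
    have nz : z ≠ m1 := by
      rintro rfl
      rw [p3] at fzb
      grind
    have nz2 : z ≠ m2 := by
      rintro rfl
      rw [f2b] at fzb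
      grind
    have z1 : T.R z m1 := by
      apply T.of_not nz.symm
      intro hh
      obtain ⟨r, t, u0, u1, u2, u3⟩ := hP.img' (a := b) (b := a) (c := m1) (d := z) ⟨h.Cy.1, k0.2.1, hh, q0.2.2.2⟩ h.fba
      rw [fa1] at u1
      rw [fzb] at u3
      have : T'.R w1 t1 := by
        have := u0.2.2.1
        grind
      exact T'.asym _ _ this r2v
    obtain ⟨r, t, u0, u1, u2, u3⟩ := hP.img' (a := c) (b := z) (c := m1) (d := m2) ⟨q0.2.2.1, z1, k0.2.2.1, v2⟩ fcz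
    rw [f12] at u2
    have := u0.nes
    grind
  subst t12
  exact ⟨m1, m2, t1, ⟨h.Cy.1, h.Cy.2.1, k0.2.1, a2, h.Cx.2.2.2, b1, k0.2.2.2, v1, k0.2.2.1, v2, h.fba, h.fav, fa1, o1,
    h.fvb, p3, f2b, p2, f12, o2⟩⟩

/-- **Classification of inconsistent pairs** -/
theorem cls (hP : φ.Pos) (hM : ∀ b a m0 m1 m2 b' a' n0 n1 n2, ¬ M3 φ b a m0 m1 m2 b' a' n0 n1 n2)
    (h : Inc φ b a v x y b' a' s s' x' y') :
    (T'.R s' a' ∧ T.U v b a x ∧ T.U x v b a) ∨ (T'.R b' s ∧ T.U v y b a ∧ T.U a v y b) := by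
  obtain ⟨g1, r1⟩ := φ.gof h.Cy.1 h.fba
  obtain ⟨g2, r2⟩ := φ.gof h.Cy.2.1 h.fav
  obtain ⟨g3, r3⟩ := φ.gof h.Cx.2.2.2 h.fvb
  have n1 : s' ≠ a' := by
    rintro rfl
    exact T'.asym _ _ r1 r3
  have n2 : s ≠ b' := by
    rintro rfl
    exact T'.asym _ _ r1 r2
  rcases T'.tot s' a' n1 with m | m
  · exact Or.inl ⟨m, h.free1 hP m, h.free2 hP m⟩
  rcases T'.tot s b' n2 with m2 | m2
  · obtain ⟨m1, m2, t, hh⟩ := h.gam3 hP m m2
    exact (hM _ _ _ _ _ _ _ _ _ _ hh).elim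
  · right
    have f1 := h.cv.free1 hP.conv m2
    have f2 := h.cv.free2 hP.conv m2
    refine ⟨m2, ?_, ?_⟩
    · intro p q hC
      have := f2 q p ((Tour.conv_C4 _ _ _ _ _).2 hC.rot.rot)
      exact ⟨this.2, this.1⟩
    · intro p q hC
      have := f1 q p ((Tour.conv_C4 _ _ _ _ _).2 hC.rot.rot)
      exact ⟨this.2, this.1⟩

end Inc

end Pool.Agent.Helper98.FC
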