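import Pool.Agent.Helper98.FC.Rho

/-!
# Labels: all non-free circuits at a vertex have the same label; ownership
-/

namespace Pool.Agent.Helper98.FC

universe u v

variable {V : Type u} {W : Type v} {T : Tour V} {T' : Tour W}

/-- the circuit `v p c d` is free at `v` -/
def Fr (T : Tour V) (v p c d : V) : Prop := T.U v p c d ∧ T.U d v p c

theorem fr_conv {v p c d : V} : Fr T.conv v d c p ↔ Fr T v p c d := by
  unfold Fr Tour.U
  simp only [Tour.conv_C4]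
  constructor
  · rintro ⟨h1, h2⟩
    refine ⟨fun x y hx => ?_, fun x y hx => ?_⟩
    · have := h2 y x hx.rot.rot
      exact ⟨this.2, this.1⟩
    · have := h1 y x hx.rot.rot
      exact ⟨this.2, this.1⟩
  · rintro ⟨h1, h2⟩
    refine ⟨fun x y hx => ?_, fun x y hx => ?_⟩
    · have := h2 y x hx.rot.rot
      exact ⟨this.2, this.1⟩
    · have := h1 y x hx.rot.rot
      exact ⟨this.2, this.1⟩

theorem not_big_of_U {a b c d : V} (h : T.U a b c d) : ¬ T.Big a b := by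
  rintro ⟨p, q, p', q', h1, h2, h3⟩
  obtain ⟨rfl, rfl⟩ := h _ _ h1
  obtain ⟨rfl, rfl⟩ := h _ _ h2
  exact h3 ⟨rfl, rfl⟩

theorem U_of_not_big {a b c d : V} (hC : T.C4 a b c d) (h : ¬ T.Big a b) : T.U a b c d := by
  intro p q hp
  by_contra hn
  exact h ⟨p, q, c, d, hp, hC, hn⟩

theorem fr_iff {v p c d : V} (hC : T.C4 v p c d) : Fr T v p c d ↔ ¬ T.Big v p ∧ ¬ T.Big d v :=
  ⟨fun h => ⟨not_big_of_U h.1, not_big_of_U h.2⟩, fun h => ⟨U_of_not_big hC h.1, U_of_not_big hC.rot.rot.rot h.2⟩⟩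

theorem not_ghost_iff {v : V} : ¬ T.Ghost v ↔ ∃ p c d, T.C4 v p c d ∧ ¬ Fr T v p c d := by
  unfold Tour.Ghost
  push Not
  constructor
  · rintro ⟨p, c, d, hC, h⟩
    refine ⟨p, c, d, hC, ?_⟩
    rw [fr_iff hC]
    tauto
  · rintro ⟨p, c, d, hC, h⟩
    refine ⟨p, c, d, hC, ?_⟩
    rw [fr_iff hC] at h
    tauto

theorem M3.cv {φ : Phi T T'} {b a m0 m1 m2 : V} {b' a' n0 n1 n2 : W} (h : M3 φ b a m0 m1 m2 b' a' n0 n1 n2) :
    M3 φ.conv a b m0 m2 m1 a' b' n2 n1 n0 := by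
  refine ⟨h.hba, h.b0, h.b2, h.b1, h.a0, h.a2, h.a1, h.m20, h.m12, h.m01, ?_, ?_, ?_, ?_, ?_, ?_, ?_, ?_, ?_, ?_⟩
  all_goals simp [h.fba, h.fa0, h.fa1, h.fa2, h.f0b, h.f1b, h.f2b, h.f01, h.f12, h.f20]

theorem NoM3.conv {φ : Phi T T'} (h : NoM3 φ) : NoM3 φ.conv := by
  intro b a m0 m1 m2 b' a' n0 n1 n2 hh
  exact h _ _ _ _ _ _ _ _ _ _ hh.cv

section

variable {φ : Phi T T'}

theorem mkInc (hP : φ.Pos) {v y b a x : V} (h1 : T.C4 v y b a) (h2 : T.C4 v b a x)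
    (hne : (φ.f (v, y)).1 ≠ (φ.f (v, b)).1) : ∃ b' a' x' y', Inc φ b a v x y b' a' (φ.f (v, y)).1 (φ.f (v, b)).1 x' y' := by
  obtain ⟨s, y', b', a', k0, k1, k2, k3, k4⟩ := hP.img h1
  obtain ⟨s', b'', a'', x', l0, l1, l2, l3, l4⟩ := hP.img h2
  rw [k3] at l2
  have e1 : b'' = b' := by grind
  have e2 : a'' = a' := by grind
  subst e1 e2
  refine ⟨b'', a'', x', y', h1.rot.rot, h2.rot, k3, ?_, ?_, k2, l3, ?_, ?_, hne⟩
  · rw [k4, k1]
  · rw [k1]
  · rw [l4, l1]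
  · rw [l1]

theorem cls' (hP : φ.Pos) (hM : NoM3 φ) {v y b a x : V} (h1 : T.C4 v y b a) (h2 : T.C4 v b a x)
    (hne : (φ.f (v, y)).1 ≠ (φ.f (v, b)).1) : Fr T v b a x ∨ Fr T v y b a := by
  obtain ⟨b', a', x', y', h⟩ := mkInc hP h1 h2 hne
  rcases h.cls hP hM with ⟨-, k1, k2⟩ | ⟨-, k1, k2⟩
  · exact Or.inl ⟨k1, k2⟩
  · exact Or.inr ⟨k1, k2⟩

theorem lab_eq (hP : φ.Pos) {v p c d p' c' : V} (h : T.C4 v p c d) (h' : T.C4 v p' c' d) :
    (φ.f (v, p)).1 = (φ.f (v, p')).1 := by rw [← hP.lab h, hP.lab h']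

/-- `O`-type, `O`-type, `a1 → a2` -/
theorem OO1 (hP : φ.Pos) (hM : NoM3 φ) {v y1 b1 a1 y2 b2 a2 : V} (h1 : T.C4 v y1 b1 a1) (h2 : T.C4 v y2 b2 a2)
    (o1 : T.R v b1) (o2 : T.R v b2) (n1 : ¬ Fr T v y1 b1 a1) (ha : T.R a1 a2) : (φ.f (v, y1)).1 = (φ.f (v, y2)).1 := by
  have hD : T.C4 v b1 a1 a2 := ⟨o1, h1.2.2.1, ha, h2.2.2.2⟩
  have e : (φ.f (v, y1)).1 = (φ.f (v, b1)).1 := by
    by_contra hne
    rcases cls' hP hM h1 hD hne with k | k
    · have := (k.2 _ _ h2.rot.rot.rot).2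
      subst this
      exact T.asym _ _ o2 h1.2.2.2
    · exact n1 k
  rw [e]
  exact lab_eq hP hD h2

theorem OO (hP : φ.Pos) (hM : NoM3 φ) {v y1 b1 a1 y2 b2 a2 : V} (h1 : T.C4 v y1 b1 a1) (h2 : T.C4 v y2 b2 a2)
    (o1 : T.R v b1) (o2 : T.R v b2) (n1 : ¬ Fr T v y1 b1 a1) (n2 : ¬ Fr T v y2 b2 a2) :
    (φ.f (v, y1)).1 = (φ.f (v, y2)).1 := by
  by_cases ha : a1 = a2
  · subst ha
    exact lab_eq hP h1 h2
  · rcases T.tot a1 a2 ha with k | k
    · exact OO1 hP hM h1 h2 o1 o2 n1 k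
    · exact (OO1 hP hM h2 h1 o2 o1 n2 k).symm

theorem OI (hP : φ.Pos) (hM : NoM3 φ) {v y1 b1 a1 b2 a2 x2 : V} (h1 : T.C4 v y1 b1 a1) (h2 : T.C4 v b2 a2 x2)
    (o1 : T.R v b1) (i2 : T.R a2 v) (n1 : ¬ Fr T v y1 b1 a1) (n2 : ¬ Fr T v b2 a2 x2) :
    (φ.f (v, y1)).1 = (φ.f (v, b2)).1 := by
  by_cases hb : b1 = b2
  · subst hb
    by_cases ha : a1 = a2
    · subst ha
      by_contra hne
      rcases cls' hP hM h1 h2 hne with k | k
      · exact n2 k
      · exact n1 k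
    · rcases T.tot a1 a2 ha with k | k
      · have hD : T.C4 v y1 b1 a2 := ⟨h1.1, h1.2.1, h2.2.1, i2⟩
        have hE : T.C4 v b1 a1 a2 := ⟨h2.1, h1.2.2.1, k, i2⟩
        exact lab_eq hP hD hE
      · have hE : T.C4 v b1 a2 a1 := ⟨h2.1, h2.2.1, k, h1.2.2.2⟩
        exact lab_eq hP h1 hE
  · rcases T.tot b1 b2 hb with kb | kb
    · by_cases ha : a1 = a2
      · subst ha
        have hD : T.C4 v b1 b2 a1 := ⟨o1, kb, h2.2.1, i2⟩
        have hE : T.C4 v b1 a1 x2 := ⟨o1, h1.2.2.1, h2.2.2.1, h2.2.2.2⟩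
        rw [lab_eq hP h1 hD, lab_eq hP hE h2]
      · rcases T.tot a1 a2 ha with k | k
        · have hD : T.C4 v b1 b2 a2 := ⟨o1, kb, h2.2.1, i2⟩
          have hE : T.C4 v b1 a1 a2 := ⟨o1, h1.2.2.1, k, i2⟩
          have n : a1 ≠ b2 := by
            rintro rfl
            exact T.asym _ _ h2.1 h1.2.2.2
          have e1 : (φ.f (v, y1)).1 = (φ.f (v, b1)).1 := by
            by_contra hne
            rcases cls' hP hM h1 hE hne with k | k
            · have := (k.1 _ _ hD).1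
              exact n this.symm
            · exact n1 k
          have e2 : (φ.f (v, b1)).1 = (φ.f (v, b2)).1 := by
            by_contra hne
            rcases cls' hP hM hD h2 hne with k | k
            · exact n2 k
            · have := (k.1 _ _ hE).1
              exact n this
          rw [e1, e2]
        · have hE : T.C4 v b2 a2 a1 := ⟨h2.1, h2.2.1, k, h1.2.2.2⟩
          exact lab_eq hP h1 hE
    · have hE : T.C4 v b2 b1 a1 := ⟨h2.1, kb, h1.2.2.1, h1.2.2.2⟩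
      exact lab_eq hP h1 hE

theorem II' (hP : φ.Pos) (hM : NoM3 φ) {v b1 a1 x1 b2 a2 x2 : V} (h1 : T.C4 v b1 a1 x1) (h2 : T.C4 v b2 a2 x2)
    (i1 : T.R a1 v) (i2 : T.R a2 v) (n1 : ¬ Fr T v b1 a1 x1) (n2 : ¬ Fr T v b2 a2 x2) :
    (φ.f (v, b1)).1 = (φ.f (v, b2)).1 := by
  have k1 : T.conv.C4 v x1 a1 b1 := (Tour.conv_C4 _ _ _ _ _).2 h1.rot
  have k2 : T.conv.C4 v x2 a2 b2 := (Tour.conv_C4 _ _ _ _ _).2 h2.rot
  have := OO hP.conv hM.conv k1 k2 i1 i2 (fun h => n1 (fr_conv.1 h)) (fun h => n2 (fr_conv.1 h))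
  simp only [Phi.conv_f, Prod.swap_prod_mk, Prod.fst_swap] at this
  rw [← hP.lab h1, ← hP.lab h2]
  exact this

/-- **F1**: non-free circuits at `v` have the same label. -/
theorem F1 (hP : φ.Pos) (hM : NoM3 φ) {v p c d p' c' d' : V} (h1 : T.C4 v p c d) (h2 : T.C4 v p' c' d')
    (n1 : ¬ Fr T v p c d) (n2 : ¬ Fr T v p' c' d') : (φ.f (v, p)).1 = (φ.f (v, p')).1 := by
  rcases T.tot v c h1.ne13 with k1 | k1 <;> rcases T.tot v c' h2.ne13 with k2 | k2
  · exact OO hP hM h1 h2 k1 k2 n1 n2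
  · exact OI hP hM h1 h2 k1 k2 n1 n2
  · exact (OI hP hM h2 h1 k2 k1 n2 n1).symm
  · exact II' hP hM h1 h2 k1 k2 n1 n2

open Classical in
/-- the label of a non-ghost -/
noncomputable def fS (φ : Phi T T') (v : V) : W :=
  if h : ∃ t : V × V × V, T.C4 v t.1 t.2.1 t.2.2 ∧ ¬ Fr T v t.1 t.2.1 t.2.2 then (φ.f (v, h.choose.1)).1 else (φ.f (v, v)).1

theorem fS_eq (hP : φ.Pos) (hM : NoM3 φ) {v p c d : V} (h1 : T.C4 v p c d) (n1 : ¬ Fr T v p c d) :
    (φ.f (v, p)).1 = fS φ v := by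
  have h : ∃ t : V × V × V, T.C4 v t.1 t.2.1 t.2.2 ∧ ¬ Fr T v t.1 t.2.1 t.2.2 := ⟨(p, c, d), h1, n1⟩
  unfold fS
  rw [dif_pos h]
  exact F1 hP hM h1 h.choose_spec.1 n1 h.choose_spec.2

theorem fS_conv (hP : φ.Pos) (hM : NoM3 φ) {v : V} (hv : ¬ T.Ghost v) : fS φ.conv v = fS φ v := by
  obtain ⟨p, c, d, h1, h2⟩ := not_ghost_iff.1 hv
  have k1 : T.conv.C4 v d c p := (Tour.conv_C4 _ _ _ _ _).2 h1.rot
  rw [← fS_eq hP hM h1 h2, ← fS_eq hP.conv hM.conv k1 fun h => h2 (fr_conv.1 h), ← hP.lab h1]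
  rfl

/-- images of free circuits are free -/
theorem fr_img (hP : φ.Pos) {v p c d : V} {v' p' c' d' : W} (h1 : T.C4 v p c d)
    (k0 : T'.C4 v' p' c' d') (k1 : φ.f (v, p) = (v', p')) (k4 : φ.f (d, v) = (d', v')) :
    Fr T v p c d ↔ Fr T' v' p' c' d' := by
  rw [fr_iff h1, fr_iff k0]
  have a1 : T.Big v p ↔ T'.Big v' p' := by
    constructor
    · intro h
      have := φ.big_img hP h
      rwa [k1] at this
    · intro h
      have := φ.symm.big_img hP.symm h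
      simp only [Phi.symm_f] at this
      rwa [(φ.gof h1.1 k1).1] at this
  have a2 : T.Big d v ↔ T'.Big d' v' := by
    constructor
    · intro h
      have := φ.big_img hP h
      rwa [k4] at this
    · intro h
      have := φ.symm.big_img hP.symm h
      simp only [Phi.symm_f] at this
      rwa [(φ.gof h1.2.2.2 k4).1] at this
  rw [a1, a2]

theorem fS_ng (hP : φ.Pos) (hM : NoM3 φ) {v : V} (hv : ¬ T.Ghost v) :
    ¬ T'.Ghost (fS φ v) ∧ fS φ.symm (fS φ v) = v := by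
  obtain ⟨p, c, d, h1, h2⟩ := not_ghost_iff.1 hv
  obtain ⟨v', p', c', d', k0, k1, k2, k3, k4⟩ := hP.img h1
  have e := fS_eq hP hM h1 h2
  rw [k1] at e
  simp only at e
  subst e
  have h3 : ¬ Fr T' (fS φ v) p' c' d' := fun h => h2 ((fr_img hP h1 k0 k1 k4).2 h)
  refine ⟨not_ghost_iff.2 ⟨p', c', d', k0, h3⟩, ?_⟩
  have := fS_eq hP.symm hM.symm k0 h3
  rw [← this, Phi.symm_f, (φ.gof h1.1 k1).1]

/-- ownership, `O`-type -/
theorem ownO (hP : φ.Pos) (hM : NoM3 φ) {v y b a : V} (hC : T.C4 v y b a) (hv : ¬ T.Ghost v) (hF : Fr T v y b a)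
    (hvb : T.R v b) {a' s y' : W} (e1 : φ.f (a, v) = (a', s)) (e2 : φ.f (v, y) = (s, y')) (hne : s ≠ fS φ v) :
    T'.R a' (fS φ v) ∧ T'.R (fS φ v) y' := by
  have nC := hC.nes
  have key : ∃ x, T.C4 v b a x ∧ (φ.f (v, b)).1 = fS φ v ∧ ¬ Fr T v b a x := by
    obtain ⟨p, c, d, h1, h2⟩ := not_ghost_iff.1 hv
    have e := fS_eq hP hM h1 h2
    have n1 := h1.nes
    have hl : (φ.f (v, y)).1 ≠ fS φ v := by rw [e2]; exact hne
    rcases T.tot v c h1.ne13 with k | k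
    · -- O-type (v,p,c,d), y2 = p, b2 = c, a2 = d
      have had : a ≠ d := by
        rintro rfl
        exact hl ((lab_eq hP hC h1).trans e)
      rcases T.tot a d had with m | m
      · have hD : T.C4 v b a d := ⟨hvb, hC.2.2.1, m, h1.2.2.2⟩
        refine ⟨d, hD, (lab_eq hP hD h1).trans e, fun hf => ?_⟩
        have := (hf.2 _ _ h1.rot.rot.rot).2
        subst this
        exact T.asym _ _ k hC.2.2.2
      · have hD : T.C4 v c d a := ⟨k, h1.2.2.1, m, hC.2.2.2⟩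
        have := (hF.2 _ _ hD.rot.rot.rot).2
        subst this
        exact (T.asym _ _ hvb h1.2.2.2).elim
    · -- I-type, b2 = p, a2 = c, x2 = d
      by_cases hb : p = b
      · subst hb
        by_cases ha : c = a
        · subst ha
          exact ⟨d, h1, e, h2⟩
        · rcases T.tot a c (Ne.symm ha) with m | m
          · have hD : T.C4 v y p c := ⟨hC.1, hC.2.1, h1.2.1, k⟩
            exact (ha (hF.1 _ _ hD).2).elim
          · have hD : T.C4 v p c a := ⟨h1.1, h1.2.1, m, hC.2.2.2⟩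
            exact (nC.2.2.2.1 (hF.2 _ _ hD.rot.rot.rot).1.symm).elim
      · rcases T.tot p b hb with kb | kb
        · have hD : T.C4 v p b a := ⟨h1.1, kb, hC.2.2.1, hC.2.2.2⟩
          have := (hF.2 _ _ hD.rot.rot.rot).1
          subst this
          exact (hl e).elim
        · by_cases ha : c = a
          · subst ha
            have hD : T.C4 v b p c := ⟨hvb, kb, h1.2.1, k⟩
            exact (nC.2.2.2.1 (hF.2 _ _ hD.rot.rot.rot).1.symm).elim
          · rcases T.tot a c (Ne.symm ha) with m | m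
            · have hD : T.C4 v b a c := ⟨hvb, hC.2.2.1, m, k⟩
              have hE : T.C4 v b p c := ⟨hvb, kb, h1.2.1, k⟩
              have n : p ≠ a := by
                rintro rfl
                exact T.asym _ _ h1.1 hC.2.2.2
              refine ⟨c, hD, ?_, fun hf => n (hf.1 _ _ hE).1⟩
              rw [← e]
              by_contra hne
              rcases cls' hP hM hE h1 hne with q | q
              · exact h2 q
              · exact n (q.1 _ _ hD).1.symm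
            · have hD : T.C4 v p c a := ⟨h1.1, h1.2.1, m, hC.2.2.2⟩
              have := (hF.2 _ _ hD.rot.rot.rot).2
              subst this
              exact (T.asym _ _ hvb k).elim
  obtain ⟨x, hD, hl, hnf⟩ := key
  have hne' : (φ.f (v, y)).1 ≠ (φ.f (v, b)).1 := by rw [hl, e2]; exact hne
  obtain ⟨b', a'', x', y'', h⟩ := mkInc hP hC hD hne'
  rw [hl, e2] at h
  simp only at h
  have ha := h.fav
  rw [e1] at ha
  have hy := h.fvy
  rw [e2] at hy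
  simp only [Prod.mk.injEq] at ha hy
  obtain ⟨rfl, -⟩ := ha
  obtain ⟨-, rfl⟩ := hy
  obtain ⟨g1, r1⟩ := φ.gof h.Cy.1 h.fba
  obtain ⟨g3, r3⟩ := φ.gof h.Cx.2.2.2 h.fvb
  obtain ⟨g4, r4⟩ := φ.gof h.Cy.2.2.1 h.fvy
  obtain ⟨g5, r5⟩ := φ.gof h.Cy.2.2.2 h.fyb
  have n1 : fS φ v ≠ a' := by
    intro hh
    rw [← hh] at r1
    exact T'.asym _ _ r1 r3
  have hg : ¬ T'.R (fS φ v) a' := fun hh => hnf ⟨h.free1 hP hh, h.free2 hP hh⟩
  have hb : T'.R b' s := by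
    rcases h.cls hP hM with ⟨k, -⟩ | ⟨k, -⟩
    · exact (hg k).elim
    · exact k
  refine ⟨T'.of_not n1 hg, ?_⟩
  have n2 : fS φ v ≠ y' := by
    intro hh
    rw [← hh, g3] at g5
    grind
  apply T'.of_not n2.symm
  intro hh
  obtain ⟨c, d, k0, k1, k2, k3⟩ := hP.symm.img' (a := s) (b := y') (c := fS φ v) (d := b') ⟨r4, hh, r3, hb⟩
    (by simp only [Phi.symm_f]; exact g4)
  simp only [Phi.symm_f] at k1 k2 k3
  rw [g3] at k2
  have := k0.nes
  grind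

/-- **ownership** -/
theorem own (hP : φ.Pos) (hM : NoM3 φ) {v y b a : V} (hC : T.C4 v y b a) (hv : ¬ T.Ghost v) (hF : Fr T v y b a)
    {a' s y' : W} (e1 : φ.f (a, v) = (a', s)) (e2 : φ.f (v, y) = (s, y')) (hne : s ≠ fS φ v) :
    T'.R a' (fS φ v) ∧ T'.R (fS φ v) y' := by
  rcases T.tot v b hC.ne13 with k | k
  · exact ownO hP hM hC hv hF k e1 e2 hne
  · have hv' : ¬ T.conv.Ghost v := fun h => hv (Tour.ghost_conv.1 h)
    have hD : T.conv.C4 v a b y := (Tour.conv_C4 _ _ _ _ _).2 hC.rot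
    have := ownO hP.conv hM.conv hD hv' (fr_conv.2 hF) k (a' := y') (s := s) (y' := a') (by simp [e2]) (by simp [e1])
      (by rw [fS_conv hP hM hv]; exact hne)
    rw [fS_conv hP hM hv] at this
    exact ⟨this.2, this.1⟩

end

end Pool.Agent.Helper98.FC
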