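import Pool.Agent.Helper98.FC.Base

/-!
# Four-circuits of tournaments: the maps (MP_ebd9af_co)
-/

namespace Pool.Agent.Helper98.FC

universe u v

variable {V : Type u} {W : Type v} {T : Tour V} {T' : Tour W}

namespace Tour

@[simp] theorem conv_R (T : Tour V) (a b : V) : T.conv.R a b ↔ T.R b a := Iff.rfl

theorem conv_C4 (T : Tour V) (a b c d : V) : T.conv.C4 a b c d ↔ T.C4 d c b a := by
  unfold C4 conv
  tauto

theorem conv_conv (T : Tour V) : T.conv.conv = T := rfl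

theorem conv_strong {T : Tour V} (h : T.Strong) : T.conv.Strong := by
  intro a b
  have := h b a
  induction this with
  | refl => exact Relation.ReflTransGen.refl
  | tail _ h2 ih => exact Relation.ReflTransGen.head h2 ih

theorem mem_arcs4_swap {a b c d : V} {p : V × V} : p.swap ∈ arcs4 d c b a ↔ p ∈ arcs4 a b c d := by
  obtain ⟨x, y⟩ := p
  simp only [arcs4, Set.mem_insert_iff, Set.mem_singleton_iff, Prod.swap_prod_mk, Prod.mk.injEq]
  tauto

theorem conv_Co {T : Tour V} {p q : V × V} : T.conv.Co p q ↔ T.Co p.swap q.swap := by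
  constructor
  · rintro ⟨a, b, c, d, h1, h2, h3⟩
    exact ⟨d, c, b, a, (conv_C4 _ _ _ _ _).1 h1, mem_arcs4_swap.2 h2, mem_arcs4_swap.2 h3⟩
  · rintro ⟨a, b, c, d, h1, h2, h3⟩
    refine ⟨d, c, b, a, (conv_C4 _ _ _ _ _).2 h1, ?_, ?_⟩
    · rw [← mem_arcs4_swap]; exact h2
    · rw [← mem_arcs4_swap]; exact h3

end Tour

namespace Phi

/-- the inverse -/
def symm (φ : Phi T T') : Phi T' T where
  f := φ.g
  g := φ.f
  fa := φ.ga
  ga := φ.fa
  gf := φ.fg
  fg := φ.gf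
  fC := φ.gC
  gC := φ.fC

theorem image_swap_arcs4 {a b c d : V} : Prod.swap '' arcs4 a b c d = arcs4 d c b a := by
  ext p
  constructor
  · rintro ⟨q, hq, rfl⟩
    exact Tour.mem_arcs4_swap.2 hq
  · intro hp
    exact ⟨p.swap, by rw [← Tour.mem_arcs4_swap]; simpa using hp, by simp⟩

/-- converse on both sides -/
def conv (φ : Phi T T') : Phi T.conv T'.conv where
  f p := (φ.f p.swap).swap
  g q := (φ.g q.swap).swap
  fa p h := φ.fa p.swap h
  ga q h := φ.ga q.swap h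
  gf p h := by
    have := φ.gf p.swap h
    simp [this]
  fg q h := by
    have := φ.fg q.swap h
    simp [this]
  fC a b c d h := by
    obtain ⟨w, x, y, z, h1, h2⟩ := φ.fC d c b a ((Tour.conv_C4 _ _ _ _ _).1 h)
    refine ⟨z, y, x, w, (Tour.conv_C4 _ _ _ _ _).2 h1, ?_⟩
    rw [← image_swap_arcs4 (a := w), ← h2, ← image_swap_arcs4 (a := a), Set.image_image, Set.image_image]
  gC a b c d h := by
    obtain ⟨w, x, y, z, h1, h2⟩ := φ.gC d c b a ((Tour.conv_C4 _ _ _ _ _).1 h)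
    refine ⟨z, y, x, w, (Tour.conv_C4 _ _ _ _ _).2 h1, ?_⟩
    rw [← image_swap_arcs4 (a := w), ← h2, ← image_swap_arcs4 (a := a), Set.image_image, Set.image_image]

/-- converse on the right -/
def convR (φ : Phi T T') : Phi T T'.conv where
  f p := (φ.f p).swap
  g q := φ.g q.swap
  fa p h := φ.fa p h
  ga q h := φ.ga q.swap h
  gf p h := by simp [φ.gf p h]
  fg q h := by
    have := φ.fg q.swap h
    simp [this]
  fC a b c d h := by
    obtain ⟨w, x, y, z, h1, h2⟩ := φ.fC a b c d h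
    refine ⟨z, y, x, w, (Tour.conv_C4 _ _ _ _ _).2 h1, ?_⟩
    rw [← image_swap_arcs4 (a := w), ← h2, Set.image_image]
  gC a b c d h := by
    obtain ⟨w, x, y, z, h1, h2⟩ := φ.gC d c b a ((Tour.conv_C4 _ _ _ _ _).1 h)
    refine ⟨w, x, y, z, h1, ?_⟩
    rw [← h2, ← image_swap_arcs4 (a := a), Set.image_image]

@[simp] theorem symm_f (φ : Phi T T') (q : W × W) : φ.symm.f q = φ.g q := rfl
@[simp] theorem symm_g (φ : Phi T T') (p : V × V) : φ.symm.g p = φ.f p := rfl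
@[simp] theorem conv_f (φ : Phi T T') (p : V × V) : φ.conv.f p = (φ.f p.swap).swap := rfl
@[simp] theorem conv_g (φ : Phi T T') (q : W × W) : φ.conv.g q = (φ.g q.swap).swap := rfl
@[simp] theorem convR_f (φ : Phi T T') (p : V × V) : φ.convR.f p = (φ.f p).swap := rfl
@[simp] theorem convR_g (φ : Phi T T') (q : W × W) : φ.convR.g q = φ.g q.swap := rfl

theorem inj (φ : Phi T T') {p q : V × V} (hp : T.R p.1 p.2) (hq : T.R q.1 q.2) (h : φ.f p = φ.f q) : p = q := by
  rw [← φ.gf p hp, ← φ.gf q hq, h]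

/-- arcs in a common circuit have images in a common circuit -/
theorem co (φ : Phi T T') {p q : V × V} (h : T.Co p q) : T'.Co (φ.f p) (φ.f q) := by
  obtain ⟨a, b, c, d, h1, h2, h3⟩ := h
  obtain ⟨w, x, y, z, h4, h5⟩ := φ.fC a b c d h1
  exact ⟨w, x, y, z, h4, h5 ▸ ⟨p, h2, rfl⟩, h5 ▸ ⟨q, h3, rfl⟩⟩

theorem co3 (φ : Phi T T') {p q r : V × V} (h : T.Co3 p q r) : T'.Co3 (φ.f p) (φ.f q) (φ.f r) := by
  obtain ⟨a, b, c, d, h1, h2, h3, h6⟩ := h
  obtain ⟨w, x, y, z, h4, h5⟩ := φ.fC a b c d h1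
  exact ⟨w, x, y, z, h4, h5 ▸ ⟨p, h2, rfl⟩, h5 ▸ ⟨q, h3, rfl⟩, h5 ▸ ⟨r, h6, rfl⟩⟩


/-- Precomposition with an involution of the arcs which permutes the 4-circuits. -/
def pre (φ : Phi T T') (σ : V × V → V × V) (h1 : ∀ p, T.R p.1 p.2 → T.R (σ p).1 (σ p).2)
    (h2 : ∀ p, T.R p.1 p.2 → σ (σ p) = p)
    (h3 : ∀ a b c d, T.C4 a b c d → ∃ w x y z, T.C4 w x y z ∧ σ '' arcs4 a b c d = arcs4 w x y z) : Phi T T' where
  f p := φ.f (σ p)
  g q := σ (φ.g q)
  fa p h := φ.fa _ (h1 p h)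
  ga q h := h1 _ (φ.ga q h)
  gf p h := by rw [φ.gf _ (h1 p h), h2 p h]
  fg q h := by rw [h2 _ (φ.ga q h), φ.fg q h]
  fC a b c d h := by
    obtain ⟨a1, b1, c1, d1, h5, h6⟩ := h3 a b c d h
    obtain ⟨w, x, y, z, h7, h8⟩ := φ.fC _ _ _ _ h5
    exact ⟨w, x, y, z, h7, by rw [← h8, ← h6, Set.image_image]⟩
  gC w x y z h := by
    obtain ⟨a, b, c, d, h5, h6⟩ := φ.gC w x y z h
    obtain ⟨a1, b1, c1, d1, h7, h8⟩ := h3 a b c d h5
    exact ⟨a1, b1, c1, d1, h7, by rw [← h8, ← h6, Set.image_image]⟩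

@[simp] theorem pre_f (φ : Phi T T') (σ : V × V → V × V) (h1 h2 h3) (p : V × V) : (φ.pre σ h1 h2 h3).f p = φ.f (σ p) := rfl

theorem _root_.Pool.Agent.Helper98.FC.Tour.Co.arc {T : Tour V} {p q : V × V} (h : T.Co p q) : T.R p.1 p.2 := by
  obtain ⟨x, y⟩ := p
  obtain ⟨z, w, h1, -⟩ := Tour.co_iff.1 h
  exact h1.1

/-- arcs of a common circuit whose images leave the same vertex are equal -/
theorem tail_eq (φ : Phi T T') {p q : V × V} (h : T.Co p q) (e : (φ.f p).1 = (φ.f q).1) : p = q := by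
  apply φ.inj h.arc h.symm.arc
  have h1 := φ.co h
  generalize φ.f p = a at *
  generalize φ.f q = b at *
  obtain ⟨a1, a2⟩ := a
  obtain ⟨b1, b2⟩ := b
  simp only at e
  subst e
  rw [h1.tail]

/-- arcs of a common circuit whose images enter the same vertex are equal -/
theorem head_eq (φ : Phi T T') {p q : V × V} (h : T.Co p q) (e : (φ.f p).2 = (φ.f q).2) : p = q := by
  apply φ.inj h.arc h.symm.arc
  have h1 := φ.co h
  generalize φ.f p = a at *
  generalize φ.f q = b at *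
  obtain ⟨a1, a2⟩ := a
  obtain ⟨b1, b2⟩ := b
  simp only at e
  subst e
  rw [h1.head]

/-- arcs of a common circuit with non-consecutive images: the image is the circuit through the two disjoint arcs -/
theorem opp (φ : Phi T T') {p q : V × V} (h : T.Co p q) (hpq : p ≠ q) (e1 : (φ.f p).2 ≠ (φ.f q).1)
    (e2 : (φ.f q).2 ≠ (φ.f p).1) : T'.C4 (φ.f p).1 (φ.f p).2 (φ.f q).1 (φ.f q).2 := by
  have h1 := φ.co h
  have h2 := fun e => hpq (φ.tail_eq h e)
  generalize φ.f p = a at *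
  generalize φ.f q = b at *
  obtain ⟨a1, a2⟩ := a
  obtain ⟨b1, b2⟩ := b
  exact h1.disj e1 e2 h2

/-- The image of a circuit, normalised to start with the image of its first arc. -/
theorem img1 (φ : Phi T T') {a b c d : V} (h : T.C4 a b c d) {x y : W} (e : φ.f (a, b) = (x, y)) :
    ∃ z w, T'.C4 x y z w ∧ (∀ p ∈ arcs4 a b c d, φ.f p ∈ arcs4 x y z w) ∧
      (∀ r ∈ arcs4 x y z w, φ.g r ∈ arcs4 a b c d) := by
  obtain ⟨w1, x1, y1, z1, h1, h2⟩ := φ.fC a b c d h
  have m : (x, y) ∈ arcs4 w1 x1 y1 z1 := by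
    rw [← h2, ← e]; exact ⟨(a, b), by simp [arcs4], rfl⟩
  obtain ⟨z, w, h3, h4⟩ := Tour.exists_of_mem h1 m
  refine ⟨z, w, h3, fun p hp => ?_, fun r hr => ?_⟩
  · rw [h4, ← h2]; exact ⟨p, hp, rfl⟩
  · rw [h4, ← h2] at hr
    obtain ⟨p, hp, rfl⟩ := hr
    have : T.R p.1 p.2 := by
      simp only [arcs4, Set.mem_insert_iff, Set.mem_singleton_iff] at hp
      rcases hp with rfl | rfl | rfl | rfl
      exacts [h.1, h.2.1, h.2.2.1, h.2.2.2]
    rw [φ.gf p this]; exact hp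

/-- The images of the two arcs are consecutive. -/
def Cns (φ : Phi T T') (p q : V × V) : Prop := (φ.f p).2 = (φ.f q).1 ∨ (φ.f q).2 = (φ.f p).1

/-- Untwisted: consecutive arcs of a circuit have consecutive images. -/
def Unt (φ : Phi T T') : Prop := ∀ a b c d, T.C4 a b c d → φ.Cns (a, b) (b, c)

/-- The images of `a → b`, `b → c` are consecutive in this order. -/
def P (φ : Phi T T') (a b c : V) : Prop := (φ.f (a, b)).2 = (φ.f (b, c)).1

/-- The images of `a → b`, `b → c` are consecutive in the opposite order. -/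
def N (φ : Phi T T') (a b c : V) : Prop := (φ.f (b, c)).2 = (φ.f (a, b)).1

/-- Positive: the directed cyclic order of all circuits is preserved. -/
def Pos (φ : Phi T T') : Prop := ∀ a b c d, T.C4 a b c d → φ.P a b c

theorem P_convR (φ : Phi T T') (a b c : V) : φ.convR.P a b c ↔ φ.N a b c := by
  unfold P N
  simp only [convR_f, Prod.snd_swap, Prod.fst_swap]
  exact eq_comm

theorem N_convR (φ : Phi T T') (a b c : V) : φ.convR.N a b c ↔ φ.P a b c := by
  unfold P N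
  simp only [convR_f, Prod.snd_swap, Prod.fst_swap]
  exact eq_comm

theorem P_conv (φ : Phi T T') (a b c : V) : φ.conv.P a b c ↔ φ.P c b a := by
  unfold P
  simp only [conv_f, Prod.snd_swap, Prod.fst_swap, Prod.swap_prod_mk]
  exact eq_comm

theorem N_conv (φ : Phi T T') (a b c : V) : φ.conv.N a b c ↔ φ.N c b a := by
  unfold N
  simp only [conv_f, Prod.snd_swap, Prod.fst_swap, Prod.swap_prod_mk]
  exact eq_comm

theorem Unt.convR {φ : Phi T T'} (h : φ.Unt) : φ.convR.Unt := by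
  intro a b c d hC
  have := h a b c d hC
  unfold Cns at *
  simp only [convR_f, Prod.snd_swap, Prod.fst_swap]
  tauto

theorem Unt.conv {φ : Phi T T'} (h : φ.Unt) : φ.conv.Unt := by
  intro a b c d hC
  have := h c b a d ((Tour.conv_C4 _ _ _ _ _).1 hC).rot
  unfold Cns at *
  simp only [conv_f, Prod.snd_swap, Prod.fst_swap, Prod.swap_prod_mk]
  tauto

theorem not_P_and_N (φ : Phi T T') {a b c : V} (h1 : T.R a b) (h2 : T.R b c) : ¬ (φ.P a b c ∧ φ.N a b c) := by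
  rintro ⟨h3, h4⟩
  have h5 := φ.fa (a, b) h1
  have h6 := φ.fa (b, c) h2
  unfold P N at *
  rw [h4, ← h3] at h6
  exact T'.asym _ _ h5 h6

/-- A circuit of an untwisted map is positive or negative. -/
theorem Unt.sgn {φ : Phi T T'} (h : φ.Unt) {a b c d : V} (hC : T.C4 a b c d) :
    (φ.P a b c ∧ φ.P b c d ∧ φ.P c d a ∧ φ.P d a b) ∨ (φ.N a b c ∧ φ.N b c d ∧ φ.N c d a ∧ φ.N d a b) := by
  have c1 := h _ _ _ _ hC
  have c2 := h _ _ _ _ hC.rot
  have c3 := h _ _ _ _ hC.rot.rot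
  have c4 := h _ _ _ _ hC.rot.rot.rot
  have n := hC.nes
  have i1 := fun e => φ.inj (p := (a, b)) (q := (b, c)) hC.1 hC.2.1 e
  have i4 := fun e => φ.inj (p := (d, a)) (q := (a, b)) hC.2.2.2 hC.1 e
  have i5 := fun e => φ.inj (p := (a, b)) (q := (c, d)) hC.1 hC.2.2.1 e
  have i6 := fun e => φ.inj (p := (b, c)) (q := (d, a)) hC.2.1 hC.2.2.2 e
  obtain ⟨w, x, y, z, h4, h5⟩ := φ.fC a b c d hC
  have m1 : φ.f (a, b) ∈ arcs4 w x y z := h5 ▸ ⟨(a, b), by simp [arcs4], rfl⟩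
  have m2 : φ.f (b, c) ∈ arcs4 w x y z := h5 ▸ ⟨(b, c), by simp [arcs4], rfl⟩
  have m3 : φ.f (c, d) ∈ arcs4 w x y z := h5 ▸ ⟨(c, d), by simp [arcs4], rfl⟩
  have m4 : φ.f (d, a) ∈ arcs4 w x y z := h5 ▸ ⟨(d, a), by simp [arcs4], rfl⟩
  have n' := h4.nes
  unfold Cns P N at *
  simp only [arcs4, Set.mem_insert_iff, Set.mem_singleton_iff] at m1 m2 m3 m4
  rcases m1 with m1 | m1 | m1 | m1 <;> rcases m2 with m2 | m2 | m2 | m2 <;> simp only [m1, m2] at * <;>
    rcases m3 with m3 | m3 | m3 | m3 <;> simp only [m3] at * <;>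
    rcases m4 with m4 | m4 | m4 | m4 <;> simp only [m4] at * <;> grind

end Phi

end Pool.Agent.Helper98.FC
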