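import Pool.Agent.Helper98.FC.Signs

/-!
# The prism: three pairwise opposite rungs, one odd square
-/

namespace Pool.Agent.Helper98.FC

universe u v

variable {V : Type u} {W : Type v} {T : Tour V} {T' : Tour W}

/-- Rungs `t_i → h_i`, arcs `h_i → t_j`; the square `12` is negative, the squares `13`, `23` are positive. -/
structure Prism (φ : Phi T T') (t1 h1 t2 h2 t3 h3 : V) (t1' h1' t2' h2' t3' h3' : W) : Prop where
  r1 : T.R t1 h1
  r2 : T.R t2 h2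
  r3 : T.R t3 h3
  R12 : T.R h1 t2
  R21 : T.R h2 t1
  R13 : T.R h1 t3
  R31 : T.R h3 t1
  R23 : T.R h2 t3
  R32 : T.R h3 t2
  f1 : φ.f (t1, h1) = (t1', h1')
  f2 : φ.f (t2, h2) = (t2', h2')
  f3 : φ.f (t3, h3) = (t3', h3')
  f12 : φ.f (h1, t2) = (h2', t1')
  f21 : φ.f (h2, t1) = (h1', t2')
  f13 : φ.f (h1, t3) = (h1', t3')
  f31 : φ.f (h3, t1) = (h3', t1')
  f23 : φ.f (h2, t3) = (h2', t3')
  f32 : φ.f (h3, t2) = (h3', t2')

namespace Prism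

variable {φ : Phi T T'} {t1 h1 t2 h2 t3 h3 : V} {t1' h1' t2' h2' t3' h3' : W}

theorem sw (h : Prism φ t1 h1 t2 h2 t3 h3 t1' h1' t2' h2' t3' h3') :
    Prism φ t2 h2 t1 h1 t3 h3 t2' h2' t1' h1' t3' h3' :=
  ⟨h.r2, h.r1, h.r3, h.R21, h.R12, h.R23, h.R32, h.R13, h.R31, h.f2, h.f1, h.f3, h.f21, h.f12, h.f23, h.f32,
    h.f13, h.f31⟩

theorem cv (h : Prism φ t1 h1 t2 h2 t3 h3 t1' h1' t2' h2' t3' h3') :
    Prism φ.conv h1 t1 h2 t2 h3 t3 h1' t1' h2' t2' h3' t3' := by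
  refine ⟨h.r1, h.r2, h.r3, h.R21, h.R12, h.R31, h.R13, h.R32, h.R23, ?_, ?_, ?_, ?_, ?_, ?_, ?_, ?_, ?_⟩ <;>
    simp [h.f1, h.f2, h.f3, h.f12, h.f21, h.f13, h.f31, h.f23, h.f32]

theorem a1 (h : Prism φ t1 h1 t2 h2 t3 h3 t1' h1' t2' h2' t3' h3') : T'.R t1' h1' := by
  have := φ.fa _ (show T.R (t1, h1).1 (t1, h1).2 from h.r1)
  rwa [h.f1] at this

theorem a3 (h : Prism φ t1 h1 t2 h2 t3 h3 t1' h1' t2' h2' t3' h3') : T'.R t3' h3' := by
  have := φ.fa _ (show T.R (t3, h3).1 (t3, h3).2 from h.r3)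
  rwa [h.f3] at this

theorem a12 (h : Prism φ t1 h1 t2 h2 t3 h3 t1' h1' t2' h2' t3' h3') : T'.R h1' t2' := by
  have := φ.fa _ (show T.R (h2, t1).1 (h2, t1).2 from h.R21)
  rwa [h.f21] at this

theorem a13 (h : Prism φ t1 h1 t2 h2 t3 h3 t1' h1' t2' h2' t3' h3') : T'.R h1' t3' := by
  have := φ.fa _ (show T.R (h1, t3).1 (h1, t3).2 from h.R13)
  rwa [h.f13] at this

theorem a31 (h : Prism φ t1 h1 t2 h2 t3 h3 t1' h1' t2' h2' t3' h3') : T'.R h3' t1' := by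
  have := φ.fa _ (show T.R (h3, t1).1 (h3, t1).2 from h.R31)
  rwa [h.f31] at this

theorem symm (h : Prism φ t1 h1 t2 h2 t3 h3 t1' h1' t2' h2' t3' h3') :
    Prism φ.symm t1' h1' t2' h2' t3' h3' t1 h1 t2 h2 t3 h3 := by
  refine ⟨h.a1, h.sw.a1, h.a3, h.a12, h.sw.a12, h.a13, h.a31, h.sw.a13, h.sw.a31, ?_, ?_, ?_, ?_, ?_, ?_, ?_, ?_, ?_⟩
  · rw [← h.f1]; exact φ.gf _ h.r1
  · rw [← h.f2]; exact φ.gf _ h.r2
  · rw [← h.f3]; exact φ.gf _ h.r3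
  · rw [← h.f21]; exact φ.gf _ h.R21
  · rw [← h.f12]; exact φ.gf _ h.R12
  · rw [← h.f13]; exact φ.gf _ h.R13
  · rw [← h.f31]; exact φ.gf _ h.R31
  · rw [← h.f23]; exact φ.gf _ h.R23
  · rw [← h.f32]; exact φ.gf _ h.R32

/-- all distinctness facts -/
theorem nes (h : Prism φ t1 h1 t2 h2 t3 h3 t1' h1' t2' h2' t3' h3') :
    t1 ≠ t2 ∧ t1 ≠ t3 ∧ t2 ≠ t3 ∧ h1 ≠ h2 ∧ h1 ≠ h3 ∧ h2 ≠ h3 ∧ t1 ≠ h1 ∧ t1 ≠ h2 ∧ t1 ≠ h3 ∧ t2 ≠ h1 ∧ t2 ≠ h2 ∧
      t2 ≠ h3 ∧ t3 ≠ h1 ∧ t3 ≠ h2 ∧ t3 ≠ h3 := by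
  have as := T.asym
  obtain ⟨x1, x2, x3, x4, x5, x6, x7, x8, x9, -, -, -, -, -, -, -, -, -⟩ := h
  exact ⟨fun e => as _ _ x1 (e ▸ x4), fun e => as _ _ x1 (e ▸ x6), fun e => as _ _ x2 (e ▸ x8),
    fun e => as _ _ x1 (e ▸ x5), fun e => as _ _ x1 (e ▸ x7), fun e => as _ _ x2 (e ▸ x9),
    T.ne x1, (T.ne x5).symm, (T.ne x7).symm, (T.ne x4).symm, T.ne x2, (T.ne x9).symm, (T.ne x6).symm,
    (T.ne x8).symm, T.ne x3⟩

/-- S1 for tails -/
theorem S1 (hU : φ.Unt) (h : Prism φ t1 h1 t2 h2 t3 h3 t1' h1' t2' h2' t3' h3') {z : V} (hz2 : z ≠ h2) (hz3 : z ≠ t3)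
    (k1 : T.R t2 z) (k2 : T.R z t1) : False := by
  obtain ⟨s, e1, e2, e3⟩ := hU.nimg (a := t1) (b := h1) (c := t2) (d := z) ⟨h.r1, h.R12, k1, k2⟩ h.f1 h.f12
  have n := e3.nes
  rcases T.tot t3 z hz3.symm with k3 | k3
  · obtain ⟨s2, e4, e5, e6⟩ := hU.pimg (a := t1) (b := h1) (c := t3) (d := z) ⟨h.r1, h.R13, k3, k2⟩ h.f1 h.f13
    rw [e2] at e5
    grind
  · obtain ⟨s2, e4, e5, e6⟩ := hU.pimg (a := t3) (b := h3) (c := t2) (d := z) ⟨h.r3, h.R32, k1, k3⟩ h.f3 h.f32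
    rw [e1] at e4
    have e7 : φ.f (t2, z) = φ.f (t2, h2) := by rw [h.f2, e1]; grind
    have := φ.inj (p := (t2, z)) (q := (t2, h2)) k1 h.r2 e7
    grind

/-- S2 -/
theorem S2 (hU : φ.Unt) (h : Prism φ t1 h1 t2 h2 t3 h3 t1' h1' t2' h2' t3' h3') (k1 : T.R t2 t3) (k2 : T.R t3 t1) :
    φ.f (t3, t1) = (h1', h3') ∧ φ.f (t2, t3) = (h3', h2') := by
  obtain ⟨m, e1, e2, e3⟩ := hU.nimg (a := t1) (b := h1) (c := t2) (d := t3) ⟨h.r1, h.R12, k1, k2⟩ h.f1 h.f12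
  have n := h.nes
  by_cases hm : m = h3'
  · subst hm; exact ⟨e2, e1⟩
  exfalso
  by_cases hm2 : m = t2'
  · have e7 : φ.f (t2, t3) = φ.f (t2, h2) := by rw [h.f2, e1, hm2]
    have := φ.inj (p := (t2, t3)) (q := (t2, h2)) k1 h.r2 e7
    grind
  · obtain ⟨q1, q2, q3, q4⟩ := e3
    exact S1 hU.symm.conv h.symm.cv hm2 hm q3 q2

/-- Case II, first facts -/
theorem II1 (h : Prism φ t1 h1 t2 h2 t3 h3 t1' h1' t2' h2' t3' h3') (k1 : T.R t2 t3) (hU : φ.Unt) (k2 : T.R t3 t1) :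
    T.R t2 t1 := by
  have n := h.nes
  by_contra hn
  have k3 : T.R t1 t2 := T.of_not n.1.symm hn
  have e := (h.S2 hU k1 k2).2
  have hC : T.C4 t1 t2 t3 h3 := ⟨k3, k1, h.r3, h.R31⟩
  have := φ.tail_eq hC.co24 (by rw [e, h.f31])
  grind

theorem II1' (h : Prism φ t1 h1 t2 h2 t3 h3 t1' h1' t2' h2' t3' h3') (k1 : T.R t2 t3) (hU : φ.Unt) (k2 : T.R t3 t1) :
    T'.R t1' t2' := by
  have n := h.nes
  have n' := h.symm.nes
  by_contra hn
  have k3 : T'.R t2' t1' := T'.of_not n'.1 hn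
  have e := (h.S2 hU k1 k2).1
  have k4 : T'.R h1' h3' := by
    have := φ.fa (t3, t1) k2
    rwa [e] at this
  have e' : φ.symm.f (h1', h3') = (t3, t1) := by rw [← e]; exact φ.gf (t3, t1) k2
  have hC : T'.C4 h1' h3' t2' t1' := ⟨k4, h.symm.R32, k3, h.symm.r1⟩
  have := hU.symm.cns' hC e' h.symm.f32
  grind

/-- all the facts about a mixed third tail -/
structure II (φ : Phi T T') (t1 h1 t2 h2 t3 h3 : V) (t1' h1' t2' h2' t3' h3' : W) : Prop where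
  pr : Prism φ t1 h1 t2 h2 t3 h3 t1' h1' t2' h2' t3' h3'
  k23 : T.R t2 t3
  k31 : T.R t3 t1
  k21 : T.R t2 t1
  l23 : T.R h2 h3
  l31 : T.R h3 h1
  l21 : T.R h2 h1
  g31 : φ.f (t3, t1) = (h1', h3')
  g23 : φ.f (t2, t3) = (h3', h2')

theorem mkII (h : Prism φ t1 h1 t2 h2 t3 h3 t1' h1' t2' h2' t3' h3') (k1 : T.R t2 t3) (hU : φ.Unt) (k2 : T.R t3 t1) :
    II φ t1 h1 t2 h2 t3 h3 t1' h1' t2' h2' t3' h3' := by
  have n := h.nes
  have n' := h.symm.nes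
  obtain ⟨e1, e2⟩ := h.S2 hU k1 k2
  have k3 := h.II1 k1 hU k2
  have k3' := h.II1' k1 hU k2
  have q1 : T'.R h1' h3' := by
    have := φ.fa (t3, t1) k2
    rwa [e1] at this
  have q2 : T'.R h3' h2' := by
    have := φ.fa (t2, t3) k1
    rwa [e2] at this
  have l21 : T.R h2 h1 := h.symm.cv.II1' q2 hU.symm.conv q1
  have l31 : T.R h3 h1 := by
    by_contra hn
    have l13 : T.R h1 h3 := T.of_not n.2.2.2.2.1.symm hn
    have hC : T.C4 h1 h3 t2 t1 := ⟨l13, h.R32, k3, h.r1⟩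
    have := (hU.opp2 hC.rot h.f32 h.f1).1.2.1
    exact T'.asym _ _ this k3'
  obtain ⟨s, e3, e4, e5⟩ := hU.nimg (a := h1) (b := t2) (c := t3) (d := h3) ⟨h.R12, k1, h.r3, l31⟩ h.f12 e2
  have hs : s = t3' := by
    rw [h.f3] at e3
    grind
  subst hs
  have l23 : T.R h2 h3 := by
    by_contra hn
    have l32 : T.R h3 h2 := T.of_not n.2.2.2.2.2.1 hn
    have m1 : T'.R t1' s := by
      have := φ.fa (h3, h1) l31
      rwa [e4] at this
    rcases T'.tot s t2' n'.2.2.1.symm with m2 | m2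
    · have := (h.symm.sw.S2 hU.symm m1 m2).1
      have q3 := φ.ga (s, t2') m2
      simp only [Phi.symm_f] at this
      rw [this] at q3
      exact T.asym _ _ q3 l32
    · have hC : T'.C4 s h3' t1' t2' := ⟨h.symm.r3, h.symm.R31, k3', m2⟩
      obtain ⟨y, f1, f2, f3⟩ := hU.symm.pimg hC h.symm.f3 h.symm.f31
      have n3 := f3.nes
      have hyt2 : y ≠ t2 := by
        rintro rfl
        exact T.asym _ _ f3.2.2.1 k3
      have hyh1 : y ≠ h1 := by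
        rintro rfl
        have := φ.symm.inj (p := (t1', t2')) (q := (t1', h1')) k3' h.symm.r1 (by rw [f1, h.symm.f1])
        grind
      have t2y : T.R t2 y := T.of_not hyt2 fun hh =>
        S1 hU h.sw hyh1 n3.2.2.1.symm f3.2.2.1 hh
      have f2' : φ.f (y, t3) = (t2', s) := by rw [← f2]; exact φ.fg (t2', s) m2
      obtain ⟨s2, g1, g2, g3⟩ := hU.pimg (a := t3) (b := h3) (c := t2) (d := y) ⟨h.r3, h.R32, t2y, f3.2.2.2⟩ h.f3 h.f32
      rw [f2'] at g2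
      have := g3.nes
      grind
  exact ⟨h, k1, k2, k3, l23, l31, l21, e1, e2⟩

namespace II

theorem cv (h : II φ t1 h1 t2 h2 t3 h3 t1' h1' t2' h2' t3' h3') (hU : φ.Unt) :
    II φ.conv h2 t2 h1 t1 h3 t3 h2' t2' h1' t1' h3' t3' :=
  h.pr.cv.sw.mkII h.l31 hU.conv h.l23

/-- a vertex outside does not separate `t1,t2` from `t3` -/
theorem out1 (hU : φ.Unt) (h : II φ t1 h1 t2 h2 t3 h3 t1' h1' t2' h2' t3' h3') {z : V} (hzh : z ≠ h1)
    (k1 : T.R t1 z) (k2 : T.R t2 z) (k3 : T.R z t3) : False := by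
  have p := h.pr
  have n := p.nes
  rcases T.tot z h1 hzh with m | m
  · have hC : T.C4 z h1 t3 t1 := ⟨m, p.R13, h.k31, k1⟩
    have := φ.tail_eq hC.co23 (by rw [p.f13, h.g31])
    grind
  · obtain ⟨s, e1, e2, e3⟩ := hU.nimg (a := t3) (b := t1) (c := h1) (d := z) ⟨h.k31, p.r1, m, k3⟩ h.g31 p.f1
    obtain ⟨s2, f1, f2, f3⟩ := hU.pimg (a := t3) (b := h3) (c := t2) (d := z) ⟨p.r3, p.R32, k2, k3⟩ p.f3 p.f32
    rw [e2] at f2
    have := f3.nes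
    grind

theorem out2 (hU : φ.Unt) (h : II φ t1 h1 t2 h2 t3 h3 t1' h1' t2' h2' t3' h3') {z : V} (hzh1 : z ≠ h1) (hzh : z ≠ h3)
    (k1 : T.R z t1) (k2 : T.R z t2) (k3 : T.R t3 z) : False := by
  have p := h.pr
  have n := p.nes
  rcases T.tot z h1 hzh1 with m | m
  · obtain ⟨s, e1, e2, e3⟩ := hU.nimg (a := h1) (b := t2) (c := t3) (d := z) ⟨p.R12, h.k23, k3, m⟩ p.f12 h.g23
    obtain ⟨s2, f1, f2, f3⟩ := hU.pimg (a := t1) (b := h1) (c := t3) (d := z) ⟨p.r1, p.R13, k3, k1⟩ p.f1 p.f13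
    rw [e1] at f1
    have e7 : φ.f (t3, z) = φ.f (t3, h3) := by rw [p.f3, e1]; grind
    have := φ.inj (p := (t3, z)) (q := (t3, h3)) k3 p.r3 e7
    grind
  · rcases T.tot z h3 hzh with m2 | m2
    · have hC : T.C4 z h3 t2 t3 := ⟨m2, p.R32, h.k23, k3⟩
      have := φ.tail_eq hC.co23 (by rw [p.f32, h.g23])
      grind
    · obtain ⟨s, e1, e2, e3⟩ := hU.nimg (a := t2) (b := t3) (c := h3) (d := z) ⟨h.k23, p.r3, m2, k2⟩ h.g23 p.f3
      obtain ⟨s2, f1, f2, f3⟩ := hU.pimg (a := t2) (b := h2) (c := t3) (d := z) ⟨p.r2, p.R23, k3, k2⟩ p.f2 p.f23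
      rw [e2] at f2
      have := f3.nes
      grind

theorem tails (hU : φ.Unt) (h : II φ t1 h1 t2 h2 t3 h3 t1' h1' t2' h2' t3' h3') {z : V} (z1 : z ≠ t1) (z2 : z ≠ t2)
    (z3 : z ≠ t3) (z4 : z ≠ h1) (z5 : z ≠ h2) (z6 : z ≠ h3) : (T.R z t1 ↔ T.R z t2) ∧ (T.R z t1 ↔ T.R z t3) := by
  have p := h.pr
  have e1 : T.R z t1 ↔ T.R z t2 := by
    constructor
    · intro hh
      exact T.of_not z2.symm fun h' => S1 hU p z5 z3 h' hh
    · intro hh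
      exact T.of_not z1.symm fun h' => S1 hU p.sw z4 z3 h' hh
  refine ⟨e1, ?_, ?_⟩
  · intro hh
    exact T.of_not z3.symm fun h' => h.out2 hU z4 z6 hh (e1.1 hh) h'
  · intro hh
    by_contra hn
    exact h.out1 hU z4 (T.of_not z1 hn) (T.of_not z2 fun h' => hn (e1.2 h')) hh

theorem heads (hU : φ.Unt) (h : II φ t1 h1 t2 h2 t3 h3 t1' h1' t2' h2' t3' h3') {z : V} (z1 : z ≠ t1) (z2 : z ≠ t2)
    (z3 : z ≠ t3) (z4 : z ≠ h1) (z5 : z ≠ h2) (z6 : z ≠ h3) : (T.R z h1 ↔ T.R z h2) ∧ (T.R z h1 ↔ T.R z h3) := by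
  have := (h.cv hU).tails hU.conv z5 z4 z6 z2 z1 z3
  simp only [Tour.conv_R] at this
  have e : ∀ x, z ≠ x → (T.R z x ↔ ¬ T.R x z) := fun x hx =>
    ⟨fun hh h' => T.asym _ _ hh h', fun hh => T.of_not hx.symm hh⟩
  rw [e h1 z4, e h2 z5, e h3 z6]
  tauto

theorem noA (hU : φ.Unt) (h : II φ t1 h1 t2 h2 t3 h3 t1' h1' t2' h2' t3' h3') {z : V} (k1 : T.R t1 z) (k2 : T.R z h2) :
    False := by
  have p := h.pr
  have n' := p.symm.nes
  have hC : T.C4 h2 t3 t1 z := ⟨p.R23, h.k31, k1, k2⟩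
  have := hU.cns' hC p.f23 h.g31
  grind

theorem noK (hU : φ.Unt) (h : II φ t1 h1 t2 h2 t3 h3 t1' h1' t2' h2' t3' h3') {k s : V} (k1 : T.R t2 k) (k2 : T.R k s)
    (k3 : T.R s h1) (k4 : T.R s h3) : False := by
  have p := h.pr
  have n' := p.symm.nes
  have hC : T.C4 h1 t2 k s := ⟨p.R12, k1, k2, k3⟩
  have hD : T.C4 h3 t2 k s := ⟨p.R32, k1, k2, k4⟩
  have e1 := hU.P_iff hC
  have e2 := hU.P_iff hD
  have e3 := hU.not_P hC
  have e4 := hU.not_P hD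
  unfold Phi.P Phi.N at *
  rw [p.f12] at e1 e3
  rw [p.f32] at e2 e4
  simp only at *
  grind

theorem flip13 (hU : φ.Unt) (h : II φ t1 h1 t2 h2 t3 h3 t1' h1' t2' h2' t3' h3') : T.Flip t1 h1 t3 h3 := by
  have p := h.pr
  have n := p.nes
  have as := T.asym
  have ht := fun z => h.tails hU (z := z)
  have hh := fun z => h.heads hU (z := z)
  refine flip_crit ⟨p.r1, p.R13, p.r3, p.R31⟩ ?_ ?_ ?_ ?_
  · intro z z1 z4 z3 z6
    by_cases z2 : z = t2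
    · subst z2; exact ⟨fun _ => h.k23, fun _ => h.k21⟩
    by_cases z5 : z = h2
    · subst z5; exact ⟨fun _ => p.R23, fun _ => p.R21⟩
    exact (ht z z1 z2 z3 z4 z5 z6).2
  · intro z z1 z4 z3 z6
    by_cases z2 : z = t2
    · subst z2; exact ⟨fun q => (as _ _ q p.R12).elim, fun q => (as _ _ q p.R32).elim⟩
    by_cases z5 : z = h2
    · subst z5; exact ⟨fun _ => h.l23, fun _ => h.l21⟩
    exact (hh z z1 z2 z3 z4 z5 z6).2
  · intro z q1 q2 q3 q4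
    have z1 : z ≠ t1 := (T.ne q1).symm
    have z3 : z ≠ t3 := (T.ne q2).symm
    have z4 : z ≠ h1 := T.ne q3
    have z6 : z ≠ h3 := T.ne q4
    have z2 : z ≠ t2 := by rintro rfl; exact as _ _ q1 h.k21
    have z5 : z ≠ h2 := by rintro rfl; exact as _ _ q1 p.R21
    exact h.noA hU q1 ((hh z z1 z2 z3 z4 z5 z6).1.1 q3)
  · intro k s q1 q2 q3 q4 q5 q6 q7 q8 q9
    have z2 : k ≠ t2 := by rintro rfl; exact as _ _ q1 h.k21
    have z5 : k ≠ h2 := by rintro rfl; exact as _ _ q1 p.R21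
    have e1 := ht k (T.ne q1).symm z2 (T.ne q2).symm (T.ne q3).symm z5 (T.ne q4).symm
    have e2 := hh k (T.ne q1).symm z2 (T.ne q2).symm (T.ne q3).symm z5 (T.ne q4).symm
    have y2 : s ≠ t2 := by rintro rfl; exact as _ _ q7 p.R12
    have k2 : T.R t2 k := T.of_not z2 fun hh => as _ _ q1 (e1.1.2 hh)
    have y5 : s ≠ h2 := by
      rintro rfl
      exact as _ _ q3 (e2.1.2 q9)
    exact h.noK hU k2 q9 q7 q8

theorem flip23 (hU : φ.Unt) (h : II φ t1 h1 t2 h2 t3 h3 t1' h1' t2' h2' t3' h3') : T.Flip t2 h2 t3 h3 := by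
  have p := h.pr
  have n := p.nes
  have as := T.asym
  have ht := fun z => h.tails hU (z := z)
  have hh := fun z => h.heads hU (z := z)
  refine flip_crit ⟨p.r2, p.R23, p.r3, p.R32⟩ ?_ ?_ ?_ ?_
  · intro z z2 z5 z3 z6
    by_cases z1 : z = t1
    · subst z1; exact ⟨fun q => (as _ _ q h.k21).elim, fun q => (as _ _ q h.k31).elim⟩
    by_cases z4 : z = h1
    · subst z4; exact ⟨fun _ => p.R13, fun _ => p.R12⟩
    have := ht z z1 z2 z3 z4 z5 z6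
    rw [← this.1, this.2]
  · intro z z2 z5 z3 z6
    by_cases z1 : z = t1
    · subst z1; exact ⟨fun q => (as _ _ q p.R21).elim, fun q => (as _ _ q p.R31).elim⟩
    by_cases z4 : z = h1
    · subst z4; exact ⟨fun q => (as _ _ q h.l21).elim, fun q => (as _ _ q h.l31).elim⟩
    have := hh z z1 z2 z3 z4 z5 z6
    rw [← this.1, this.2]
  · intro z q1 q2 q3 q4
    have z2 : z ≠ t2 := (T.ne q1).symm
    have z3 : z ≠ t3 := (T.ne q2).symm
    have z5 : z ≠ h2 := T.ne q3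
    have z6 : z ≠ h3 := T.ne q4
    have z1 : z ≠ t1 := by rintro rfl; exact as _ _ q3 p.R21
    have z4 : z ≠ h1 := by rintro rfl; exact as _ _ q1 p.R12
    have e1 := ht z z1 z2 z3 z4 z5 z6
    exact h.noA hU (T.of_not z1 fun q => as _ _ q1 (e1.1.1 q)) q3
  · intro k s q1 q2 q3 q4 q5 q6 q7 q8 q9
    have z4 : k ≠ h1 := by rintro rfl; exact as _ _ q1 p.R12
    have y1 : s ≠ t1 := by rintro rfl; exact as _ _ q5 h.k21
    have y4 : s ≠ h1 := by rintro rfl; exact as _ _ q7 h.l21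
    have e1 := ht s y1 (T.ne q5) (T.ne q6) y4 (T.ne q7) (T.ne q8)
    have e2 := hh s y1 (T.ne q5) (T.ne q6) y4 (T.ne q7) (T.ne q8)
    exact h.noK hU q1 q9 (e2.1.2 q7) q8

end II

/-- Case I: neither `t3` nor `h3` is mixed; first `A = ∅`, under `t2 → t1`. -/
theorem noA1 (hU : φ.Unt) (h : Prism φ t1 h1 t2 h2 t3 h3 t1' h1' t2' h2' t3' h3') (k : T.R t2 t1) {z : V}
    (q1 : T.R t1 z) (q3 : T.R z h1) (q4 : T.R z h2) : False := by
  have as := T.asym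
  have n' := h.symm.nes
  have z6 : z ≠ h3 := by rintro rfl; exact as _ _ q1 h.R31
  have hC : T.C4 h1 t2 t1 z := ⟨h.R12, k, q1, q3⟩
  have hz : T.R z h3 := by
    apply T.of_not z6.symm
    intro hh
    obtain ⟨s, e1, e2, e3⟩ := hU.pimg (a := h1) (b := t3) (c := h3) (d := z) ⟨h.R13, h.r3, hh, q3⟩ h.f13 h.f3
    obtain ⟨s2, f1, f2, f3⟩ := hU.pimg (a := h2) (b := t3) (c := h3) (d := z) ⟨h.R23, h.r3, hh, q4⟩ h.f23 h.f3
    have hs : s2 = s := by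
      rw [e1] at f1
      grind
    subst hs
    have := hU.cns' hC.rot.rot.rot e2 h.f12
    have h21 := h.symm.R21
    have := T'.asym _ _ h21
    obtain ⟨-, -, -, f4⟩ := f3
    grind
  have hD : T.C4 h3 t2 t1 z := ⟨h.R32, k, q1, hz⟩
  have e1 := hU.P_iff hC
  have e2 := hU.P_iff hD
  have e3 := hU.not_P hC
  have e4 := hU.not_P hD
  unfold Phi.P Phi.N at *
  rw [h.f12] at e1 e3
  rw [h.f32] at e2 e4
  simp only at *
  grind

/-- in Case I: `k → s` forces `k = t3` -/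
theorem keq (hU : φ.Unt) (h : Prism φ t1 h1 t2 h2 t3 h3 t1' h1' t2' h2' t3' h3') {k s : V}
    (_q1 : T.R t1 k) (q2 : T.R t2 k) (_q3 : T.R h1 k) (q4 : T.R h2 k) (q7 : T.R s h1) (q9 : T.R k s) : k = t3 := by
  by_contra hk
  have n' := h.symm.nes
  have hC : T.C4 h1 t2 k s := ⟨h.R12, q2, q9, q7⟩
  rcases T.tot k t3 hk with m | m
  · obtain ⟨s1, e1, e2, e3⟩ := hU.pimg (a := t3) (b := h3) (c := t2) (d := k) ⟨h.r3, h.R32, q2, m⟩ h.f3 h.f32
    rcases hU.cns' hC h.f12 e1 with r | r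
    · grind
    · subst r
      have := φ.inj (p := (t2, k)) (q := (t2, h2)) q2 h.r2 (by rw [e1, h.f2])
      have := T.ne q4
      grind
  · have hD : T.C4 h1 t3 k s := ⟨h.R13, m, q9, q7⟩
    have e1 := hU.P_iff hC.rot.rot
    have e2 := hU.P_iff hD.rot.rot
    have e3 := hU.not_P hC.rot.rot.rot
    have e4 := hU.not_P hD.rot.rot.rot
    unfold Phi.P Phi.N at *
    rw [h.f12] at e1 e3
    rw [h.f13] at e2 e4
    simp only at *
    grind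

theorem noK1 (hU : φ.Unt) (h : Prism φ t1 h1 t2 h2 t3 h3 t1' h1' t2' h2' t3' h3') (k : T.R t2 t1)
    (m1 : T.R t1 t3) (m2 : T.R t2 t3) (m3 : T.R h3 h1) (m4 : T.R h3 h2) : False := by
  have n' := h.symm.nes
  obtain ⟨e1, e2⟩ := hU.opp2 (a := h1) (b := t2) (c := t3) (d := h3) ⟨h.R12, m2, h.r3, m3⟩ h.f12 h.f3
  obtain ⟨e3, e4⟩ := hU.opp2 (a := h2) (b := t1) (c := t3) (d := h3) ⟨h.R21, m1, h.r3, m4⟩ h.f21 h.f3
  obtain ⟨s, f1, f2, f3⟩ := hU.pimg (a := t3) (b := h3) (c := t2) (d := t1) ⟨h.r3, h.R32, k, m1⟩ h.f3 h.f32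
  have := f3.nes
  rw [f2] at e4
  grind

/-- Case I: the odd square can be flipped -/
theorem flip12 (hU : φ.Unt) (h : Prism φ t1 h1 t2 h2 t3 h3 t1' h1' t2' h2' t3' h3')
    (ht : T.R t3 t1 ↔ T.R t3 t2) (hh : T.R h3 h1 ↔ T.R h3 h2) : T.Flip t1 h1 t2 h2 := by
  have n := h.nes
  have as := T.asym
  have tails : ∀ z, z ≠ t1 → z ≠ h1 → z ≠ t2 → z ≠ h2 → (T.R z t1 ↔ T.R z t2) := by
    intro z z1 z4 z2 z5
    by_cases z3 : z = t3
    · subst z3; exact ht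
    constructor
    · intro q
      exact T.of_not z2.symm fun h' => S1 hU h z5 z3 h' q
    · intro q
      exact T.of_not z1.symm fun h' => S1 hU h.sw z4 z3 h' q
  have heads : ∀ z, z ≠ t1 → z ≠ h1 → z ≠ t2 → z ≠ h2 → (T.R z h1 ↔ T.R z h2) := by
    intro z z1 z4 z2 z5
    by_cases z3 : z = h3
    · subst z3; exact hh
    constructor
    · intro q
      exact T.of_not z5.symm fun h' => S1 hU.conv h.cv.sw z1 z3 q h'
    · intro q
      exact T.of_not z4.symm fun h' => S1 hU.conv h.cv z2 z3 q h'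
  refine flip_crit ⟨h.r1, h.R12, h.r2, h.R21⟩ tails heads ?_ ?_
  · intro z q1 q2 q3 q4
    rcases T.tot t2 t1 n.1.symm with k | k
    · exact h.noA1 hU k q1 q3 q4
    · exact h.sw.noA1 hU k q2 q4 q3
  · intro k s q1 q2 q3 q4 q5 q6 q7 q8 q9
    have hk := h.keq hU q1 q2 q3 q4 q7 q9
    have hs := h.cv.keq hU.conv (k := s) (s := k) q7 q8 q5 q6 q1 q9
    subst hk hs
    rcases T.tot t2 t1 n.1.symm with r | r
    · exact h.noK1 hU r q1 q2 q7 q8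
    · exact h.sw.noK1 hU r q2 q1 q8 q7

/-- **Claim S** -/
theorem claimS (hU : φ.Unt) (h : Prism φ t1 h1 t2 h2 t3 h3 t1' h1' t2' h2' t3' h3') :
    T.Flip t1 h1 t2 h2 ∨ (T.Flip t1 h1 t3 h3 ∧ T.Flip t2 h2 t3 h3) := by
  have n := h.nes
  by_cases ht : T.R t3 t1 ↔ T.R t3 t2
  · by_cases hh : T.R h3 h1 ↔ T.R h3 h2
    · exact Or.inl (h.flip12 hU ht hh)
    · right
      -- in the converse the third tail is mixed
      have cf : ∀ {a b c d : V}, T.conv.Flip a b c d → T.Flip b a d c := by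
        rintro a b c d ⟨q1, q2, q3⟩
        refine ⟨((Tour.conv_C4 _ _ _ _ _).1 q1).rot.rot, ?_, ?_⟩
        · intro x y hx
          have := q3 y x (by rw [Tour.conv_C4]; exact hx.rot.rot)
          exact ⟨this.2, this.1⟩
        · intro x y hx
          have := q2 y x (by rw [Tour.conv_C4]; exact hx.rot.rot)
          exact ⟨this.2, this.1⟩
      have : (T.R h3 h1 ∧ T.R h2 h3) ∨ (T.R h3 h2 ∧ T.R h1 h3) := by
        by_cases q1 : T.R h3 h1 <;> by_cases q2 : T.R h3 h2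
        · exact absurd ⟨fun _ => q2, fun _ => q1⟩ hh
        · exact Or.inl ⟨q1, T.of_not n.2.2.2.2.2.1.symm q2⟩
        · exact Or.inr ⟨q2, T.of_not n.2.2.2.2.1.symm q1⟩
        · exact absurd ⟨fun q => absurd q q1, fun q => absurd q q2⟩ hh
      rcases this with ⟨q1, q2⟩ | ⟨q1, q2⟩
      · have := h.cv.sw.mkII q1 hU.conv q2
        exact ⟨cf (this.flip23 hU.conv), cf (this.flip13 hU.conv)⟩
      · have := h.cv.mkII q1 hU.conv q2
        exact ⟨cf (this.flip13 hU.conv), cf (this.flip23 hU.conv)⟩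
  · right
    have : (T.R t3 t1 ∧ T.R t2 t3) ∨ (T.R t3 t2 ∧ T.R t1 t3) := by
      by_cases q1 : T.R t3 t1 <;> by_cases q2 : T.R t3 t2
      · exact absurd ⟨fun _ => q2, fun _ => q1⟩ ht
      · exact Or.inl ⟨q1, T.of_not n.2.2.1.symm q2⟩
      · exact Or.inr ⟨q2, T.of_not n.2.1.symm q1⟩
      · exact absurd ⟨fun q => absurd q q1, fun q => absurd q q2⟩ ht
    rcases this with ⟨q1, q2⟩ | ⟨q1, q2⟩
    · have := h.mkII q2 hU q1
      exact ⟨this.flip13 hU, this.flip23 hU⟩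
    · have := h.sw.mkII q2 hU q1
      exact ⟨this.flip23 hU, this.flip13 hU⟩

end Prism

end Pool.Agent.Helper98.FC
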