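import Pool.Agent.Helper98.FC.Match

/-!
# FC-E5a: propagation of mismatched ghosts (MP_ebd9af_co)
-/

namespace Pool.Agent.Helper98.FC

universe u v

variable {V : Type u} {W : Type v} {T : Tour V} {T' : Tour W}

open Tour in
theorem prop_back [Finite V] [Finite W] (hT : T.Strong) (hT' : T'.Strong) (hn : 6 ≤ Nat.card V)
    (hn' : 6 ≤ Nat.card W) {ψ : Phi T T'} {f : V → W} {g : W → V} (h : CohData ψ f g) {v b a : V}
    (hv : T.Ghost v) (h1 : T.GhostAt v b a) (hno : ¬ ∃ w, T'.Ghost w ∧ T'.GhostAt w (f b) (f a))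
    (hz : ∃ z, z ≠ b ∧ T.R v z) :
    ∃ y s, ¬ T.Ghost y ∧ T.R v y ∧ T.R y b ∧ T'.Ghost s ∧ T'.GhostAt s (f y) (f b) ∧
      (¬ ∃ u, T.Ghost u ∧ T.GhostAt u y b) ∧ ∀ z, ¬ T.Ghost z → (T'.R s (f z) ↔ T.R v z ∧ z ≠ b) := by
  obtain ⟨y, vy, yb⟩ := h1.Le hz
  obtain ⟨nb, na, nL, -⟩ := h1.ng hT hn hv
  have ny := nL y vy yb
  have hC : T.C4 y b a v := ⟨yb, h1.hba, h1.ha, vy⟩
  obtain ⟨s, k0, -, -, k3, -, k5⟩ := h.img3 ny nb na hC
  have hs : T'.Ghost s := k5.1 hv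
  have hsat : T'.GhostAt s (f y) (f b) := by
    rcases ghost_arc hT' hn' hs k0 with ⟨-, h2⟩ | ⟨-, h2⟩
    · exact absurd ⟨s, hs, h2⟩ hno
    · exact h2
  have fas : T'.R (f a) s := k0.2.2.1
  have fbs : T'.R (f b) s := hsat.ha
  refine ⟨y, s, ny, vy, yb, hs, hsat, ?_, ?_⟩
  · rintro ⟨u, hu, hu1⟩
    have cu := cut_unique hT hT' hn hn' h hu hs hu1 hsat
    have hau : T.R a u := by
      refine T.of_not (fun e => na (e ▸ hu)) fun h3 => ?_
      exact T'.asym _ _ fas ((cu a na).1 h3)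
    have hC2 : T.C4 y b a u := ⟨yb, h1.hba, hau, hu1.hb⟩
    obtain ⟨s2, m0, -, -, m3, -, m5⟩ := h.img3 ny nb na hC2
    have hs2 : T'.Ghost s2 := m5.1 hu
    have hs2at : T'.GhostAt s2 (f y) (f b) := by
      rcases ghost_arc hT' hn' hs2 m0 with ⟨-, h2⟩ | ⟨-, h2⟩
      · exact absurd ⟨s2, hs2, h2⟩ hno
      · exact h2
    have e : s2 = s := GhostAt.eq hT' hn' hs2 hs hs2at hsat
    subst e
    have e2 := ψ.inj (p := (a, v)) (q := (a, u)) h1.ha hau (by rw [k3, m3])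
    simp only [Prod.mk.injEq, true_and] at e2
    subst e2
    exact T.ne yb (h1.inj_arc hu1).1.symm
  · intro z nz
    constructor
    · intro hsz
      have hzb : z ≠ b := by
        rintro rfl
        exact T'.asym _ _ hsz fbs
      refine ⟨?_, hzb⟩
      by_contra hvz
      have hzv : T.R z v := T.of_not (fun e => nz (e ▸ hv)) hvz
      have hza : z ≠ a := by
        rintro rfl
        exact T'.asym _ _ hsz fas
      have hbz : ¬ T.R b z := fun h3 => hza (h1.uniq b z h1.hb hzv h3).2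
      have hzb' : T.R z b := T.of_not hzb.symm hbz
      have h4 := (agree hT hT' hn hn' h z b nz nb).1 hzb'
      have h5 := (hsat.uniq (f z) (f b) hsz fbs h4).1
      have h6 : z = y := by rw [← h.gf z nz, h5, h.gf y ny]
      subst h6
      exact T.asym _ _ hzv vy
    · rintro ⟨hvz, hzb⟩
      by_contra hsz
      have hfz : T'.R (f z) s := T'.of_not (fun e => h.fS z nz (e ▸ hs)) hsz
      have hzy : z ≠ y := by
        rintro rfl
        exact hsz hsat.hb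
      have hbz : T.R b z := T.of_not hzb fun h3 => hzy (h1.Lu z y hvz h3 vy yb)
      have h4 := (agree hT hT' hn hn' h b z nb nz).1 hbz
      have h7 := (agree hT hT' hn hn' h b a nb na).1 h1.hba
      have h5 := hsat.Ru (f z) (f a) hfz h4 fas h7
      have h6 : z = a := by rw [← h.gf z nz, h5, h.gf a na]
      subst h6
      exact T.asym _ _ hvz h1.ha

open Tour in
theorem prop_fwd [Finite V] [Finite W] (hT : T.Strong) (hT' : T'.Strong) (hn : 6 ≤ Nat.card V)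
    (hn' : 6 ≤ Nat.card W) {ψ : Phi T T'} {f : V → W} {g : W → V} (h : CohData ψ f g) {v b a : V}
    (hv : T.Ghost v) (h1 : T.GhostAt v b a) (hno : ¬ ∃ w, T'.Ghost w ∧ T'.GhostAt w (f b) (f a))
    (hz : ∃ z, z ≠ a ∧ T.R z v) :
    ∃ x s, ¬ T.Ghost x ∧ T.R x v ∧ T.R a x ∧ T'.Ghost s ∧ T'.GhostAt s (f a) (f x) ∧
      (¬ ∃ u, T.Ghost u ∧ T.GhostAt u a x) ∧ ∀ z, ¬ T.Ghost z → (T'.R s (f z) ↔ T.R v z ∨ z = a) := by
  obtain ⟨x, s, k1, k2, k3, k4, k5, k6, k7⟩ := prop_back (T := T.conv) (T' := T'.conv)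
    (conv_strong hT) (conv_strong hT') hn hn' h.conv (v := v) (b := a) (a := b)
    (ghost_conv.2 hv) h1.conv
    (by
      rintro ⟨w, hw1, hw2⟩
      exact hno ⟨w, ghost_conv.1 hw1, hw2.of_conv⟩) hz
  rw [ghost_conv] at k1 k4
  refine ⟨x, s, k1, k2, k3, k4, k5.of_conv, ?_, ?_⟩
  · rintro ⟨u, hu1, hu2⟩
    exact k6 ⟨u, ghost_conv.2 hu1, hu2.conv⟩
  · intro z nz
    have h8 := k7 z (by rw [ghost_conv]; exact nz)
    simp only [conv_R] at h8
    have nsz : f z ≠ s := fun e => h.fS z nz (e ▸ k4)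
    have nvz : z ≠ v := fun e => nz (e ▸ hv)
    have a1 : T'.R s (f z) ↔ ¬ T'.R (f z) s :=
      ⟨fun h3 => T'.asym _ _ h3, fun h3 => T'.of_not nsz h3⟩
    have a2 : T.R v z ↔ ¬ T.R z v := ⟨fun h3 => T.asym _ _ h3, fun h3 => T.of_not nvz h3⟩
    rw [a1, h8, a2]
    tauto

end Pool.Agent.Helper98.FC
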