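import Pool.Agent.Helper98.FC.Inc

/-!
# Removing reversed 3-cycle modules
-/

namespace Pool.Agent.Helper98.FC

universe u v

variable {V : Type u} {W : Type v} {T : Tour V} {T' : Tour W}

namespace M3

variable {φ : Phi T T'} {b a m0 m1 m2 : V} {b' a' n0 n1 n2 : W}

theorem rot (h : M3 φ b a m0 m1 m2 b' a' n0 n1 n2) : M3 φ b a m1 m2 m0 b' a' n2 n0 n1 :=
  ⟨h.hba, h.a1, h.a2, h.a0, h.b1, h.b2, h.b0, h.m12, h.m20, h.m01, h.fba, h.fa1, h.fa2, h.fa0, h.f1b, h.f2b, h.f0b,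
    h.f12, h.f20, h.f01⟩

theorem nn (h : M3 φ b a m0 m1 m2 b' a' n0 n1 n2) : n0 ≠ n1 ∧ n1 ≠ n2 ∧ n0 ≠ n2 := by
  have h1 := (φ.gof h.m01 h.f01).2
  have h2 := (φ.gof h.m12 h.f12).2
  have h3 := (φ.gof h.m20 h.f20).2
  exact ⟨T'.ne h1, T'.ne h3, (T'.ne h2).symm⟩

theorem mm (h : M3 φ b a m0 m1 m2 b' a' n0 n1 n2) : m0 ≠ m1 ∧ m1 ≠ m2 ∧ m0 ≠ m2 :=
  ⟨T.ne h.m01, T.ne h.m12, (T.ne h.m20).symm⟩

theorem abm (h : M3 φ b a m0 m1 m2 b' a' n0 n1 n2) : a ≠ m0 ∧ a ≠ m1 ∧ a ≠ m2 ∧ b ≠ m0 ∧ b ≠ m1 ∧ b ≠ m2 ∧ a ≠ b :=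
  ⟨T.ne h.a0, T.ne h.a1, T.ne h.a2, (T.ne h.b0).symm, (T.ne h.b1).symm, (T.ne h.b2).symm, (T.ne h.hba).symm⟩

theorem nomix (hP : φ.Pos) (h : M3 φ b a m0 m1 m2 b' a' n0 n1 n2) {z : V} (h1 : T.R m0 z) (h2 : T.R z m1) : False := by
  obtain ⟨r, t, o0, o1, o2, o3⟩ := hP.img' (a := m1) (b := m2) (c := m0) (d := z) ⟨h.m12, h.m20, h1, h2⟩ h.f12
  rw [h.f20] at o1
  have := h.nn
  grind

theorem mod (hP : φ.Pos) (h : M3 φ b a m0 m1 m2 b' a' n0 n1 n2) {z : V} (z0 : z ≠ m0) (z1 : z ≠ m1) (z2 : z ≠ m2) :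
    (T.R z m0 ↔ T.R z m1) ∧ (T.R z m1 ↔ T.R z m2) ∧ (T.R m0 z ↔ T.R m1 z) ∧ (T.R m1 z ↔ T.R m2 z) := by
  have a1 : T.R z m1 → T.R z m0 := fun hh => T.of_not z0.symm fun h' => h.nomix hP h' hh
  have a2 : T.R z m2 → T.R z m1 := fun hh => T.of_not z1.symm fun h' => h.rot.nomix hP h' hh
  have a3 : T.R z m0 → T.R z m2 := fun hh => T.of_not z2.symm fun h' => h.rot.rot.nomix hP h' hh
  have e : ∀ x, z ≠ x → (T.R x z ↔ ¬ T.R z x) := fun x hx =>
      ⟨fun hh h' => T.asym _ _ hh h', fun hh => T.of_not hx hh⟩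
  rw [e m0 z0, e m1 z1, e m2 z2]
  tauto

theorem back (hP : φ.Pos) (h : M3 φ b a m0 m1 m2 b' a' n0 n1 n2) {p q : V} (p0 : p ≠ m0) (p1 : p ≠ m1) (p2 : p ≠ m2)
    (q0 : q ≠ m0) (q1 : q ≠ m1) (q2 : q ≠ m2) (h1 : T.R m0 p) (h2 : T.R p q) (h3 : T.R q m0) : p = b ∧ q = a := by
  have mp := h.mod hP p0 p1 p2
  have mq := h.mod hP q0 q1 q2
  have hn := h.nn
  obtain ⟨r, t, o0, o1, o2, o3⟩ := hP.img' (a := m0) (b := m1) (c := p) (d := q) ⟨h.m01, mp.2.2.1.1 h1, h2, h3⟩ h.f01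
  obtain ⟨r', t', o0', o1', o2', o3'⟩ := hP.img' (a := m2) (b := m0) (c := p) (d := q)
    ⟨h.m20, h1, h2, mq.2.1.1 (mq.1.1 h3)⟩ h.f20
  have hqa : q = a := by
    by_contra hne
    rcases T.tot a q (Ne.symm hne) with m | m
    · obtain ⟨u, w, l0, l1, l2, l3⟩ := hP.img' (a := m0) (b := b) (c := a) (d := q) ⟨h.b0, h.hba, m, h3⟩ h.f0b
      rw [o3] at l3
      grind
    · obtain ⟨u, w, l0, l1, l2, l3⟩ := hP.img' (a := m0) (b := p) (c := q) (d := a) ⟨h1, h2, m, h.a0⟩ o1'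
      rw [h.fa0] at l3
      grind
  subst hqa
  refine ⟨?_, rfl⟩
  by_contra hne
  rcases T.tot b p (Ne.symm hne) with m | m
  · obtain ⟨u, w, l0, l1, l2, l3⟩ := hP.img' (a := m0) (b := b) (c := p) (d := q) ⟨h.b0, m, h2, h3⟩ h.f0b
    rw [h.fa0] at l3
    grind
  · obtain ⟨u, w, l0, l1, l2, l3⟩ := hP.img' (a := m0) (b := p) (c := b) (d := q) ⟨h1, m, h.hba, h3⟩ o1'
    rw [h.fa0] at l3
    grind

end M3

section rho

variable (b a m0 m1 m2 : V)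

/-- membership in the module -/
def InM (z : V) : Prop := z = m0 ∨ z = m1 ∨ z = m2

open Classical in
noncomputable def al (z : V) : V := if z = m1 then m2 else if z = m2 then m1 else z

open Classical in
noncomputable def be (z : V) : V := if z = m0 then m2 else if z = m2 then m0 else z

open Classical in
noncomputable def rho (p : V × V) : V × V :=
  if InM m0 m1 m2 p.1 then
    (if InM m0 m1 m2 p.2 then (al m1 m2 p.1, be m0 m2 p.2) else
      if p.2 = b then (be m0 m2 p.1, p.2) else (al m1 m2 p.1, p.2))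
  else if InM m0 m1 m2 p.2 then (if p.1 = a then (p.1, al m1 m2 p.2) else (p.1, be m0 m2 p.2)) else p

end rho

namespace M3

variable {φ : Phi T T'} {b a m0 m1 m2 : V} {b' a' n0 n1 n2 : W}

theorem al0 (h : M3 φ b a m0 m1 m2 b' a' n0 n1 n2) : al m1 m2 m0 = m0 := by
  have := h.mm; simp [al]; grind
theorem al1 (_h : M3 φ b a m0 m1 m2 b' a' n0 n1 n2) : al m1 m2 m1 = m2 := by simp [al]
theorem al2 (h : M3 φ b a m0 m1 m2 b' a' n0 n1 n2) : al m1 m2 m2 = m1 := by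
  have := h.mm; simp [al]
theorem be0 (_h : M3 φ b a m0 m1 m2 b' a' n0 n1 n2) : be m0 m2 m0 = m2 := by simp [be]
theorem be1 (h : M3 φ b a m0 m1 m2 b' a' n0 n1 n2) : be m0 m2 m1 = m1 := by
  have := h.mm; simp [be]; grind
theorem be2 (h : M3 φ b a m0 m1 m2 b' a' n0 n1 n2) : be m0 m2 m2 = m0 := by
  have := h.mm; simp [be]

theorem alM (h : M3 φ b a m0 m1 m2 b' a' n0 n1 n2) {z : V} (hz : InM m0 m1 m2 z) :
    InM m0 m1 m2 (al m1 m2 z) ∧ al m1 m2 (al m1 m2 z) = z := by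
  rcases hz with rfl | rfl | rfl
  · rw [h.al0, h.al0]; exact ⟨Or.inl rfl, rfl⟩
  · rw [h.al1, h.al2]; exact ⟨Or.inr (Or.inr rfl), rfl⟩
  · rw [h.al2, h.al1]; exact ⟨Or.inr (Or.inl rfl), rfl⟩

theorem beM (h : M3 φ b a m0 m1 m2 b' a' n0 n1 n2) {z : V} (hz : InM m0 m1 m2 z) :
    InM m0 m1 m2 (be m0 m2 z) ∧ be m0 m2 (be m0 m2 z) = z := by
  rcases hz with rfl | rfl | rfl
  · rw [h.be0, h.be2]; exact ⟨Or.inr (Or.inr rfl), rfl⟩
  · rw [h.be1, h.be1]; exact ⟨Or.inr (Or.inl rfl), rfl⟩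
  · rw [h.be2, h.be0]; exact ⟨Or.inl rfl, rfl⟩

theorem albe (h : M3 φ b a m0 m1 m2 b' a' n0 n1 n2) {z w : V} (hz : InM m0 m1 m2 z) (hw : InM m0 m1 m2 w)
    (hzw : T.R z w) : T.R (al m1 m2 z) (be m0 m2 w) := by
  have as := T.asym
  have ir := T.irr
  rcases hz with rfl | rfl | rfl <;> rcases hw with rfl | rfl | rfl
  · exact (ir _ hzw).elim
  · rw [h.al0, h.be1]; exact h.m01
  · exact (as _ _ hzw h.m20).elim
  · exact (as _ _ hzw h.m01).elim
  · exact (ir _ hzw).elim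
  · rw [h.al1, h.be2]; exact h.m20
  · rw [h.al2, h.be0]; exact h.m12
  · exact (as _ _ hzw h.m12).elim
  · exact (ir _ hzw).elim

/-- a vertex outside is not mixed on the module -/
theorem sameIn (hP : φ.Pos) (h : M3 φ b a m0 m1 m2 b' a' n0 n1 n2) {z m m' : V} (hz : ¬ InM m0 m1 m2 z)
    (hm : InM m0 m1 m2 m) (hm' : InM m0 m1 m2 m') (hh : T.R z m) : T.R z m' := by
  unfold InM at hz
  push Not at hz
  have := h.mod hP hz.1 hz.2.1 hz.2.2
  rcases hm with rfl | rfl | rfl <;> rcases hm' with rfl | rfl | rfl <;> tauto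

theorem sameOut (hP : φ.Pos) (h : M3 φ b a m0 m1 m2 b' a' n0 n1 n2) {z m m' : V} (hz : ¬ InM m0 m1 m2 z)
    (hm : InM m0 m1 m2 m) (hm' : InM m0 m1 m2 m') (hh : T.R m z) : T.R m' z := by
  unfold InM at hz
  push Not at hz
  have := h.mod hP hz.1 hz.2.1 hz.2.2
  rcases hm with rfl | rfl | rfl <;> rcases hm' with rfl | rfl | rfl <;> tauto

theorem aM (h : M3 φ b a m0 m1 m2 b' a' n0 n1 n2) : ¬ InM m0 m1 m2 a := by
  have := h.abm
  unfold InM
  grind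

theorem bM (h : M3 φ b a m0 m1 m2 b' a' n0 n1 n2) : ¬ InM m0 m1 m2 b := by
  have := h.abm
  unfold InM
  grind

theorem rho_arc (hP : φ.Pos) (h : M3 φ b a m0 m1 m2 b' a' n0 n1 n2) (p : V × V) (hp : T.R p.1 p.2) :
    T.R (rho b a m0 m1 m2 p).1 (rho b a m0 m1 m2 p).2 := by
  obtain ⟨p, q⟩ := p
  simp only at hp
  unfold rho
  simp only
  split_ifs with c1 c2 c3 c4 c5
  · exact h.albe c1 c2 hp
  · exact h.sameOut hP c2 c1 (h.beM c1).1 hp
  · exact h.sameOut hP c2 c1 (h.alM c1).1 hp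
  · exact h.sameIn hP c1 c4 (h.alM c4).1 hp
  · exact h.sameIn hP c1 c4 (h.beM c4).1 hp
  · exact hp

theorem rho_inv (h : M3 φ b a m0 m1 m2 b' a' n0 n1 n2) (p : V × V) :
    rho b a m0 m1 m2 (rho b a m0 m1 m2 p) = p := by
  obtain ⟨p, q⟩ := p
  by_cases c1 : InM m0 m1 m2 p
  · have a1 := h.alM c1
    have b1 := h.beM c1
    by_cases c2 : InM m0 m1 m2 q
    · have b2 := h.beM c2
      have e : rho b a m0 m1 m2 (p, q) = (al m1 m2 p, be m0 m2 q) := by simp [rho, c1, c2]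
      rw [e]
      simp [rho, a1.1, b2.1, a1.2, b2.2]
    · by_cases c3 : q = b
      · subst c3
        have e : rho q a m0 m1 m2 (p, q) = (be m0 m2 p, q) := by simp [rho, c1, c2]
        rw [e]
        simp [rho, b1.1, b1.2, c2]
      · have e : rho b a m0 m1 m2 (p, q) = (al m1 m2 p, q) := by simp [rho, c1, c2, c3]
        rw [e]
        simp [rho, a1.1, a1.2, c2, c3]
  · by_cases c2 : InM m0 m1 m2 q
    · have a2 := h.alM c2
      have b2 := h.beM c2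
      by_cases c3 : p = a
      · subst c3
        have e : rho b p m0 m1 m2 (p, q) = (p, al m1 m2 q) := by simp [rho, c1, c2]
        rw [e]
        simp [rho, a2.1, a2.2, c1]
      · have e : rho b a m0 m1 m2 (p, q) = (p, be m0 m2 q) := by simp [rho, c1, c2, c3]
        rw [e]
        simp [rho, b2.1, b2.2, c1, c3]
    · have e : rho b a m0 m1 m2 (p, q) = (p, q) := by simp [rho, c1, c2]
      rw [e, e]

/-- the image of a circuit under `rho` is a circuit, in the same cyclic order -/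
def RImg (T : Tour V) (b a m0 m1 m2 : V) (p q r s : V) : Prop := ∃ p' q' r' s', T.C4 p' q' r' s' ∧
  rho b a m0 m1 m2 (p, q) = (p', q') ∧ rho b a m0 m1 m2 (q, r) = (q', r') ∧ rho b a m0 m1 m2 (r, s) = (r', s') ∧
  rho b a m0 m1 m2 (s, p) = (s', p')

theorem RImg.rot {b a m0 m1 m2 p q r s : V} (h : RImg T b a m0 m1 m2 p q r s) : RImg T b a m0 m1 m2 q r s p := by
  obtain ⟨p', q', r', s', h1, h2, h3, h4, h5⟩ := h
  exact ⟨q', r', s', p', h1.rot, h3, h4, h5, h2⟩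

theorem back' (hP : φ.Pos) (h : M3 φ b a m0 m1 m2 b' a' n0 n1 n2) {m p q : V} (hm : InM m0 m1 m2 m)
    (hp : ¬ InM m0 m1 m2 p) (hq : ¬ InM m0 m1 m2 q) (h1 : T.R m p) (h2 : T.R p q) (h3 : T.R q m) : p = b ∧ q = a := by
  have k1 := h.sameOut hP hp hm (Or.inl rfl) h1
  have k3 := h.sameIn hP hq hm (Or.inl rfl) h3
  unfold InM at hp hq
  push Not at hp hq
  exact h.back hP hp.1 hp.2.1 hp.2.2 hq.1 hq.2.1 hq.2.2 k1 h2 k3

/-- circuits starting in the module, ending outside -/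
theorem kinds (hP : φ.Pos) (h : M3 φ b a m0 m1 m2 b' a' n0 n1 n2) {p q r s : V} (hC : T.C4 p q r s)
    (hp : InM m0 m1 m2 p) (hs : ¬ InM m0 m1 m2 s) : (q = b ∧ r = a ∧ s ≠ a) ∨ (¬ InM m0 m1 m2 q ∧ q ≠ b ∧ r = b ∧ s = a) ∨
      (InM m0 m1 m2 q ∧ r = b ∧ s = a) := by
  have n := hC.nes
  by_cases hq : InM m0 m1 m2 q
  · right; right
    have hr : ¬ InM m0 m1 m2 r := by
      intro hr
      have := h.sameIn hP hs hp hr hC.2.2.2
      exact T.asym _ _ this hC.2.2.1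
    have k := h.sameOut hP hr hq hp hC.2.1
    obtain ⟨rfl, rfl⟩ := h.back' hP hp hr hs k hC.2.2.1 hC.2.2.2
    exact ⟨hq, rfl, rfl⟩
  · have hr : ¬ InM m0 m1 m2 r := by
      intro hr
      have := h.sameOut hP hq hp hr hC.1
      exact T.asym _ _ this hC.2.1
    rcases T.tot r p n.2.1.symm with k | k
    · obtain ⟨rfl, rfl⟩ := h.back' hP hp hq hr hC.1 hC.2.1 k
      exact Or.inl ⟨rfl, rfl, n.2.2.2.2.2.symm⟩
    · obtain ⟨rfl, rfl⟩ := h.back' hP hp hr hs k hC.2.2.1 hC.2.2.2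
      exact Or.inr (Or.inl ⟨hq, n.2.2.2.1, rfl, rfl⟩)

theorem rimg1 (hP : φ.Pos) (h : M3 φ b a m0 m1 m2 b' a' n0 n1 n2) {p q r s : V} (hC : T.C4 p q r s)
    (hp : InM m0 m1 m2 p) (hs : ¬ InM m0 m1 m2 s) : RImg T b a m0 m1 m2 p q r s := by
  have hA := h.aM
  have hB := h.bM
  have nab := h.abm.2.2.2.2.2.2
  have ap := h.alM hp
  have bp := h.beM hp
  rcases h.kinds hP hC hp hs with ⟨rfl, rfl, h3⟩ | ⟨h1, h2, rfl, rfl⟩ | ⟨h1, rfl, rfl⟩
  · refine ⟨be m0 m2 p, q, r, s, ⟨?_, hC.2.1, hC.2.2.1, ?_⟩, ?_, ?_, ?_, ?_⟩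
    · exact h.sameOut hP hB hp bp.1 hC.1
    · exact h.sameIn hP hs hp bp.1 hC.2.2.2
    · simp [rho, hp, hB]
    · simp [rho, hA, hB]
    · simp [rho, hA, hs]
    · simp [rho, hs, hp, h3]
  · refine ⟨al m1 m2 p, q, r, s, ⟨?_, hC.2.1, hC.2.2.1, ?_⟩, ?_, ?_, ?_, ?_⟩
    · exact h.sameOut hP h1 hp ap.1 hC.1
    · exact h.sameIn hP hs hp ap.1 hC.2.2.2
    · simp [rho, hp, h1, h2]
    · simp [rho, h1, hB]
    · simp [rho, hA, hB]
    · simp [rho, hs, hp]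
  · have bq := h.beM h1
    refine ⟨al m1 m2 p, be m0 m2 q, r, s, ⟨?_, ?_, hC.2.2.1, ?_⟩, ?_, ?_, ?_, ?_⟩
    · exact h.albe hp h1 hC.1
    · exact h.sameOut hP hB h1 bq.1 hC.2.1
    · exact h.sameIn hP hs hp ap.1 hC.2.2.2
    · simp [rho, hp, h1]
    · simp [rho, h1, hB]
    · simp [rho, hA, hB]
    · simp [rho, hs, hp]

theorem rimg (hP : φ.Pos) (h : M3 φ b a m0 m1 m2 b' a' n0 n1 n2) {p q r s : V} (hC : T.C4 p q r s) :
    RImg T b a m0 m1 m2 p q r s := by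
  have key : ∀ {p q r s : V}, T.C4 p q r s → InM m0 m1 m2 p → InM m0 m1 m2 q → InM m0 m1 m2 r → ¬ InM m0 m1 m2 s := by
    intro p q r s hC hp hq hr hs
    have n := hC.nes
    unfold InM at *
    grind
  by_cases hp : InM m0 m1 m2 p
  · by_cases hs : InM m0 m1 m2 s
    · by_cases hr : InM m0 m1 m2 r
      · have hq : ¬ InM m0 m1 m2 q := fun hq => key hC hp hq hr hs
        -- starts at r
        exact (h.rimg1 hP hC.rot.rot hr hq).rot.rot
      · exact (h.rimg1 hP hC.rot.rot.rot hs hr).rot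
    · exact h.rimg1 hP hC hp hs
  · by_cases hq : InM m0 m1 m2 q
    · exact (h.rimg1 hP hC.rot hq hp).rot.rot.rot
    · by_cases hr : InM m0 m1 m2 r
      · exact (h.rimg1 hP hC.rot.rot hr hq).rot.rot
      · by_cases hs : InM m0 m1 m2 s
        · exact (h.rimg1 hP hC.rot.rot.rot hs hr).rot
        · exact ⟨p, q, r, s, hC, by simp [rho, hp, hq], by simp [rho, hr, hq], by simp [rho, hr, hs],
            by simp [rho, hp, hs]⟩

/-- the corrected map -/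
noncomputable def fix (hP : φ.Pos) (h : M3 φ b a m0 m1 m2 b' a' n0 n1 n2) : Phi T T' :=
  φ.pre (rho b a m0 m1 m2) (h.rho_arc hP) (fun p _ => h.rho_inv p) (by
    intro p q r s hC
    obtain ⟨p', q', r', s', h1, h2, h3, h4, h5⟩ := h.rimg hP hC
    refine ⟨p', q', r', s', h1, ?_⟩
    rw [arcs4, arcs4, Set.image_insert_eq, Set.image_insert_eq, Set.image_insert_eq, Set.image_singleton, h2, h3, h4,
      h5])

theorem fix_f (hP : φ.Pos) (h : M3 φ b a m0 m1 m2 b' a' n0 n1 n2) (p : V × V) :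
    (h.fix hP).f p = φ.f (rho b a m0 m1 m2 p) := rfl

theorem fix_pos (hP : φ.Pos) (h : M3 φ b a m0 m1 m2 b' a' n0 n1 n2) : (h.fix hP).Pos := by
  intro p q r s hC
  obtain ⟨p', q', r', s', h1, h2, h3, h4, h5⟩ := h.rimg hP hC
  unfold Phi.P
  rw [h.fix_f, h.fix_f, h2, h3]
  exact hP _ _ _ _ h1

end M3

/-- all circuits through `v` have the same label at `v` -/
def Coh (φ : Phi T T') (v : V) : Prop := ∀ p c d p' c' d', T.C4 v p c d → T.C4 v p' c' d' →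
  (φ.f (v, p)).1 = (φ.f (v, p')).1

theorem Phi.Pos.lab {φ : Phi T T'} (hP : φ.Pos) {v p c d : V} (hC : T.C4 v p c d) :
    (φ.f (d, v)).2 = (φ.f (v, p)).1 := by
  obtain ⟨a, b, c, d, k0, k1, k2, k3, k4⟩ := hP.img hC
  rw [k1, k4]

namespace M3

variable {φ : Phi T T'} {b a m0 m1 m2 : V} {b' a' n0 n1 n2 : W}

theorem lab_out (hP : φ.Pos) (h : M3 φ b a m0 m1 m2 b' a' n0 n1 n2) {v p c d : V} (hv : ¬ InM m0 m1 m2 v)
    (hC : T.C4 v p c d) : ((h.fix hP).f (v, p)).1 = (φ.f (v, p)).1 := by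
  by_cases hp : InM m0 m1 m2 p
  · have hd : ¬ InM m0 m1 m2 d := by
      intro hd
      have := h.sameIn hP hv hp hd hC.1
      exact T.asym _ _ this hC.2.2.2
    rw [← (h.fix_pos hP).lab hC, ← hP.lab hC, h.fix_f]
    simp [rho, hd, hv]
  · rw [h.fix_f]
    simp [rho, hp, hv]

/-- the label of `m_i` for the corrected map -/
theorem lab_in (hP : φ.Pos) (h : M3 φ b a m0 m1 m2 b' a' n0 n1 n2) {v p c d : V} (hv : InM m0 m1 m2 v)
    (hC : T.C4 v p c d) : (v = m0 → ((h.fix hP).f (v, p)).1 = n0) ∧ (v = m1 → ((h.fix hP).f (v, p)).1 = n1) ∧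
      (v = m2 → ((h.fix hP).f (v, p)).1 = n2) := by
  have mm := h.mm
  have M0 : InM m0 m1 m2 m0 := Or.inl rfl
  have M1 : InM m0 m1 m2 m1 := Or.inr (Or.inl rfl)
  have M2 : InM m0 m1 m2 m2 := Or.inr (Or.inr rfl)
  have as := T.asym
  have ir := T.irr
  by_cases hp : InM m0 m1 m2 p
  · rw [h.fix_f]
    have e : rho b a m0 m1 m2 (v, p) = (al m1 m2 v, be m0 m2 p) := by simp [rho, hp, hv]
    rw [e]
    rcases hv with rfl | rfl | rfl
    · have : p = m1 := by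
        rcases hp with rfl | rfl | rfl
        · exact (ir _ hC.1).elim
        · rfl
        · exact (as _ _ hC.1 h.m20).elim
      subst this
      rw [h.al0, h.be1, h.f01]
      grind
    · have : p = m2 := by
        rcases hp with rfl | rfl | rfl
        · exact (as _ _ hC.1 h.m01).elim
        · exact (ir _ hC.1).elim
        · rfl
      subst this
      rw [h.al1, h.be2, h.f20]
      grind
    · have : p = m0 := by
        rcases hp with rfl | rfl | rfl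
        · rfl
        · exact (as _ _ hC.1 h.m12).elim
        · exact (ir _ hC.1).elim
      subst this
      rw [h.al2, h.be0, h.f12]
      grind
  · by_cases hpb : p = b
    · subst hpb
      rw [h.fix_f]
      have e : rho p a m0 m1 m2 (v, p) = (be m0 m2 v, p) := by simp [rho, hp, hv]
      rw [e]
      rcases hv with rfl | rfl | rfl
      · rw [h.be0, h.f2b]; grind
      · rw [h.be1, h.f1b]; grind
      · rw [h.be2, h.f0b]; grind
    · -- the circuit is `(v,p,b,a)`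
      have hd : ¬ InM m0 m1 m2 d := by
        intro hd
        have hc : ¬ InM m0 m1 m2 c := by
          intro hc
          have := h.sameOut hP hp hv hc hC.1
          exact as _ _ this hC.2.1
        have k1 := h.sameIn hP hc hd hv hC.2.2.1
        exact hpb (h.back' hP hv hp hc hC.1 hC.2.1 k1).1
      rcases h.kinds hP hC hv hd with ⟨h1, -⟩ | ⟨h1, h2, rfl, rfl⟩ | ⟨h1, -⟩
      · exact absurd h1 hpb
      · rw [← (h.fix_pos hP).lab hC, h.fix_f]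
        have e : rho c d m0 m1 m2 (d, v) = (d, al m1 m2 v) := by simp [rho, hd, hv]
        rw [e]
        rcases hv with rfl | rfl | rfl
        · rw [h.al0, h.fa0]; grind
        · rw [h.al1, h.fa2]; grind
        · rw [h.al2, h.fa1]; grind
      · exact absurd h1 hp

theorem fewer (hP : φ.Pos) (h : M3 φ b a m0 m1 m2 b' a' n0 n1 n2) : {v | ¬ Coh (h.fix hP) v} ⊂ {v | ¬ Coh φ v} := by
  constructor
  · intro v hv hc
    apply hv
    intro p c d p' c' d' h1 h2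
    by_cases hm : InM m0 m1 m2 v
    · have k1 := h.lab_in hP hm h1
      have k2 := h.lab_in hP hm h2
      rcases hm with e | e | e
      · rw [k1.1 e, k2.1 e]
      · rw [k1.2.1 e, k2.2.1 e]
      · rw [k1.2.2 e, k2.2.2 e]
    · rw [h.lab_out hP hm h1, h.lab_out hP hm h2]
      exact hc _ _ _ _ _ _ h1 h2
  · intro hsub
    have hm : m0 ∈ {v | ¬ Coh φ v} := by
      intro hc
      have := hc b a m2 m1 b a ⟨h.b0, h.hba, h.a2, h.m20⟩ ⟨h.m01, h.b1, h.hba, h.a0⟩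
      rw [h.f0b, h.f01] at this
      exact h.nn.2.2 this.symm
    apply hsub hm
    intro p c d p' c' d' h1 h2
    rw [(h.lab_in hP (Or.inl rfl) h1).1 rfl, (h.lab_in hP (Or.inl rfl) h2).1 rfl]

theorem symm (h : M3 φ b a m0 m1 m2 b' a' n0 n1 n2) : M3 φ.symm b' a' n0 n1 n2 b a m0 m1 m2 := by
  obtain ⟨g1, r1⟩ := φ.gof h.hba h.fba
  obtain ⟨g2, r2⟩ := φ.gof h.a0 h.fa0
  obtain ⟨g3, r3⟩ := φ.gof h.a1 h.fa1
  obtain ⟨g4, r4⟩ := φ.gof h.a2 h.fa2
  obtain ⟨g5, r5⟩ := φ.gof h.b0 h.f0b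
  obtain ⟨g6, r6⟩ := φ.gof h.b1 h.f1b
  obtain ⟨g7, r7⟩ := φ.gof h.b2 h.f2b
  obtain ⟨g8, r8⟩ := φ.gof h.m01 h.f01
  obtain ⟨g9, r9⟩ := φ.gof h.m12 h.f12
  obtain ⟨g10, r10⟩ := φ.gof h.m20 h.f20
  exact ⟨r1, r2, r4, r3, r7, r6, r5, r8, r10, r9, g1, g2, g4, g3, g7, g6, g5, g8, g10, g9⟩

end M3

/-- no reversed 3-cycle module -/
def NoM3 (φ : Phi T T') : Prop := ∀ b a m0 m1 m2 b' a' n0 n1 n2, ¬ M3 φ b a m0 m1 m2 b' a' n0 n1 n2

theorem NoM3.symm {φ : Phi T T'} (h : NoM3 φ) : NoM3 φ.symm := fun _ _ _ _ _ _ _ _ _ _ hh => h _ _ _ _ _ _ _ _ _ _ hh.symm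

/-- A positive map can be corrected to have no reversed module. -/
theorem exists_noM3 [Finite V] {φ : Phi T T'} (hP : φ.Pos) : ∃ ψ : Phi T T', ψ.Pos ∧ NoM3 ψ := by
  suffices H : ∀ n, ∀ φ : Phi T T', φ.Pos → {v | ¬ Coh φ v}.ncard = n → ∃ ψ : Phi T T', ψ.Pos ∧ NoM3 ψ from
    H _ φ hP rfl
  intro n
  induction n using Nat.strong_induction_on with
  | _ n ih =>
    intro φ hP hn
    by_cases hM : NoM3 φ
    · exact ⟨φ, hP, hM⟩
    · unfold NoM3 at hM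
      push Not at hM
      obtain ⟨b, a, m0, m1, m2, b', a', n0, n1, n2, h⟩ := hM
      exact ih _ (hn ▸ Set.ncard_lt_ncard (h.fewer hP) (Set.toFinite _)) (h.fix hP) (h.fix_pos hP) rfl

end Pool.Agent.Helper98.FC
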