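import Pool.Agent.Helper98.FC.Untwist2

/-!
# Untwisted maps: images of circuits
-/

namespace Pool.Agent.Helper98.FC

universe u v

variable {V : Type u} {W : Type v} {T : Tour V} {T' : Tour W}

namespace Phi

variable {φ : Phi T T'} {a b c d : V} {p q r s : W}

/-- the image of a positive circuit -/
theorem Unt.pimg (h : φ.Unt) (hC : T.C4 a b c d) (e1 : φ.f (a, b) = (p, q)) (e2 : φ.f (b, c) = (q, r)) :
    ∃ s, φ.f (c, d) = (r, s) ∧ φ.f (d, a) = (s, p) ∧ T'.C4 p q r s := by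
  obtain ⟨z, w, h3, h4, -⟩ := φ.img1 hC e1
  have m2 := h4 (b, c) (by simp [arcs4])
  have m3 := h4 (c, d) (by simp [arcs4])
  have m4 := h4 (d, a) (by simp [arcs4])
  have s1 := h.sgn hC
  have n := h3.nes
  rw [e2, mem_arcs4] at m2
  have hz : r = z := by grind
  subst hz
  refine ⟨w, ?_⟩
  unfold Phi.P Phi.N at s1
  rw [e1, e2] at s1
  generalize φ.f (c, d) = o at *
  generalize φ.f (d, a) = t at *
  obtain ⟨o1, o2⟩ := o
  obtain ⟨t1, t2⟩ := t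
  simp only [mem_arcs4, Prod.mk.injEq] at *
  grind

/-- the image of a negative circuit -/
theorem Unt.nimg (h : φ.Unt) (hC : T.C4 a b c d) (e1 : φ.f (a, b) = (p, q)) (e2 : φ.f (b, c) = (r, p)) :
    ∃ s, φ.f (c, d) = (s, r) ∧ φ.f (d, a) = (q, s) ∧ T'.C4 p q s r := by
  have e1' : φ.convR.f (a, b) = (q, p) := by simp [e1]
  have e2' : φ.convR.f (b, c) = (p, r) := by simp [e2]
  obtain ⟨s, h1, h2, h3⟩ := h.convR.pimg hC e1' e2'
  simp only [convR_f, Prod.swap_eq_iff_eq_swap, Prod.swap_prod_mk] at h1 h2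
  exact ⟨s, h1, h2, ((Tour.conv_C4 _ _ _ _ _).1 h3).rot.rot⟩

/-- consecutive arcs of a circuit have consecutive images -/
theorem Unt.cns' (h : φ.Unt) (hC : T.C4 a b c d) (e1 : φ.f (a, b) = (p, q)) (e2 : φ.f (b, c) = (r, s)) :
    q = r ∨ s = p := by
  have := h a b c d hC
  unfold Cns at this
  rw [e1, e2] at this
  exact this

/-- opposite arcs of a circuit have opposite images -/
theorem Unt.opp2 (h : φ.Unt) (hC : T.C4 a b c d) (e1 : φ.f (a, b) = (p, q)) (e2 : φ.f (c, d) = (r, s)) :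
    T'.C4 p q r s ∧ ((φ.f (b, c) = (q, r) ∧ φ.f (d, a) = (s, p)) ∨ (φ.f (b, c) = (s, p) ∧ φ.f (d, a) = (q, r))) := by
  obtain ⟨x, y, z, w, h3⟩ : ∃ x y z w, (φ.f (b, c) = (x, y) ∧ φ.f (d, a) = (z, w)) := ⟨_, _, _, _, rfl, rfl⟩
  rcases h.cns' hC e1 h3.1 with h1 | h1
  · subst h1
    obtain ⟨t, h4, h5, h6⟩ := h.pimg hC e1 h3.1
    rw [e2] at h4
    simp only [Prod.mk.injEq] at h4
    obtain ⟨rfl, rfl⟩ := h4
    exact ⟨h6, Or.inl ⟨h3.1, h5⟩⟩
  · subst h1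
    obtain ⟨t, h4, h5, h6⟩ := h.nimg hC e1 h3.1
    rw [e2] at h4
    simp only [Prod.mk.injEq] at h4
    obtain ⟨rfl, rfl⟩ := h4
    exact ⟨h6, Or.inr ⟨h3.1, h5⟩⟩

/-- the sign is rotation invariant -/
theorem Unt.P_iff (h : φ.Unt) (hC : T.C4 a b c d) : φ.P a b c ↔ φ.P b c d := by
  rcases h.sgn hC with h1 | h1
  · exact ⟨fun _ => h1.2.1, fun _ => h1.1⟩
  · have n1 := φ.not_P_and_N hC.1 hC.2.1
    have n2 := φ.not_P_and_N hC.2.1 hC.2.2.1
    exact ⟨fun hh => (n1 ⟨hh, h1.1⟩).elim, fun hh => (n2 ⟨hh, h1.2.1⟩).elim⟩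

theorem Unt.not_P (h : φ.Unt) (hC : T.C4 a b c d) : ¬ φ.P a b c ↔ φ.N a b c := by
  rcases h.sgn hC with h1 | h1
  · have n1 := φ.not_P_and_N hC.1 hC.2.1
    exact ⟨fun hh => (hh h1.1).elim, fun hh => (n1 ⟨h1.1, hh⟩).elim⟩
  · have n1 := φ.not_P_and_N hC.1 hC.2.1
    exact ⟨fun _ => h1.1, fun hh h2 => n1 ⟨h2, hh⟩⟩

theorem Unt.N_iff (h : φ.Unt) (hC : T.C4 a b c d) : φ.N a b c ↔ φ.N b c d := by
  rw [← h.not_P hC, ← h.not_P hC.rot, h.P_iff hC]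

theorem Unt.symm (h : φ.Unt) : φ.symm.Unt := by
  intro w x y z hC
  obtain ⟨c, d, h3, h4, -⟩ := φ.symm.img1 hC (x := (φ.g (w, x)).1) (y := (φ.g (w, x)).2) rfl
  have m2 := h4 (x, y) (by simp [arcs4])
  have n := h3.nes
  have n' := hC.nes
  have g1 := φ.fg (w, x) hC.1
  have g2 := φ.fg (x, y) hC.2.1
  unfold Cns
  simp only [symm_f] at *
  generalize φ.g (w, x) = o at *
  generalize φ.g (x, y) = t at *
  obtain ⟨o1, o2⟩ := o
  obtain ⟨t1, t2⟩ := t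
  simp only [mem_arcs4] at *
  rcases m2 with ⟨rfl, rfl⟩ | ⟨rfl, rfl⟩ | ⟨rfl, rfl⟩ | ⟨rfl, rfl⟩
  · rw [g1] at g2
    simp only [Prod.mk.injEq] at g2
    exact absurd g2.1 n'.1
  · exact Or.inl rfl
  · have := (h.opp2 h3 g1 g2).1.nes
    grind
  · exact Or.inr rfl

end Phi

/-- criterion for flippability -/
theorem flip_crit {t1 h1 t2 h2 : V} (hC : T.C4 t1 h1 t2 h2)
    (hT : ∀ z, z ≠ t1 → z ≠ h1 → z ≠ t2 → z ≠ h2 → (T.R z t1 ↔ T.R z t2))
    (hH : ∀ z, z ≠ t1 → z ≠ h1 → z ≠ t2 → z ≠ h2 → (T.R z h1 ↔ T.R z h2))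
    (hA : ∀ z, T.R t1 z → T.R t2 z → T.R z h1 → T.R z h2 → False)
    (hK : ∀ k s, T.R t1 k → T.R t2 k → T.R h1 k → T.R h2 k → T.R s t1 → T.R s t2 → T.R s h1 → T.R s h2 → T.R k s →
      False) : T.Flip t1 h1 t2 h2 := by
  have key : ∀ {t1 h1 t2 h2 : V}, T.C4 t1 h1 t2 h2 →
      (∀ z, z ≠ t1 → z ≠ h1 → z ≠ t2 → z ≠ h2 → (T.R z t1 ↔ T.R z t2)) →
      (∀ z, z ≠ t1 → z ≠ h1 → z ≠ t2 → z ≠ h2 → (T.R z h1 ↔ T.R z h2)) →
      (∀ z, T.R t1 z → T.R t2 z → T.R z h1 → T.R z h2 → False) →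
      (∀ k s, T.R t1 k → T.R t2 k → T.R h1 k → T.R h2 k → T.R s t1 → T.R s t2 → T.R s h1 → T.R s h2 → T.R k s →
      False) → T.U h1 t2 h2 t1 := by
    intro t1 h1 t2 h2 hC hT hH hA hK x y hD
    have n := hC.nes
    have n' := hD.nes
    obtain ⟨c1, c2, c3, c4⟩ := hC
    obtain ⟨d1, d2, d3, d4⟩ := hD
    have as := T.asym
    have tt := T.tot
    -- x ∈ {h2, t1} or outside
    by_cases hx1 : x = h2
    · subst hx1
      refine ⟨rfl, ?_⟩
      by_contra hy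
      -- y outside (y ≠ t2, h1, x), h2 → y → h1
      have : T.R y h1 ↔ T.R y x := hH y hy n'.2.2.1.symm n'.2.2.2.2.1.symm n'.2.2.2.2.2.symm
      exact as _ _ d3 (this.1 d4)
    · exfalso
      by_cases hx2 : x = t1
      · subst hx2
        have hy2 : y ≠ h2 := by rintro rfl; exact as _ _ d3 c4
        have e1 := hT y n'.2.2.2.2.2.symm n'.2.2.1.symm n'.2.2.2.2.1.symm hy2
        have e2 := hH y n'.2.2.2.2.2.symm n'.2.2.1.symm n'.2.2.2.2.1.symm hy2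
        have : T.R t2 y := T.of_not n'.2.2.2.2.1.symm fun hh => as _ _ d3 (e1.2 hh)
        exact hA y d3 this d4 (e2.1 d4)
      · have t1x : T.R t1 x := T.of_not hx2 fun hh => by
          have := (hT x hx2 n'.2.1.symm n'.2.2.2.1.symm hx1).1 hh
          exact as _ _ d2 this
        by_cases hy1 : y = t1
        · subst hy1
          exact as _ _ d3 t1x
        by_cases hy2 : y = h2
        · subst hy2
          have := (hH x hx2 n'.2.1.symm n'.2.2.2.1.symm hx1).2 d3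
          exact hA x t1x d2 this d3
        have e1 := hT y hy1 n'.2.2.1.symm n'.2.2.2.2.1.symm hy2
        have e2 := hH y hy1 n'.2.2.1.symm n'.2.2.2.2.1.symm hy2
        have e3 := hH x hx2 n'.2.1.symm n'.2.2.2.1.symm hx1
        have yh2 := e2.1 d4
        -- x → h1 ?
        by_cases xh : T.R x h1
        · exact hA x t1x d2 xh (e3.1 xh)
        have h1x : T.R h1 x := T.of_not n'.2.1.symm xh
        have h2x : T.R h2 x := T.of_not hx1 fun hh => xh (e3.2 hh)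
        by_cases yt : T.R y t1
        · exact hK x y t1x d2 h1x h2x yt (e1.1 yt) d4 yh2 d3
        have t1y : T.R t1 y := T.of_not hy1 yt
        have t2y : T.R t2 y := T.of_not n'.2.2.2.2.1.symm fun hh => yt (e1.2 hh)
        exact hA y t1y t2y d4 yh2
  refine ⟨hC, key hC hT hH hA hK, ?_⟩
  have := key hC.rot.rot (fun z q1 q2 q3 q4 => (hT z q3 q4 q1 q2).symm) (fun z q1 q2 q3 q4 => (hH z q3 q4 q1 q2).symm)
    (fun z q1 q2 q3 q4 => hA z q2 q1 q4 q3) (fun k s q1 q2 q3 q4 q5 q6 q7 q8 q9 => hK k s q2 q1 q4 q3 q6 q5 q8 q7 q9)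
  exact this

end Pool.Agent.Helper98.FC
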