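import Pool.Agent.Helper98.FC.Lab

/-!
# Swapping parallel free joints: a positive map with coherent labels
-/

namespace Pool.Agent.Helper98.FC

universe u v

variable {V : Type u} {W : Type v} {T : Tour V} {T' : Tour W}

open Classical in
/-- exchange the joints `a → v → y` and `a → k → y` -/
noncomputable def jsw (v k y a : V) (p : V × V) : V × V :=
  if p = (a, v) then (a, k) else if p = (a, k) then (a, v) else if p = (v, y) then (k, y) else
    if p = (k, y) then (v, y) else p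

/-- parallel free joints -/
structure Par (T : Tour V) (v k y b a : V) : Prop where
  C1 : T.C4 v y b a
  C2 : T.C4 k y b a
  F1 : Fr T v y b a
  F2 : Fr T k y b a
  ne : v ≠ k

namespace Par

variable {v k y b a : V}

theorem swap (h : Par T v k y b a) : Par T k v y b a := ⟨h.C2, h.C1, h.F2, h.F1, h.ne.symm⟩

theorem av (_h : Par T v k y b a) : jsw v k y a (a, v) = (a, k) := by simp [jsw]

theorem ak (h : Par T v k y b a) : jsw v k y a (a, k) = (a, v) := by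
  have := h.ne
  simp [jsw, this.symm]

theorem vy (h : Par T v k y b a) : jsw v k y a (v, y) = (k, y) := by
  have n1 := h.C1.nes
  have n2 := h.C2.nes
  simp [jsw, n1.2.2.1]

theorem ky (h : Par T v k y b a) : jsw v k y a (k, y) = (v, y) := by
  have n1 := h.C1.nes
  have n2 := h.C2.nes
  have := h.ne
  simp [jsw, n2.2.2.1, this.symm]

theorem oth (_h : Par T v k y b a) {p : V × V} (h1 : p ≠ (a, v)) (h2 : p ≠ (a, k)) (h3 : p ≠ (v, y))
    (h4 : p ≠ (k, y)) : jsw v k y a p = p := by simp [jsw, h1, h2, h3, h4]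

theorem inv (h : Par T v k y b a) (p : V × V) : jsw v k y a (jsw v k y a p) = p := by
  by_cases h1 : p = (a, v)
  · subst h1; rw [h.av, h.ak]
  by_cases h2 : p = (a, k)
  · subst h2; rw [h.ak, h.av]
  by_cases h3 : p = (v, y)
  · subst h3; rw [h.vy, h.ky]
  by_cases h4 : p = (k, y)
  · subst h4; rw [h.ky, h.vy]
  rw [h.oth h1 h2 h3 h4, h.oth h1 h2 h3 h4]

theorem arc (h : Par T v k y b a) (p : V × V) (hp : T.R p.1 p.2) :
    T.R (jsw v k y a p).1 (jsw v k y a p).2 := by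
  by_cases h1 : p = (a, v)
  · subst h1; rw [h.av]; exact h.C2.2.2.2
  by_cases h2 : p = (a, k)
  · subst h2; rw [h.ak]; exact h.C1.2.2.2
  by_cases h3 : p = (v, y)
  · subst h3; rw [h.vy]; exact h.C2.1
  by_cases h4 : p = (k, y)
  · subst h4; rw [h.ky]; exact h.C1.1
  rw [h.oth h1 h2 h3 h4]; exact hp

/-- the image of a circuit under `jsw` -/
def JImg (T : Tour V) (v k y a p q r s : V) : Prop := ∃ p' q' r' s', T.C4 p' q' r' s' ∧
  jsw v k y a (p, q) = (p', q') ∧ jsw v k y a (q, r) = (q', r') ∧ jsw v k y a (r, s) = (r', s') ∧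
  jsw v k y a (s, p) = (s', p')

theorem JImg.rot {v k y a p q r s : V} (h : JImg T v k y a p q r s) : JImg T v k y a q r s p := by
  obtain ⟨p', q', r', s', h1, h2, h3, h4, h5⟩ := h
  exact ⟨q', r', s', p', h1.rot, h3, h4, h5, h2⟩

theorem img1 (h : Par T v k y b a) : JImg T v k y a v y b a := by
  have n1 := h.C1.nes
  have n2 := h.C2.nes
  refine ⟨k, y, b, a, h.C2, h.vy, ?_, ?_, h.av⟩
  · apply h.oth <;> simp only [ne_eq, Prod.mk.injEq, not_and] <;> grind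
  · apply h.oth <;> simp only [ne_eq, Prod.mk.injEq, not_and] <;> grind

theorem img2 (h : Par T v k y b a) : JImg T v k y a k y b a := by
  have n1 := h.C1.nes
  have n2 := h.C2.nes
  refine ⟨v, y, b, a, h.C1, h.ky, ?_, ?_, h.ak⟩
  · apply h.oth <;> simp only [ne_eq, Prod.mk.injEq, not_and] <;> grind
  · apply h.oth <;> simp only [ne_eq, Prod.mk.injEq, not_and] <;> grind

/-- the four moved arcs -/
def Mv (v k y a : V) (p : V × V) : Prop := p = (a, v) ∨ p = (a, k) ∨ p = (v, y) ∨ p = (k, y)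

theorem hit (h : Par T v k y b a) {p q r s : V} (hC : T.C4 p q r s) (hm : Mv v k y a (p, q)) :
    JImg T v k y a p q r s := by
  rcases hm with e | e | e | e <;> simp only [Prod.mk.injEq] at e <;> obtain ⟨rfl, rfl⟩ := e
  · obtain ⟨rfl, rfl⟩ := h.F1.2 _ _ hC
    exact h.img1.rot.rot.rot
  · obtain ⟨rfl, rfl⟩ := h.F2.2 _ _ hC
    exact h.img2.rot.rot.rot
  · obtain ⟨rfl, rfl⟩ := h.F1.1 _ _ hC
    exact h.img1
  · obtain ⟨rfl, rfl⟩ := h.F2.1 _ _ hC
    exact h.img2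

theorem oth' (h : Par T v k y b a) {p : V × V} (hm : ¬ Mv v k y a p) : jsw v k y a p = p := by
  unfold Mv at hm
  push Not at hm
  exact h.oth hm.1 hm.2.1 hm.2.2.1 hm.2.2.2

theorem jimg (h : Par T v k y b a) {p q r s : V} (hC : T.C4 p q r s) : JImg T v k y a p q r s := by
  by_cases h1 : Mv v k y a (p, q)
  · exact h.hit hC h1
  by_cases h2 : Mv v k y a (q, r)
  · exact (h.hit hC.rot h2).rot.rot.rot
  by_cases h3 : Mv v k y a (r, s)
  · exact (h.hit hC.rot.rot h3).rot.rot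
  by_cases h4 : Mv v k y a (s, p)
  · exact (h.hit hC.rot.rot.rot h4).rot
  exact ⟨p, q, r, s, hC, h.oth' h1, h.oth' h2, h.oth' h3, h.oth' h4⟩

/-- the swapped map -/
noncomputable def sw (h : Par T v k y b a) (φ : Phi T T') : Phi T T' :=
  φ.pre (jsw v k y a) h.arc (fun p _ => h.inv p) (by
    intro p q r s hC
    obtain ⟨p', q', r', s', h1, h2, h3, h4, h5⟩ := h.jimg hC
    refine ⟨p', q', r', s', h1, ?_⟩
    rw [arcs4, arcs4, Set.image_insert_eq, Set.image_insert_eq, Set.image_insert_eq, Set.image_singleton, h2, h3, h4,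
      h5])

theorem sw_f (h : Par T v k y b a) (φ : Phi T T') (p : V × V) : (h.sw φ).f p = φ.f (jsw v k y a p) := rfl
theorem sw_g (h : Par T v k y b a) (φ : Phi T T') (q : W × W) : (h.sw φ).g q = jsw v k y a (φ.g q) := rfl

theorem sw_pos (h : Par T v k y b a) {φ : Phi T T'} (hP : φ.Pos) : (h.sw φ).Pos := by
  intro p q r s hC
  obtain ⟨p', q', r', s', h1, h2, h3, h4, h5⟩ := h.jimg hC
  unfold Phi.P
  rw [h.sw_f, h.sw_f, h2, h3]
  exact hP _ _ _ _ h1

end Par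

/-- ownership of the labels -/
def Own (ψ : Phi T T') (F : V → W) : Prop := ∀ v y b a a' s y', ¬ T.Ghost v → T.C4 v y b a → Fr T v y b a →
  ψ.f (a, v) = (a', s) → ψ.f (v, y) = (s, y') → s ≠ F v → T'.R a' (F v) ∧ T'.R (F v) y'

theorem own_step {ψ ψ' : Phi T T'} {F : V → W} (hI : ∀ v k, ¬ T.Ghost v → ¬ T.Ghost k → F v = F k → v = k)
    (hO : Own ψ F) {v k y b a : V} (h : Par T v k y b a) (hψ : ∀ p, T.R p.1 p.2 → ψ'.f p = ψ.f (jsw v k y a p))
    (hv : ¬ T.Ghost v) {a' y' s : W} (e1 : ψ.f (a, v) = (a', s)) (e2 : ψ.f (v, y) = (s, y'))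
    (e3 : ψ.f (a, k) = (a', F v)) (e4 : ψ.f (k, y) = (F v, y')) : Own ψ' F := by
  intro v1 y1 b1 a1 a1' s1 y1' g1 hC hF k1 k2 hs
  have case1 : v1 = v → y1 = y → b1 = b → a1 = a → False := by
    rintro rfl rfl rfl rfl
    rw [hψ _ h.C1.1, h.vy, e4] at k2
    simp only [Prod.mk.injEq] at k2
    exact hs k2.1.symm
  have case2 : v1 = k → y1 = y → b1 = b → a1 = a → T'.R a1' (F v1) ∧ T'.R (F v1) y1' := by
    rintro rfl rfl rfl rfl
    have hne : F v ≠ F v1 := fun hh => h.ne (hI _ _ hv g1 hh)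
    have := hO _ _ _ _ _ _ _ g1 h.C2 h.F2 e3 e4 hne
    rw [hψ _ h.C2.1, h.ky, e2] at k2
    rw [hψ _ h.C2.2.2.2, h.ak, e1] at k1
    simp only [Prod.mk.injEq] at k1 k2
    rw [← k1.1, ← k2.2]
    exact this
  by_cases m1 : Par.Mv v k y a (a1, v1)
  · rcases m1 with e | e | e | e <;> simp only [Prod.mk.injEq] at e <;> obtain ⟨rfl, rfl⟩ := e
    · obtain ⟨rfl, rfl⟩ := h.F1.2 _ _ hC.rot.rot.rot
      exact (case1 rfl rfl rfl rfl).elim
    · obtain ⟨rfl, rfl⟩ := h.F2.2 _ _ hC.rot.rot.rot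
      exact case2 rfl rfl rfl rfl
    · obtain ⟨rfl, rfl⟩ := h.F1.1 _ _ hC.rot.rot.rot
      exact (h.ne (hF.1 _ _ h.C2.rot).2.symm).elim
    · obtain ⟨rfl, rfl⟩ := h.F2.1 _ _ hC.rot.rot.rot
      exact (h.ne (hF.1 _ _ h.C1.rot).2).elim
  by_cases m2 : Par.Mv v k y a (v1, y1)
  · rcases m2 with e | e | e | e <;> simp only [Prod.mk.injEq] at e <;> obtain ⟨rfl, rfl⟩ := e
    · obtain ⟨rfl, rfl⟩ := h.F1.2 _ _ hC
      exact (h.ne (hF.2 _ _ h.C2.rot.rot).1.symm).elim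
    · obtain ⟨rfl, rfl⟩ := h.F2.2 _ _ hC
      exact (h.ne (hF.2 _ _ h.C1.rot.rot).1).elim
    · obtain ⟨rfl, rfl⟩ := h.F1.1 _ _ hC
      exact (case1 rfl rfl rfl rfl).elim
    · obtain ⟨rfl, rfl⟩ := h.F2.1 _ _ hC
      exact case2 rfl rfl rfl rfl
  rw [hψ _ hC.2.2.2, h.oth' m1] at k1
  rw [hψ _ hC.1, h.oth' m2] at k2
  exact hO _ _ _ _ _ _ _ g1 hC hF k1 k2 hs

/-- the invariant of the swapping process -/
structure JInv (φ ψ : Phi T T') : Prop where
  pos : ψ.Pos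
  big : ∀ x y, T.Big x y → ψ.f (x, y) = φ.f (x, y)
  own : Own ψ (fS φ)
  own' : Own ψ.symm (fS φ.symm)

theorem Tour.Big.arc {x y : V} (h : T.Big x y) : T.R x y := by
  obtain ⟨p, q, p', q', h1, h2, h3⟩ := h
  exact h1.1

namespace JInv

variable {φ ψ : Phi T T'}

theorem init (hP : φ.Pos) (hM : NoM3 φ) : JInv φ φ :=
  ⟨hP, fun _ _ _ => rfl, fun _ _ _ _ _ _ _ h1 h2 h3 h4 h5 h6 => Pool.Agent.Helper98.FC.own hP hM h2 h1 h3 h4 h5 h6,
    fun _ _ _ _ _ _ _ h1 h2 h3 h4 h5 h6 => Pool.Agent.Helper98.FC.own hP.symm hM.symm h2 h1 h3 h4 h5 h6⟩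

theorem symm (hP : φ.Pos) (h : JInv φ ψ) : JInv φ.symm ψ.symm := by
  refine ⟨h.pos.symm, ?_, h.own', h.own⟩
  intro x y hb
  have h1 := φ.symm.big_img hP.symm hb
  have h2 := h.big _ _ h1
  have h3 := ψ.gf _ h1.arc
  have h4 := φ.fg (x, y) hb.arc
  simp only [Phi.symm_f] at *
  rw [h2] at h3
  have e : ((φ.g (x, y)).1, (φ.g (x, y)).2) = φ.g (x, y) := rfl
  rw [e, h4] at h3
  exact h3

theorem lab (hP : φ.Pos) (hM : NoM3 φ) (h : JInv φ ψ) {v p c d : V} (hC : T.C4 v p c d) (hF : ¬ Fr T v p c d) :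
    (ψ.f (v, p)).1 = fS φ v := by
  have e := fS_eq hP hM hC hF
  rw [fr_iff hC] at hF
  by_cases h1 : T.Big v p
  · rw [h.big _ _ h1]; exact e
  · have h2 : T.Big d v := by tauto
    rw [← h.pos.lab hC, h.big _ _ h2, hP.lab hC]
    exact e

end JInv

/-- the circuits with a wrong label -/
def dfs (φ ψ : Phi T T') : Set (V × V × V × V) :=
  {t | ¬ T.Ghost t.1 ∧ T.C4 t.1 t.2.1 t.2.2.1 t.2.2.2 ∧ (ψ.f (t.1, t.2.1)).1 ≠ fS φ t.1}

theorem fS_inj {φ : Phi T T'} (hP : φ.Pos) (hM : NoM3 φ) (v k : V) (hv : ¬ T.Ghost v) (hk : ¬ T.Ghost k)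
    (h : fS φ v = fS φ k) : v = k := by
  rw [← (fS_ng hP hM hv).2, ← (fS_ng hP hM hk).2, h]

theorem jstep {φ ψ : Phi T T'} (hP : φ.Pos) (hM : NoM3 φ) (h : JInv φ ψ) {v y b a : V} (hv : ¬ T.Ghost v)
    (hC : T.C4 v y b a) (hl : (ψ.f (v, y)).1 ≠ fS φ v) : ∃ ψ', JInv φ ψ' ∧ dfs φ ψ' ⊂ dfs φ ψ := by
  have hF : Fr T v y b a := by
    by_contra hF
    exact hl (h.lab hP hM hC hF)
  obtain ⟨s, y', b', a', k0, k1, k2, k3, k4⟩ := h.pos.img hC
  rw [k1] at hl
  simp only at hl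
  obtain ⟨o1, o2⟩ := h.own _ _ _ _ _ _ _ hv hC hF k4 k1 hl
  obtain ⟨g2, r2⟩ := ψ.gof hC.2.1 k2
  obtain ⟨a2, k, l0, l1, l2, l3⟩ := h.pos.symm.img' (a := y') (b := b') (c := a') (d := fS φ v)
    ⟨k0.2.1, k0.2.2.1, o1, o2⟩ (by simp only [Phi.symm_f]; exact g2)
  simp only [Phi.symm_f] at l1 l2 l3
  obtain ⟨g3, r3⟩ := ψ.gof hC.2.2.1 k3
  rw [g3] at l1
  have ea : a2 = a := by grind
  subst ea
  have hCk : T.C4 k y b a2 := l0.rot.rot.rot
  have e3 : ψ.f (a2, k) = (a', fS φ v) := by rw [← l2]; exact ψ.fg _ o1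
  have e4 : ψ.f (k, y) = (fS φ v, y') := by rw [← l3]; exact ψ.fg _ o2
  have hvk : v ≠ k := by
    rintro rfl
    rw [e4] at k1
    grind
  have hFk : Fr T k y b a2 := by
    by_contra hn
    have e := h.lab hP hM hCk hn
    rw [e4] at e
    exact hvk (fS_inj hP hM _ _ hv (not_ghost_iff.2 ⟨_, _, _, hCk, hn⟩) e)
  have hpar : Par T v k y b a2 := ⟨hC, hCk, hF, hFk, hvk⟩
  have hv' := fS_ng hP hM hv
  -- the other side
  have hC1' : T'.C4 (fS φ v) y' b' a' := ⟨o2, k0.2.1, k0.2.2.1, o1⟩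
  have hpar' : Par T' (fS φ v) s y' b' a' :=
    ⟨hC1', k0, (fr_img h.pos hCk hC1' e4 e3).1 hFk, (fr_img h.pos hC k0 k1 k4).1 hF, Ne.symm hl⟩
  obtain ⟨g1, r1⟩ := ψ.gof hC.1 k1
  obtain ⟨g4, r4⟩ := ψ.gof hC.2.2.2 k4
  have hnew : JInv φ (hpar.sw ψ) := by
    refine ⟨hpar.sw_pos h.pos, ?_, ?_, ?_⟩
    · intro x z hb
      rw [hpar.sw_f, hpar.oth' ?_, h.big _ _ hb]
      rintro (e | e | e | e) <;> simp only [Prod.mk.injEq] at e <;> obtain ⟨rfl, rfl⟩ := e
      · exact not_big_of_U hF.2 hb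
      · exact not_big_of_U hFk.2 hb
      · exact not_big_of_U hF.1 hb
      · exact not_big_of_U hFk.1 hb
    · exact own_step (fS_inj hP hM) h.own hpar (fun p _ => hpar.sw_f ψ p) hv k4 k1 e3 e4
    · refine own_step (F := fS φ.symm) (ψ := ψ.symm) (v := fS φ v) (k := s) (y := y') (b := b') (a := a')
        (a' := a2) (y' := y) (s := k) (fS_inj hP.symm hM.symm) h.own' hpar' ?_ hv'.1 l2 l3 ?_ ?_
      · intro q hq
        simp only [Phi.symm_f]
        rw [hpar.sw_g]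
        by_cases h1 : q = (a', fS φ v)
        · subst h1; rw [hpar'.av, l2, g4, hpar.ak]
        by_cases h2 : q = (a', s)
        · subst h2; rw [hpar'.ak, l2, g4, hpar.av]
        by_cases h3 : q = (fS φ v, y')
        · subst h3; rw [hpar'.vy, l3, g1, hpar.ky]
        by_cases h4 : q = (s, y')
        · subst h4; rw [hpar'.ky, l3, g1, hpar.vy]
        rw [hpar'.oth h1 h2 h3 h4]
        have e0 := ψ.fg q hq
        apply hpar.oth
        · intro hh; rw [hh, k4] at e0; exact h2 e0.symm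
        · intro hh; rw [hh, e3] at e0; exact h1 e0.symm
        · intro hh; rw [hh, k1] at e0; exact h4 e0.symm
        · intro hh; rw [hh, e4] at e0; exact h3 e0.symm
      · simp only [Phi.symm_f]
        rw [hv'.2]; exact g4
      · simp only [Phi.symm_f]
        rw [hv'.2]; exact g1
  refine ⟨hpar.sw ψ, hnew, ?_, ?_⟩
  · rintro ⟨v1, y1, b1, a1⟩ ⟨h1, h2, h3⟩
    simp only at h1 h2 h3
    refine ⟨h1, h2, ?_⟩
    simp only
    rw [hpar.sw_f] at h3
    by_cases m : Par.Mv v k y a2 (v1, y1)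
    · rcases m with e | e | e | e <;> simp only [Prod.mk.injEq] at e <;> obtain ⟨rfl, rfl⟩ := e
      · rw [hpar.av, e3] at h3
        rw [k4]; exact h3
      · rw [hpar.ak, k4] at h3
        rw [e3]; exact h3
      · rw [hpar.vy, e4] at h3
        exact (h3 rfl).elim
      · rw [e4]
        exact fun hh => hvk (fS_inj hP hM _ _ hv h1 hh)
    · rw [hpar.oth' m] at h3
      exact h3
  · intro hsub
    have hm : (v, y, b, a2) ∈ dfs φ ψ := ⟨hv, hC, by simp only; rw [k1]; exact hl⟩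
    have := (hsub hm).2.2
    simp only at this
    rw [hpar.sw_f, hpar.vy, e4] at this
    exact this rfl

/-- **Coherent data exist.** -/
theorem exists_coh [Finite V] {φ : Phi T T'} (hP : φ.Pos) (hM : NoM3 φ) :
    ∃ (ψ : Phi T T') (F : V → W) (G : W → V), CohData ψ F G := by
  have H : ∀ n, ∀ ψ : Phi T T', JInv φ ψ → (dfs φ ψ).ncard = n → ∃ ψ' : Phi T T', JInv φ ψ' ∧ dfs φ ψ' = ∅ := by
    intro n
    induction n using Nat.strong_induction_on with
    | _ n ih =>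
      intro ψ hψ hn
      by_cases hD : dfs φ ψ = ∅
      · exact ⟨ψ, hψ, hD⟩
      · obtain ⟨⟨v, y, b, a⟩, h1, h2, h3⟩ := Set.nonempty_iff_ne_empty.2 hD
        obtain ⟨ψ', k1, k2⟩ := jstep hP hM hψ h1 h2 h3
        exact ih _ (hn ▸ Set.ncard_lt_ncard k2 (Set.toFinite _)) ψ' k1 rfl
  obtain ⟨ψ, hψ, hD⟩ := H _ φ (JInv.init hP hM) rfl
  have coh : ∀ v p q r, ¬ T.Ghost v → T.C4 v p q r → (ψ.f (v, p)).1 = fS φ v := by
    intro v p q r hv hC
    by_contra hne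
    have : (v, p, q, r) ∈ dfs φ ψ := ⟨hv, hC, hne⟩
    rw [hD] at this
    exact this
  refine ⟨ψ, fS φ, fS φ.symm, hψ.pos, fun v hv => (fS_ng hP hM hv).1, fun w hw => (fS_ng hP.symm hM.symm hw).1,
    fun v hv => (fS_ng hP hM hv).2, fun w hw => (fS_ng hP.symm hM.symm hw).2, coh, ?_⟩
  intro w p q r hw hC
  by_cases hF : Fr T' w p q r
  · obtain ⟨u, p', c, d, k0, k1, k2, k3, k4⟩ := hψ.pos.symm.img hC
    simp only [Phi.symm_f] at k1 k2 k3 k4
    rw [k1]
    simp only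
    by_contra hne
    obtain ⟨o1, o2⟩ := hψ.own' _ _ _ _ _ _ _ hw hC hF k4 k1 hne
    have hC2 : T.C4 (fS φ.symm w) p' c d := ⟨o2, k0.2.1, k0.2.2.1, o1⟩
    have hG := (fS_ng hP.symm hM.symm hw)
    have e1 := coh _ _ _ _ hG.1 hC2
    have e2 : fS φ (fS φ.symm w) = w := hG.2
    rw [e2] at e1
    obtain ⟨w1, p1, q1, r1, l0, l1, l2, l3, l4⟩ := hψ.pos.img hC2
    have e3 : ψ.f (p', c) = (p, q) := by rw [← k2]; exact ψ.fg _ hC.2.1
    rw [e3] at l2
    rw [l1] at e1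
    simp only [Prod.mk.injEq] at l2 e1
    obtain ⟨rfl, rfl⟩ := l2
    subst e1
    have e4 : ψ.f (u, p') = (w1, p) := by rw [← k1]; exact ψ.fg _ hC.1
    have := ψ.inj (p := (u, p')) (q := (fS φ.symm w1, p')) k0.1 hC2.1 (by rw [e4, l1])
    simp only [Prod.mk.injEq] at this
    exact hne this.1
  · have := (hψ.symm hP).lab hP.symm hM.symm hC hF
    exact this

end Pool.Agent.Helper98.FC
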