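import Pool.Agent.Helper98.FC.Phi

/-!
# Twisted circuits: definition, symmetries, tightness
-/

namespace Pool.Agent.Helper98.FC

universe u v

variable {V : Type u} {W : Type v} {T : Tour V} {T' : Tour W}

/-- `a b c d` is a circuit whose image is the circuit `a' b' c' d'`, with the images of `(c,d)` and `(d,a)` exchanged. -/
structure Tw (φ : Phi T T') (a b c d : V) (a' b' c' d' : W) : Prop where
  C : T.C4 a b c d
  C' : T'.C4 a' b' c' d'
  ab : φ.f (a, b) = (a', b')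
  bc : φ.f (b, c) = (b', c')
  da : φ.f (d, a) = (c', d')
  cd : φ.f (c, d) = (d', a')

namespace Tw

variable {φ : Phi T T'} {a b c d : V} {a' b' c' d' : W}

theorem gab (h : Tw φ a b c d a' b' c' d') : φ.g (a', b') = (a, b) := by
  rw [← h.ab]; exact φ.gf (a, b) h.C.1
theorem gbc (h : Tw φ a b c d a' b' c' d') : φ.g (b', c') = (b, c) := by
  rw [← h.bc]; exact φ.gf (b, c) h.C.2.1
theorem gcd' (h : Tw φ a b c d a' b' c' d') : φ.g (c', d') = (d, a) := by
  rw [← h.da]; exact φ.gf (d, a) h.C.2.2.2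
theorem gda (h : Tw φ a b c d a' b' c' d') : φ.g (d', a') = (c, d) := by
  rw [← h.cd]; exact φ.gf (c, d) h.C.2.2.1

/-- the roles of `T` and `T'` exchanged -/
theorem symm (h : Tw φ a b c d a' b' c' d') : Tw φ.symm a' b' c' d' a b c d :=
  ⟨h.C', h.C, h.gab, h.gbc, h.gda, h.gcd'⟩

/-- rotation by two, converse on the right -/
theorem rot (h : Tw φ a b c d a' b' c' d') : Tw φ.convR c d a b a' d' c' b' := by
  refine ⟨h.C.rot.rot, (Tour.conv_C4 _ _ _ _ _).2 ?_, ?_, ?_, ?_, ?_⟩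
  · exact h.C'.rot
  · simp [h.cd]
  · simp [h.da]
  · simp [h.bc]
  · simp [h.ab]

/-- converse on both sides -/
theorem cv (h : Tw φ a b c d a' b' c' d') : Tw φ.conv c b a d c' b' a' d' := by
  refine ⟨(Tour.conv_C4 _ _ _ _ _).2 h.C.rot.rot.rot, (Tour.conv_C4 _ _ _ _ _).2 h.C'.rot.rot.rot, ?_, ?_, ?_, ?_⟩
  · simp [h.bc]
  · simp [h.ab]
  · simp [h.cd]
  · simp [h.da]

/-- tightness: `c` is the only vertex with `b → z → d` -/
theorem tight (h : Tw φ a b c d a' b' c' d') {z : V} (h1 : T.R b z) (h2 : T.R z d) : z = c := by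
  have hC : T.C4 b z d a := ⟨h1, h2, h.C.2.2.2, h.C.1⟩
  have h3 : T.Co3 (a, b) (d, a) (b, z) := ⟨b, z, d, a, hC, by simp [arcs4], by simp [arcs4], by simp [arcs4]⟩
  have h4 := φ.co3 h3
  rw [h.ab, h.da] at h4
  have e := φ.gf (b, z) h1
  obtain ⟨z', w', h5, h6, h7⟩ := Tour.co3_iff.1 h4
  have := h5.ne13; have := h5.ne24; have := T'.ne h5.1; have := T'.ne h5.2.1; have := T'.ne h5.2.2.1; have := T'.ne h5.2.2.2
  have := h.C'.ne13; have := h.C'.ne24; have := T'.ne h.C'.1; have := T'.ne h.C'.2.1; have := T'.ne h.C'.2.2.1; have := T'.ne h.C'.2.2.2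
  have := h.gab; have := h.gbc; have := h.gcd'; have := h.gda
  have := h.C.ne13; have := h.C.ne24; have := T.ne h.C.1; have := T.ne h.C.2.1; have := T.ne h.C.2.2.1; have := T.ne h.C.2.2.2
  simp only [arcs4, Set.mem_insert_iff, Set.mem_singleton_iff, Prod.mk.injEq] at h6 h7
  generalize hq : φ.f (b, z) = q at *
  obtain ⟨q1, q2⟩ := q
  simp only [Prod.mk.injEq] at h7
  have := T.ne h2
  grind

end Tw

end Pool.Agent.Helper98.FC
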