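import Pool.Agent.Helper98.FC.ClaimR

/-!
# Untwisting: there is an untwisted map
-/

namespace Pool.Agent.Helper98.FC

universe u v

variable {V : Type u} {W : Type v} {T : Tour V} {T' : Tour W}

theorem exists_tw {φ : Phi T T'} {a b c d : V} (hC : T.C4 a b c d) (hn : ¬ φ.Cns (a, b) (b, c)) :
    ∃ w x y z, Tw φ b c d a w x y z ∨ Tw φ d a b c w x y z := by
  obtain ⟨z, w, h1, h2, h3⟩ := φ.img1 (x := (φ.f (a, b)).1) (y := (φ.f (a, b)).2) hC rfl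
  have m1 := h2 (b, c) (by simp [arcs4])
  have m2 := h2 (c, d) (by simp [arcs4])
  have m3 := h2 (d, a) (by simp [arcs4])
  have g1 := φ.gf (a, b) hC.1
  have g2 := φ.gf (b, c) hC.2.1
  have g3 := φ.gf (c, d) hC.2.2.1
  have g4 := φ.gf (d, a) hC.2.2.2
  have n := hC.nes
  have n' := h1.nes
  clear h2 h3
  unfold Phi.Cns at hn
  have key : (φ.f (b, c) = (z, w)) ∧ ((φ.f (c, d) = (w, (φ.f (a, b)).1) ∧ φ.f (d, a) = ((φ.f (a, b)).2, z)) ∨
      (φ.f (d, a) = (w, (φ.f (a, b)).1) ∧ φ.f (c, d) = ((φ.f (a, b)).2, z))) := by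
    generalize φ.f (a, b) = o at *
    generalize φ.f (b, c) = p at *
    generalize φ.f (c, d) = q at *
    generalize φ.f (d, a) = r at *
    obtain ⟨o1, o2⟩ := o
    obtain ⟨p1, p2⟩ := p
    obtain ⟨q1, q2⟩ := q
    obtain ⟨r1, r2⟩ := r
    simp only [mem_arcs4, Prod.mk.injEq] at *
    have m1' : p1 = z ∧ p2 = w := by grind
    obtain ⟨rfl, rfl⟩ := m1'
    clear m1
    grind (splits := 30)
  obtain ⟨k1, ⟨k2, k3⟩ | ⟨k2, k3⟩⟩ := key
  · -- ab → xy, da → yz, bc → zw, cd → wx; circuit b c d a: bc→zw, cd→wx, ab→xy, da→yz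
    exact ⟨z, w, (φ.f (a, b)).1, (φ.f (a, b)).2, Or.inl ⟨hC.rot, h1.rot.rot, k1, k2, rfl, k3⟩⟩
  · -- ab→xy, cd→yz, bc→zw, da→wx: d a b c: da → wx, ab → xy, cd → yz, bc → zw
    exact ⟨w, (φ.f (a, b)).1, (φ.f (a, b)).2, z, Or.inr ⟨hC.rot.rot.rot, h1.rot.rot.rot, k2, rfl, k3, k1⟩⟩

namespace Tw

variable {φ : Phi T T'} {a b c d : V} {a' b' c' d' : W}

/-- the image of a row `x` -/
theorem row (h : Tw φ a b c d a' b' c' d') {x : V} (h1 : T.R a x) (h2 : T.R x c) :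
    ∃ x', ((φ.f (a, x) = (a', x') ∧ φ.f (x, c) = (x', c')) ∨ (φ.f (a, x) = (x', c') ∧ φ.f (x, c) = (a', x'))) := by
  obtain ⟨x', -, h3⟩ := h.rot.col h1 h2
  simp only [Phi.convR_f, Prod.swap_eq_iff_eq_swap, Prod.swap_prod_mk] at h3
  exact ⟨x', h3.symm⟩

/-- all rigid rows have the same flip -/
theorem rows (h : Tw φ a b c d a' b' c' d') {x y : V} (hx1 : T.R a x) (hx2 : T.R x c) (hy1 : T.R a y) (hy2 : T.R y c)
    {x' y' : W} (e1 : φ.f (a, x) = (a', x')) (e2 : φ.f (x, c) = (x', c')) (e3 : φ.f (a, y) = (y', c'))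
    (e4 : φ.f (y, c) = (a', y')) (r1 : T.Rig a x c) (r2 : T.Rig a y c) : False := by
  -- the circuit `a x c d`
  have hC : T.C4 a x c d := ⟨hx1, hx2, h.C.2.2.1, h.C.2.2.2⟩
  have hC' : T'.C4 a' x' c' d' := by
    have f1 := φ.fa (a, x) hx1
    have f2 := φ.fa (x, c) hx2
    rw [e1] at f1
    rw [e2] at f2
    exact ⟨f1, f2, h.C'.2.2.1, h.C'.2.2.2⟩
  have h' : Tw φ a x c d a' x' c' d' := ⟨hC, hC', e1, e2, h.da, h.cd⟩
  have hd : ¬ T.Rig c d a := fun hh => h'.claimT r1 hh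
  exact h'.claimR hd hy1 hy2 e3 e4 r2

/-- all rigid columns have the same flip -/
theorem cols (h : Tw φ a b c d a' b' c' d') {x y : V} (hx1 : T.R c x) (hx2 : T.R x a) (hy1 : T.R c y) (hy2 : T.R y a)
    {x' y' : W} (e1 : φ.f (c, x) = (c', x')) (e2 : φ.f (x, a) = (x', a')) (e3 : φ.f (c, y) = (y', a'))
    (e4 : φ.f (y, a) = (c', y')) (r1 : T.Rig c x a) (r2 : T.Rig c y a) : False := by
  refine h.rot.rows (x := y) (y := x) hy1 hy2 hx1 hx2 ?_ ?_ ?_ ?_ r2 r1 (x' := y') (y' := x')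
  · simp [e3]
  · simp [e4]
  · simp [e1]
  · simp [e2]

/-- a rigid row and a rigid column have the same flip (first form) -/
theorem rowcol1 (_h : Tw φ a b c d a' b' c' d') {x y : V} (hx1 : T.R a x) (hx2 : T.R x c) (hy1 : T.R c y) (hy2 : T.R y a)
    {x' y' : W} (e1 : φ.f (a, x) = (a', x')) (e2 : φ.f (x, c) = (x', c')) (e3 : φ.f (c, y) = (y', a'))
    (e4 : φ.f (y, a) = (c', y')) (r1 : T.Rig a x c) (r2 : T.Rig c y a) : False := by
  have f1 := φ.fa (a, x) hx1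
  have f2 := φ.fa (x, c) hx2
  have f3 := φ.fa (c, y) hy1
  have f4 := φ.fa (y, a) hy2
  rw [e1] at f1
  rw [e2] at f2
  rw [e3] at f3
  rw [e4] at f4
  have h' : Tw φ a x c y a' x' c' y' := ⟨⟨hx1, hx2, hy1, hy2⟩, ⟨f1, f2, f4, f3⟩, e1, e2, e4, e3⟩
  exact h'.claimT r1 r2

/-- a rigid row and a rigid column have the same flip (second form) -/
theorem rowcol2 (_h : Tw φ a b c d a' b' c' d') {x y : V} (hx1 : T.R a x) (hx2 : T.R x c) (hy1 : T.R c y) (hy2 : T.R y a)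
    {x' y' : W} (e1 : φ.f (a, x) = (x', c')) (e2 : φ.f (x, c) = (a', x')) (e3 : φ.f (c, y) = (c', y'))
    (e4 : φ.f (y, a) = (y', a')) (r1 : T.Rig a x c) (r2 : T.Rig c y a) : False := by
  have f1 := φ.fa (a, x) hx1
  have f2 := φ.fa (x, c) hx2
  have f3 := φ.fa (c, y) hy1
  have f4 := φ.fa (y, a) hy2
  rw [e1] at f1
  rw [e2] at f2
  rw [e3] at f3
  rw [e4] at f4
  have h' : Tw φ.convR a x c y c' x' a' y' := by
    refine ⟨⟨hx1, hx2, hy1, hy2⟩, (Tour.conv_C4 _ _ _ _ _).2 ?_, ?_, ?_, ?_, ?_⟩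
    · exact ⟨f4, f2, f1, f3⟩
    · simp [e1]
    · simp [e2]
    · simp [e4]
    · simp [e3]
  exact h'.claimT r1 r2

end Tw

end Pool.Agent.Helper98.FC
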