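import Pool.Agent.Helper98.FC.Untwist

/-!
# Untwisting: swapping loose rows and columns of a grid; existence of an untwisted map
-/

namespace Pool.Agent.Helper98.FC

universe u v

variable {V : Type u} {W : Type v} {T : Tour V} {T' : Tour W}

open Classical in
/-- swap the rows in `X` and the columns in `Y` of the grid `(a,c)` -/
noncomputable def sw (a c : V) (X Y : V → Prop) (p : V × V) : V × V :=
  if p.1 = a ∧ X p.2 then (p.2, c) else if p.2 = c ∧ X p.1 then (a, p.1) else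
  if p.1 = c ∧ Y p.2 then (p.2, a) else if p.2 = a ∧ Y p.1 then (c, p.1) else p

/-- the hypotheses on the swapped rows and columns -/
structure SwH (T : Tour V) (a c : V) (X Y : V → Prop) : Prop where
  ac : a ≠ c
  X1 : ∀ x, X x → T.R a x
  X2 : ∀ x, X x → T.R x c
  X3 : ∀ x, X x → ¬ T.Rig a x c
  Y1 : ∀ y, Y y → T.R c y
  Y2 : ∀ y, Y y → T.R y a
  Y3 : ∀ y, Y y → ¬ T.Rig c y a

namespace SwH

variable {a c : V} {X Y : V → Prop}

theorem Xa (h : SwH T a c X Y) : ¬ X a := fun hh => T.irr _ (h.X1 _ hh)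
theorem Xc (h : SwH T a c X Y) : ¬ X c := fun hh => T.irr _ (h.X2 _ hh)
theorem Ya (h : SwH T a c X Y) : ¬ Y a := fun hh => T.irr _ (h.Y2 _ hh)
theorem Yc (h : SwH T a c X Y) : ¬ Y c := fun hh => T.irr _ (h.Y1 _ hh)

theorem s1 (_h : SwH T a c X Y) {x : V} (hx : X x) : sw a c X Y (a, x) = (x, c) := by
  simp [sw, hx]

theorem s2 (h : SwH T a c X Y) {x : V} (hx : X x) : sw a c X Y (x, c) = (a, x) := by
  have := h.Xc
  simp [sw, hx, this]

theorem s3 (h : SwH T a c X Y) {y : V} (hy : Y y) : sw a c X Y (c, y) = (y, a) := by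
  have := h.Xc
  have := h.ac.symm
  simp [sw, *]

theorem s4 (h : SwH T a c X Y) {y : V} (hy : Y y) : sw a c X Y (y, a) = (c, y) := by
  have := h.Xa
  have := h.Ya
  have := h.ac
  simp [sw, *]

theorem n1 (h : SwH T a c X Y) {x : V} (hx : ¬ X x) (h1 : T.R a x) : sw a c X Y (a, x) = (a, x) := by
  have := h.Xa
  have := h.Xc
  have := h.Ya
  have := h.ac
  have := (T.ne h1).symm
  simp [sw, *]

theorem n2 (h : SwH T a c X Y) {x : V} (hx : ¬ X x) (h1 : T.R x c) : sw a c X Y (x, c) = (x, c) := by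
  have := h.Xa
  have := h.Xc
  have := h.Ya
  have := h.ac.symm
  have := (T.ne h1)
  simp [sw, *]

theorem n3 (h : SwH T a c X Y) {x : V} (hx : ¬ Y x) (h1 : T.R c x) : sw a c X Y (c, x) = (c, x) := by
  have := h.Xa
  have := h.Xc
  have := h.Yc
  have := h.ac.symm
  have := (T.ne h1).symm
  simp [sw, *]

theorem n4 (h : SwH T a c X Y) {x : V} (hx : ¬ Y x) (h1 : T.R x a) : sw a c X Y (x, a) = (x, a) := by
  have := h.Xa
  have := h.Xc
  have := h.Ya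
  have := h.ac
  have := (T.ne h1)
  simp [sw, *]

/-- a moved pair -/
theorem moved (_h : SwH T a c X Y) {p : V × V} (hp : sw a c X Y p ≠ p) :
    (∃ x, X x ∧ p = (a, x)) ∨ (∃ x, X x ∧ p = (x, c)) ∨ (∃ y, Y y ∧ p = (c, y)) ∨ (∃ y, Y y ∧ p = (y, a)) := by
  obtain ⟨p1, p2⟩ := p
  unfold sw at hp
  simp only at hp
  split_ifs at hp with h1 h2 h3 h4
  · obtain ⟨rfl, k⟩ := h1
    exact Or.inl ⟨p2, k, rfl⟩
  · obtain ⟨rfl, k⟩ := h2
    exact Or.inr (Or.inl ⟨p1, k, rfl⟩)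
  · obtain ⟨rfl, k⟩ := h3
    exact Or.inr (Or.inr (Or.inl ⟨p2, k, rfl⟩))
  · obtain ⟨rfl, k⟩ := h4
    exact Or.inr (Or.inr (Or.inr ⟨p1, k, rfl⟩))
  · exact absurd rfl hp

theorem arc (h : SwH T a c X Y) (p : V × V) (hp : T.R p.1 p.2) : T.R (sw a c X Y p).1 (sw a c X Y p).2 := by
  by_cases hm : sw a c X Y p = p
  · rw [hm]; exact hp
  rcases h.moved hm with ⟨x, hx, rfl⟩ | ⟨x, hx, rfl⟩ | ⟨x, hx, rfl⟩ | ⟨x, hx, rfl⟩
  · rw [h.s1 hx]; exact h.X2 _ hx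
  · rw [h.s2 hx]; exact h.X1 _ hx
  · rw [h.s3 hx]; exact h.Y2 _ hx
  · rw [h.s4 hx]; exact h.Y1 _ hx

theorem inv (h : SwH T a c X Y) (p : V × V) : sw a c X Y (sw a c X Y p) = p := by
  by_cases hm : sw a c X Y p = p
  · rw [hm]; exact hm
  rcases h.moved hm with ⟨x, hx, rfl⟩ | ⟨x, hx, rfl⟩ | ⟨x, hx, rfl⟩ | ⟨x, hx, rfl⟩
  · rw [h.s1 hx, h.s2 hx]
  · rw [h.s2 hx, h.s1 hx]
  · rw [h.s3 hx, h.s4 hx]
  · rw [h.s4 hx, h.s3 hx]

/-- circuits with a moved arc are grid circuits -/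
theorem grid (h : SwH T a c X Y) {p q r s : V} (hC : T.C4 p q r s) {e : V × V} (he : e ∈ arcs4 p q r s)
    (hm : sw a c X Y e ≠ e) : ∃ x y, T.C4 a x c y ∧ arcs4 a x c y = arcs4 p q r s := by
  rcases h.moved hm with ⟨x, hx, rfl⟩ | ⟨x, hx, rfl⟩ | ⟨x, hx, rfl⟩ | ⟨x, hx, rfl⟩
  · obtain ⟨z, w, h1, h2⟩ := Tour.exists_of_mem hC he
    by_cases hz : z = c
    · subst hz
      exact ⟨x, w, h1, h2⟩
    · exact (h.X3 x hx (Or.inl ⟨z, w, h1, hz⟩)).elim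
  · obtain ⟨z, w, h1, h2⟩ := Tour.exists_of_mem hC he
    by_cases hz : w = a
    · subst hz
      refine ⟨x, z, h1.rot.rot.rot, ?_⟩
      rw [← h2]
      ext ⟨u, v⟩
      simp only [mem_arcs4]
      tauto
    · exact (h.X3 x hx (Or.inr ⟨z, w, h1, hz⟩)).elim
  · obtain ⟨z, w, h1, h2⟩ := Tour.exists_of_mem hC he
    by_cases hz : z = a
    · subst hz
      refine ⟨w, x, h1.rot.rot, ?_⟩
      rw [← h2]
      ext ⟨u, v⟩
      simp only [mem_arcs4]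
      tauto
    · exact (h.Y3 x hx (Or.inl ⟨z, w, h1, hz⟩)).elim
  · obtain ⟨z, w, h1, h2⟩ := Tour.exists_of_mem hC he
    by_cases hz : w = c
    · subst hz
      refine ⟨z, x, h1.rot, ?_⟩
      rw [← h2]
      ext ⟨u, v⟩
      simp only [mem_arcs4]
      tauto
    · exact (h.Y3 x hx (Or.inr ⟨z, w, h1, hz⟩)).elim

/-- the swap permutes the arcs of every circuit -/
theorem mem (h : SwH T a c X Y) {p q r s : V} (hC : T.C4 p q r s) {e : V × V} (he : e ∈ arcs4 p q r s) :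
    sw a c X Y e ∈ arcs4 p q r s := by
  by_cases hm : sw a c X Y e = e
  · rw [hm]; exact he
  obtain ⟨x, y, h1, h2⟩ := h.grid hC he hm
  rw [← h2] at he ⊢
  obtain ⟨e1, e2⟩ := e
  rw [mem_arcs4] at he
  have n := h1.nes
  by_cases hx : X x <;> by_cases hy : Y y <;> rcases he with ⟨rfl, rfl⟩ | ⟨rfl, rfl⟩ | ⟨rfl, rfl⟩ | ⟨rfl, rfl⟩ <;>
    first
    | (rw [h.s1 hx]; simp [arcs4])
    | (rw [h.s2 hx]; simp [arcs4])
    | (rw [h.s3 hy]; simp [arcs4])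
    | (rw [h.s4 hy]; simp [arcs4])
    | (rw [h.n1 hx h1.1]; simp [arcs4])
    | (rw [h.n2 hx h1.2.1]; simp [arcs4])
    | (rw [h.n3 hy h1.2.2.1]; simp [arcs4])
    | (rw [h.n4 hy h1.2.2.2]; simp [arcs4])

theorem img (h : SwH T a c X Y) {p q r s : V} (hC : T.C4 p q r s) :
    sw a c X Y '' arcs4 p q r s = arcs4 p q r s := by
  ext e
  constructor
  · rintro ⟨e', he', rfl⟩
    exact h.mem hC he'
  · intro he
    exact ⟨sw a c X Y e, h.mem hC he, h.inv e⟩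

end SwH

/-- the swapped map -/
noncomputable def Phi.swap (φ : Phi T T') {a c : V} {X Y : V → Prop} (h : SwH T a c X Y) : Phi T T' :=
  φ.pre (sw a c X Y) h.arc (fun p _ => h.inv p) (fun p q r s hC => ⟨p, q, r, s, hC, h.img hC⟩)

@[simp] theorem Phi.swap_f (φ : Phi T T') {a c : V} {X Y : V → Prop} (h : SwH T a c X Y) (p : V × V) :
    (φ.swap h).f p = φ.f (sw a c X Y p) := rfl

/-- If in the swapped map all rows and columns have the same flip then consecutive arcs of grid circuits have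
consecutive images. -/
def Good (ψ : Phi T T') (a c : V) (a' c' : W) : Prop :=
  ((∀ x, T.R a x → T.R x c → ∃ x', ψ.f (a, x) = (a', x') ∧ ψ.f (x, c) = (x', c')) ∧
    (∀ y, T.R c y → T.R y a → ∃ y', ψ.f (c, y) = (c', y') ∧ ψ.f (y, a) = (y', a'))) ∨
  ((∀ x, T.R a x → T.R x c → ∃ x', ψ.f (a, x) = (x', c') ∧ ψ.f (x, c) = (a', x')) ∧
    (∀ y, T.R c y → T.R y a → ∃ y', ψ.f (c, y) = (y', a') ∧ ψ.f (y, a) = (c', y')))

theorem Good.cns {ψ : Phi T T'} {a c : V} {a' c' : W} (h : Good ψ a c a' c') {x y : V} (hC : T.C4 a x c y)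
    {p q r s : V} (he : arcs4 a x c y = arcs4 p q r s) : ψ.Cns (p, q) (q, r) := by
  have m1 : (p, q) ∈ arcs4 a x c y := by rw [he]; simp [arcs4]
  have m2 : (q, r) ∈ arcs4 a x c y := by rw [he]; simp [arcs4]
  rw [mem_arcs4] at m1 m2
  have n := hC.nes
  have key : ψ.Cns (a, x) (x, c) ∧ ψ.Cns (x, c) (c, y) ∧ ψ.Cns (c, y) (y, a) ∧ ψ.Cns (y, a) (a, x) := by
    unfold Phi.Cns
    rcases h with ⟨h1, h2⟩ | ⟨h1, h2⟩
    · obtain ⟨x', e1, e2⟩ := h1 x hC.1 hC.2.1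
      obtain ⟨y', e3, e4⟩ := h2 y hC.2.2.1 hC.2.2.2
      rw [e1, e2, e3, e4]
      simp
    · obtain ⟨x', e1, e2⟩ := h1 x hC.1 hC.2.1
      obtain ⟨y', e3, e4⟩ := h2 y hC.2.2.1 hC.2.2.2
      rw [e1, e2, e3, e4]
      simp
  rcases m1 with ⟨rfl, rfl⟩ | ⟨rfl, rfl⟩ | ⟨rfl, rfl⟩ | ⟨rfl, rfl⟩ <;>
    rcases m2 with ⟨m3, m4⟩ | ⟨m3, m4⟩ | ⟨m3, m4⟩ | ⟨m3, m4⟩ <;> grind

/-- the decisive step -/
theorem Tw.good {φ : Phi T T'} {a b c d : V} {a' b' c' d' : W} (h : Tw φ a b c d a' b' c' d') :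
    ∃ X Y, ∃ hS : SwH T a c X Y, Good (φ.swap hS) a c a' c' := by
  by_cases hτ : (∃ x x', T.R a x ∧ T.R x c ∧ T.Rig a x c ∧ φ.f (a, x) = (a', x') ∧ φ.f (x, c) = (x', c')) ∨
      (∃ y y', T.R c y ∧ T.R y a ∧ T.Rig c y a ∧ φ.f (c, y) = (c', y') ∧ φ.f (y, a) = (y', a'))
  · -- all rigid rows and columns have flip 0
    have r0 : ∀ x, T.R a x → T.R x c → T.Rig a x c → ¬ ∃ x', φ.f (a, x) = (x', c') ∧ φ.f (x, c) = (a', x') := by
      rintro x h1 h2 h3 ⟨x', e1, e2⟩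
      rcases hτ with ⟨z, z', k1, k2, k3, k4, k5⟩ | ⟨z, z', k1, k2, k3, k4, k5⟩
      · exact h.rows k1 k2 h1 h2 k4 k5 e1 e2 k3 h3
      · exact h.rowcol2 h1 h2 k1 k2 e1 e2 k4 k5 h3 k3
    have c0 : ∀ x, T.R c x → T.R x a → T.Rig c x a → ¬ ∃ x', φ.f (c, x) = (x', a') ∧ φ.f (x, a) = (c', x') := by
      rintro x h1 h2 h3 ⟨x', e1, e2⟩
      rcases hτ with ⟨z, z', k1, k2, k3, k4, k5⟩ | ⟨z, z', k1, k2, k3, k4, k5⟩
      · exact h.rowcol1 k1 k2 h1 h2 k4 k5 e1 e2 k3 h3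
      · exact h.cols k1 k2 h1 h2 k4 k5 e1 e2 k3 h3
    let X : V → Prop := fun x => T.R a x ∧ T.R x c ∧ ∃ x', φ.f (a, x) = (x', c') ∧ φ.f (x, c) = (a', x')
    let Y : V → Prop := fun x => T.R c x ∧ T.R x a ∧ ∃ x', φ.f (c, x) = (x', a') ∧ φ.f (x, a) = (c', x')
    have hS : SwH T a c X Y := by
      refine ⟨h.C.ne13, fun x hx => hx.1, fun x hx => hx.2.1, fun x hx hr => r0 x hx.1 hx.2.1 hr hx.2.2,
        fun x hx => hx.1, fun x hx => hx.2.1, fun x hx hr => c0 x hx.1 hx.2.1 hr hx.2.2⟩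
    refine ⟨X, Y, hS, Or.inl ⟨fun x h1 h2 => ?_, fun y h1 h2 => ?_⟩⟩
    · simp only [Phi.swap_f]
      by_cases hx : X x
      · obtain ⟨x', e1, e2⟩ := hx.2.2
        rw [hS.s1 hx, hS.s2 hx]
        exact ⟨x', e2, e1⟩
      · rw [hS.n1 hx h1, hS.n2 hx h2]
        obtain ⟨x', h3 | h3⟩ := h.row h1 h2
        · exact ⟨x', h3⟩
        · exact absurd ⟨h1, h2, x', h3⟩ hx
    · simp only [Phi.swap_f]
      by_cases hy : Y y
      · obtain ⟨x', e1, e2⟩ := hy.2.2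
        rw [hS.s3 hy, hS.s4 hy]
        exact ⟨x', e2, e1⟩
      · rw [hS.n3 hy h1, hS.n4 hy h2]
        obtain ⟨x', -, h3 | h3⟩ := h.col h1 h2
        · exact ⟨x', h3⟩
        · exact absurd ⟨h1, h2, x', h3⟩ hy
  · push Not at hτ
    obtain ⟨r0, c0⟩ := hτ
    let X : V → Prop := fun x => T.R a x ∧ T.R x c ∧ ∃ x', φ.f (a, x) = (a', x') ∧ φ.f (x, c) = (x', c')
    let Y : V → Prop := fun x => T.R c x ∧ T.R x a ∧ ∃ x', φ.f (c, x) = (c', x') ∧ φ.f (x, a) = (x', a')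
    have hS : SwH T a c X Y := by
      refine ⟨h.C.ne13, fun x hx => hx.1, fun x hx => hx.2.1, ?_, fun x hx => hx.1, fun x hx => hx.2.1, ?_⟩
      · rintro x ⟨k1, k2, x', k3, k4⟩ hr
        exact r0 x x' k1 k2 hr k3 k4
      · rintro x ⟨k1, k2, x', k3, k4⟩ hr
        exact c0 x x' k1 k2 hr k3 k4
    refine ⟨X, Y, hS, Or.inr ⟨fun x h1 h2 => ?_, fun y h1 h2 => ?_⟩⟩
    · simp only [Phi.swap_f]
      by_cases hx : X x
      · obtain ⟨x', e1, e2⟩ := hx.2.2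
        rw [hS.s1 hx, hS.s2 hx]
        exact ⟨x', e2, e1⟩
      · rw [hS.n1 hx h1, hS.n2 hx h2]
        obtain ⟨x', h3 | h3⟩ := h.row h1 h2
        · exact absurd ⟨h1, h2, x', h3⟩ hx
        · exact ⟨x', h3⟩
    · simp only [Phi.swap_f]
      by_cases hy : Y y
      · obtain ⟨x', e1, e2⟩ := hy.2.2
        rw [hS.s3 hy, hS.s4 hy]
        exact ⟨x', e2, e1⟩
      · rw [hS.n3 hy h1, hS.n4 hy h2]
        obtain ⟨x', -, h3 | h3⟩ := h.col h1 h2
        · exact absurd ⟨h1, h2, x', h3⟩ hy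
        · exact ⟨x', h3⟩

/-- the set of twisted corners -/
def twset (φ : Phi T T') : Set (V × V × V × V) :=
  {t | T.C4 t.1 t.2.1 t.2.2.1 t.2.2.2 ∧ ¬ φ.Cns (t.1, t.2.1) (t.2.1, t.2.2.1)}

theorem Tw.dec {φ : Phi T T'} {a b c d : V} {a' b' c' d' : W} (h : Tw φ a b c d a' b' c' d') :
    ∃ ψ : Phi T T', twset ψ ⊂ twset φ := by
  obtain ⟨X, Y, hS, hG⟩ := h.good
  refine ⟨φ.swap hS, ?_, ?_⟩
  · rintro ⟨p, q, r, s⟩ ⟨hC, hn⟩
    simp only at hC hn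
    refine ⟨hC, ?_⟩
    simp only
    have m1 : (p, q) ∈ arcs4 p q r s := by simp [arcs4]
    have m2 : (q, r) ∈ arcs4 p q r s := by simp [arcs4]
    by_cases k1 : sw a c X Y (p, q) = (p, q)
    · by_cases k2 : sw a c X Y (q, r) = (q, r)
      · intro hh
        apply hn
        unfold Phi.Cns at *
        simp only [Phi.swap_f]
        rw [k1, k2]
        exact hh
      · obtain ⟨x, y, h1, h2⟩ := hS.grid hC m2 k2
        exact (hn (hG.cns h1 h2)).elim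
    · obtain ⟨x, y, h1, h2⟩ := hS.grid hC m1 k1
      exact (hn (hG.cns h1 h2)).elim
  · intro hsub
    have hm : (d, a, b, c) ∈ twset φ := by
      refine ⟨h.C.rot.rot.rot, ?_⟩
      simp only [Phi.Cns]
      rw [h.da, h.ab]
      have := h.C'.nes
      simp only
      grind
    have := hsub hm
    refine this.2 ?_
    simp only
    refine hG.cns (x := b) (y := d) h.C (s := c) ?_
    ext ⟨u, v⟩
    simp only [mem_arcs4]
    tauto

/-- **Part A1**: there is an untwisted map. -/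
theorem exists_unt [Finite V] (φ : Phi T T') : ∃ ψ : Phi T T', ψ.Unt := by
  suffices H : ∀ n, ∀ φ : Phi T T', (twset φ).ncard = n → ∃ ψ : Phi T T', ψ.Unt from H _ φ rfl
  intro n
  induction n using Nat.strong_induction_on with
  | _ n ih =>
    intro φ hn
    by_cases hU : φ.Unt
    · exact ⟨φ, hU⟩
    · unfold Phi.Unt at hU
      push Not at hU
      obtain ⟨a, b, c, d, hC, hc⟩ := hU
      obtain ⟨w, x, y, z, h | h⟩ := exists_tw hC hc
      · obtain ⟨ψ, hψ⟩ := h.dec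
        exact ih _ (hn ▸ Set.ncard_lt_ncard hψ (Set.toFinite _)) ψ rfl
      · obtain ⟨ψ, hψ⟩ := h.dec
        exact ih _ (hn ▸ Set.ncard_lt_ncard hψ (Set.toFinite _)) ψ rfl

end Pool.Agent.Helper98.FC
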